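import Pool.Agent.P.MP_e5b57f_nt.GD.Iface

/-! The addition formulas of the Jacobian elliptic functions. -/

namespace Pool.Agent.P.MP_e5b57f_nt.GD

open PowerSeries Filter Topology Finset
open scoped Polynomial

namespace ADDx

theorem quot_const {N Q : ℝ → ℝ} (hQ : ∀ a, Q a ≠ 0)
    (h : ∀ a, ∃ N' Q', HasDerivAt N N' a ∧ HasDerivAt Q Q' a ∧ N' * Q a - N a * Q' = 0) (u : ℝ) :
    N 0 * Q u = N u * Q 0 := by
  have hd : ∀ a, HasDerivAt (fun a => N a / Q a) 0 a := by
    intro a
    obtain ⟨N', Q', h1, h2, h3⟩ := h a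
    have := h1.div h2 (hQ a)
    rwa [h3, zero_div] at this
  have := is_const_of_deriv_eq_zero (fun a => (hd a).differentiableAt) (fun a => (hd a).deriv) 0 u
  exact (div_eq_div_iff (hQ 0) (hQ u)).1 this

end ADDx

open ADDx in
theorem s_ADD : S_ADD := by
  intro l S C D h0 h1 J u v
  have hK : KI l 0 = 0 := by simp [KI]
  have S0 : S 0 = 0 := by simpa [hK] using J.hS 0
  have C0 : C 0 = 1 := by simpa [hK] using J.hC 0
  have D0 : D 0 = 1 := by
    have h := J.sd 0
    have h' := J.pos 0
    rw [S0] at h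
    nlinarith
  have hS : ∀ a, S a ^ 2 ≤ 1 := fun a => by nlinarith [J.sc a, sq_nonneg (C a)]
  set w := u + v with hw
  have hv : v = w - u := by rw [hw]; ring
  have hQ : ∀ a, 1 - l * S a ^ 2 * S (w - a) ^ 2 ≠ 0 := fun a => by
    have : S a ^ 2 * S (w - a) ^ 2 ≤ 1 := mul_le_one₀ (hS a) (sq_nonneg _) (hS _)
    have : l * (S a ^ 2 * S (w - a) ^ 2) ≤ l := mul_le_of_le_one_right h0 this
    nlinarith
  have dw : ∀ a : ℝ, HasDerivAt (fun a => w - a) (-1) a := fun a => by
    simpa using (hasDerivAt_id a).const_sub w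
  have dS' : ∀ a, HasDerivAt (fun a => S (w - a)) (C (w - a) * D (w - a) * -1) a := fun a =>
    (J.dS (w - a)).comp a (dw a)
  have dC' : ∀ a, HasDerivAt (fun a => C (w - a)) (-(S (w - a) * D (w - a)) * -1) a := fun a =>
    (J.dC (w - a)).comp a (dw a)
  have dD' : ∀ a, HasDerivAt (fun a => D (w - a)) (-(l * S (w - a) * C (w - a)) * -1) a := fun a =>
    (J.dD (w - a)).comp a (dw a)
  have dQ := fun a => ((((J.dS a).fun_pow 2).const_mul l).fun_mul ((dS' a).fun_pow 2)).const_sub 1
  have e1 := quot_const (N := fun a => S a * C (w - a) * D (w - a) + S (w - a) * C a * D a) hQ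
    (fun a => ⟨_, _, (((J.dS a).fun_mul (dC' a)).fun_mul (dD' a)).fun_add
      (((dS' a).fun_mul (J.dC a)).fun_mul (J.dD a)), dQ a, by
        have a1 := J.sc a
        have a2 := J.sd a
        have a3 := J.sc (w - a)
        have a4 := J.sd (w - a)
        norm_num
        grind⟩) u
  have e2 := quot_const (N := fun a => C a * C (w - a) - S a * S (w - a) * D a * D (w - a)) hQ
    (fun a => ⟨_, _, ((J.dC a).fun_mul (dC' a)).fun_sub
      ((((J.dS a).fun_mul (dS' a)).fun_mul (J.dD a)).fun_mul (dD' a)), dQ a, by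
        have a1 := J.sc a
        have a2 := J.sd a
        have a3 := J.sc (w - a)
        have a4 := J.sd (w - a)
        norm_num
        grind⟩) u
  have e3 := quot_const (N := fun a => D a * D (w - a) - l * S a * S (w - a) * C a * C (w - a)) hQ
    (fun a => ⟨_, _, ((J.dD a).fun_mul (dD' a)).fun_sub
      (((((J.dS a).const_mul l).fun_mul (dS' a)).fun_mul (J.dC a)).fun_mul (dC' a)), dQ a, by
        have a1 := J.sc a
        have a2 := J.sd a
        have a3 := J.sc (w - a)
        have a4 := J.sd (w - a)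
        norm_num
        grind⟩) u
  simp only [S0, C0, D0, sub_zero, ← hv] at e1 e2 e3
  exact ⟨by linear_combination e1, by linear_combination e2, by linear_combination e3⟩

end Pool.Agent.P.MP_e5b57f_nt.GD
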