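import Pool.Agent.P.MP_e5b57f_nt.GD.Iface

/-! Finitely many algebraic series lie in a finite differential field. -/

namespace Pool.Agent.P.MP_e5b57f_nt.GD

open PowerSeries Filter Topology Finset
open scoped Polynomial

namespace AFLDx

theorem inj : Function.Injective (algebraMap ℚ[X] ℂ⟦X⟧) := by
  intro p q h
  ext n
  have := congrArg (coeff n) h
  simp only [algebraMap_apply', coeff_map, Polynomial.coeff_coe] at this
  exact (algebraMap ℚ ℂ).injective this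

theorem d_alg (p : ℚ[X]) :
    d⁄dX ℂ (algebraMap ℚ[X] ℂ⟦X⟧ p) = algebraMap ℚ[X] ℂ⟦X⟧ (Polynomial.derivative p) := by
  ext n
  simp [algebraMap_apply', coeff_derivative, Polynomial.coeff_derivative]

/-- Membership in the saturation of a subalgebra. -/
def P (E : Subalgebra ℚ[X] ℂ⟦X⟧) (u : ℂ⟦X⟧) : Prop :=
  ∃ T : ℚ[X], T ≠ 0 ∧ algebraMap ℚ[X] ℂ⟦X⟧ T * u ∈ E

variable {E : Subalgebra ℚ[X] ℂ⟦X⟧}

theorem P.of_mem {u : ℂ⟦X⟧} (h : u ∈ E) : P E u := ⟨1, one_ne_zero, by simpa using h⟩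

theorem P.mul {u v : ℂ⟦X⟧} (hu : P E u) (hv : P E v) : P E (u * v) := by
  obtain ⟨T, hT, h⟩ := hu
  obtain ⟨T', hT', h'⟩ := hv
  refine ⟨T * T', mul_ne_zero hT hT', ?_⟩
  convert E.mul_mem h h' using 1
  rw [map_mul]; ring

theorem P.add {u v : ℂ⟦X⟧} (hu : P E u) (hv : P E v) : P E (u + v) := by
  obtain ⟨T, hT, h⟩ := hu
  obtain ⟨T', hT', h'⟩ := hv
  refine ⟨T * T', mul_ne_zero hT hT', ?_⟩
  convert E.add_mem (E.mul_mem (E.algebraMap_mem T') h) (E.mul_mem (E.algebraMap_mem T) h') using 1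
  rw [map_mul]; ring

theorem P.of_mul {u : ℂ⟦X⟧} {T : ℚ[X]} (hT : T ≠ 0) (hu : P E (algebraMap ℚ[X] ℂ⟦X⟧ T * u)) :
    P E u := by
  obtain ⟨T', hT', h'⟩ := hu
  exact ⟨T' * T, mul_ne_zero hT' hT, by rwa [map_mul, mul_assoc]⟩

theorem inv_mem {e : ℂ⟦X⟧} (he : e ∈ E) (ha : Alg e) (h0 : e ≠ 0) :
    ∃ t ∈ E, ∃ r : ℚ[X], r ≠ 0 ∧ e * t = algebraMap ℚ[X] ℂ⟦X⟧ r := by
  obtain ⟨t, ht, r, hr, h⟩ := ha.exists_nonzero_eq_adjoin_mul (mem_nonZeroDivisors_of_ne_zero h0)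
  exact ⟨t, Algebra.adjoin_le (Set.singleton_subset_iff.2 he) ht, r, hr, h⟩

theorem chain {e : ℂ⟦X⟧} (he : e ∈ E) (p : ℚ[X][X]) :
    d⁄dX ℂ (Polynomial.aeval e p) - Polynomial.aeval e (Polynomial.derivative p) * d⁄dX ℂ e ∈ E := by
  induction p using Polynomial.induction_on' with
  | add p q hp hq =>
    convert E.add_mem hp hq using 1
    simp only [map_add]; ring
  | monomial n a =>
    convert E.mul_mem (E.pow_mem he n) (E.algebraMap_mem (Polynomial.derivative a)) using 1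
    rw [Polynomial.derivative_monomial, Polynomial.aeval_monomial, Polynomial.aeval_monomial,
      Derivation.leibniz, Derivation.leibniz_pow, d_alg, map_mul, map_natCast]
    simp only [smul_eq_mul, nsmul_eq_mul]
    ring

theorem exists_sep (e : ℂ⟦X⟧) : ∀ (n : ℕ) (p : ℚ[X][X]), p.natDegree = n → p ≠ 0 →
    Polynomial.aeval e p = 0 →
    ∃ q : ℚ[X][X], Polynomial.aeval e q = 0 ∧ Polynomial.aeval e (Polynomial.derivative q) ≠ 0 := by
  intro n
  induction n using Nat.strong_induction_on with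
  | _ n ih =>
    intro p hn hp h
    by_cases h' : Polynomial.aeval e (Polynomial.derivative p) = 0
    · have hd : p.natDegree ≠ 0 := by
        intro hd
        rw [Polynomial.eq_C_of_natDegree_eq_zero hd] at h hp
        rw [Polynomial.aeval_C] at h
        exact hp (by rw [inj (h.trans (map_zero _).symm), map_zero])
      exact ih _ (hn ▸ Polynomial.natDegree_derivative_lt hd) _ rfl
        (fun h0 => hd (Polynomial.natDegree_eq_zero_of_derivative_eq_zero h0)) h'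
    · exact ⟨p, h, h'⟩

theorem d_mem (hE : ∀ e ∈ E, Alg e) {e : ℂ⟦X⟧} (he : e ∈ E) : P E (d⁄dX ℂ e) := by
  obtain ⟨p, hp, h⟩ := hE e he
  obtain ⟨q, hq, hq'⟩ := exists_sep e _ p rfl hp h
  have hm : Polynomial.aeval e (Polynomial.derivative q) ∈ E :=
    Algebra.adjoin_le (Set.singleton_subset_iff.2 he) (Polynomial.aeval_mem_adjoin_singleton _ _)
  obtain ⟨t, ht, r, hr, h2⟩ := inv_mem hm (hE _ hm) hq'
  have h3 := chain he q
  rw [hq, map_zero, zero_sub] at h3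
  refine ⟨r, hr, ?_⟩
  convert E.neg_mem (E.mul_mem ht h3) using 1
  rw [← h2]; ring

end AFLDx

open AFLDx in
theorem s_AFLD : S_AFLD := by
  intro A hA hal
  have hm : ∀ a : ℂ⟦X⟧, ∃ T : ℚ[X], T ≠ 0 ∧ (a ∈ A → IsIntegral ℚ[X] (T • a)) := by
    intro a
    by_cases ha : a ∈ A
    · obtain ⟨T, hT, h⟩ := (hal a ha).exists_integral_multiple
      exact ⟨T, hT, fun _ => h⟩
    · exact ⟨1, one_ne_zero, fun h => absurd h ha⟩
  choose T hT hI using hm
  let E : Subalgebra ℚ[X] ℂ⟦X⟧ := Algebra.adjoin ℚ[X] ((fun a => T a • a) '' A)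
  have hfg : E.toSubmodule.FG := fg_adjoin_of_finite (hA.image _) (by
    rintro _ ⟨a, ha, rfl⟩; exact hI a ha)
  have hE : ∀ e ∈ E, Alg e := fun e he => (IsIntegral.of_mem_of_fg E hfg e he).isAlgebraic
  obtain ⟨S, hS⟩ := hfg
  have key : ∀ u, Sat S u ↔ P E u := by
    intro u
    unfold Sat P
    simp only [hS, Algebra.smul_def]
    rfl
  refine ⟨S, S.finite_toSet, ?_⟩
  simp only [key]
  refine ⟨P.of_mem E.one_mem, fun a ha => ⟨T a, hT a, ?_⟩, ?_, fun u v => P.mul, ?_, ?_⟩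
  · rw [← Algebra.smul_def]
    exact Algebra.subset_adjoin ⟨a, ha, rfl⟩
  · rintro u ⟨R, hR, h⟩
    have := hE _ h
    rw [← Algebra.smul_def] at this
    exact this.of_smul (mem_nonZeroDivisors_of_ne_zero hR)
  · rintro u ⟨R, hR, h⟩
    have h1 := d_mem hE h
    rw [Derivation.leibniz, d_alg] at h1
    have h2 : P E (-(u * algebraMap ℚ[X] ℂ⟦X⟧ (Polynomial.derivative R))) := by
      refine ⟨R, hR, ?_⟩
      convert E.neg_mem (E.mul_mem h (E.algebraMap_mem (Polynomial.derivative R))) using 1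
      ring
    refine P.of_mul hR ?_
    convert h1.add h2 using 1
    simp only [smul_eq_mul]; ring
  · rintro u ⟨R, hR, h⟩ hu
    have h0 : algebraMap ℚ[X] ℂ⟦X⟧ R ≠ 0 := fun h0 => hR (inj (h0.trans (map_zero _).symm))
    obtain ⟨t, ht, r, hr, h2⟩ := inv_mem h (hE _ h) (mul_ne_zero h0 hu)
    refine ⟨algebraMap ℚ[X] ℂ⟦X⟧ R * t, r, hr,
      P.of_mem (E.mul_mem (E.algebraMap_mem R) ht), ?_⟩
    rw [← h2]; ring

end Pool.Agent.P.MP_e5b57f_nt.GD
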