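import Pool.Agent.P.MP_e5b57f_nt.GD.Iface

/-! Existence of the Jacobian elliptic functions. -/

namespace Pool.Agent.P.MP_e5b57f_nt.GD

open PowerSeries Filter Topology Finset
open scoped Polynomial

theorem s_AM : S_AM := by
  intro l h0 h1
  have hp : ∀ t, 0 < 1 - l * Real.sin t ^ 2 := fun t => by
    nlinarith [Real.sin_sq_le_one t, sq_nonneg (Real.sin t)]
  have hs : ∀ t, 0 < √(1 - l * Real.sin t ^ 2) := fun t => Real.sqrt_pos.2 (hp t)
  have hc : Continuous fun t => (√(1 - l * Real.sin t ^ 2))⁻¹ :=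
    Continuous.inv₀ (by fun_prop) fun t => (hs t).ne'
  have hd : ∀ φ, HasDerivAt (KI l) (√(1 - l * Real.sin φ ^ 2))⁻¹ φ := fun φ =>
    (hc.integral_hasStrictDerivAt 0 φ).hasDerivAt
  have hm : StrictMono (KI l) := strictMono_of_hasDerivAt_pos hd fun t => inv_pos.2 (hs t)
  have hz : KI l 0 = 0 := intervalIntegral.integral_same
  have kpos : 0 < KI l Real.pi := hz ▸ hm Real.pi_pos
  have hper : Function.Periodic (fun t => (√(1 - l * Real.sin t ^ 2))⁻¹) Real.pi := fun t => by
    simp only [Real.sin_add_pi, neg_sq]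
  have per : ∀ φ (n : ℤ), KI l (φ + n * Real.pi) = KI l φ + n * KI l Real.pi := fun φ n => by
    have e1 := (hper.zsmul n).intervalIntegral_add_eq_add 0 φ (hc.intervalIntegrable · ·)
    rw [hper.intervalIntegral_add_zsmul_eq n 0 (hc.intervalIntegrable · ·), zero_add, zsmul_eq_mul,
      zsmul_eq_mul] at e1
    exact e1
  have odd : ∀ φ, KI l (-φ) = -KI l φ := fun φ => by
    have e1 := intervalIntegral.integral_comp_neg (a := 0) (b := φ)
      fun t => (√(1 - l * Real.sin t ^ 2))⁻¹
    simp only [Real.sin_neg, neg_sq, neg_zero] at e1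
    rw [KI, KI, e1, intervalIntegral.integral_symm]
  have hK : Continuous (KI l) := continuous_iff_continuousAt.2 fun φ => (hd φ).continuousAt
  have surj : Function.Surjective (KI l) := fun y => by
    obtain ⟨n, hn⟩ := exists_int_ge (y / KI l Real.pi)
    obtain ⟨m, hm⟩ := exists_int_le (y / KI l Real.pi)
    refine mem_range_of_exists_le_of_exists_ge hK ⟨0 + m * Real.pi, ?_⟩ ⟨0 + n * Real.pi, ?_⟩
    · rw [per, hz, zero_add]
      exact (le_div_iff₀ kpos).1 hm
    · rw [per, hz, zero_add]
      exact (div_le_iff₀ kpos).1 hn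
  let e := hm.orderIsoOfSurjective _ surj
  have e1 : ∀ φ, e.symm (KI l φ) = φ := e.symm_apply_apply
  have da : ∀ u, HasDerivAt e.symm (√(1 - l * Real.sin (e.symm u) ^ 2)) u := fun u => by
    have := HasDerivAt.of_local_left_inverse e.symm.continuous.continuousAt (hd (e.symm u))
      (inv_ne_zero (hs _).ne') (Eventually.of_forall e.apply_symm_apply)
    rwa [inv_inv] at this
  refine ⟨fun u => Real.sin (e.symm u), fun u => Real.cos (e.symm u),
    fun u => √(1 - l * Real.sin (e.symm u) ^ 2), fun u => (da u).sin, fun u => ?_, fun u => ?_,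
    fun u => Real.sin_sq_add_cos_sq _, fun u => ?_, fun u => hs _, fun φ => by rw [e1],
    fun φ => by rw [e1], surj, per, odd, kpos⟩
  · exact (da u).cos.congr_deriv (neg_mul _ _)
  · refine (((((da u).sin.pow 2).const_mul l).const_sub 1).sqrt (hp _).ne').congr_deriv ?_
    have := (hs (e.symm u)).ne'
    simp only [Pi.pow_apply, Nat.cast_ofNat, Nat.add_one_sub_one, pow_one]
    field_simp
  · rw [Real.sq_sqrt (hp _).le, sub_add_cancel]

end Pool.Agent.P.MP_e5b57f_nt.GD
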