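import Pool.Agent.P.MP_e5b57f_nt.GD.Iface

/-! Asymptotics of rational functions along a sequence of increasing valuation. -/

namespace Pool.Agent.P.MP_e5b57f_nt.GD

open PowerSeries Filter Topology Finset
open scoped Polynomial

namespace ASYx

variable {Γ : Type*} [LinearOrderedCommGroupWithZero Γ] (v : Valuation ℂ Γ)

/-- `a` has leading term `A`. -/
def Near (a A : ℂ) : Prop := v (a - A) < v A

variable {v}

theorem Near.pos {a A : ℂ} (h : Near v a A) : 0 < v A := lt_of_le_of_lt zero_le h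

theorem Near.val {a A : ℂ} (h : Near v a A) : v a = v A := by
  have h1 := v.map_add_eq_of_lt_left (x := A) (y := a - A) h
  rwa [add_sub_cancel] at h1

theorem Near.mul {a A b B : ℂ} (h : Near v a A) (h' : Near v b B) : Near v (a * b) (A * B) := by
  unfold Near
  have h1 : a * b - A * B = A * (b - B) + (a - A) * b := by ring
  rw [h1, map_mul]
  refine v.map_add_lt ?_ ?_
  · rw [map_mul]
    exact mul_lt_mul_of_pos_left h' h.pos
  · rw [map_mul, h'.val]
    exact mul_lt_mul_of_pos_right h h'.pos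

theorem lead (x : ℕ → ℂ) (hx : StrictMono fun n => v (x n)) (p : ℂ[X]) (hp : p ≠ 0) :
    ∃ (c : ℂ) (i : ℕ), c ≠ 0 ∧ ∀ᶠ n in atTop, Near v (p.eval (x n)) (c * x n ^ i) := by
  induction h : p.natDegree using Nat.strong_induction_on generalizing p with
  | _ d ih =>
    by_cases hd : p.degree = 0
    · obtain ⟨c, hc⟩ : ∃ c, p = Polynomial.C c := ⟨_, Polynomial.eq_C_of_degree_eq_zero hd⟩
      have hc0 : c ≠ 0 := fun h0 => hp (by rw [hc, h0, map_zero])
      refine ⟨c, 0, hc0, Eventually.of_forall fun n => ?_⟩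
      unfold Near
      rw [hc, Polynomial.eval_C, pow_zero, mul_one, sub_self, map_zero]
      exact (v.pos_iff).mpr hc0
    · obtain ⟨a, ha⟩ := IsAlgClosed.exists_root p hd
      obtain ⟨r, hr⟩ := Polynomial.dvd_iff_isRoot.mpr ha
      have hr0 : r ≠ 0 := fun h0 => hp (by rw [hr, h0, mul_zero])
      have hdeg : r.natDegree < d := by
        rw [← h, hr, Polynomial.natDegree_mul (Polynomial.X_sub_C_ne_zero a) hr0,
          Polynomial.natDegree_X_sub_C]
        omega
      obtain ⟨c, i, hc, hn⟩ := ih _ hdeg r hr0 rfl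
      by_cases hb : ∃ m, v a ≤ v (x m)
      · obtain ⟨m, hm⟩ := hb
        refine ⟨c, i + 1, hc, ?_⟩
        filter_upwards [hn, eventually_gt_atTop m] with n h1 h2
        have h3 : Near v (x n - a) (x n) := by
          unfold Near
          rw [sub_sub_cancel_left, Valuation.map_neg]
          exact hm.trans_lt (hx h2)
        have h4 := h3.mul h1
        rw [hr, Polynomial.eval_mul, Polynomial.eval_sub, Polynomial.eval_X, Polynomial.eval_C]
        rwa [show x n * (c * x n ^ i) = c * x n ^ (i + 1) by ring] at h4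
      · have hb' : ∀ m, v (x m) < v a := fun m => lt_of_not_ge fun h0 => hb ⟨m, h0⟩
        have ha0 : a ≠ 0 := (v.pos_iff).mp (lt_of_le_of_lt zero_le (hb' 0))
        refine ⟨-a * c, i, mul_ne_zero (neg_ne_zero.mpr ha0) hc, ?_⟩
        filter_upwards [hn] with n h1
        have h3 : Near v (x n - a) (-a) := by
          unfold Near
          rw [sub_neg_eq_add, sub_add_cancel, Valuation.map_neg]
          exact hb' n
        have h4 := h3.mul h1
        rw [hr, Polynomial.eval_mul, Polynomial.eval_sub, Polynomial.eval_X, Polynomial.eval_C]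
        rwa [← mul_assoc] at h4

theorem center (x x' : ℕ → ℂ) (p q : ℂ[X]) (hx : StrictMono fun n => v (x n))
    (h : ∀ᶠ n in atTop, q.eval (x n) ≠ 0 ∧ x' n * q.eval (x n) = p.eval (x n) ∧ v (x' n) ≤ 1) :
    ∃ e : ℂ, ∀ᶠ n in atTop, v (x' n - e) < 1 := by
  by_cases hp : p = 0
  · refine ⟨0, h.mono fun n hn => ?_⟩
    have h1 : x' n = 0 := by
      have h2 := hn.2.1
      rw [hp, Polynomial.eval_zero] at h2
      exact (mul_eq_zero.mp h2).resolve_right hn.1
    rw [h1, sub_zero, map_zero]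
    exact zero_lt_one
  have hq : q ≠ 0 := by
    obtain ⟨n, hn⟩ := h.exists
    exact fun h0 => hn.1 (by rw [h0, Polynomial.eval_zero])
  obtain ⟨c, i, hc, hP⟩ := lead x hx p hp
  obtain ⟨c', j, hc', hQ⟩ := lead x hx q hq
  have hvc : 0 < v c := (v.pos_iff).mpr hc
  have hvc' : 0 < v c' := (v.pos_iff).mpr hc'
  have hall : ∀ᶠ n in atTop, 0 < v (x n) ∧ v (x' n) ≤ 1 ∧
      v (x' n) * (v c' * v (x n) ^ j) = v c * v (x n) ^ i := by
    filter_upwards [h, hP, hQ, eventually_gt_atTop 0] with n h1 h2 h3 h4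
    refine ⟨lt_of_le_of_lt zero_le (hx h4), h1.2.2, ?_⟩
    have h5 := congrArg v h1.2.1
    rw [map_mul, h2.val, h3.val, map_mul, map_mul, map_pow, map_pow] at h5
    exact h5
  rcases lt_trichotomy i j with hij | hij | hij
  · obtain ⟨k, rfl⟩ := Nat.exists_eq_add_of_lt hij
    obtain ⟨N, hN⟩ := eventually_atTop.mp hall
    refine ⟨0, ?_⟩
    filter_upwards [eventually_gt_atTop N] with n hn
    obtain ⟨a1, a2, a3⟩ := hN N le_rfl
    obtain ⟨b1, b2, b3⟩ := hN n hn.le
    have e1 : ∀ m, 0 < v (x m) → v (x' m) * (v c' * v (x m) ^ (i + k + 1)) = v c * v (x m) ^ i →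
        v (x' m) * (v c' * v (x m) ^ (k + 1)) = v c := by
      intro m hm he
      apply mul_right_cancel₀ (pow_pos hm i).ne'
      rw [← he, add_assoc, pow_add _ i]
      ac_rfl
    have f1 := e1 N a1 a3
    have f2 := e1 n b1 b3
    rw [sub_zero]
    by_contra hge
    have hge' : 1 ≤ v (x' n) := le_of_not_gt hge
    have g1 : v c' * v (x N) ^ (k + 1) < v c' * v (x n) ^ (k + 1) :=
      mul_lt_mul_of_pos_left (pow_lt_pow_left₀ (hx hn) zero_le (Nat.succ_ne_zero k)) hvc'
    have g2 : v c ≤ v c' * v (x N) ^ (k + 1) := by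
      rw [← f1]
      exact mul_le_of_le_one_left zero_le a2
    have g3 : v c' * v (x n) ^ (k + 1) ≤ v c := by
      rw [← f2]
      exact le_mul_of_one_le_left zero_le hge'
    exact absurd (g2.trans_lt (g1.trans_le g3)) (lt_irrefl _)
  · subst hij
    refine ⟨c / c', ?_⟩
    filter_upwards [h, hP, hQ] with n h1 h2 h3
    have hq0 : 0 < v (q.eval (x n)) := (v.pos_iff).mpr h1.1
    have e1 : (x' n - c / c') * q.eval (x n) =
        (p.eval (x n) - c * x n ^ i) - c / c' * (q.eval (x n) - c' * x n ^ i) := by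
      rw [← h1.2.1]
      field_simp
      ring
    have e2 : v (c * x n ^ i) ≤ v (q.eval (x n)) := by
      rw [← h2.val, ← h1.2.1, map_mul]
      exact mul_le_of_le_one_left zero_le h1.2.2
    have e3 : v ((x' n - c / c') * q.eval (x n)) < v (q.eval (x n)) := by
      rw [e1]
      refine v.map_sub_lt (lt_of_lt_of_le h2 e2) (lt_of_lt_of_le ?_ e2)
      have e4 : c * x n ^ i = c / c' * (c' * x n ^ i) := by field_simp
      rw [e4, map_mul, map_mul v (c / c')]
      exact mul_lt_mul_of_pos_left h3 ((v.pos_iff).mpr (div_ne_zero hc hc'))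
    rw [map_mul] at e3
    by_contra hge
    exact absurd e3 (not_lt.mpr (le_mul_of_one_le_left zero_le (le_of_not_gt hge)))
  · obtain ⟨k, rfl⟩ := Nat.exists_eq_add_of_lt hij
    obtain ⟨N, hN⟩ := eventually_atTop.mp hall
    refine ⟨0, ?_⟩
    filter_upwards [eventually_ge_atTop N] with n hn
    obtain ⟨a1, a2, a3⟩ := hN (n + 1) (by omega)
    obtain ⟨b1, b2, b3⟩ := hN n hn
    have e1 : ∀ m, 0 < v (x m) → v (x' m) * (v c' * v (x m) ^ j) = v c * v (x m) ^ (j + k + 1) →
        v (x' m) * v c' = v c * v (x m) ^ (k + 1) := by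
      intro m hm he
      apply mul_right_cancel₀ (pow_pos hm j).ne'
      rw [mul_assoc, he, add_assoc, pow_add]
      ac_rfl
    have f1 := e1 _ a1 a3
    have f2 := e1 n b1 b3
    rw [sub_zero]
    have g1 : v c * v (x n) ^ (k + 1) < v c * v (x (n + 1)) ^ (k + 1) :=
      mul_lt_mul_of_pos_left
        (pow_lt_pow_left₀ (hx (Nat.lt_succ_self n)) zero_le (Nat.succ_ne_zero k)) hvc
    rw [← f1, ← f2] at g1
    exact (lt_of_mul_lt_mul_right g1 zero_le).trans_le a2

end ASYx

theorem s_ASY : S_ASY := by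
  intro B x x' p q hx h
  obtain ⟨e, he⟩ := ASYx.center x x' p q hx h
  obtain ⟨N, hN⟩ := eventually_atTop.mp he
  refine ⟨N, fun n hn => ?_⟩
  rw [show x' n - x' N = (x' n - e) - (x' N - e) by ring]
  exact B.valuation.map_sub_lt (hN n hn) (hN N le_rfl)

end Pool.Agent.P.MP_e5b57f_nt.GD
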