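import Pool.Agent.P.MP_e5b57f_nt.GD.Iface

/-! Torsion points with strictly increasing valuations at a place of bad reduction. -/

namespace Pool.Agent.P.MP_e5b57f_nt.GD

open PowerSeries Filter Topology Finset
open scoped Polynomial

namespace BADx

lemma nons {α β : ℂ} (ha : α ≠ 0) (hb : β ≠ 0) (hab : α ≠ β) {x y : ℂ}
    (h : y ^ 2 = x * (x - α) * (x - β)) : (leg α β).toAffine.Nonsingular x y := by
  have hΔ : (leg α β).toAffine.Δ ≠ 0 := by
    have e : (leg α β).toAffine.Δ = 16 * α ^ 2 * β ^ 2 * (α - β) ^ 2 := by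
      simp only [leg, WeierstrassCurve.Δ, WeierstrassCurve.b₂, WeierstrassCurve.b₄,
        WeierstrassCurve.b₆, WeierstrassCurve.b₈]
      ring
    rw [e]
    exact mul_ne_zero (mul_ne_zero (mul_ne_zero (by norm_num) (pow_ne_zero _ ha)) (pow_ne_zero _ hb))
      (pow_ne_zero _ (sub_ne_zero.2 hab))
  rw [← WeierstrassCurve.Affine.equation_iff_nonsingular_of_Δ_ne_zero hΔ,
    WeierstrassCurve.Affine.equation_iff]
  simp only [leg]
  linear_combination h

lemma root (α β x : ℂ) : ∃ t : ℂ, (t ^ 2 - α * β) ^ 2 = 4 * x * (t * (t - α) * (t - β)) := by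
  let q : ℂ[X] := Polynomial.X ^ 4 + (Polynomial.C (-(4 * x)) * Polynomial.X ^ 3 +
    Polynomial.C (4 * x * (α + β) - 2 * α * β) * Polynomial.X ^ 2 +
    Polynomial.C (-(4 * x * α * β)) * Polynomial.X + Polynomial.C (α ^ 2 * β ^ 2))
  have hq : q.degree = 4 := by
    refine (Polynomial.degree_add_eq_left_of_degree_lt ?_).trans (Polynomial.degree_X_pow 4)
    rw [Polynomial.degree_X_pow]
    exact Polynomial.degree_cubic_lt
  obtain ⟨t, ht⟩ := IsAlgClosed.exists_root q (by rw [hq]; decide)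
  refine ⟨t, ?_⟩
  simp only [q, Polynomial.IsRoot.def, Polynomial.eval_add, Polynomial.eval_mul,
    Polynomial.eval_pow, Polynomial.eval_X, Polynomial.eval_C] at ht
  linear_combination ht

variable {Γ : Type*} [LinearOrderedCommGroupWithZero Γ]

lemma root2 (v : Valuation ℂ Γ) {α β : ℂ} (ha : v α = 1) (hb : β ≠ 0) (x : ℂ) :
    ∃ t : ℂ, (t ^ 2 - α * β) ^ 2 = 4 * x * (t * (t - α) * (t - β)) ∧ v β ≤ v t ^ 2 := by
  have ha0 : α ≠ 0 := by
    rintro rfl
    simp at ha
  obtain ⟨t, ht⟩ := root α β x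
  have ht0 : t ≠ 0 := by
    rintro rfl
    have : (α * β) ^ 2 = 0 := by linear_combination ht
    exact mul_ne_zero ha0 hb (pow_eq_zero_iff two_ne_zero |>.1 this)
  rcases le_total (v β) (v t ^ 2) with h | h
  · exact ⟨t, ht, h⟩
  · refine ⟨α * β / t, ?_, ?_⟩
    · field_simp
      linear_combination ht
    · have h0 : 0 < v t := zero_lt_iff.2 ((Valuation.ne_zero_iff v).2 ht0)
      rw [map_div₀, map_mul, ha, one_mul, div_pow, le_div_iff₀ (pow_pos h0 2), sq (v β)]
      exact mul_le_mul_right h _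

lemma val (v : Valuation ℂ Γ) {α β x t : ℂ} (h2 : v 2 = 1) (ha : v α = 1) (hb : v β < 1)
    (hb0 : β ≠ 0) (hx : v x < 1) (ht : (t ^ 2 - α * β) ^ 2 = 4 * x * (t * (t - α) * (t - β)))
    (hbt : v β ≤ v t ^ 2) : v t < 1 ∧ v x < v t := by
  have h4 : v 4 = 1 := by
    rw [show (4 : ℂ) = 2 * 2 by norm_num, map_mul, h2, one_mul]
  have hβ : 0 < v β := zero_lt_iff.2 ((Valuation.ne_zero_iff v).2 hb0)
  have h0 : 0 < v t := by
    rw [zero_lt_iff]
    intro h
    rw [h, zero_pow two_ne_zero] at hbt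
    exact absurd hβ (not_lt.2 hbt)
  have e := congrArg v ht
  simp only [map_pow, map_mul, h4, one_mul] at e
  have hab : v (α * β) = v β := by rw [map_mul, ha, one_mul]
  have hlt : v t < 1 := by
    by_contra hc
    rw [not_lt] at hc
    have e1 : v (t ^ 2 - α * β) = v t ^ 2 := by
      rw [Valuation.map_sub_eq_of_lt_left, map_pow]
      rw [hab, map_pow]
      exact hb.trans_le (one_le_pow₀ hc)
    have e2 : v (t - α) ≤ v t := v.map_sub_le le_rfl (ha.trans_le hc)
    have e3 : v (t - β) ≤ v t := v.map_sub_le le_rfl (hb.le.trans hc)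
    rw [e1] at e
    have e4 : v x * (v t * v (t - α) * v (t - β)) ≤ v x * (v t * v t * v t) := by gcongr
    have e5 : v x * (v t * v t * v t) < 1 * (v t * v t * v t) := by
      gcongr
    have e6 : 1 * (v t * v t * v t) ≤ v t * (v t * v t * v t) := by gcongr
    have e7 : (v t ^ 2) ^ 2 = v t * (v t * v t * v t) := by
      simp only [sq, mul_assoc]
    exact absurd ((e4.trans_lt e5).trans_le e6) (by rw [← e, e7]; exact lt_irrefl _)
  have hsq : v t ^ 2 < v t := by
    have : v t * v t < 1 * v t := by gcongr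
    rwa [one_mul, ← sq] at this
  refine ⟨hlt, lt_of_le_of_lt ?_ hsq⟩
  have e1 : v (t ^ 2 - α * β) ≤ v t ^ 2 := v.map_sub_le (map_pow v t 2).le (hab.trans_le hbt)
  have e2 : v (t - α) = 1 := by
    rw [Valuation.map_sub_eq_of_lt_right, ha]
    rwa [ha]
  have e3 : v (t - β) = v t := Valuation.map_sub_eq_of_lt_left v (hbt.trans_lt hsq)
  rw [e2, e3, mul_one, ← sq] at e
  have e4 : v x * v t ^ 2 ≤ v t ^ 2 * v t ^ 2 := by
    rw [← e, ← sq]
    gcongr
  exact le_of_mul_le_mul_right e4 (pow_pos h0 2)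

end BADx

open BADx in
theorem s_BAD (hXF : S_XF) : S_BAD := by
  intro B α β h2 ha hb hb0
  have ha0 : α ≠ 0 := by
    rintro rfl
    simp at ha
  have hab : α ≠ β := by
    rintro rfl
    exact absurd ha hb.ne
  let I : ℂ × ℂ → Prop := fun p => B.valuation p.1 < 1 ∧
    ∃ h : (leg α β).toAffine.Nonsingular p.1 p.2,
      ∃ k : ℕ, 2 ^ k • (.some _ _ h : (leg α β).toAffine.Point) = 0
  have base : I (0, 0) := by
    have h : (leg α β).toAffine.Nonsingular 0 0 := nons ha0 hb0 hab (by ring)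
    refine ⟨by simp, h, 1, ?_⟩
    rw [pow_one, two_smul]
    exact (hXF α β 0 0 h).2.1 rfl
  have step : ∀ p, I p → ∃ p', I p' ∧ B.valuation p.1 < B.valuation p'.1 := by
    rintro ⟨x, y⟩ ⟨hx, h, k, hk⟩
    obtain ⟨t, ht, hbt⟩ := root2 B.valuation ha hb0 x
    obtain ⟨h3, h4⟩ := val B.valuation h2 ha hb hb0 hx ht hbt
    obtain ⟨s, hs⟩ := IsAlgClosed.exists_pow_nat_eq (t * (t - α) * (t - β)) two_pos
    have h' : (leg α β).toAffine.Nonsingular t s := nons ha0 hb0 hab hs
    have hs0 : s ≠ 0 := by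
      rintro rfl
      rw [← hs] at ht
      have e : t ^ 2 - α * β = 0 := pow_eq_zero_iff two_ne_zero |>.1 (by linear_combination ht)
      have e' : t * (t - α) * (t - β) = 0 := by linear_combination -hs
      rcases mul_eq_zero.1 e' with e' | e'
      · rcases mul_eq_zero.1 e' with e' | e'
        · exact mul_ne_zero ha0 hb0 (by rw [e'] at e; linear_combination -e)
        · refine mul_ne_zero ha0 (sub_ne_zero.2 hab) ?_
          rw [sub_eq_zero.1 e'] at e
          linear_combination e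
      · refine mul_ne_zero hb0 (sub_ne_zero.2 hab) ?_
        rw [sub_eq_zero.1 e'] at e
        linear_combination -e
    obtain ⟨x₃, y₃, h₃, e1, e2⟩ := (hXF α β t s h').2.2.1 hs0
    have e3 : x₃ = x := by
      refine mul_right_cancel₀ (b := 4 * s ^ 2) (mul_ne_zero (by norm_num) (pow_ne_zero _ hs0)) ?_
      rw [e2, ht, hs]
      ring
    refine ⟨(t, s), ⟨h3, h', k + 1, ?_⟩, h4⟩
    rw [pow_succ, mul_smul, two_smul, e1]
    rcases (WeierstrassCurve.Affine.Point.X_eq_iff (h₁ := h₃) (h₂ := h)).1 e3 with e4 | e4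
    · rw [e4]
      exact hk
    · rw [e4]
      exact (neg_nsmul _ _).trans (neg_eq_zero.2 hk)
  choose! f hf using step
  have hI : ∀ n, I (f^[n] (0, 0)) := by
    intro n
    induction n with
    | zero => exact base
    | succ n ih =>
      rw [Function.iterate_succ_apply']
      exact (hf _ ih).1
  refine ⟨fun n => (f^[n] (0, 0)).1, fun n => (f^[n] (0, 0)).2, fun n => (hI n).2.1,
    strictMono_nat_of_lt_succ fun n => ?_, fun n => (hI n).2.2⟩
  simp only [Function.iterate_succ_apply']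
  exact (hf _ (hI n)).2

end Pool.Agent.P.MP_e5b57f_nt.GD
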