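import Pool.Agent.P.MP_e5b57f_nt.GD.Iface

/-! A basis over the rational functions that is closed under the derivative. -/

namespace Pool.Agent.P.MP_e5b57f_nt.GD

open PowerSeries Filter Topology Finset
open scoped Polynomial

namespace BASISx

theorem dsm (p : ℚ[X]) (x : ℂ⟦X⟧) :
    d⁄dX ℂ (p • x) = p • d⁄dX ℂ x + Polynomial.derivative p • x := by
  have e : ∀ q : ℚ[X], algebraMap ℚ[X] ℂ⟦X⟧ q = ((q.map (algebraMap ℚ ℂ) : ℂ[X]) : ℂ⟦X⟧) :=
    fun q => by rw [algebraMap_apply', Polynomial.polynomial_map_coe]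
  rw [Algebra.smul_def, Algebra.smul_def, Algebra.smul_def, Derivation.leibniz, e, e,
    derivative_coe, Polynomial.derivative_map, smul_eq_mul, smul_eq_mul, mul_comm x]

/-- The saturation of the span. -/
def sm (S : Set ℂ⟦X⟧) : Submodule ℚ[X] ℂ⟦X⟧ where
  carrier := {f | Sat S f}
  zero_mem' := ⟨1, one_ne_zero, by simp⟩
  add_mem' := by
    rintro f g ⟨T, hT, a⟩ ⟨U, hU, b⟩
    refine ⟨T * U, mul_ne_zero hT hU, ?_⟩
    rw [smul_add, mul_smul T U g, mul_comm, mul_smul]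
    exact Submodule.add_mem _ (Submodule.smul_mem _ _ a) (Submodule.smul_mem _ _ b)
  smul_mem' := by
    rintro c f ⟨T, hT, a⟩
    exact ⟨T, hT, by rw [smul_comm]; exact Submodule.smul_mem _ _ a⟩

theorem of_span {S : Set ℂ⟦X⟧} {f : ℂ⟦X⟧} (h : f ∈ Submodule.span ℚ[X] S) : f ∈ sm S :=
  ⟨1, one_ne_zero, by rwa [one_smul]⟩

theorem sat {S : Set ℂ⟦X⟧} {f : ℂ⟦X⟧} {T : ℚ[X]} (hT : T ≠ 0) (h : T • f ∈ sm S) : f ∈ sm S :=
  let ⟨U, hU, a⟩ := h
  ⟨U * T, mul_ne_zero hU hT, by rwa [mul_smul]⟩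

theorem mono {S S' : Set ℂ⟦X⟧} (h : S ⊆ S') {f : ℂ⟦X⟧} (a : Sat S f) : Sat S' f :=
  let ⟨T, hT, a⟩ := a
  ⟨T, hT, Submodule.span_mono h a⟩

theorem der {S : Set ℂ⟦X⟧} (h : ∀ y ∈ S, Sat S (d⁄dX ℂ y)) {f : ℂ⟦X⟧} (a : Sat S f) :
    Sat S (d⁄dX ℂ f) := by
  have k : ∀ x ∈ Submodule.span ℚ[X] S, d⁄dX ℂ x ∈ sm S := fun x hx => by
    induction hx using Submodule.span_induction with
    | mem x hx => exact h x hx
    | zero => rw [map_zero]; exact (sm S).zero_mem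
    | add x y _ _ hx hy => rw [map_add]; exact (sm S).add_mem hx hy
    | smul p x hx ih =>
      rw [dsm]
      exact (sm S).add_mem ((sm S).smul_mem _ ih) ((sm S).smul_mem _ (of_span hx))
  obtain ⟨T, hT, b⟩ := id a
  have := k _ b
  rw [dsm] at this
  exact sat hT (((sm S).add_mem_iff_left ((sm S).smul_mem _ a)).1 this)

theorem card_le {S : Set ℂ⟦X⟧} [Fintype S] {k : ℕ} (y : Fin k → ℂ⟦X⟧)
    (hy : LinearIndependent ℚ[X] y) (h : ∀ j, Sat S (y j)) : k ≤ Fintype.card S := by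
  choose T hT a using h
  have li : LinearIndependent ℚ[X] fun j => T j • y j := by
    rw [Fintype.linearIndependent_iff] at hy ⊢
    intro c hc j
    exact (mul_eq_zero.1 (hy (fun j => c j * T j) (by simpa only [mul_smul] using hc) j)).resolve_right
      (hT j)
  simpa using linearIndependent_le_span_aux' _ li S (by rintro _ ⟨j, rfl⟩; exact a j)

end BASISx

open BASISx in
theorem s_BASIS (hGC : S_GC) : S_BASIS := by
  classical
  intro ι _ f hf
  obtain ⟨g1, g2, -, g4, g5, -⟩ := hGC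
  choose S0 s1 s2 s3 using fun i => (hf i).2.2
  let S : Set ℂ⟦X⟧ := insert 1 (⋃ i, S0 i)
  have hS : S.Finite := (Set.finite_iUnion s1).insert 1
  have := hS.fintype
  have sub : ∀ i, S0 i ⊆ S := fun i => (Set.subset_iUnion S0 i).trans (Set.subset_insert _ _)
  have dS : ∀ y ∈ S, Sat S (d⁄dX ℂ y) := by
    rintro y (rfl | hy)
    · rw [Derivation.map_one_eq_zero]; exact (sm S).zero_mem
    · obtain ⟨i, hi⟩ := Set.mem_iUnion.1 hy
      exact mono (sub i) (s3 i y hi)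
  let P : ℕ → Prop := fun m => ∃ y : Fin (m + 1) → ℂ⟦X⟧, y 0 = 1 ∧
    (∀ j, (Den (y j) ∧ Gr (y j)) ∧ Sat S (y j)) ∧ LinearIndependent ℚ[X] y
  have p0 : P 0 := by
    refine ⟨fun _ => 1, rfl, fun _ => ⟨⟨g4, g5⟩, of_span (Submodule.subset_span
      (Set.mem_insert _ _))⟩, Fintype.linearIndependent_iff.2 fun c hc j => ?_⟩
    rw [Fin.sum_univ_one, Algebra.smul_def, mul_one, algebraMap_apply'] at hc
    rw [Fin.fin_one_eq_zero j]
    ext n
    simpa using congrArg (coeff n) hc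
  obtain ⟨y, y0, y1, y2⟩ := Nat.findGreatest_spec (P := P) (Nat.zero_le (Fintype.card S)) p0
  have mx : ∀ u, Den u → Gr u → Sat S u → Sat (Set.range y) u := fun u a b c => by
    have all : ∀ j, (Den (Fin.snoc (α := fun _ => ℂ⟦X⟧) y u j) ∧
        Gr (Fin.snoc (α := fun _ => ℂ⟦X⟧) y u j)) ∧ Sat S (Fin.snoc (α := fun _ => ℂ⟦X⟧) y u j) :=
      fun j => by
        refine Fin.lastCases ?_ (fun j => ?_) j
        · rw [Fin.snoc_last]; exact ⟨⟨a, b⟩, c⟩
        · rw [Fin.snoc_castSucc]; exact y1 j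
    have nl : ¬LinearIndependent ℚ[X] (Fin.snoc (α := fun _ => ℂ⟦X⟧) y u) := fun h =>
      Nat.findGreatest_is_greatest (P := P) (Nat.lt_succ_self _)
        (by have := card_le _ h fun j => (all j).2; omega)
        ⟨_, by rw [← Fin.castSucc_zero, Fin.snoc_castSucc, y0], all, h⟩
    obtain ⟨c, hc, j, hj⟩ := Fintype.not_linearIndependent_iff.1 nl
    rw [Fin.sum_univ_castSucc] at hc
    simp only [Fin.snoc_last, Fin.snoc_castSucc] at hc
    refine ⟨c (Fin.last _), fun h0 => hj ?_, ?_⟩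
    · rw [h0, zero_smul, add_zero] at hc
      exact Fin.lastCases h0 (Fintype.linearIndependent_iff.1 y2 _ hc) j
    · rw [eq_neg_of_add_eq_zero_right hc]
      exact Submodule.neg_mem _ (Submodule.sum_mem _ fun j _ =>
        Submodule.smul_mem _ _ (Submodule.subset_span ⟨j, rfl⟩))
  exact ⟨_, y, y0, fun j => (y1 j).1, y2,
    fun j => mx _ (g1 _ (y1 j).1.1) (g2 _ (y1 j).1.2) (der dS (y1 j).2),
    fun i => mx _ (hf i).1 (hf i).2.1 (mono (sub i) (s2 i))⟩

end Pool.Agent.P.MP_e5b57f_nt.GD
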