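import Pool.Agent.P.MP_e5b57f_nt.GD.Iface

/-! The bounded series form a subring. -/

namespace Pool.Agent.P.MP_e5b57f_nt.GD

open PowerSeries Filter Topology Finset
open scoped Polynomial

namespace BD1x

theorem pw_mono {a n k l : ℕ} (h : a ≤ n) (hk : k ≤ l) : ((a : ℚ) + 1) ^ k ≤ ((n : ℚ) + 1) ^ l := by
  have h0 : (0 : ℚ) ≤ a := Nat.cast_nonneg a
  have h1 : (a : ℚ) ≤ n := by exact_mod_cast h
  exact (pow_le_pow_left₀ (by linarith) (by linarith) k).trans
    (pow_le_pow_right₀ (by linarith) hk)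

theorem coeff_mul_le {p q : ℚ[X]} {A B : ℚ} {d : ℕ} (hd : (p * q).natDegree ≤ d)
    (hp : ∀ j, |p.coeff j| ≤ A) (hq : ∀ j, |q.coeff j| ≤ B) (j : ℕ) :
    |(p * q).coeff j| ≤ ((d : ℚ) + 1) * (A * B) := by
  have hA : 0 ≤ A := (abs_nonneg _).trans (hp 0)
  have hB : 0 ≤ B := (abs_nonneg _).trans (hq 0)
  rcases lt_or_ge d j with h | h
  · rw [Polynomial.coeff_eq_zero_of_natDegree_lt (hd.trans_lt h), abs_zero]
    positivity
  · rw [Polynomial.coeff_mul]
    refine (Finset.abs_sum_le_sum_abs _ _).trans ?_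
    refine (Finset.sum_le_card_nsmul _ _ (A * B) fun x _ => ?_).trans ?_
    · rw [abs_mul]
      exact mul_le_mul (hp _) (hq _) (abs_nonneg _) hA
    · rw [Finset.Nat.card_antidiagonal, nsmul_eq_mul]
      have : (j : ℚ) ≤ d := by exact_mod_cast h
      push_cast
      gcongr

theorem add {p q : ℚ[X]⟦X⟧} (hp : Bd p) (hq : Bd q) : Bd (p + q) := by
  obtain ⟨C, k, h⟩ := hp
  obtain ⟨C', k', h'⟩ := hq
  refine ⟨C + C', k + k', fun n => ⟨?_, fun j => ?_⟩⟩
  · rw [map_add]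
    exact Polynomial.natDegree_add_le_of_degree_le ((h n).1.trans (by omega))
      ((h' n).1.trans (by omega))
  · rw [map_add, Polynomial.coeff_add]
    refine (abs_add_le _ _).trans ?_
    have h1 := ((h n).2 j).trans (mul_le_mul_of_nonneg_left
      (pw_mono (le_refl n) (Nat.le_add_right k k')) (Nat.cast_nonneg C))
    have h2 := ((h' n).2 j).trans (mul_le_mul_of_nonneg_left
      (pw_mono (le_refl n) (Nat.le_add_left k' k)) (Nat.cast_nonneg C'))
    push_cast
    linarith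

theorem neg {p : ℚ[X]⟦X⟧} (hp : Bd p) : Bd (-p) := by
  obtain ⟨C, k, h⟩ := hp
  refine ⟨C, k, fun n => ⟨?_, fun j => ?_⟩⟩
  · rw [map_neg, Polynomial.natDegree_neg]
    exact (h n).1
  · rw [map_neg, Polynomial.coeff_neg, abs_neg]
    exact (h n).2 j

theorem zero : Bd 0 := ⟨0, 0, fun n => by simp⟩

theorem one : Bd 1 := by
  refine ⟨1, 0, fun n => ?_⟩
  rw [coeff_one]
  split_ifs
  · refine ⟨by simp, fun j => ?_⟩
    rw [Polynomial.coeff_one]
    split_ifs <;> simp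
  · simp

theorem mul {p q : ℚ[X]⟦X⟧} (hp : Bd p) (hq : Bd q) : Bd (p * q) := by
  obtain ⟨C, k, h⟩ := hp
  obtain ⟨C', k', h'⟩ := hq
  have hdeg : ∀ n : ℕ, ∀ x ∈ (Finset.HasAntidiagonal.antidiagonal n : Finset (ℕ × ℕ)),
      (coeff x.1 p * coeff x.2 q).natDegree ≤ n + (k + k') := by
    intro n x hx
    have h1 := Finset.HasAntidiagonal.mem_antidiagonal.1 hx
    have h2 := (h x.1).1
    have h3 := (h' x.2).1
    exact Polynomial.natDegree_mul_le.trans (by omega)
  refine ⟨(k + k' + 1) * (C * C'), k + k' + 2, fun n => ⟨?_, fun j => ?_⟩⟩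
  · rw [coeff_mul]
    exact (Polynomial.natDegree_sum_le_of_forall_le _ _ (hdeg n)).trans (by omega)
  · rw [coeff_mul, Polynomial.finsetSum_coeff]
    refine (Finset.abs_sum_le_sum_abs _ _).trans ?_
    refine (Finset.sum_le_card_nsmul _ _ ((((n + (k + k') : ℕ) : ℚ) + 1) *
      (C * ((n : ℚ) + 1) ^ k * (C' * ((n : ℚ) + 1) ^ k'))) fun x hx => ?_).trans ?_
    · have h1 := Finset.HasAntidiagonal.mem_antidiagonal.1 hx
      exact coeff_mul_le (hdeg n x hx)
        (fun i => ((h x.1).2 i).trans (mul_le_mul_of_nonneg_left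
          (pw_mono (by omega) le_rfl) (Nat.cast_nonneg C)))
        (fun i => ((h' x.2).2 i).trans (mul_le_mul_of_nonneg_left
          (pw_mono (by omega) le_rfl) (Nat.cast_nonneg C'))) j
    · rw [Finset.Nat.card_antidiagonal, nsmul_eq_mul]
      have h0 : (0 : ℚ) ≤ n := Nat.cast_nonneg n
      have h1 : (0 : ℚ) ≤ k := Nat.cast_nonneg k
      have h2 : (0 : ℚ) ≤ k' := Nat.cast_nonneg k'
      have h3 : (n : ℚ) + (k + k') + 1 ≤ (k + k' + 1) * (n + 1) := by nlinarith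
      push_cast
      calc ((n : ℚ) + 1) * ((n + (k + k') + 1) * (C * (n + 1) ^ k * (C' * (n + 1) ^ k')))
          ≤ (n + 1) * (((k + k' + 1) * (n + 1)) * (C * (n + 1) ^ k * (C' * (n + 1) ^ k'))) := by
            gcongr
        _ = (k + k' + 1) * (C * C') * (n + 1) ^ (k + k' + 2) := by ring

end BD1x

theorem s_BD1 : S_BD1 :=
  ⟨{ carrier := {q | Bd q}
     mul_mem' := BD1x.mul
     one_mem' := BD1x.one
     add_mem' := BD1x.add
     zero_mem' := BD1x.zero
     neg_mem' := BD1x.neg }, fun _ => Iff.rfl⟩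

end Pool.Agent.P.MP_e5b57f_nt.GD
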