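import Pool.Agent.P.MP_e5b57f_nt.GD.Iface

/-! Closure properties of the bounded series in two variables. -/

namespace Pool.Agent.P.MP_e5b57f_nt.GD

open PowerSeries Filter Topology Finset
open scoped Polynomial

namespace BD2x

lemma bd_of {q : ℚ[X]⟦X⟧} (c : ℚ) (k l : ℕ) (h1 : ∀ n, (coeff n q).natDegree ≤ n + k)
    (h2 : ∀ n j, |(coeff n q).coeff j| ≤ c * ((n : ℚ) + 1) ^ l) : Bd q := by
  refine ⟨⌈c⌉₊, k + l, fun n => ⟨(h1 n).trans (by omega), fun j => (h2 n j).trans ?_⟩⟩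
  have h3 : (1 : ℚ) ≤ (n : ℚ) + 1 := le_add_of_nonneg_left (Nat.cast_nonneg n)
  exact mul_le_mul (Nat.le_ceil c) (pow_le_pow_right₀ h3 (by omega)) (by positivity)
    (Nat.cast_nonneg _)

lemma shift_pow (n K k : ℕ) : (((n + K : ℕ) : ℚ) + 1) ^ k ≤ ((K : ℚ) + 1) ^ k * ((n : ℚ) + 1) ^ k := by
  rw [← mul_pow]
  refine pow_le_pow_left₀ (by positivity) ?_ k
  have h1 : (0 : ℚ) ≤ n := Nat.cast_nonneg n
  have h2 : (0 : ℚ) ≤ K := Nat.cast_nonneg K
  push_cast
  nlinarith [mul_nonneg h1 h2]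

lemma bd_dL (q : ℚ[X]⟦X⟧) (h : Bd q) : Bd (dL q) := by
  obtain ⟨c, k, h⟩ := h
  refine bd_of (c * (k + 1)) k (k + 1) (fun n => ?_) fun n j => ?_
  · rw [dL, coeff_mk]
    exact (Polynomial.natDegree_derivative_le _).trans ((Nat.sub_le _ _).trans (h n).1)
  · rw [dL, coeff_mk, Polynomial.coeff_derivative]
    by_cases hj : n + k < j + 1
    · rw [Polynomial.coeff_eq_zero_of_natDegree_lt ((h n).1.trans_lt hj), zero_mul, abs_zero]
      positivity
    · have h1 : (j : ℚ) + 1 ≤ n + k := by exact_mod_cast not_lt.1 hj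
      have h2 : (0 : ℚ) ≤ n := Nat.cast_nonneg n
      have h3 : (0 : ℚ) ≤ k := Nat.cast_nonneg k
      have h4 : (j : ℚ) + 1 ≤ (k + 1) * (n + 1) := by nlinarith [mul_nonneg h2 h3]
      rw [abs_mul, abs_of_nonneg (by positivity : (0 : ℚ) ≤ (j : ℚ) + 1)]
      refine (mul_le_mul ((h n).2 _) h4 (by positivity) (by positivity)).trans (le_of_eq ?_)
      ring

lemma bd_shift (q : ℚ[X]⟦X⟧) (K : ℕ) (h : Bd q) : Bd (mk fun n => coeff (n + K) q) := by
  obtain ⟨c, k, h⟩ := h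
  refine bd_of (c * ((K : ℚ) + 1) ^ k) (K + k) k (fun n => ?_) fun n j => ?_
  · rw [coeff_mk]
    exact (h _).1.trans (by omega)
  · rw [coeff_mk, mul_assoc]
    exact ((h _).2 j).trans (mul_le_mul_of_nonneg_left (shift_pow n K k) (Nat.cast_nonneg _))

lemma bd_dT (q : ℚ[X]⟦X⟧) (h : Bd q) : Bd (dT q) := by
  obtain ⟨c, k, h⟩ := bd_shift q 1 h
  simp only [coeff_mk] at h
  have e : ∀ n : ℕ, (n : ℚ[X]) + 1 = Polynomial.C ((n : ℚ) + 1) := fun n => by simp
  refine bd_of c k (k + 1) (fun n => ?_) fun n j => ?_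
  · rw [dT, coeff_mk, e]
    exact (Polynomial.natDegree_mul_C_le _ _).trans (h n).1
  · rw [dT, coeff_mk, e, Polynomial.coeff_mul_C, abs_mul,
      abs_of_nonneg (by positivity : (0 : ℚ) ≤ (n : ℚ) + 1), pow_succ, ← mul_assoc]
    exact mul_le_mul_of_nonneg_right ((h n).2 j) (by positivity)

lemma bd_C (c : ℚ[X]) : Bd (C c) := by
  refine bd_of (∑ j ∈ c.support, |c.coeff j|) c.natDegree 0 (fun n => ?_) fun n j => ?_
  · rw [coeff_C]
    split_ifs <;> simp
  · have h0 : 0 ≤ ∑ j ∈ c.support, |c.coeff j| := sum_nonneg fun _ _ => abs_nonneg _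
    rw [coeff_C, pow_zero, mul_one]
    split_ifs
    · by_cases hj : j ∈ c.support
      · exact single_le_sum (f := fun j => |c.coeff j|) (fun _ _ => abs_nonneg _) hj
      · rwa [Polynomial.notMem_support_iff.1 hj, abs_zero]
    · simpa using h0

lemma bd_X : Bd X := by
  refine bd_of 1 0 0 (fun n => ?_) fun n j => ?_
  · rw [coeff_X]
    split_ifs <;> simp
  · rw [coeff_X]
    split_ifs
    · rw [Polynomial.coeff_one]
      split_ifs <;> simp
    · simp

lemma aa_nonneg (n : ℕ) : 0 ≤ aa n := by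
  unfold aa
  positivity

lemma aa_le (n : ℕ) : aa n ≤ 1 := by
  unfold aa
  rw [div_le_one (by positivity)]
  have h := Nat.choose_le_two_pow (2 * n) n
  rw [pow_mul] at h
  exact_mod_cast h

lemma cn_deg (n : ℕ) : (cn n).natDegree ≤ n := by
  refine Polynomial.natDegree_sum_le_of_forall_le _ _ fun p hp => ?_
  refine (Polynomial.natDegree_C_mul_X_pow_le _ _).trans ?_
  have := mem_antidiagonal.1 hp
  omega

lemma cn_coeff (n j : ℕ) : |(cn n).coeff j| ≤ (n : ℚ) + 1 := by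
  rw [cn, Polynomial.finsetSum_coeff]
  refine (abs_sum_le_sum_abs _ _).trans ((sum_le_card_nsmul _ _ 1 fun p _ => ?_).trans ?_)
  · rw [Polynomial.coeff_C_mul_X_pow]
    split_ifs
    · rw [abs_of_nonneg (mul_nonneg (aa_nonneg _) (aa_nonneg _))]
      exact mul_le_one₀ (aa_le _) (aa_nonneg _) (aa_le _)
    · simp
  · simp

lemma bd_F : Bd Fq := by
  refine bd_of 1 0 0 (fun n => ?_) fun n j => ?_
  · rw [Fq, coeff_mk, Polynomial.natDegree_C]
    exact Nat.zero_le _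
  · rw [Fq, coeff_mk, Polynomial.coeff_C]
    split_ifs
    · rw [abs_of_nonneg (sq_nonneg _), pow_zero, mul_one]
      exact pow_le_one₀ (aa_nonneg _) (aa_le _)
    · simp

lemma bd_Y : Bd Yq := by
  refine bd_of 1 0 1 (fun n => ?_) fun n j => ?_
  · rw [Yq, coeff_mk]
    exact cn_deg n
  · rw [Yq, coeff_mk, one_mul, pow_one]
    exact cn_coeff n j

lemma bd_U : Bd Uq := by
  refine bd_of 1 0 1 (fun n => ?_) fun n j => ?_
  · rw [Uq, coeff_mk]
    exact (Polynomial.natDegree_C_mul_le _ _).trans (cn_deg n)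
  · rw [Uq, coeff_mk, Polynomial.coeff_C_mul, abs_mul, pow_one]
    refine mul_le_mul ?_ (cn_coeff n j) (abs_nonneg _) zero_le_one
    have h : (0 : ℚ) ≤ n := Nat.cast_nonneg n
    rw [abs_of_nonneg (by positivity), div_le_one (by positivity)]
    linarith

end BD2x

open BD2x in
theorem s_BD2 : S_BD2 := ⟨bd_dL, bd_dT, bd_C, bd_X, bd_shift, bd_F, bd_Y, bd_U⟩

end Pool.Agent.P.MP_e5b57f_nt.GD
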