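import Pool.Agent.P.MP_e5b57f_nt.GD.Iface

namespace Pool.Agent.P.MP_e5b57f_nt.GD

open PowerSeries Filter Topology Finset
open scoped Polynomial

namespace BRAx

theorem sz_c (u : ℝ) : sz (u : ℂ) = (sz u : ℝ) := by simp [sz]

theorem rz_c (u : ℝ) : rz (u : ℂ) = (rz u : ℝ) := by simp [rz]

theorem mu_c (g M : ℕ) (t u : ℝ) : mu g M (t : ℂ) u = (mu g M t u : ℝ) := by simp [mu]

theorem al_c (g M : ℕ) (t u : ℝ) : al g M (t : ℂ) u = (al g M t u : ℝ) := by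
  simp [al, mu_c, sz_c, rz_c]

theorem lam_c (g M : ℕ) (t u : ℝ) : lam g M (t : ℂ) u = (lam g M t u : ℝ) := by
  simp [lam, mu_c, al_c]

theorem sr_c (a : Bool) (u : ℝ) : sr a (u : ℂ) = (sr a u : ℝ) := by
  cases a <;> simp [sr, sz_c, rz_c]

theorem an_sr {w : ℂ → ℂ} {x : ℂ} {u : ℝ} (h : AnalyticAt ℂ w x) (e : w x = u) :
    AnalyticAt ℂ (fun z => sz (w z)) x ∧ AnalyticAt ℂ (fun z => rz (w z)) x := by
  unfold sz rz
  refine ⟨AnalyticAt.fun_div (by fun_prop) (by fun_prop) ?_,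
    AnalyticAt.fun_div (by fun_prop) (by fun_prop) ?_⟩ <;> rw [e]
  · exact_mod_cast (by positivity : (1 + u ^ 2 : ℝ) ≠ 0)
  · exact_mod_cast (by positivity : (1 + 4 * u ^ 2 : ℝ) ≠ 0)

theorem sr_b (a : Bool) {u : ℝ} (h0 : 0 ≤ u) (h1 : u ≤ 1 / 8) : sr a u ^ 2 ≤ 1 / 4 := by
  have : 0 ≤ sr a u ∧ sr a u ≤ 1 / 2 := by
    cases a <;> simp only [sr, sz, rz, cond_true, cond_false] <;>
      exact ⟨by positivity, by rw [div_le_iff₀ (by positivity)]; nlinarith⟩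
  nlinarith

end BRAx

open BRAx in
theorem s_BRA : S_BRA := by
  intro g M i θ w ρ h
  have key : ∀ x ∈ Set.Icc 0 ρ, (AnalyticAt ℂ (fun z => lam g M (θ z) (w z)) (x : ℝ) ∧
      ∃ u : ℝ, lam g M (θ (x : ℝ)) (w (x : ℝ)) = u ∧ 0 ≤ u ∧ (x < ρ → u < 1) ∧ (x = ρ → u = 1)) := by
    intro x hx
    obtain ⟨t, u, e1, e2, h1, h2, -, h4, h5⟩ := h.real x hx
    obtain ⟨a1, a2⟩ := h.an x hx
    obtain ⟨b1, b2⟩ := an_sr a2 e2
    have m0 : 0 ≤ mu g M t u := by unfold mu; positivity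
    have m1 : 0 < al g M t u := by unfold al; positivity
    have b3 : AnalyticAt ℂ (fun z => mu g M (θ z) (w z)) (x : ℝ) := by unfold mu; fun_prop
    refine ⟨?_, lam g M t u, by rw [e1, e2, lam_c], by unfold lam; positivity, h4, h5⟩
    refine AnalyticAt.fun_div (by fun_prop) (by unfold al; fun_prop) ?_
    rw [e1, e2, al_c]
    exact_mod_cast m1.ne'
  refine ⟨key, fun x hx a => ?_⟩
  obtain ⟨t, u, -, e2, -, h2, h3, -⟩ := h.real x hx
  obtain ⟨-, v, e3, v0, v1, v2⟩ := key x hx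
  obtain ⟨b1, b2⟩ := an_sr (h.an x hx).2 e2
  refine ⟨by cases a; exacts [b2, b1], ?_⟩
  have v3 : v ≤ 1 := hx.2.lt_or_eq.elim (fun c => (v1 c).le) fun c => (v2 c).le
  rw [Dom, e3, e2, sr_c, ← Complex.ofReal_pow, Complex.norm_real, Complex.norm_real,
    Real.norm_of_nonneg v0, max_eq_left v3, Real.norm_of_nonneg (sq_nonneg _)]
  linarith [sr_b a h2 h3]

end Pool.Agent.P.MP_e5b57f_nt.GD
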