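import Pool.Agent.P.MP_e5b57f_nt.GD.Iface

/-! The Taylor series of the parameters along a branch. -/

namespace Pool.Agent.P.MP_e5b57f_nt.GD

open PowerSeries Filter Topology Finset
open scoped Polynomial

namespace BRSx

/-- Analytic germs with a globally bounded algebraic Taylor series. -/
structure Q (f : ℂ → ℂ) : Prop where
  an : AnalyticAt ℂ f 0
  gb : GB (tay f)
  alg : Alg (tay f)

variable (hGB : S_GB) {f g : ℂ → ℂ}
include hGB

theorem Q.add (hf : Q f) (hg : Q g) : Q fun z => f z + g z :=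
  ⟨hf.an.fun_add hg.an, tay_add hf.an hg.an ▸ hGB.1 _ _ hf.gb hg.gb,
    tay_add hf.an hg.an ▸ hf.alg.add hg.alg⟩

theorem Q.mul (hf : Q f) (hg : Q g) : Q fun z => f z * g z :=
  ⟨hf.an.fun_mul hg.an, tay_mul hf.an hg.an ▸ hGB.2.1 _ _ hf.gb hg.gb,
    tay_mul hf.an hg.an ▸ hf.alg.mul hg.alg⟩

theorem Q.const (c : ℚ) {a : ℂ} (h : a = c) : Q fun _ => a := by
  refine ⟨analyticAt_const, by rw [tay_const, h]; exact hGB.2.2.2.1 c, ?_⟩
  have := isAlgebraic_algebraMap (R := ℚ[X]) (A := ℂ⟦X⟧) (Polynomial.C c)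
  rwa [← aeval_X_eq, Polynomial.aeval_C, algebraMap_rat, ← tay_const, eq_ratCast, ← h] at this

theorem Q.sub (hf : Q f) (hg : Q g) : Q fun z => f z - g z := by
  simpa [sub_eq_add_neg] using hf.add hGB ((Q.const hGB (-1) (a := -1) (by simp)).mul hGB hg)

theorem Q.sq (hf : Q f) : Q fun z => f z ^ 2 := by simpa only [pow_two] using hf.mul hGB hf

theorem Q.div (hf : Q f) (hg : Q g) (h0 : g 0 ≠ 0) : Q fun z => f z / g z := by
  have h1 := hg.an.fun_inv h0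
  have h2 : tay g * tay (fun z => (g z)⁻¹) = 1 := by
    rw [← tay_mul hg.an h1, ← tay_one]
    exact tay_congr ((hg.an.continuousAt.eventually_ne h0).mono fun z hz => mul_inv_cancel₀ hz)
  simp only [div_eq_mul_inv]
  exact hf.mul hGB ⟨h1, hGB.2.2.2.2.2.1 _ _ hg.gb h2, IsAlgebraic.of_mul
    (mem_nonZeroDivisors_of_ne_zero (left_ne_zero_of_mul_eq_one h2)) hg.alg
    (h2 ▸ isAlgebraic_one)⟩

theorem nice {w h : ℂ → ℂ} (hw : Q w) (w0 : w 0 = 0) (w1 : deriv w 0 = 1) (hh : Q h)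
    (h0 : h 0 ≠ 0) (e : ∀ z, f z = w z * h z) : ∃ N, 0 < N ∧ ∀ N', Nice (N * N') f := by
  obtain rfl : f = fun z => w z * h z := funext e
  have hq := hw.mul hGB hh
  have z0 : w 0 * h 0 = 0 := by rw [w0, zero_mul]
  obtain ⟨N, hN, hi⟩ := hGB.2.2.2.2.2.2.1 _ hq.gb ((constantCoeff_tay _).trans z0)
  refine ⟨N, hN, fun N' => ⟨hq.an, z0, hGB.2.2.2.2.2.2.2 _ _ _ hi, hq.alg, ?_⟩⟩
  rw [tay_mul hw.an hh.an]
  refine mul_ne_zero (fun e => ?_) fun e => h0 ?_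
  · have := coeff_one_tay w
    rw [e, w1, map_zero] at this
    exact zero_ne_one this
  · rw [← constantCoeff_tay h, e, map_zero]

end BRSx

open BRSx in
theorem s_BRS (hGB : S_GB) (hGBT : S_GBT) (hBRA : S_BRA) : S_BRS := by
  intro g M i θ w ρ h
  have h0 : (0 : ℝ) ∈ Set.Icc 0 ρ := ⟨le_rfl, h.pos.le⟩
  obtain ⟨aθ, aw⟩ := h.an 0 h0
  rw [Complex.ofReal_zero] at aθ aw
  have hw : Q w := ⟨aw, h.gb, h.alg⟩
  have e : ∏ l ∈ range g, (tay θ - (l : ℂ⟦X⟧)) = tay w := by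
    rw [← tay_congr h.eqn, tay_prod _ fun l _ => aθ.fun_sub analyticAt_const]
    exact prod_congr rfl fun l _ => by rw [tay_sub aθ analyticAt_const, tay_const, map_natCast]
  have hθ : Q θ := by
    refine ⟨aθ, hGBT g i _ _ h.lt ((constantCoeff_tay _).trans h.th0)
      ((constantCoeff_tay _).trans h.w0) h.gb e, ?_⟩
    have hm := Polynomial.monic_prod_X_sub_C (fun l : ℕ => (l : ℚ[X])) (range g)
    refine IsAlgebraic.of_aeval (∏ l ∈ range g, (Polynomial.X - Polynomial.C (l : ℚ[X]))) ?_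
      (hm.leadingCoeff ▸ one_mem _) ?_
    · rw [Polynomial.natDegree_finsetProd_X_sub_C_eq_card, card_range]; exact h.gpos.ne'
    · simpa [e] using h.alg
  have c : ∀ n : ℕ, Q fun _ => (n : ℂ) := fun n => Q.const hGB n (by simp)
  have c1 : Q fun _ => (1 : ℂ) := Q.const hGB 1 (by simp)
  have c2 : Q fun _ => (2 : ℂ) := Q.const hGB 2 (by simp)
  have c4 : Q fun _ => (4 : ℂ) := Q.const hGB 4 (by simp)
  have g0 : (4 : ℂ) * g ≠ 0 := mul_ne_zero (by norm_num) (Nat.cast_ne_zero.2 h.gpos.ne')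
  have d1 := c1.add hGB (hw.sq hGB)
  have d4 := c1.add hGB (c4.mul hGB (hw.sq hGB))
  have hs : Q fun z => sz (w z) := (c2.mul hGB hw).div hGB d1 (by simp [h.w0])
  have hr : Q fun z => rz (w z) := (c4.mul hGB hw).div hGB d4 (by simp [h.w0])
  have hm : Q fun z => mu g M (θ z) (w z) :=
    (((c M).add hGB hθ).mul hGB hw).div hGB (c4.mul hGB (c g)) g0
  have ha : Q fun z => al g M (θ z) (w z) := (c1.add hGB (hm.mul hGB ((hs.add hGB hr).sq hGB))).mul
    hGB (c1.add hGB (hm.mul hGB ((hs.sub hGB hr).sq hGB)))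
  have a0 : al g M (θ 0) (w 0) = 1 := by simp [al, mu, h.w0]
  have m0 : (M : ℂ) + θ 0 ≠ 0 := by
    obtain ⟨t, u, h1, -, h2, -⟩ := h.real 0 h0
    rw [Complex.ofReal_zero] at h1
    rw [h1]
    exact_mod_cast h2.ne'
  obtain ⟨N₁, p₁, n₁⟩ := nice hGB (f := fun z => lam g M (θ z) (w z)) hw h.w0 h.w1
    ((c4.mul hGB (((c M).add hGB hθ).div hGB (c4.mul hGB (c g)) g0)).div hGB ha (by simp [a0]))
    (by simp [a0, m0, h.gpos.ne']) fun z => by simp only [lam, mu]; ring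
  obtain ⟨N₂, p₂, n₂⟩ := nice hGB (f := fun z => sr true (w z)) hw h.w0 h.w1
    (c2.div hGB d1 (by simp [h.w0])) (by simp [h.w0]) fun z => by simp only [sr, sz, cond]; ring
  obtain ⟨N₃, p₃, n₃⟩ := nice hGB (f := fun z => sr false (w z)) hw h.w0 h.w1
    (c4.div hGB d4 (by simp [h.w0])) (by simp [h.w0]) fun z => by simp only [sr, rz, cond]; ring
  refine ⟨N₁ * (N₂ * N₃), by positivity, n₁ _, fun a => ?_⟩
  cases a
  · rw [show N₁ * (N₂ * N₃) = N₃ * (N₁ * N₂) by ring]; exact n₃ _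
  · rw [show N₁ * (N₂ * N₃) = N₂ * (N₁ * N₃) by ring]; exact n₂ _

end Pool.Agent.P.MP_e5b57f_nt.GD
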