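import Pool.Agent.P.MP_e5b57f_nt.GD.Iface

namespace Pool.Agent.P.MP_e5b57f_nt.GD

open PowerSeries Filter Topology Finset
open scoped Polynomial

namespace COMPx

theorem box {a b x y : ℝ} (hb : 0 < b) (hab : b < a) (h : y ^ 2 = x * (x - a) * (x - b))
    (hx : x < a) : (x, y) ∈ Set.Icc (0 : ℝ) b ×ˢ Set.Icc (-(1 + a ^ 3)) (1 + a ^ 3) := by
  have h0 : 0 ≤ x := by
    by_contra hn
    have h1 : x < 0 := not_le.1 hn
    have : 0 < x * (x - a) := mul_pos_of_neg_of_neg h1 (by linarith)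
    nlinarith [sq_nonneg y, mul_neg_of_pos_of_neg this (show x - b < 0 by linarith)]
  have h1 : x ≤ b := by
    by_contra hn
    have h1 : b < x := not_le.1 hn
    have : x * (x - a) < 0 := mul_neg_of_pos_of_neg (by linarith) (by linarith)
    nlinarith [sq_nonneg y, mul_neg_of_neg_of_pos this (show 0 < x - b by linarith)]
  have h2 : y ^ 2 ≤ a ^ 3 := by
    have e : x * (x - a) * (x - b) = x * (a - x) * (b - x) := by ring
    rw [h, e, show a ^ 3 = a * a * a by ring]
    have ha : 0 ≤ a := by linarith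
    exact mul_le_mul (mul_le_mul hx.le (by linarith) (by linarith) ha) (by linarith) (by linarith)
      (mul_nonneg ha ha)
  refine ⟨⟨h0, h1⟩, ?_, ?_⟩ <;> nlinarith [sq_nonneg (y + 1), sq_nonneg (y - 1), sq_nonneg y]

end COMPx

theorem s_COMP : S_COMP := by
  intro K _ α β h f hf σ
  obtain ⟨hb, hab⟩ := h σ
  have hc : ∀ g ∈ idComp (leg α β), g σ = OnePoint.infty ∨ ∃ x y : ℝ,
      g σ = OnePoint.some (x, y) ∧ y ^ 2 = x * (x - σ α) * (x - σ β) := by
    intro g hg
    rcases connectedComponentIn_subset _ _ hg σ with h1 | ⟨x, y, h1, h2⟩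
    · exact Or.inl h1
    · refine Or.inr ⟨x, y, h1, ?_⟩
      rw [WeierstrassCurve.Affine.equation_iff] at h2
      simp only [leg, WeierstrassCurve.map, WeierstrassCurve.toAffine, map_zero, map_neg, map_add,
        map_mul] at h2
      linear_combination h2
  rcases hc f hf with h1 | ⟨x, y, h1, h2⟩
  · exact Or.inl h1
  refine Or.inr ⟨x, y, h1, h2, ?_⟩
  by_contra hn
  have hx : x < σ α := not_le.1 hn
  have hp : IsPreconnected ((fun g : (K →+* ℝ) → OnePoint (ℝ × ℝ) => g σ) '' idComp (leg α β)) :=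
    isPreconnected_connectedComponentIn.image _ (continuous_apply σ).continuousOn
  set B : Set (ℝ × ℝ) := Set.Icc (0 : ℝ) (σ β) ×ˢ Set.Icc (-(1 + σ α ^ 3)) (1 + σ α ^ 3) with hB
  have hU : IsOpen (OnePoint.some '' B)ᶜ :=
    ((isCompact_Icc.prod isCompact_Icc).image OnePoint.continuous_coe).isClosed.isOpen_compl
  have hV : IsOpen (OnePoint.some '' {p : ℝ × ℝ | p.1 < σ α}) :=
    OnePoint.isOpen_image_coe.2 (isOpen_lt continuous_fst continuous_const)
  obtain ⟨_, ⟨g, hg, rfl⟩, h3, p, h4, h5⟩ := hp _ _ hU hV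
    (by
      rintro q -
      by_cases hq : q ∈ OnePoint.some '' B
      · obtain ⟨p, hp, rfl⟩ := hq
        exact Or.inr ⟨p, lt_of_le_of_lt hp.1.2 hab, rfl⟩
      · exact Or.inl hq)
    ⟨OnePoint.infty, ⟨fun _ => OnePoint.infty, mem_connectedComponentIn fun _ => Or.inl rfl, rfl⟩,
      OnePoint.infty_notMem_image_coe⟩
    ⟨f σ, ⟨f, hf, rfl⟩, (x, y), hx, h1.symm⟩
  rcases hc g hg with h6 | ⟨x', y', h6, h7⟩
  · exact OnePoint.coe_ne_infty p (h5.trans h6)
  · obtain rfl : p = (x', y') := OnePoint.coe_injective (h5.trans h6)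
    exact h3 ⟨_, COMPx.box hb hab h7 h4, h5⟩

end Pool.Agent.P.MP_e5b57f_nt.GD
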