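import Pool.Agent.P.MP_e5b57f_nt.GD.Iface

/-! Continuity of the parametrisation at the point at infinity. -/

namespace Pool.Agent.P.MP_e5b57f_nt.GD

open PowerSeries Filter Topology Finset
open scoped Polynomial

theorem s_CONT : S_CONT := by
  intro α S Y f hα hS hY h0 h1
  refine continuous_iff_continuousAt.2 fun u₀ => ?_
  by_cases hu : S u₀ = 0
  · rw [ContinuousAt, h0 u₀ hu, OnePoint.hasBasis_nhds_infty.tendsto_right_iff]
    rintro K ⟨-, hK⟩
    obtain ⟨R, hR⟩ := (hK.image continuous_fst).bddAbove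
    have hc : ContinuousAt (fun u => R * S u ^ 2) u₀ := by fun_prop
    have hlt : ∀ᶠ u in 𝓝 u₀, R * S u ^ 2 < α :=
      hc.eventually_lt continuousAt_const (by simpa [hu] using hα)
    filter_upwards [hlt] with u hu'
    by_cases hs : S u = 0
    · exact Or.inr (h0 u hs)
    · refine Or.inl ⟨_, fun hm => ?_, (h1 u hs).symm⟩
      have h2 : α / S u ^ 2 ≤ R := hR ⟨_, hm, rfl⟩
      rw [div_le_iff₀ (by positivity)] at h2
      exact absurd hu' (not_lt.2 h2)
  · have hc : ContinuousAt
        (fun u => (OnePoint.some (α / S u ^ 2, Y u / S u ^ 3) : OnePoint (ℝ × ℝ))) u₀ :=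
      OnePoint.continuous_coe.continuousAt.comp
        ((continuousAt_const.div (hS.continuousAt.pow 2) (pow_ne_zero 2 hu)).prodMk
          (hY.continuousAt.div (hS.continuousAt.pow 3) (pow_ne_zero 3 hu)))
    refine hc.congr ?_
    filter_upwards [hS.continuousAt.eventually_ne hu] with u hu'
    exact (h1 u hu').symm

end Pool.Agent.P.MP_e5b57f_nt.GD
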