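import Pool.Agent.P.MP_e5b57f_nt.GD.Iface

/-! Step DENS: denominators after substitution. -/

namespace Pool.Agent.P.MP_e5b57f_nt.GD

open PowerSeries Filter Topology Finset
open scoped Polynomial

namespace DENSx

/-- The ring of series `f` such that `f (N X)` has integer coefficients. -/
def R (N : ℕ) : Subring ℂ⟦X⟧ where
  carrier := {f | IntN N f}
  zero_mem' := fun n => ⟨0, by simp⟩
  one_mem' := fun n => by
    rcases n with _ | n
    · exact ⟨1, by simp⟩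
    · exact ⟨0, by simp [coeff_one]⟩
  add_mem' := fun {f g} hf hg n => by
    obtain ⟨a, ha⟩ := hf n
    obtain ⟨b, hb⟩ := hg n
    exact ⟨a + b, by rw [map_add, mul_add, ha, hb]; simp⟩
  neg_mem' := fun {f} hf n => by
    obtain ⟨a, ha⟩ := hf n
    exact ⟨-a, by rw [map_neg, mul_neg, ha]; simp⟩
  mul_mem' := fun {f g} hf hg n => by
    choose a ha using hf
    choose b hb using hg
    refine ⟨∑ p ∈ antidiagonal n, a p.1 * b p.2, ?_⟩
    rw [coeff_mul, mul_sum, Int.cast_sum]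
    refine sum_congr rfl fun p hp => ?_
    rw [Int.cast_mul, ← ha, ← hb, ← mem_antidiagonal.1 hp, pow_add]
    ring

theorem aeval_mem {N d : ℕ} {l : ℂ⟦X⟧} (hl : l ∈ R N) {q : ℚ[X]}
    (h : ∀ j, ∃ a : ℤ, (d : ℚ) * q.coeff j = a) : (d : ℂ⟦X⟧) * Polynomial.aeval l q ∈ R N := by
  rw [Polynomial.aeval_eq_sum_range, mul_sum]
  refine (R N).sum_mem fun j _ => ?_
  obtain ⟨a, ha⟩ := h j
  have : (d : ℂ⟦X⟧) * q.coeff j • l ^ j = (a : ℂ⟦X⟧) * l ^ j := by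
    rw [← nsmul_eq_mul, ← Nat.cast_smul_eq_nsmul ℚ, smul_smul, ha, Int.cast_smul_eq_zsmul,
      zsmul_eq_mul]
  rw [this]
  exact (R N).mul_mem (intCast_mem _ a) ((R N).pow_mem hl j)

end DENSx

open DENSx

theorem s_DENS : S_DENS := by
  intro q l t u N hN ⟨C, hC⟩ hs hl ht h0
  refine ⟨C * N, fun n => ?_⟩
  obtain ⟨d, hd, hdC, hq⟩ := hC n
  refine ⟨d * N ^ n, by positivity, ?_, fun k hk => ?_⟩
  · rw [mul_pow]
    exact Nat.mul_le_mul hdC (Nat.pow_le_pow_right hN (Nat.le_succ n))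
  have h1 : (X : ℂ⟦X⟧) ^ (n + 1) ∣
      u - ∑ k ∈ range (n + 1), Polynomial.aeval l (coeff k q) * t ^ k :=
    (pow_dvd_pow_of_dvd (X_dvd_iff.2 h0) _).trans (hs (n + 1))
  have h2 := X_pow_dvd_iff.1 h1 k (Nat.lt_succ_of_le hk)
  rw [map_sub, sub_eq_zero] at h2
  have h3 : (d : ℂ⟦X⟧) * ∑ k ∈ range (n + 1), Polynomial.aeval l (coeff k q) * t ^ k ∈ R N := by
    rw [mul_sum]
    refine (R N).sum_mem fun i hi => ?_
    rw [← mul_assoc]
    exact (R N).mul_mem (aeval_mem hl (hq i (Nat.le_of_lt_succ (mem_range.1 hi))))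
      ((R N).pow_mem ht i)
  obtain ⟨a, ha⟩ := h3 k
  rw [← nsmul_eq_mul, map_nsmul, ← h2, nsmul_eq_mul] at ha
  obtain ⟨m, rfl⟩ := Nat.exists_eq_add_of_le hk
  refine ⟨N ^ m * a, ?_⟩
  push_cast
  rw [← ha]
  ring

end Pool.Agent.P.MP_e5b57f_nt.GD
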