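import Pool.Agent.P.MP_e5b57f_nt.GD.Iface

/-! Density of the multiples from the independence of the elliptic logarithms. -/

namespace Pool.Agent.P.MP_e5b57f_nt.GD

open PowerSeries Filter Topology Finset
open scoped Polynomial

namespace DENSEx

theorem op_inj {W : WeierstrassCurve ℝ} : Function.Injective (op (W := W)) := by
  rintro (_ | ⟨x, y, h⟩) (_ | ⟨x', y', h'⟩) e
  · rfl
  · exact absurd e.symm (OnePoint.coe_ne_infty _)
  · exact absurd e (OnePoint.coe_ne_infty _)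
  · have e' : (x, y) = (x', y') := OnePoint.coe_eq_coe.1 e
    obtain ⟨rfl, rfl⟩ := Prod.mk.inj e'
    rfl

end DENSEx

theorem s_DENSE (hKRO : S_KRO) (hPMAP : S_PMAP) (hCOMP : S_COMP) : S_DENSE := by
  intro K _ _ _ α β P α' β' t Φ k h hind f hf
  have hx : ∀ σ, ∃ x : ℝ, f σ = op (Φ σ x) := fun σ => by
    obtain ⟨ha, hb, h0, h1, hP, -⟩ := h σ
    rcases hCOMP K α β (fun τ => by
      obtain ⟨ha, hb, h0, h1, -⟩ := h τ
      rw [ha, hb]; exact ⟨h0, h1⟩) f hf σ with e | ⟨x, y, e, hy, hle⟩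
    · exact ⟨0, by rw [e, map_zero]; rfl⟩
    · rw [ha, hb] at hy
      rw [ha] at hle
      obtain ⟨s, hs⟩ := hP.surj x y hy hle
      exact ⟨s, e.trans hs.symm⟩
  choose x hx using hx
  have key : ∀ (n : ℤ) (j : (K →+* ℝ) → ℤ) σ,
      toReal ((n * k) • P) σ = op (Φ σ (n * t σ - j σ)) := fun n j σ => by
    obtain ⟨ha, hb, -, -, hP, ht⟩ := h σ
    obtain ⟨g, hg⟩ := hPMAP K σ α β (α' σ) (β' σ) ha hb
    have e : g (k • P) = Φ σ (t σ) := DENSEx.op_inj ((hg _).trans ht)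
    have e1 : Φ σ (n * t σ - j σ) = n • Φ σ (t σ) := by
      rw [map_sub, ← zsmul_eq_mul, map_zsmul, ← zsmul_one (j σ), map_zsmul, hP.per]
      exact (congrArg _ (zsmul_zero _)).trans (sub_zero _)
    rw [← hg, e1, ← e, mul_smul, map_zsmul]
  have hk := fun m : ℕ => hKRO (K →+* ℝ) t x (fun c c₀ hc => ⟨0, by simp [hind c c₀ hc]⟩)
    (1 / ((m : ℝ) + 1)) (by positivity)
  choose n j hnj using hk
  refine mem_closure_of_tendsto (b := atTop) (f := fun m : ℕ => toReal ((n m * k) • P)) ?_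
    (Eventually.of_forall fun m => ⟨n m * k, rfl⟩)
  refine tendsto_pi_nhds.2 fun σ => ?_
  have hl : Tendsto (fun m : ℕ => (n m : ℝ) * t σ - j m σ) atTop (𝓝 (x σ)) := by
    rw [tendsto_iff_dist_tendsto_zero]
    exact squeeze_zero (fun _ => dist_nonneg) (fun m => (hnj m σ).le)
      tendsto_one_div_add_atTop_nhds_zero_nat
  rw [hx σ]
  exact ((((h σ).2.2.2.2.1.cont.tendsto _).comp hl).congr fun m => (key (n m) (j m) σ).symm)

end Pool.Agent.P.MP_e5b57f_nt.GD
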