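import Pool.Agent.P.MP_e5b57f_nt.GD.Iface

namespace Pool.Agent.P.MP_e5b57f_nt.GD

open PowerSeries Filter Topology Finset
open scoped Polynomial

namespace DFMx

theorem sat_mem {S : Set ℂ⟦X⟧} {u : ℂ⟦X⟧} (h : u ∈ S) : Sat S u :=
  ⟨1, one_ne_zero, by rw [one_smul]; exact Submodule.subset_span h⟩

theorem sat_add {S : Set ℂ⟦X⟧} {u v : ℂ⟦X⟧} (hu : Sat S u) (hv : Sat S v) : Sat S (u + v) := by
  obtain ⟨T, hT, h1⟩ := hu
  obtain ⟨R, hR, h2⟩ := hv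
  refine ⟨T * R, mul_ne_zero hT hR, ?_⟩
  rw [smul_add]
  refine Submodule.add_mem _ ?_ ?_
  · rw [mul_comm, mul_smul]; exact Submodule.smul_mem _ _ h1
  · rw [mul_smul]; exact Submodule.smul_mem _ _ h2

theorem sat_mul {S S' : Set ℂ⟦X⟧} {u v : ℂ⟦X⟧} (hu : Sat S u) (hv : Sat S' v) :
    Sat (Set.image2 (· * ·) S S') (u * v) := by
  obtain ⟨T, hT, h1⟩ := hu
  obtain ⟨R, hR, h2⟩ := hv
  refine ⟨T * R, mul_ne_zero hT hR, ?_⟩
  have h := Submodule.mul_mem_mul h1 h2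
  rw [Submodule.span_mul_span] at h
  rw [smul_mul_smul_comm] at h
  exact h

end DFMx

open DFMx

theorem s_DFM : S_DFM := by
  refine ⟨⟨{1}, Set.finite_singleton _, sat_mem rfl, ?_⟩, ?_⟩
  · rintro y rfl
    refine ⟨1, one_ne_zero, ?_⟩
    rw [Derivation.map_one_eq_zero, smul_zero]
    exact Submodule.zero_mem _
  · rintro f g ⟨S, hS, hf, hd⟩ ⟨S', hS', hg, hd'⟩
    refine ⟨Set.image2 (· * ·) S S', hS.image2 _ hS', sat_mul hf hg, ?_⟩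
    rintro y ⟨a, ha, b, hb, rfl⟩
    have e : d⁄dX ℂ (a * b) = a * d⁄dX ℂ b + d⁄dX ℂ a * b := by
      rw [Derivation.leibniz, smul_eq_mul, smul_eq_mul, mul_comm b]
    show Sat _ (d⁄dX ℂ (a * b))
    rw [e]
    exact sat_add (sat_mul (sat_mem ha) (hd' b hb)) (sat_mul (hd a ha) (sat_mem hb))

end Pool.Agent.P.MP_e5b57f_nt.GD
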