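import Pool.Agent.P.MP_e5b57f_nt.GD.Iface

namespace Pool.Agent.P.MP_e5b57f_nt.GD

open PowerSeries Filter Topology Finset
open scoped Polynomial

namespace DFSx

variable {S S' : Set ℂ⟦X⟧} {u v : ℂ⟦X⟧}

theorem of_mem (h : u ∈ S) : Sat S u :=
  ⟨1, one_ne_zero, by
    rw [one_smul]
    exact Submodule.subset_span h⟩

theorem add (h : Sat S u) (h' : Sat S v) : Sat S (u + v) := by
  obtain ⟨T, h1, h2⟩ := h
  obtain ⟨T', h3, h4⟩ := h'
  refine ⟨T * T', mul_ne_zero h1 h3, ?_⟩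
  rw [smul_add, mul_smul T T' v, mul_comm, mul_smul]
  exact add_mem (Submodule.smul_mem _ _ h2) (Submodule.smul_mem _ _ h4)

theorem sum {n : ℕ} {f : Fin n → ℂ⟦X⟧} (h : ∀ j, Sat S (f j)) : Sat S (∑ j, f j) :=
  Finset.sum_induction f (Sat S) (fun _ _ => add)
    ⟨1, one_ne_zero, by
      rw [smul_zero]
      exact zero_mem _⟩ fun j _ => h j

theorem of_smul {T : ℚ[X]} (hT : T ≠ 0) (h : Sat S (T • u)) : Sat S u := by
  obtain ⟨T', h1, h2⟩ := h
  exact ⟨T' * T, mul_ne_zero h1 hT, by rwa [mul_smul]⟩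

theorem mul (hS : ∀ s ∈ S, s * v ∈ S') (h : Sat S u) : Sat S' (u * v) := by
  obtain ⟨T, h1, h2⟩ := h
  refine ⟨T, h1, ?_⟩
  rw [← smul_mul_assoc]
  refine Submodule.span_induction (p := fun x _ => x * v ∈ Submodule.span ℚ[X] S')
    (fun x hx => Submodule.subset_span (hS x hx)) ?_ (fun x y _ _ a b => ?_)
    (fun c x _ a => ?_) h2
  · rw [zero_mul]
    exact zero_mem _
  · rw [add_mul]
    exact add_mem a b
  · rw [smul_mul_assoc]
    exact Submodule.smul_mem _ _ a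

end DFSx

theorem s_DFS (hAFLD : S_AFLD) : S_DFS := by
  refine ⟨fun f hf => ?_, fun f hf => ?_, fun n y b a₀ a h hy i => ?_⟩
  · obtain ⟨S, -, -, h1, h2, -, h3, -⟩ := hAFLD {f} (Set.finite_singleton f)
      (fun a ha => ha ▸ hf)
    exact h2 _ (h3 _ (h1 f rfl))
  · obtain ⟨S, h0, -, h1, -, -, h3, -⟩ := hAFLD {f} (Set.finite_singleton f)
      (fun a ha => ha ▸ hf)
    exact ⟨S, h0, h1 f rfl, fun y hy => h3 _ (DFSx.of_mem hy)⟩
  · obtain ⟨S, h0, h1, h2, -, h3, h4, h5⟩ := hAFLD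
      (Set.range b ∪ Set.range a₀ ∪ Set.range fun p : Fin n × Fin n => a p.1 p.2)
      (((Set.finite_range _).union (Set.finite_range _)).union (Set.finite_range _)) (by
        rintro _ ((⟨i, rfl⟩ | ⟨i, rfl⟩) | ⟨p, rfl⟩)
        exacts [(h i).1, (h i).2.2.1, (h p.1).2.2.2 p.2])
    set S' := S ∪ Set.image2 (· * ·) S (Set.range y) with hS'
    have k1 : ∀ u, Sat S u → Sat S' u := fun u hu =>
      mul_one u ▸ DFSx.mul (v := 1) (fun s hs => Or.inl (by rwa [mul_one])) hu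
    have k2 : ∀ u j, Sat S u → Sat S' (u * y j) := fun u j =>
      DFSx.mul fun s hs => Or.inr ⟨s, hs, y j, ⟨j, rfl⟩, rfl⟩
    refine ⟨S', h0.union (h0.image2 _ (Set.finite_range y)), one_mul (y i) ▸ k2 1 i h1, ?_⟩
    rintro _ (hs | ⟨s, hs, _, ⟨j, rfl⟩, rfl⟩)
    · exact k1 _ (h4 _ (DFSx.of_mem hs))
    · obtain ⟨b', T, t0, t1, t2⟩ := h5 (b j) (h2 _ (Or.inl (Or.inl ⟨j, rfl⟩))) (h j).2.1
      have hs' := h3 _ _ (DFSx.of_mem hs) t1
      rw [Derivation.leibniz, smul_eq_mul, smul_eq_mul, mul_comm (y j)]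
      refine DFSx.add (DFSx.of_smul t0 ?_) (k2 _ j (h4 _ (DFSx.of_mem hs)))
      have e : T • (s * d⁄dX ℂ (y j)) = s * b' * a₀ j + ∑ l, s * b' * a j l * y l := by
        simp only [mul_assoc (s * b')]
        rw [← mul_sum, ← mul_add, ← hy, Algebra.smul_def, ← t2]
        ring
      rw [e]
      exact DFSx.add (k1 _ (h3 _ _ hs' (h2 _ (Or.inl (Or.inr ⟨j, rfl⟩)))))
        (DFSx.sum fun l => k2 _ l (h3 _ _ hs' (h2 _ (Or.inr ⟨(j, l), rfl⟩))))

end Pool.Agent.P.MP_e5b57f_nt.GD
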