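import Pool.Agent.P.MP_e5b57f_nt.GD.Iface

namespace Pool.Agent.P.MP_e5b57f_nt.GD

open PowerSeries Filter Topology Finset
open scoped Polynomial

namespace ELIMx

theorem key {ι : Type} [Fintype ι] {B : ι × Bool → ℂ} (h : LinearIndependent ℚ B) (x y : ι → ℤ)
    (h0 : ∑ i, ((x i : ℂ) * B (i, true) + y i * B (i, false)) = 0) (i : ι) : x i = 0 ∧ y i = 0 := by
  have := Fintype.linearIndependent_iff.1 h (fun p => bif p.2 then (x p.1 : ℚ) else y p.1) (by
    rw [Fintype.sum_prod_type, ← h0]
    refine sum_congr rfl fun i _ => ?_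
    simp [Rat.smul_def])
  exact ⟨by simpa using this (i, true), by simpa using this (i, false)⟩

theorem pair {s c m n : ℤ} (hc : c ≠ 0) (h : (m, n) ≠ 0) (h1 : s * c * m = 0) (h2 : s * c * n = 0) :
    s = 0 := by
  by_contra hs
  have := mul_ne_zero hs hc
  exact h (Prod.ext ((mul_eq_zero.1 h1).resolve_left this) ((mul_eq_zero.1 h2).resolve_left this))

theorem comb (a b : ℤ) : ∃ s t : ℤ, (s = 0 → t ≠ 0) ∧ s * a + t * b = 0 := by
  by_cases h : a = 0
  · exact ⟨1, 0, by simp, by simp [h]⟩
  · exact ⟨b, -a, fun _ => neg_ne_zero.2 h, by ring⟩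

end ELIMx

theorem s_ELIM : S_ELIM := by
  refine fun g => ⟨fun B h => ?_, ?_⟩
  · by_cases h0 : ∃ u v : ℤ, (u, v) ≠ 0 ∧ Exc B u v
    · obtain ⟨u, v, h1, c', c0', h2, h3⟩ := h0
      refine ⟨u, v, h1, ?_⟩
      rintro m n ⟨c, c0, h4, h5⟩
      obtain ⟨s, t, h6, h7⟩ := ELIMx.comb c0 c0'
      have k := ELIMx.key h (fun i => s * c i * m + t * c' i * u)
        (fun i => s * c i * n + t * c' i * v) (by
          have h8 : (s : ℂ) * c0 + t * c0' = 0 := by exact_mod_cast h7
          have : ∑ i, (((s * c i * m + t * c' i * u : ℤ) : ℂ) * B (i, true) +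
              ((s * c i * n + t * c' i * v : ℤ) : ℂ) * B (i, false)) =
              s * ∑ i, (c i : ℂ) * (m * B (i, true) + n * B (i, false)) +
              t * ∑ i, (c' i : ℂ) * (u * B (i, true) + v * B (i, false)) := by
            rw [mul_sum, mul_sum, ← sum_add_distrib]
            refine sum_congr rfl fun i _ => ?_
            push_cast
            ring
          rw [this, h3, h5]
          linear_combination Real.pi * h8)
      obtain ⟨i, hi⟩ := Function.ne_iff.1 h4
      obtain ⟨j, hj⟩ := Function.ne_iff.1 h2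
      have hs : s ≠ 0 := fun hs => h6 hs (ELIMx.pair hj h1 (by simpa [hs] using (k j).1)
        (by simpa [hs] using (k j).2))
      refine mul_left_cancel₀ (mul_ne_zero hs hi) ?_
      linear_combination v * (k i).1 - u * (k i).2
    · refine ⟨1, 0, by simp, fun m n h1 => ?_⟩
      by_contra h2
      exact h0 ⟨m, n, fun h3 => h2 (by simpa using (Prod.ext_iff.1 h3).2.symm), h1⟩
  · rintro B h m n m' n' h1 h2 ⟨c, c0, h3, h4⟩ ⟨c', c0', h5, h6⟩
    obtain ⟨s, t, h7, h8⟩ := ELIMx.comb c0 c0'
    have k := ELIMx.key h (fun p => bif p.2 then s * c p.1 * m else t * c' p.1 * m')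
      (fun p => bif p.2 then s * c p.1 * n else t * c' p.1 * n') (by
        have h9 : (s : ℂ) * c0 + t * c0' = 0 := by exact_mod_cast h8
        rw [Fintype.sum_prod_type]
        refine Eq.trans (b := s * ∑ i, (c i : ℂ) * (m * B ((i, true), true) +
            n * B ((i, true), false)) + t * ∑ i, (c' i : ℂ) * (m' * B ((i, false), true) +
            n' * B ((i, false), false))) ?_ ?_
        · rw [mul_sum, mul_sum, ← sum_add_distrib]
          refine sum_congr rfl fun i _ => ?_
          simp only [Fintype.sum_bool, cond_true, cond_false]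
          push_cast
          ring
        · rw [h4, h6]
          linear_combination Real.pi * h9)
    obtain ⟨i, hi⟩ := Function.ne_iff.1 h3
    obtain ⟨j, hj⟩ := Function.ne_iff.1 h5
    exact h7 (ELIMx.pair hi h1 (k (i, true)).1 (k (i, true)).2)
      (ELIMx.pair hj h2 (k (j, false)).1 (k (j, false)).2)

end Pool.Agent.P.MP_e5b57f_nt.GD
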