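import Pool.Agent.P.MP_e5b57f_nt.GD.Iface

/-! The two points lie on the curve. -/

namespace Pool.Agent.P.MP_e5b57f_nt.GD

open PowerSeries Filter Topology Finset
open scoped Polynomial

theorem s_EQN : S_EQN := by
  intro K _ g M θ z a h2 hz h3 h4
  have h5 : (4 : K) ≠ 0 := by
    rw [show (4 : K) = 2 * 2 by norm_num]
    exact mul_ne_zero h2 h2
  have key : ∀ α m s r c : K, s ≠ 0 → s ^ 2 + c ^ 2 = 1 →
      α - 4 * m * s ^ 2 = (1 + m * (r ^ 2 - s ^ 2)) ^ 2 →
      (α * c * (1 + m * (r ^ 2 - s ^ 2)) / s ^ 3) ^ 2 =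
        α / s ^ 2 * (α / s ^ 2 - α) * (α / s ^ 2 - 4 * m) := fun α m s r c a1 a2 a3 => by
    field_simp
    rw [← a3]
    linear_combination (α ^ 2 * (α - 4 * m * s ^ 2)) * a2
  cases a
  · refine key _ _ _ _ _ (div_ne_zero (mul_ne_zero h5 hz) h4) ?_ ?_
    · simp only [sr, cr, cond_false, rz]
      field_simp
      ring
    · simp only [sr, cond_false, cond_true, Bool.not_false, al]
      ring
  · refine key _ _ _ _ _ (div_ne_zero (mul_ne_zero h2 hz) h3) ?_ ?_
    · simp only [sr, cr, cond_true, sz]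
      field_simp
      ring
    · simp only [sr, cond_false, cond_true, Bool.not_true, al]
      ring

end Pool.Agent.P.MP_e5b57f_nt.GD
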