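import Pool.Agent.P.MP_e5b57f_nt.GD.Iface

namespace Pool.Agent.P.MP_e5b57f_nt.GD

open PowerSeries Filter Topology Finset
open scoped Polynomial

theorem s_EV (hSSR : S_SSR) (hSSD : S_SSD) (hSSU : S_SSU) (hBD1 : S_BD1) (hBD2 : S_BD2) :
    S_EV := by
  intro l t hl ht ht0
  have hD0 : Dom (l 0) (t 0) := by simp [Dom, ht0]
  have hD : ∀ᶠ z in 𝓝 (0 : ℂ), Dom (l z) (t z) :=
    ((continuousAt_const.max hl.continuousAt.norm).mul ht.continuousAt.norm).eventually_lt
      continuousAt_const hD0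
  have hA : ∀ q, Bd q → AnalyticAt ℂ (fun z => SS q (l z) (t z)) 0 := fun q hq =>
    (hSSD q l t 0 hq hl ht hD0).1
  have hpt : ∀ a b : ℂ, Dom a b → ∀ p q, Bd p → Bd q →
      SS (p + q) a b = SS p a b + SS q a b ∧ SS (p * q) a b = SS p a b * SS q a b := by
    intro a b hab p q hp hq
    obtain ⟨B, e, hB, he, -⟩ := hSSR a b hab
    have h1 := he ⟨p, (hB p).2 hp⟩
    have h2 := he ⟨q, (hB q).2 hq⟩
    have h3 := he (⟨p, (hB p).2 hp⟩ + ⟨q, (hB q).2 hq⟩)
    have h4 := he (⟨p, (hB p).2 hp⟩ * ⟨q, (hB q).2 hq⟩)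
    rw [map_add, h1, h2] at h3
    rw [map_mul, h1, h2] at h4
    exact ⟨h3.symm, h4.symm⟩
  have hC : ∀ c : ℚ[X], Ev (C c) l t = Polynomial.aeval (tay l) c := fun c => by
    rw [← tay_aeval hl]
    refine tay_congr (hD.mono fun z hz => ?_)
    obtain ⟨B, e, -, -, h, -⟩ := hSSR _ _ hz
    exact h c
  obtain ⟨B, hB⟩ := hBD1
  refine ⟨B, ⟨⟨⟨fun q => Ev q l t, ?_⟩, fun p q => ?_⟩, ?_, fun p q => ?_⟩, hB, fun _ => rfl, hC,
    ?_, fun q hq => ⟨?_, fun K => ?_⟩⟩
  · simpa using hC 1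
  · have hp := (hB _).1 p.2
    have hq := (hB _).1 q.2
    exact (tay_congr (hD.mono fun z hz => (hpt _ _ hz _ _ hp hq).2)).trans
      (tay_mul (hA _ hp) (hA _ hq))
  · simpa using hC 0
  · have hp := (hB _).1 p.2
    have hq := (hB _).1 q.2
    exact (tay_congr (hD.mono fun z hz => (hpt _ _ hz _ _ hp hq).1)).trans
      (tay_add (hA _ hp) (hA _ hq))
  · refine tay_congr (hD.mono fun z hz => ?_)
    obtain ⟨B, e, -, -, -, h⟩ := hSSR _ _ hz
    exact h
  · have h1 := hA _ (hBD2.1 q hq)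
    have h2 := hA _ (hBD2.2.1 q hq)
    rw [Ev, Ev, Ev, ← tay_deriv, ← tay_deriv, ← tay_deriv, ← tay_mul hl.deriv h1,
      ← tay_mul ht.deriv h2, ← tay_add (hl.deriv.fun_mul h1) (ht.deriv.fun_mul h2)]
    refine tay_congr ?_
    filter_upwards [hD, hl.eventually_analyticAt, ht.eventually_analyticAt] with z hz h3 h4
    exact (hSSD q l t z hq h3 h4 hz).2
  · have hs := hBD2.2.2.2.2.1 q K hq
    have ha : ∀ k ∈ range K, AnalyticAt ℂ
        (fun z => Polynomial.aeval (l z) (coeff k q) * t z ^ k) 0 := fun k _ =>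
      (analyticAt_aeval hl _).fun_mul (ht.fun_pow k)
    have h1 : Ev q l t = tay fun z => ∑ k ∈ range K, Polynomial.aeval (l z) (coeff k q) * t z ^ k +
        t z ^ K * SS (mk fun n => coeff (n + K) q) (l z) (t z) := by
      refine tay_congr (hD.mono fun z hz => ?_)
      obtain ⟨u, hu, hle⟩ := hSSU q hq _ _ (le_max_left _ _) (norm_nonneg _) hz
      have hsum := Summable.of_norm_bounded hu fun n => hle n _ _ (le_max_right _ _) le_rfl
      simp only [SS, coeff_mk]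
      rw [← hsum.sum_add_tsum_nat_add K, ← tsum_mul_left]
      congr 1
      refine tsum_congr fun n => ?_
      ring
    rw [h1, tay_add (Finset.analyticAt_fun_sum _ ha) ((ht.fun_pow K).fun_mul (hA _ hs)),
      tay_sum _ ha, tay_mul (ht.fun_pow K) (hA _ hs), tay_pow ht,
      sum_congr rfl fun k _ => (tay_mul (analyticAt_aeval hl _) (ht.fun_pow k)).trans
        (by rw [tay_aeval hl, tay_pow ht]), add_sub_cancel_left]
    exact dvd_mul_right _ _

end Pool.Agent.P.MP_e5b57f_nt.GD
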