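import Pool.Agent.P.MP_e5b57f_nt.GD.Iface

/-! Values of linear relations between series of geometric growth. -/

namespace Pool.Agent.P.MP_e5b57f_nt.GD

open PowerSeries Filter Topology Finset
open scoped Polynomial

namespace EVLx

lemma hs_gr {f : ℂ⟦X⟧} (h : Gr f) :
    ∀ᶠ z in 𝓝 (0 : ℂ), HasSum (fun n => coeff n f * z ^ n) (ev f z) := by
  obtain ⟨C, hC⟩ := h
  have h1 : ∀ᶠ z in 𝓝 (0 : ℂ), (C : ℝ) * ‖z‖ < 1 := by
    have hc : Continuous fun z : ℂ => (C : ℝ) * ‖z‖ := continuous_const.mul continuous_norm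
    exact hc.continuousAt.eventually_lt continuousAt_const (by simp)
  filter_upwards [h1] with z hz
  refine Summable.hasSum (Summable.of_norm_bounded
    ((summable_geometric_of_lt_one (by positivity) hz).mul_left (C : ℝ)) fun n => ?_)
  rw [norm_mul, norm_pow, mul_pow, ← mul_assoc, ← pow_succ']
  exact mul_le_mul_of_nonneg_right (hC n) (by positivity)

lemma hs_X {f : ℂ⟦X⟧} {z a : ℂ} (h : HasSum (fun n => coeff n f * z ^ n) a) :
    HasSum (fun n => coeff n (X * f) * z ^ n) (z * a) := by
  rw [← hasSum_nat_add_iff' 1]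
  simp only [coeff_succ_X_mul, range_one, sum_singleton, coeff_zero_X_mul, zero_mul, sub_zero]
  have := h.mul_left z
  refine this.congr_fun ?_ |>.trans_eq rfl
  intro n
  ring

lemma hs_pow {f : ℂ⟦X⟧} {z a : ℂ} (h : HasSum (fun n => coeff n f * z ^ n) a) (m : ℕ) :
    HasSum (fun n => coeff n (X ^ m * f) * z ^ n) (z ^ m * a) := by
  induction m with
  | zero => simpa using h
  | succ m ih => rw [pow_succ', pow_succ', mul_assoc, mul_assoc]; exact hs_X ih

lemma hs_smul {f : ℂ⟦X⟧} {z a : ℂ} (h : HasSum (fun n => coeff n f * z ^ n) a) (p : ℚ[X]) :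
    HasSum (fun n => coeff n (p • f) * z ^ n) (Polynomial.aeval z p * a) := by
  induction p using Polynomial.induction_on' with
  | add p q hp hq =>
    simp only [add_smul, map_add, add_mul]
    exact hp.add hq
  | monomial m c =>
    rw [Algebra.smul_def, ← aeval_X_eq, Polynomial.aeval_monomial, Polynomial.aeval_monomial,
      algebraMap_rat, mul_assoc, mul_assoc]
    simp only [coeff_C_mul, mul_assoc]
    exact (hs_pow h m).mul_left _

end EVLx

open EVLx in
theorem s_EVL : S_EVL := by
  intro n y f T r hf hy h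
  filter_upwards [hs_gr hf, eventually_all.2 fun j => hs_gr (hy j)] with z h1 h2
  have h3 := hs_smul h1 T
  have h4 := hasSum_sum (s := univ) fun j _ => hs_smul (h2 j) (r j)
  rw [h] at h3
  simp only [map_sum, sum_mul] at h3
  exact h3.unique h4

end Pool.Agent.P.MP_e5b57f_nt.GD
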