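import Pool.Agent.P.MP_e5b57f_nt.GD.Iface

/-! The branches of the family. -/

namespace Pool.Agent.P.MP_e5b57f_nt.GD

open PowerSeries Filter Topology Finset
open scoped Polynomial

theorem s_FAM (hINV : S_INV) (hHIT : S_HIT) (hGB : S_GB) : S_FAM := by
  intro g hg
  obtain ⟨δ, hδ, ϑ, hϑ⟩ := hINV g (1 / 4) (by norm_num)
  obtain ⟨K, hK⟩ := exists_nat_gt (2 * (g : ℝ) / δ)
  refine ⟨1000 * g ^ 2 + K, fun M hM => ?_⟩
  have g1 : (1 : ℝ) ≤ g := by exact_mod_cast hg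
  have hM' : 1000 * (g : ℝ) ^ 2 + K ≤ M := by exact_mod_cast hM
  have K0 : (0 : ℝ) ≤ K := K.cast_nonneg
  have M1 : (1000 : ℝ) ≤ M := by nlinarith
  have h1 : 2 * (g : ℝ) / M < δ := by
    rw [div_lt_iff₀ hδ] at hK
    rw [div_lt_iff₀ (by linarith)]
    nlinarith [mul_le_mul_of_nonneg_left (show (K : ℝ) ≤ M by nlinarith) hδ.le]
  have h2 : 2 * (g : ℝ) / M ≤ 1 / 8 := by rw [div_le_iff₀ (by linarith)]; nlinarith
  have hn : ∀ x ∈ Set.Icc (0 : ℝ) (2 * (g : ℝ) / M), ‖(x : ℂ)‖ < δ := fun x hx => by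
    rw [Complex.norm_real, Real.norm_of_nonneg hx.1]; exact hx.2.trans_lt h1
  have ht : ∀ i : Fin g, ∀ x ∈ Set.Icc (0 : ℝ) (2 * (g : ℝ) / M),
      |(ϑ i x).re - (i : ℕ)| ≤ 1 / 4 := fun i x hx => by
    have := (Complex.abs_re_le_norm _).trans_lt ((hϑ i).2 x (hn x hx)).2.2.1
    simpa using this.le
  choose ρ r0 r1 r2 r3 r4 using fun i : Fin g => hHIT g M i (fun x => (ϑ i x).re) _ i.2
    (by omega) le_rfl (fun x hx => (Complex.continuous_re.continuousAt.comp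
      (((hϑ i).2 x (hn x hx)).1.continuousAt.comp
        Complex.continuous_ofReal.continuousAt)).continuousWithinAt) (ht i)
  refine ⟨ϑ, ρ, fun i => ⟨hg, r0 i, fun x hx => ⟨((hϑ i).2 x (hn x ⟨hx.1, hx.2.trans (r1 i)⟩)).1,
    analyticAt_id⟩, rfl, by simp, (hϑ i).1, i.2, ?_, fun x hx => ?_, tay_id ▸ hGB.2.2.2.2.1, ?_⟩,
    fun i j hij => ?_⟩
  · filter_upwards [Metric.ball_mem_nhds (0 : ℂ) hδ] with z hz
    exact ((hϑ i).2 z (mem_ball_zero_iff.1 hz)).2.1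
  · have hx' : x ∈ Set.Icc (0 : ℝ) (2 * (g : ℝ) / M) := ⟨hx.1, hx.2.trans (r1 i)⟩
    refine ⟨(ϑ i x).re, x, Complex.ext rfl (((hϑ i).2 x (hn x hx')).2.2.2 rfl), rfl, ?_, hx.1,
      hx'.2.trans h2, fun h => r3 i x ⟨hx.1, h⟩, fun h => h ▸ r2 i⟩
    have := (abs_le.1 (ht i x hx')).1
    have : (0 : ℝ) ≤ (i : ℕ) := Nat.cast_nonneg _
    linarith
  · have := isAlgebraic_algebraMap (R := ℚ[X]) (A := ℂ⟦X⟧) Polynomial.X
    rwa [← aeval_X_eq, Polynomial.aeval_X, ← tay_id] at this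
  · have key : ∀ i j : Fin g, i < j → 0 < 1 / ρ j - 1 / ρ i ∧ 1 / ρ j - 1 / ρ i < 1 := by
      intro i j h
      have a := abs_lt.1 (r4 i)
      have b := abs_lt.1 (r4 j)
      have c : ((i : ℕ) : ℝ) + 1 ≤ (j : ℕ) := by exact_mod_cast h
      have d : ((j : ℕ) : ℝ) + 1 ≤ g := by exact_mod_cast j.2
      have e : (0 : ℝ) ≤ (i : ℕ) := Nat.cast_nonneg _
      have u : (0 : ℝ) < (g : ℝ)⁻¹ := by positivity
      have v : (g : ℝ) * (g : ℝ)⁻¹ = 1 := mul_inv_cancel₀ (by linarith)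
      rw [show 1 / (2 * (g : ℝ)) = (g : ℝ)⁻¹ / 2 by field_simp, div_eq_mul_inv ((M : ℝ) + _)] at a b
      constructor <;> nlinarith [mul_le_mul_of_nonneg_right c u.le,
        mul_le_mul_of_nonneg_right d u.le, mul_nonneg e u.le]
    rcases lt_or_gt_of_ne hij with h | h
    · rw [abs_sub_comm, abs_of_pos (key i j h).1]; exact key i j h
    · rw [abs_of_pos (key j i h).1]; exact key j i h

end Pool.Agent.P.MP_e5b57f_nt.GD
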