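import Pool.Agent.P.MP_e5b57f_nt.GD.Iface

/-! Real bounds for the complete elliptic integral. -/

namespace Pool.Agent.P.MP_e5b57f_nt.GD

open PowerSeries Filter Topology Finset
open scoped Polynomial

namespace FFRx

theorem aa_succ (n : ℕ) : (aa (n + 1) : ℝ) = (2 * n + 1) / (2 * (n + 1)) * aa n := by
  have h : ((n : ℝ) + 1) * ((n + 1).centralBinom : ℝ) = 2 * (2 * n + 1) * (n.centralBinom : ℝ) := by
    exact_mod_cast Nat.succ_mul_centralBinom_succ n
  unfold aa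
  push_cast
  rw [pow_succ]
  field_simp
  linear_combination 2 * h

theorem aa_zero : (aa 0 : ℝ) = 1 := by simp [aa]

theorem upper (n : ℕ) : (aa n : ℝ) ^ 2 * (2 * n + 1) ≤ 1 := by
  induction n with
  | zero => simp [aa_zero]
  | succ n ih =>
    refine le_trans ?_ ih
    rw [aa_succ, mul_pow, div_pow]
    push_cast
    have h : (2 * (n : ℝ) + 1) ^ 2 / (2 * (n + 1)) ^ 2 * (2 * (n + 1) + 1) ≤ 2 * n + 1 := by
      rw [div_mul_eq_mul_div, div_le_iff₀ (by positivity)]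
      nlinarith [(Nat.cast_nonneg n : (0 : ℝ) ≤ n)]
    nlinarith [sq_nonneg (aa n : ℝ)]

theorem lower (n : ℕ) : 1 ≤ (aa (n + 1) : ℝ) ^ 2 * (4 * (n + 1)) := by
  induction n with
  | zero => rw [aa_succ, aa_zero]; norm_num
  | succ n ih =>
    refine le_trans ih ?_
    rw [aa_succ (n + 1), mul_pow, div_pow]
    push_cast
    have h : 4 * ((n : ℝ) + 1) ≤
        (2 * ((n : ℝ) + 1) + 1) ^ 2 / (2 * (n + 1 + 1)) ^ 2 * (4 * (n + 1 + 1)) := by
      rw [div_mul_eq_mul_div, le_div_iff₀ (by positivity)]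
      nlinarith [(Nat.cast_nonneg n : (0 : ℝ) ≤ n)]
    nlinarith [sq_nonneg (aa (n + 1) : ℝ)]

end FFRx

open FFRx in
theorem s_FFR : S_FFR := by
  intro x h0 h1
  have hl := Real.hasSum_pow_div_log_of_abs_lt_one (x := x) (by rwa [abs_of_nonneg h0])
  have hu : ∀ n : ℕ, (aa (n + 1) : ℝ) ^ 2 * x ^ (n + 1) ≤ x ^ (n + 1) / (n + 1) := fun n => by
    rw [div_eq_mul_one_div, mul_comm]
    refine mul_le_mul_of_nonneg_left ?_ (by positivity)
    rw [le_div_iff₀ (by positivity)]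
    have := upper (n + 1)
    push_cast at this
    nlinarith [sq_nonneg (aa (n + 1) : ℝ), (Nat.cast_nonneg n : (0 : ℝ) ≤ n)]
  have hw : ∀ n : ℕ, x ^ (n + 1) / (n + 1) / 4 ≤ (aa (n + 1) : ℝ) ^ 2 * x ^ (n + 1) := fun n => by
    rw [div_div, div_eq_mul_one_div, mul_comm]
    refine mul_le_mul_of_nonneg_right ?_ (by positivity)
    rw [div_le_iff₀ (by positivity)]
    linarith [lower n]
  have hs' : Summable fun n : ℕ => (aa (n + 1) : ℝ) ^ 2 * x ^ (n + 1) :=
    Summable.of_nonneg_of_le (fun n => by positivity) hu hl.summable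
  have hs : Summable fun n : ℕ => (aa n : ℝ) ^ 2 * x ^ n := (summable_nat_add_iff 1).1 hs'
  have e := hs.tsum_eq_zero_add
  rw [aa_zero] at e
  have t0 : 0 ≤ ∑' n : ℕ, (aa (n + 1) : ℝ) ^ 2 * x ^ (n + 1) := tsum_nonneg fun n => by positivity
  have t1 := hasSum_le hu hs'.hasSum hl
  have t2 := hasSum_le hw (hl.div_const 4) hs'.hasSum
  refine ⟨∑' n : ℕ, (aa n : ℝ) ^ 2 * x ^ n, ?_, ?_, ?_, ?_⟩
  · rw [Complex.ofReal_tsum]
    simp [FF, SS, Fq]
  · rw [e]; linarith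
  · rw [e]; linarith
  · rw [e]; linarith

end Pool.Agent.P.MP_e5b57f_nt.GD
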