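import Pool.Agent.P.MP_e5b57f_nt.GD.Iface

/-! Fundamental matrices of linear differential systems in power series. -/

namespace Pool.Agent.P.MP_e5b57f_nt.GD

open PowerSeries Filter Topology Finset
open scoped Polynomial

namespace FUNDx

/-- The coefficients of the solution with initial value `v`. -/
noncomputable def co {n : ℕ} (B : Fin n → Fin n → ℚ⟦X⟧) (v : Fin n → ℚ) : ℕ → Fin n → ℚ
  | 0 => v
  | k + 1 => fun i =>
      (∑ j, ∑ b : Fin (k + 1), coeff (k - b) (B i j) * co B v b j) / ((k : ℚ) + 1)
decreasing_by exact b.2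

end FUNDx

open FUNDx in
theorem s_FUND : S_FUND := by
  intro n B
  refine ⟨fun i l => mk fun k => co B (fun j => if j = l then 1 else 0) k i, fun i l => ?_,
    fun i l => ?_⟩
  · ext k
    have hk : (k : ℚ) + 1 ≠ 0 := by positivity
    rw [coeff_derivative, coeff_mk, co, div_mul_cancel₀ _ hk, map_sum]
    refine Finset.sum_congr rfl fun j _ => ?_
    rw [mul_comm (B i j), coeff_mul, Finset.Nat.sum_antidiagonal_eq_sum_range_succ_mk,
      Finset.sum_range]
    exact Finset.sum_congr rfl fun b _ => by rw [coeff_mk, mul_comm]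
  · rw [← coeff_zero_eq_constantCoeff_apply, coeff_mk, co]

end Pool.Agent.P.MP_e5b57f_nt.GD
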