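import Pool.Agent.P.MP_e5b57f_nt.GD.Iface

/-! Sets with growing gaps have density zero. -/

namespace Pool.Agent.P.MP_e5b57f_nt.GD

open PowerSeries Filter Topology Finset
open scoped Polynomial

theorem s_GAP : S_GAP := by
  intro X hX
  rw [Metric.tendsto_atTop]
  intro ε hε
  obtain ⟨K, hK⟩ := exists_nat_gt (2 / ε)
  have hK0 : (0 : ℝ) < K := (by positivity : (0 : ℝ) < 2 / ε).trans hK
  have hK1 : 0 < K := by exact_mod_cast hK0
  obtain ⟨b₀, hb₀⟩ := ((Set.finite_Ioo 0 K).biUnion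
    (t := fun k => {b | b ∈ X ∧ b + k ∈ X}) fun k hk => hX k hk.1).bddAbove
  have gap : ∀ a c, a ∈ X → c ∈ X → b₀ < a → a < c → a / K ≠ c / K := fun a c ha hc h1 h2 e => by
    have h3 : c - a < K := by
      have := Nat.div_add_mod a K
      have := Nat.div_add_mod c K
      have := Nat.mod_lt c hK1
      rw [e] at *
      omega
    have := hb₀ (Set.mem_biUnion (show c - a ∈ Set.Ioo 0 K from ⟨by omega, h3⟩)
      ⟨ha, by rwa [Nat.add_sub_cancel' h2.le]⟩)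
    omega
  have card : ∀ n, (X ∩ Set.Iio n).ncard ≤ b₀ + 1 + (n / K + 1) := fun n => by
    have h1 : X ∩ Set.Iio n ⊆ Set.Iic b₀ ∪ (X ∩ Set.Ioo b₀ n) := fun a ha => by
      rcases le_or_gt a b₀ with h | h
      exacts [Or.inl h, Or.inr ⟨ha.1, h, ha.2⟩]
    refine (Set.ncard_le_ncard h1 ((Set.finite_Iic _).union
      ((Set.finite_Ioo _ _).inter_of_right _))).trans ((Set.ncard_union_le _ _).trans ?_)
    rw [Set.ncard_Iic_nat, ← Set.ncard_Iic_nat (n / K)]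
    refine Nat.add_le_add_left (Set.ncard_le_ncard_of_injOn (s := X ∩ Set.Ioo b₀ n)
      (t := Set.Iic (n / K)) (· / K) (fun a ha => Nat.div_le_div_right ha.2.2.le)
      (fun a ha c hc e => ?_) (Set.finite_Iic _)) _
    rcases lt_trichotomy a c with h | h | h
    exacts [absurd e (gap a c ha.1 hc.1 ha.2.1 h), h, absurd e.symm (gap c a hc.1 ha.1 hc.2.1 h)]
  obtain ⟨n₀, hn₀⟩ := exists_nat_gt (2 * (b₀ + 2) / ε)
  refine ⟨n₀, fun n hn => ?_⟩
  have h1 : 2 * (b₀ + 2) / ε < n := hn₀.trans_le (by exact_mod_cast hn)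
  have h2 : (0 : ℝ) < n := (by positivity : (0 : ℝ) < 2 * (b₀ + 2) / ε).trans h1
  have h3 : ((X ∩ Set.Iio n).ncard : ℝ) ≤ b₀ + 1 + (n / K + 1) := by
    refine le_trans (by exact_mod_cast card n : _ ≤ (b₀ : ℝ) + 1 + ((n / K : ℕ) + 1)) ?_
    gcongr
    exact Nat.cast_div_le
  rw [Real.dist_eq, sub_zero, abs_of_nonneg (by positivity), div_lt_iff₀ h2]
  rw [div_lt_iff₀ hε] at h1 hK
  have h4 : (n : ℝ) / K < ε * n / 2 := by
    rw [div_lt_iff₀ hK0]
    nlinarith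
  nlinarith

end Pool.Agent.P.MP_e5b57f_nt.GD
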