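import Pool.Agent.P.MP_e5b57f_nt.GD.Iface

namespace Pool.Agent.P.MP_e5b57f_nt.GD

open PowerSeries Filter Topology Finset
open scoped Polynomial

namespace GBx

/-- The integers inside the complex numbers. -/
abbrev R : Subring ℂ := (Int.castRingHom ℂ).range

theorem iff (N : ℕ) (f : ℂ⟦X⟧) : IntN N f ↔ ∀ n, (N : ℂ) ^ n * coeff n f ∈ R :=
  forall_congr' fun _ => exists_congr fun _ => eq_comm

theorem add {N : ℕ} {f g : ℂ⟦X⟧} (hf : IntN N f) (hg : IntN N g) : IntN N (f + g) := by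
  rw [iff] at *
  intro n
  rw [map_add, mul_add]
  exact add_mem (hf n) (hg n)

theorem neg {N : ℕ} {f : ℂ⟦X⟧} (hf : IntN N f) : IntN N (-f) := by
  rw [iff] at *
  intro n
  rw [map_neg, mul_neg]
  exact neg_mem (hf n)

theorem mul {N : ℕ} {f g : ℂ⟦X⟧} (hf : IntN N f) (hg : IntN N g) : IntN N (f * g) := by
  rw [iff] at *
  intro n
  rw [coeff_mul, mul_sum]
  refine sum_mem fun p hp => ?_
  rw [← mem_antidiagonal.1 hp, pow_add, mul_mul_mul_comm]
  exact mul_mem (hf _) (hg _)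

theorem mono {N : ℕ} (N' : ℕ) {f : ℂ⟦X⟧} (hf : IntN N f) : IntN (N * N') f := by
  rw [iff] at *
  intro n
  rw [Nat.cast_mul, mul_pow, mul_right_comm]
  exact mul_mem (hf n) (pow_mem (natCast_mem _ _) _)

theorem coeff_nat (D n : ℕ) (f : ℂ⟦X⟧) : coeff n ((D : ℂ⟦X⟧) * f) = D * coeff n f := by
  rw [← map_natCast (C : ℂ →+* ℂ⟦X⟧), coeff_C_mul]

theorem nat {N : ℕ} (D : ℕ) {f : ℂ⟦X⟧} (hf : IntN N f) : IntN N ((D : ℂ⟦X⟧) * f) := by
  rw [iff] at *
  intro n
  rw [coeff_nat, mul_left_comm]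
  exact mul_mem (natCast_mem _ _) (hf n)

theorem inv {f g : ℂ⟦X⟧} (hf : GB f) (h : f * g = 1) : GB g := by
  obtain ⟨N, D, hN, hD, hf⟩ := hf
  set F := (D : ℂ⟦X⟧) * f with hF
  have hFg : F * g = (D : ℂ⟦X⟧) * 1 := by rw [hF, mul_assoc, h]
  obtain ⟨a, ha⟩ := hf 0
  rw [pow_zero, one_mul] at ha
  have h0 : (a : ℂ) * coeff 0 g = D := by
    have := congrArg (coeff 0) hFg
    rw [coeff_nat, coeff_mul] at this
    simpa [← ha] using this
  have ha0 : a ≠ 0 := by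
    rintro rfl
    rw [Int.cast_zero, zero_mul] at h0
    exact hD.ne' (by exact_mod_cast h0.symm)
  rw [iff] at hf
  have key : ∀ n, (a : ℂ) ^ (n + 1) * ((N : ℂ) ^ n * coeff n g) ∈ R := by
    intro n
    induction n using Nat.strong_induction_on with
    | _ n ih =>
      rcases n with _ | n
      · rw [zero_add, pow_one, pow_zero, one_mul, h0]
        exact natCast_mem _ _
      · have := congrArg (coeff (n + 1)) hFg
        rw [coeff_nat, coeff_mul, Finset.Nat.sum_antidiagonal_succ, ha, coeff_one,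
          if_neg (Nat.succ_ne_zero n), mul_zero] at this
        have e : (a : ℂ) ^ (n + 1 + 1) * ((N : ℂ) ^ (n + 1) * coeff (n + 1) g) =
            -((a : ℂ) ^ (n + 1) * (N : ℂ) ^ (n + 1) *
              ∑ p ∈ antidiagonal n, coeff (p.1 + 1) F * coeff p.2 g) := by
          linear_combination (a : ℂ) ^ (n + 1) * (N : ℂ) ^ (n + 1) * this
        rw [e, mul_sum]
        refine neg_mem (sum_mem fun p hp => ?_)
        have hp' := mem_antidiagonal.1 hp
        have e2 : (a : ℂ) ^ (n + 1) * (N : ℂ) ^ (n + 1) * (coeff (p.1 + 1) F * coeff p.2 g) =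
            (a : ℂ) ^ p.1 * (((N : ℂ) ^ (p.1 + 1) * coeff (p.1 + 1) F) *
              ((a : ℂ) ^ (p.2 + 1) * ((N : ℂ) ^ p.2 * coeff p.2 g))) := by
          rw [← hp']; ring
        rw [e2]
        exact mul_mem (pow_mem (intCast_mem _ _) _) (mul_mem (hf _) (ih _ (by omega)))
  have hA : ((a.natAbs * a.natAbs : ℕ) : ℂ) = a * a := by
    rw [← Int.cast_natCast, Nat.cast_mul, Int.natAbs_mul_self', Int.cast_mul]
  have hp : 0 < a.natAbs * a.natAbs := Nat.mul_pos (Int.natAbs_pos.2 ha0) (Int.natAbs_pos.2 ha0)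
  refine ⟨N * (a.natAbs * a.natAbs), a.natAbs * a.natAbs, Nat.mul_pos hN hp, hp,
    (iff _ _).2 fun n => ?_⟩
  rw [coeff_nat, Nat.cast_mul N, hA]
  have e : ((N : ℂ) * (a * a)) ^ n * (a * a * coeff n g) =
      (a : ℂ) ^ (n + 1) * ((a : ℂ) ^ (n + 1) * ((N : ℂ) ^ n * coeff n g)) := by ring
  rw [e]
  exact mul_mem (pow_mem (intCast_mem _ _) _) (key n)

end GBx

theorem s_GB : S_GB := by
  refine ⟨?_, ?_, ?_, fun c => ?_, ?_, fun f g => GBx.inv, ?_, fun N N' f => GBx.mono N'⟩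
  · rintro f g ⟨N, D, hN, hD, hf⟩ ⟨N', D', hN', hD', hg⟩
    refine ⟨N * N', D * D', Nat.mul_pos hN hN', Nat.mul_pos hD hD', ?_⟩
    have := GBx.add (GBx.nat D' (GBx.mono N' hf)) (GBx.nat D (mul_comm N' N ▸ GBx.mono N hg))
    convert this using 1
    push_cast
    ring
  · rintro f g ⟨N, D, hN, hD, hf⟩ ⟨N', D', hN', hD', hg⟩
    refine ⟨N * N', D * D', Nat.mul_pos hN hN', Nat.mul_pos hD hD', ?_⟩
    have := GBx.mul (GBx.mono N' hf) (mul_comm N' N ▸ GBx.mono N hg)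
    convert this using 1
    push_cast
    ring
  · rintro f ⟨N, D, hN, hD, hf⟩
    exact ⟨N, D, hN, hD, mul_neg (D : ℂ⟦X⟧) f ▸ GBx.neg hf⟩
  · refine ⟨1, c.den, one_pos, c.den_pos, fun n => ?_⟩
    rw [GBx.coeff_nat, coeff_C]
    split_ifs
    · refine ⟨c.num, ?_⟩
      have : ((c.den : ℚ) * c : ℚ) = c.num := Rat.den_mul_eq_num c
      rw [Nat.cast_one, one_pow, one_mul]
      exact_mod_cast this
    · exact ⟨0, by simp⟩
  · refine ⟨1, 1, one_pos, one_pos, fun n => ?_⟩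
    rw [GBx.coeff_nat, coeff_X]
    split_ifs
    · exact ⟨1, by simp⟩
    · exact ⟨0, by simp⟩
  · rintro f ⟨N, D, hN, hD, hf⟩ h0
    refine ⟨N * D, Nat.mul_pos hN hD, (GBx.iff _ _).2 fun n => ?_⟩
    rcases n with _ | n
    · rw [coeff_zero_eq_constantCoeff_apply, h0, mul_zero]
      exact zero_mem _
    · have := (GBx.iff _ _).1 hf (n + 1)
      rw [GBx.coeff_nat] at this
      have e : ((N * D : ℕ) : ℂ) ^ (n + 1) * coeff (n + 1) f =
          (D : ℂ) ^ n * ((N : ℂ) ^ (n + 1) * (D * coeff (n + 1) f)) := by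
        push_cast; ring
      rw [e]
      exact mul_mem (pow_mem (natCast_mem _ _) _) this

end Pool.Agent.P.MP_e5b57f_nt.GD
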