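import Pool.Agent.P.MP_e5b57f_nt.GD.Iface

/-! Step GBT. -/

namespace Pool.Agent.P.MP_e5b57f_nt.GD

open PowerSeries Filter Topology Finset
open scoped Polynomial

namespace GBTx

/-- Series whose first `n` coefficients are integers. -/
def S (n : ℕ) : Subring ℂ⟦X⟧ where
  carrier := {f | ∀ k < n, coeff k f ∈ (⊥ : Subring ℂ)}
  mul_mem' {f g} hf hg k hk := by
    rw [coeff_mul]
    refine Subring.sum_mem _ fun p hp => ?_
    have := mem_antidiagonal.1 hp
    exact Subring.mul_mem _ (hf _ (by omega)) (hg _ (by omega))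
  one_mem' k _ := by
    rw [coeff_one]
    split_ifs
    · exact Subring.one_mem _
    · exact Subring.zero_mem _
  add_mem' {f g} hf hg k hk := by
    rw [map_add]
    exact Subring.add_mem _ (hf k hk) (hg k hk)
  zero_mem' k _ := by
    rw [map_zero]
    exact Subring.zero_mem _
  neg_mem' {f} hf k hk := by
    rw [map_neg]
    exact Subring.neg_mem _ (hf k hk)

lemma X_mul_mem {n : ℕ} {f : ℂ⟦X⟧} : X * f ∈ S (n + 1) ↔ f ∈ S n := by
  refine ⟨fun h k hk => ?_, fun h k hk => ?_⟩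
  · rw [← coeff_succ_X_mul]
    exact h _ (by omega)
  · rcases k with _ | k
    · rw [coeff_zero_X_mul]
      exact Subring.zero_mem _
    · rw [coeff_succ_X_mul]
      exact h k (by omega)

lemma aeval_mem {n : ℕ} {f : ℂ⟦X⟧} (hf : f ∈ S n) (h : ℤ[X]) : Polynomial.aeval f h ∈ S n := by
  rw [Polynomial.aeval_eq_sum_range]
  exact Subring.sum_mem _ fun k _ => zsmul_mem (Subring.pow_mem _ hf k) _

lemma fix {v ω : ℂ⟦X⟧} (c : ℤ) (h : ℤ[X]) (h0 : constantCoeff v = 0) (hω : ∀ n, ω ∈ S n)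
    (e : v = ω - v * v * Polynomial.aeval ((c : ℂ⟦X⟧) * v) h) (n : ℕ) : v ∈ S (n + 1) := by
  obtain ⟨u, hu⟩ := X_dvd_iff.2 h0
  induction n with
  | zero =>
    rw [hu]
    exact X_mul_mem.2 fun k hk => absurd hk (Nat.not_lt_zero k)
  | succ n ih =>
    have h1 : u ∈ S n := X_mul_mem.1 (hu ▸ ih)
    have h2 : v ∈ S n := fun k hk => ih k (by omega)
    have h3 : v * v * Polynomial.aeval ((c : ℂ⟦X⟧) * v) h =
        X * (X * (u * u * Polynomial.aeval ((c : ℂ⟦X⟧) * v) h)) := by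
      generalize Polynomial.aeval ((c : ℂ⟦X⟧) * v) h = H
      rw [hu]
      ring
    rw [e, h3]
    exact Subring.sub_mem _ (hω _) (X_mul_mem.2 (X_mul_mem.2 (Subring.mul_mem _
      (Subring.mul_mem _ h1 h1) (aeval_mem (Subring.mul_mem _ (intCast_mem _ c) h2) h))))

lemma exists_poly (g i : ℕ) (hi : i < g) : ∃ (c : ℤ) (h : ℤ[X]), c ≠ 0 ∧
    ∏ l ∈ range g, (Polynomial.X + Polynomial.C ((i : ℤ) - l)) =
      Polynomial.X * (Polynomial.C c + Polynomial.X * h) := by
  refine ⟨(∏ l ∈ (range g).erase i, (Polynomial.X + Polynomial.C ((i : ℤ) - l))).coeff 0,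
    (∏ l ∈ (range g).erase i, (Polynomial.X + Polynomial.C ((i : ℤ) - l))).divX, ?_, ?_⟩
  · rw [Polynomial.coeff_zero_prod]
    refine prod_ne_zero_iff.2 fun l hl => ?_
    have := (mem_erase.1 hl).1
    simp only [Polynomial.coeff_add, Polynomial.coeff_X_zero, Polynomial.coeff_C_zero]
    omega
  · rw [add_comm (Polynomial.C _), Polynomial.X_mul_divX_add,
      ← mul_prod_erase _ _ (mem_range.2 hi)]
    simp

end GBTx

open GBTx in
theorem s_GBT (hGB : S_GB) : S_GBT := by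
  intro g i Θ W hi h0 hW0 hW e
  obtain ⟨hadd, -, -, hC, -, -, hint, -⟩ := hGB
  obtain ⟨c, h, hc, hP⟩ := exists_poly g i hi
  obtain ⟨N₀, hN₀, hI⟩ := hint W hW hW0
  obtain ⟨w, hw⟩ : ∃ w, w = Θ - (i : ℂ⟦X⟧) := ⟨_, rfl⟩
  have hc' : (c : ℂ) ≠ 0 := Int.cast_ne_zero.2 hc
  have e1 : W = w * ((c : ℂ⟦X⟧) + w * Polynomial.aeval w h) := by
    have := congrArg (Polynomial.aeval w) hP
    simp only [map_prod, map_add, map_mul, Polynomial.aeval_X, eq_intCast,
      map_intCast] at this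
    rw [← this, ← e]
    refine prod_congr rfl fun l _ => ?_
    rw [hw]
    push_cast
    ring
  obtain ⟨N, hN⟩ : ∃ N : ℕ, N = N₀ * c.natAbs ^ 2 := ⟨_, rfl⟩
  have hN' : (N : ℂ) = N₀ * c ^ 2 := by
    rw [hN, Nat.cast_mul, ← Int.cast_natCast (c.natAbs ^ 2), Nat.cast_pow, Int.natAbs_sq,
      Int.cast_pow]
  obtain ⟨v, hv⟩ : ∃ v, v = C (c : ℂ)⁻¹ * rescale (N : ℂ) w := ⟨_, rfl⟩
  have hcc : (c : ℂ⟦X⟧) * C (c : ℂ)⁻¹ = 1 := by
    rw [← map_intCast (C : ℂ →+* ℂ⟦X⟧), ← map_mul, mul_inv_cancel₀ hc', map_one]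
  have e2 : rescale (N : ℂ) w = c * v := by rw [hv, ← mul_assoc, hcc, one_mul]
  have e3 : rescale (N : ℂ) W = c * v * (c + c * v * Polynomial.aeval ((c : ℂ⟦X⟧) * v) h) := by
    rw [e1, map_mul, map_add, map_mul, map_intCast, ← e2]
    simp only [Polynomial.aeval_eq_sum_range, Algebra.smul_def, eq_intCast, map_sum, map_mul,
      map_intCast, map_pow]
  have hw0 : constantCoeff w = 0 := by rw [hw, map_sub, h0, map_natCast, sub_self]
  have key := fix (v := v) (ω := C (c : ℂ)⁻¹ * C (c : ℂ)⁻¹ * rescale (N : ℂ) W) c h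
    (by rw [hv, map_mul, ← coeff_zero_eq_constantCoeff_apply (rescale _ w), coeff_rescale,
      coeff_zero_eq_constantCoeff_apply, hw0, mul_zero, mul_zero])
    (fun _ k _ => by
      rw [← map_mul, coeff_C_mul, coeff_rescale]
      rcases k with _ | k
      · rw [coeff_zero_eq_constantCoeff_apply, hW0, mul_zero, mul_zero]
        exact Subring.zero_mem _
      · obtain ⟨a, ha⟩ := hI (k + 1)
        refine Subring.mem_bot.2 ⟨a * (c ^ 2) ^ k, ?_⟩
        rw [hN', mul_pow]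
        push_cast
        rw [← ha]
        field_simp
        ring)
    (by
      rw [e3]
      generalize Polynomial.aeval ((c : ℂ⟦X⟧) * v) h = H
      generalize C (c : ℂ)⁻¹ = y at hcc
      linear_combination -(v + v * v * H) * (c * y + 1) * hcc)
  have hGw : GB w := by
    refine ⟨N, 1, by rw [hN]; positivity, one_pos, fun n => ?_⟩
    obtain ⟨a, ha⟩ := Subring.mem_bot.1
      (Subring.mul_mem _ (intCast_mem _ c) (key n) n (Nat.lt_succ_self n))
    rw [← e2, coeff_rescale] at ha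
    exact ⟨a, by rw [Nat.cast_one, one_mul, ha]⟩
  have := hadd _ _ hGw (hC i)
  rwa [hw, Rat.cast_natCast, map_natCast, sub_add_cancel] at this

end Pool.Agent.P.MP_e5b57f_nt.GD
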