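import Pool.Agent.P.MP_e5b57f_nt.GD.Iface

/-! Closure properties of the denominator and growth conditions. -/

namespace Pool.Agent.P.MP_e5b57f_nt.GD

open PowerSeries Filter Topology Finset
open scoped Polynomial

namespace GCx

theorem pow_le (C n : ℕ) : C ^ (n + 1 + 1) ≤ (C ^ 2) ^ (n + 1) := by
  rw [← pow_mul]
  rcases Nat.eq_zero_or_pos C with rfl | h
  · simp
  · exact Nat.pow_le_pow_right h (by omega)

theorem den_d (f : ℂ⟦X⟧) (h : Den f) : Den (d⁄dX ℂ f) := by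
  obtain ⟨C, h⟩ := h
  refine ⟨C ^ 2, fun n => ?_⟩
  obtain ⟨d, h0, h1, h2⟩ := h (n + 1)
  refine ⟨d, h0, h1.trans (pow_le C n), fun k hk => ?_⟩
  obtain ⟨a, ha⟩ := h2 (k + 1) (by omega)
  exact ⟨a * (k + 1), by rw [coeff_derivative, ← mul_assoc, ha]; push_cast; rfl⟩

theorem gr_d (f : ℂ⟦X⟧) (h : Gr f) : Gr (d⁄dX ℂ f) := by
  obtain ⟨C, h⟩ := h
  refine ⟨C ^ 2 * 2, fun n => ?_⟩
  have h1 : ((C : ℝ)) ^ (n + 1 + 1) ≤ ((C : ℝ) ^ 2) ^ (n + 1) := by exact_mod_cast pow_le C n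
  have h2 : ((n : ℝ) + 1) ≤ 2 ^ (n + 1) := by exact_mod_cast (Nat.lt_two_pow_self (n := n + 1)).le
  have h3 : ‖(n : ℂ) + 1‖ = (n : ℝ) + 1 := by exact_mod_cast Complex.norm_natCast (n + 1)
  rw [coeff_derivative, norm_mul, h3]
  push_cast
  rw [mul_pow]
  exact mul_le_mul ((h _).trans h1) h2 (by positivity) (by positivity)

theorem den_mul (f g : ℂ⟦X⟧) (hf : Den f) (hg : Den g) : Den (f * g) := by
  obtain ⟨C, hf⟩ := hf
  obtain ⟨C', hg⟩ := hg
  refine ⟨C * C', fun n => ?_⟩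
  obtain ⟨d, h0, h1, h2⟩ := hf n
  obtain ⟨d', h0', h1', h2'⟩ := hg n
  refine ⟨d * d', Nat.mul_pos h0 h0', by rw [mul_pow]; exact Nat.mul_le_mul h1 h1', fun k hk => ?_⟩
  choose! a ha using h2
  choose! b hb using h2'
  refine ⟨∑ p ∈ antidiagonal k, a p.1 * b p.2, ?_⟩
  rw [coeff_mul, mul_sum]
  push_cast
  refine sum_congr rfl fun p hp => ?_
  have := mem_antidiagonal.1 hp
  rw [← ha p.1 (by omega), ← hb p.2 (by omega)]
  ring

theorem den_gb (f : ℂ⟦X⟧) (h : GB f) : Den f := by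
  obtain ⟨N, D, hN, hD, h⟩ := h
  refine ⟨D * N, fun n => ⟨D * N ^ n, by positivity, ?_, fun k hk => ?_⟩⟩
  · rw [mul_pow]
    exact Nat.mul_le_mul (Nat.le_self_pow (by omega) _) (Nat.pow_le_pow_right hN (by omega))
  · obtain ⟨a, ha⟩ := h k
    obtain ⟨j, rfl⟩ := Nat.exists_eq_add_of_le hk
    refine ⟨(N : ℤ) ^ j * a, ?_⟩
    rw [← nsmul_eq_mul, map_nsmul, nsmul_eq_mul] at ha
    push_cast
    rw [← ha]; ring

end GCx

open GCx in
theorem s_GC : S_GC := by
  refine ⟨den_d, gr_d, den_mul, ⟨1, fun n => ⟨1, one_pos, by simp, fun k _ => ?_⟩⟩,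
    ⟨1, fun n => ?_⟩, den_gb, fun n y hy => ?_⟩
  · exact ⟨if k = 0 then 1 else 0, by rw [coeff_one]; split_ifs <;> simp⟩
  · rw [coeff_one]; split_ifs <;> simp
  · choose C hC using fun i => (hy i).1
    choose C' hC' using fun i => (hy i).2
    choose d h0 h1 h2 using hC
    have hq : ∀ i k, ∃ q : ℚ, (q : ℂ) = coeff k (y i) := fun i k => by
      obtain ⟨a, ha⟩ := h2 i k k le_rfl
      refine ⟨a / d i k, ?_⟩
      have : (d i k : ℂ) ≠ 0 := by exact_mod_cast (h0 i k).ne'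
      push_cast
      rw [← ha]; field_simp
    choose q hq using hq
    refine ⟨fun i => mk (q i), ∏ i, ((C i + 1) * (C' i + 1)), fun i => ?_, fun m => ?_,
      fun i m => ?_⟩
    · ext k; simp [up, hq]
    · refine ⟨∏ i, d i m, prod_pos fun i _ => h0 i m, ?_, fun i k hk => ?_⟩
      · rw [← prod_pow]
        exact prod_le_prod' fun i _ => (h1 i m).trans (Nat.pow_le_pow_left (by nlinarith) _)
      · obtain ⟨a, ha⟩ := h2 i m k hk
        refine ⟨(∏ j ∈ univ.erase i, d j m : ℕ) * a, ?_⟩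
        have : (d i m : ℚ) * q i k = a := by
          rw [← hq] at ha; exact_mod_cast ha
        rw [coeff_mk, ← mul_prod_erase _ _ (mem_univ i)]
        push_cast
        rw [← this]; ring
    · have h3 := hC' i m
      rw [← hq, Complex.norm_ratCast] at h3
      have h4 : |q i m| ≤ (C' i : ℚ) ^ (m + 1) := by exact_mod_cast h3
      have h5 : (C i + 1) * (C' i + 1) ≤ ∏ i, ((C i + 1) * (C' i + 1)) :=
        single_le_prod' (f := fun i => (C i + 1) * (C' i + 1))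
          (fun j _ => Nat.succ_le_of_lt (by positivity)) (mem_univ i)
      rw [coeff_mk]
      refine h4.trans (pow_le_pow_left₀ (by positivity) ?_ _)
      exact_mod_cast le_trans (by nlinarith) h5

end Pool.Agent.P.MP_e5b57f_nt.GD
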