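import Pool.Agent.P.MP_e5b57f_nt.GD.Iface

/-! Linear independence of values of G-series. -/

namespace Pool.Agent.P.MP_e5b57f_nt.GD

open PowerSeries Filter Topology Finset
open scoped Polynomial

namespace GFx

theorem common {κ : Type} [Fintype κ] {n : ℕ} (y : Fin n → ℂ⟦X⟧) (g : κ → ℂ⟦X⟧)
    (h : ∀ k, Sat (Set.range y) (g k)) : ∃ (T : ℤ[X]) (A : κ → Fin n → ℚ[X]),
      T.map (Int.castRingHom ℚ) ≠ 0 ∧ ∀ k, T.map (Int.castRingHom ℚ) • g k = ∑ l, A k l • y l := by
  classical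
  choose T hT hs using h
  obtain ⟨b, hb, hp⟩ := IsLocalization.integerNormalization_spec (nonZeroDivisors ℤ) (∏ k, T k)
  have hb0 : b ≠ 0 := nonZeroDivisors.ne_zero hb
  have e : (IsLocalization.integerNormalization (nonZeroDivisors ℤ) (∏ k, T k)).map
      (Int.castRingHom ℚ) = b • ∏ k, T k := hp
  have : ∀ k, (b • ∏ k, T k) • g k ∈ Submodule.span ℚ[X] (Set.range y) := fun k => by
    rw [← prod_erase_mul _ _ (mem_univ k), ← smul_mul_assoc, mul_smul]
    exact Submodule.smul_mem _ _ (hs k)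
  choose A hA using fun k => (Submodule.mem_span_range_iff_exists_fun _).1 (this k)
  exact ⟨_, A, by rw [e]; exact smul_ne_zero hb0 (prod_ne_zero_iff.2 fun k _ => hT k),
    fun k => by rw [e, hA]⟩

theorem up_inj : Function.Injective up :=
  PowerSeries.map_injective _ (algebraMap ℚ ℂ).injective

theorem up_mul (p : ℚ[X]) (g : ℚ⟦X⟧) : up ((p : ℚ⟦X⟧) * g) = p • up g := by
  rw [map_mul, Algebra.smul_def, algebraMap_apply']; rfl

theorem up_d (g : ℚ⟦X⟧) : up (d⁄dX ℚ g) = d⁄dX ℂ (up g) := by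
  ext n
  simp [up, coeff_derivative]

theorem smul_eq_zero' {T : ℚ[X]} (hT : T ≠ 0) {c : ℚ[X]} (h : c * T = 0) : c = 0 :=
  (mul_eq_zero.1 h).resolve_right hT

end GFx

open GFx in
theorem s_GF (hGF0 : S_GF0) (hGC : S_GC) (hEVL : S_EVL) (hBASIS : S_BASIS) (hSPEC : S_SPEC) :
    S_GF := by
  intro ι _ f hf hli
  obtain ⟨m, y, y0, hy, hyi, hd, hs⟩ := hBASIS ι f hf
  obtain ⟨y', C, hy', hU⟩ := hGC.2.2.2.2.2.2 _ y hy
  obtain ⟨T, A, hT, hA⟩ := common y _ hd
  obtain ⟨T', r, hT', hr⟩ := common y f hs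
  rw [Fintype.linearIndependent_iff] at hyi hli
  have hsys : Sys y' (T.map (Int.castRingHom ℚ)) A := by
    refine ⟨up_inj (by rw [hy', y0, map_one]), hT, hyi _ ?_, fun i => up_inj ?_, fun v hv => ?_⟩
    · rw [← hA, y0, Derivation.map_one_eq_zero, smul_zero]
    · simp only [map_sum, up_mul, up_d, hy', hA]
    · have := congrArg up hv
      simp only [map_sum, up_mul, hy', map_zero] at this
      exact funext (hyi v this)
  have hri : LinearIndependent ℚ[X] r := by
    rw [Fintype.linearIndependent_iff]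
    intro c hc i
    refine smul_eq_zero' hT' (hli (fun i => c i * T'.map (Int.castRingHom ℚ)) ?_ i)
    simp only [mul_smul, hr, smul_sum]
    simp only [← mul_smul]
    rw [sum_comm]
    refine sum_eq_zero fun l _ => ?_
    have := congrFun hc l
    simp only [Finset.sum_apply, Pi.smul_apply, smul_eq_mul, Pi.zero_apply] at this
    rw [← sum_smul, this, zero_smul]
  obtain ⟨D, hD, hsp⟩ := hSPEC ι _ r hri
  have h1 : ∀ᶠ b : ℕ in atTop, D.eval (b : ℚ)⁻¹ ≠ 0 := by
    rw [← Nat.cofinite_eq_atTop, eventually_cofinite]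
    refine (Polynomial.finite_setOf_isRoot hD).preimage (f := fun b : ℕ => (b : ℚ)⁻¹)
      (fun a _ b _ h => Nat.cast_injective (inv_injective h)) |>.subset fun b hb => ?_
    simpa using hb
  have h2 := tendsto_inv_nat.eventually (eventually_all.2 fun i =>
    hEVL _ y (f i) _ (r i) (hf i).2.1 (fun j => (hy j).2) (hr i))
  filter_upwards [h1, h2, hGF0 m y' T A C hsys hU] with b b1 b2 b3
  have b4 := hsp _ b1
  rw [Fintype.linearIndependent_iff] at b3 b4 ⊢
  intro c hc
  refine b4 c (funext fun l => ?_)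
  simp only [Finset.sum_apply, Pi.smul_apply, smul_eq_mul, Pi.zero_apply]
  refine b3 (fun l => ∑ i, c i * (r i l).eval (b : ℚ)⁻¹) ?_ l
  have e : ∀ p : ℚ[X], Polynomial.aeval (b : ℂ)⁻¹ p = ((p.eval (b : ℚ)⁻¹ : ℚ) : ℂ) := fun p => by
    have := Polynomial.aeval_algebraMap_apply_eq_algebraMap_eval (A := ℂ) ((b : ℚ)⁻¹) p
    simpa using this
  have := congrArg (Polynomial.aeval (b : ℂ)⁻¹ (T'.map (Int.castRingHom ℚ)) * ·) hc
  simp only [mul_sum, mul_smul_comm, b2, mul_zero, smul_sum] at this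
  rw [sum_comm] at this
  simp only [hy', sum_smul, mul_smul]
  simpa only [e, Rat.smul_def] using this

end Pool.Agent.P.MP_e5b57f_nt.GD
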