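import Pool.Agent.P.MP_e5b57f_nt.GD.Iface

/-! Values of independent G-series at the reciprocals of large integers. -/

namespace Pool.Agent.P.MP_e5b57f_nt.GD

open PowerSeries Filter Topology Finset
open scoped Polynomial

namespace GF0x

lemma le_pow {D x P : ℕ} (hD : 2 ≤ D) (hx : x ≤ P) : x ≤ D ^ P :=
  hx.trans ((Nat.lt_two_pow_self (n := P)).le.trans (Nat.pow_le_pow_left hD P))

lemma pow_le {a D e P : ℕ} (hD : 2 ≤ D) (ha : a ≤ D) (he : e ≤ P) : a ^ e ≤ D ^ P :=
  (Nat.pow_le_pow_left ha e).trans (Nat.pow_le_pow_right (by omega) he)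

lemma bound {D c L n N E k τ C C' : ℕ} (hD : 2 ≤ D) (hτ : τ ≤ D) (hC : C ≤ D) (hC' : C' ≤ D)
    (hn : n + 1 ≤ c * L) (hN : N + 1 ≤ c * L) (hE : E + 1 ≤ c * L) (hk : k ≤ c * L)
    (hL : L ≤ c * L) :
    (n + 1) * (τ ^ k * 2 ^ N * (N + 1) * C' ^ L) * C ^ (n + 1) * C ^ (E + 1) ≤
      (D ^ (7 * c)) ^ L := by
  have h1 := le_pow hD hn
  have h2 := pow_le hD hτ hk
  have h3 := pow_le hD hD (show N ≤ c * L by omega)
  have h4 := le_pow hD hN
  have h5 := pow_le hD hC' hL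
  have h6 := pow_le hD hC hn
  have h7 := pow_le hD hC hE
  calc _ ≤ D ^ (c * L) * (D ^ (c * L) * D ^ (c * L) * D ^ (c * L) * D ^ (c * L)) * D ^ (c * L) *
        D ^ (c * L) := by gcongr
    _ = _ := by ring

lemma pade_smul {m : ℕ} {y : Fin (m + 1) → ℚ⟦X⟧} {W : Fin (m + 1) → ℚ[X]} {N E : ℕ}
    (h : Pade y W N E) (a : ℚ) : Pade y (fun i => Polynomial.C a * W i) N E := by
  intro i
  refine ⟨(Polynomial.natDegree_C_mul_le _ _).trans (h i).1, ?_⟩
  have := (h i).2.mul_left ((Polynomial.C a : ℚ[X]) : ℚ⟦X⟧)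
  rw [mul_sub, ← mul_assoc] at this
  simpa only [Polynomial.coe_mul] using this

lemma ev_ne {T : ℚ[X]} (hT : T ≠ 0) : ∀ᶠ b : ℕ in atTop, T.eval (b : ℚ)⁻¹ ≠ 0 := by
  rw [← Nat.cofinite_eq_atTop]
  have h1 : {x : ℚ | T.IsRoot x}.Finite := Polynomial.finite_setOfPred_isRoot hT
  have h2 : Function.Injective fun b : ℕ => (b : ℚ)⁻¹ := inv_injective.comp Nat.cast_injective
  exact (h1.preimage h2.injOn).eventually_cofinite_notMem

end GF0x

open GF0x in
theorem s_GF0 (hZL : S_ZL) (hITER : S_ITER) (hPADE : S_PADE) (hKEY : S_KEY) (hHAS : S_HAS) :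
    S_GF0 := by
  intro m y T A C hS hU
  set T' := T.map (Int.castRingHom ℚ) with hT'
  obtain ⟨t, ht1, ht2⟩ : ∃ t, T'.natDegree ≤ t ∧ ∀ i j, (A i j).natDegree ≤ t := by
    refine ⟨T'.natDegree + ∑ i, ∑ j, (A i j).natDegree, Nat.le_add_right _ _, fun i j => ?_⟩
    refine le_trans ?_ (Nat.le_add_left _ _)
    exact (Finset.single_le_sum (f := fun j => (A i j).natDegree) (fun _ _ => Nat.zero_le _)
      (mem_univ j)).trans (Finset.single_le_sum (f := fun i => ∑ j, (A i j).natDegree)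
        (fun _ _ => Nat.zero_le _) (mem_univ i))
  obtain ⟨c, hc⟩ := hZL m y T' A hS
  obtain ⟨C', hC'⟩ := hPADE m y C hS.one hU (3 * (t + 1))
  obtain ⟨τ, hτ⟩ := hHAS T
  set D := 2 + τ + C + C' with hD
  set c1 := m * (3 * (t + 1)) + 2 + 3 * (t + 1) with hc1
  filter_upwards [ev_ne hS.ne, eventually_ge_atTop (2 * C), eventually_ge_atTop 1,
    eventually_ge_atTop (2 * D ^ (7 * c1))] with b hb0 hb1 hb2 hb3
  by_contra hli
  rw [← LinearIndependent.iff_fractionRing ℤ ℚ, Fintype.not_linearIndependent_iff] at hli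
  obtain ⟨γ, hγ, i0, hi0⟩ := hli
  simp only [zsmul_eq_mul] at hγ
  set G : ℝ := ∑ i, |(γ i : ℝ)| with hG
  have hG0 : 0 ≤ G := Finset.sum_nonneg fun _ _ => abs_nonneg _
  have main : ∀ L, c + 1 ≤ L → (2 : ℝ) ^ L ≤ 2 * G := by
    intro L hL
    obtain ⟨Q, W, hQ0, hW0, hP, hQ⟩ := hC' L (by omega)
    have hinj : Function.Injective (Int.castRingHom ℚ) := Int.cast_injective
    have hW : W 0 ≠ 0 := by
      rw [hW0]
      exact (Polynomial.map_ne_zero_iff hinj).2 hQ0
    have hb : ((b : ℚ))⁻¹ ≠ 0 := inv_ne_zero (by exact_mod_cast (by omega : b ≠ 0))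
    obtain ⟨k, hk, hne⟩ := hc W _ (3 * (t + 1) * L) hW (by nlinarith) hP _ hb hb0
      (fun i => (γ i : ℚ)) (fun h => hi0 (by simpa using congrFun h i0))
    have hk2 : k ≤ 2 * L := by omega
    obtain ⟨hi1, hi2⟩ := hITER m y T' A hS t ht1 ht2 W _ _ hP k
    set N := m * (3 * (t + 1) * L) + L with hN
    have hQd : Q.natDegree ≤ N := by
      have := (hP 0).1
      rwa [hW0, Polynomial.natDegree_map_eq_of_injective hinj] at this
    obtain ⟨q, hq1, hq2⟩ := hτ Q k N (C' ^ L) hQd (by simpa using hQ)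
    have hf : (k.factorial : ℚ) ≠ 0 := by exact_mod_cast k.factorial_ne_zero
    have hkt : k * t ≤ 2 * L * t := Nat.mul_le_mul_right _ hk2
    have e1 : 3 * (t + 1) * L = 3 * (L * t) + 3 * L := by ring
    have e2 : 2 * L * t = 2 * (L * t) := by ring
    have e3 : c1 * L = m * (3 * (t + 1) * L) + 2 * L + 3 * (t + 1) * L := by rw [hc1]; ring
    have hkey := hKEY m y C hU q (fun i => Polynomial.C (k.factorial : ℚ)⁻¹ * iter T' A W k i)
      (N + k * t) (N + 3 * (t + 1) * L - k) (τ ^ k * 2 ^ N * (N + 1) * C' ^ L) b γ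
      (by
        show _ * _ = _
        rw [hi1, hW0, hT', ← hq1, ← mul_assoc, ← Polynomial.C_mul, inv_mul_cancel₀ hf,
          Polynomial.C_1, one_mul])
      (pade_smul hi2 _) (by omega) hq2 hb1 hγ
      (by
        intro h
        apply hne
        simp only [Polynomial.eval_mul, Polynomial.eval_C, mul_left_comm _ (k.factorial : ℚ)⁻¹,
          ← Finset.mul_sum] at h
        exact (mul_eq_zero.1 h).resolve_left (inv_ne_zero hf))
    have hbd := bound (D := D) (c := c1) (L := L) (n := N + k * t) (N := N)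
      (E := N + 3 * (t + 1) * L - k) (k := k) (τ := τ) (C := C) (C' := C') (by omega) (by omega)
      (by omega) (by omega) (by omega) (by omega) (by omega) (by omega) (by omega)
    have hlow : (2 * D ^ (7 * c1)) ^ L ≤ b ^ (N + 3 * (t + 1) * L - k - (N + k * t)) :=
      (Nat.pow_le_pow_left hb3 L).trans (Nat.pow_le_pow_right hb2 (by omega))
    have hbd' := (Nat.cast_le (α := ℝ)).2 hbd
    have hlow' := (Nat.cast_le (α := ℝ)).2 hlow
    rw [mul_pow] at hlow'
    have hpos : (0 : ℝ) < ((D ^ (7 * c1)) ^ L : ℕ) := by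
      have : 0 < D := by omega
      positivity
    refine le_of_mul_le_mul_right ?_ hpos
    have h2 := mul_le_mul_of_nonneg_left hbd' (mul_nonneg zero_le_two hG0)
    push_cast at hkey hlow' h2 ⊢
    refine hlow'.trans (hkey.trans (le_trans (le_of_eq ?_) h2))
    ring
  obtain ⟨L, hL⟩ := exists_nat_gt (2 * G)
  have h1 := main (L + (c + 1)) (by omega)
  have h2 : ((L + (c + 1) : ℕ) : ℝ) < 2 ^ (L + (c + 1)) := by
    exact_mod_cast Nat.lt_two_pow_self
  have h3 : (L : ℝ) ≤ (L + (c + 1) : ℕ) := by exact_mod_cast Nat.le_add_right _ _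
  linarith

end Pool.Agent.P.MP_e5b57f_nt.GD
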