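import Pool.Agent.P.MP_e5b57f_nt.GD.Iface

/-! Two-power torsion points at a place of good reduction. -/

namespace Pool.Agent.P.MP_e5b57f_nt.GD

open PowerSeries Filter Topology Finset
open scoped Polynomial

namespace GOODx

theorem res_zero (B : ValuationSubring ℂ) (z : B) :
    IsLocalRing.residue B z = 0 ↔ B.valuation z < 1 := by
  rw [IsLocalRing.residue_eq_zero_iff, B.valuation_lt_one_iff]

theorem int_x (hXF : S_XF) (B : ValuationSubring ℂ) (α β : ℂ) (h2 : B.valuation 2 = 1)
    (ha : B.valuation α = 1) (hb : B.valuation β = 1) (k : ℕ) :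
    ∀ (x y : ℂ) (h : (leg α β).toAffine.Nonsingular x y),
      2 ^ k • (.some x y h : (leg α β).toAffine.Point) = 0 → B.valuation x ≤ 1 := by
  induction k with
  | zero =>
    intro x y h e
    rw [pow_zero, one_smul] at e
    cases e
  | succ k ih =>
    intro x y h e
    by_contra hx
    rw [not_le] at hx
    obtain ⟨e1, -, e2, -⟩ := hXF α β x y h
    have h0 : B.valuation x ≠ 0 := (zero_lt_one.trans hx).ne'
    have v1 : B.valuation (y ^ 2) = B.valuation x ^ 3 := by
      rw [e1, map_mul, map_mul, Valuation.map_sub_eq_of_lt_left _ (ha ▸ hx),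
        Valuation.map_sub_eq_of_lt_left _ (hb ▸ hx), pow_three']
    have hy : y ≠ 0 := by
      rintro rfl
      rw [zero_pow two_ne_zero, map_zero] at v1
      exact pow_ne_zero 3 h0 v1.symm
    obtain ⟨x₃, y₃, h₃, e3, e4⟩ := e2 hy
    have v2 : B.valuation (x ^ 2 - α * β) = B.valuation x ^ 2 := by
      rw [Valuation.map_sub_eq_of_lt_left, map_pow]
      rw [map_mul, ha, hb, one_mul, map_pow]
      exact one_lt_pow₀ hx two_ne_zero
    have v3 := congrArg B.valuation e4
    rw [show (4 : ℂ) = 2 * 2 by norm_num, map_mul, map_mul, map_mul, h2, one_mul, one_mul, v1,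
      map_pow, v2, ← pow_mul, show 2 * 2 = 3 + 1 from rfl, pow_succ' _ 3] at v3
    rw [pow_succ, mul_smul, two_smul, e3] at e
    exact hx.not_ge (mul_right_cancel₀ (pow_ne_zero 3 h0) v3 ▸ ih x₃ y₃ h₃ e)

end GOODx

open GOODx in
theorem s_GOOD (hXF : S_XF) : S_GOOD := by
  rintro B α β h2 ha hb hab x y h ⟨k, hk⟩
  have hx := int_x hXF B α β h2 ha hb k x y h hk
  refine ⟨hx, ?_⟩
  rintro x' y' h' ⟨k', hk'⟩ hv
  have hx' := int_x hXF B α β h2 ha hb k' x' y' h' hk'
  by_contra hne
  obtain ⟨x₃, y₃, h₃, x₄, y₄, h₄, e3, e4, e5, e6⟩ := (hXF α β x y h).2.2.2 x' y' h' hne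
  have z1 : 2 ^ (k + k') • (.some x y h : (leg α β).toAffine.Point) = 0 := by
    rw [add_comm, pow_add, mul_smul, hk, nsmul_zero]
  have z2 : 2 ^ (k + k') • (.some x' y' h' : (leg α β).toAffine.Point) = 0 := by
    rw [pow_add, mul_smul, hk', nsmul_zero]
  have hx3 := int_x hXF B α β h2 ha hb (k + k') x₃ y₃ h₃ (by rw [← e3, nsmul_add, z1, z2, add_zero])
  have hx4 := int_x hXF B α β h2 ha hb (k + k') x₄ y₄ h₄ (by rw [← e4, nsmul_sub, z1, z2, sub_zero])
  clear e3 e4 z1 z2 hk hk' h h' h₃ h₄
  lift x to B using (B.valuation_le_one_iff _).1 hx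
  lift x' to B using (B.valuation_le_one_iff _).1 hx'
  lift x₃ to B using (B.valuation_le_one_iff _).1 hx3
  lift x₄ to B using (B.valuation_le_one_iff _).1 hx4
  lift α to B using (B.valuation_le_one_iff _).1 ha.le
  lift β to B using (B.valuation_le_one_iff _).1 hb.le
  have f5 : x₃ * x₄ * (x - x') ^ 2 = (x * x' - α * β) ^ 2 := Subtype.ext e5
  have f6 : (x₃ + x₄) * (x - x') ^ 2 =
      2 * ((x + x') * (x * x' + α * β) - 2 * (α + β) * x * x') := Subtype.ext e6
  have r0 : IsLocalRing.residue B (x - x') = 0 := (res_zero B _).2 hv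
  have r2 : IsLocalRing.residue B 2 ≠ 0 := fun e => ((res_zero B _).1 e).ne h2
  have ra : IsLocalRing.residue B α ≠ 0 := fun e => ((res_zero B _).1 e).ne ha
  have rb : IsLocalRing.residue B β ≠ 0 := fun e => ((res_zero B _).1 e).ne hb
  have rab : IsLocalRing.residue B (α - β) ≠ 0 := fun e => ((res_zero B _).1 e).ne hab
  have g5 := congrArg (IsLocalRing.residue B) f5
  have g6 := congrArg (IsLocalRing.residue B) f6
  rw [map_mul, map_pow, r0] at g5 g6
  rw [map_sub, sub_eq_zero] at r0
  rw [map_sub] at rab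
  simp only [map_mul, map_pow, map_sub, map_add, ← r0] at g5 g6
  generalize IsLocalRing.residue B x = u at g5 g6
  generalize IsLocalRing.residue B α = a at g5 g6 ra rab
  generalize IsLocalRing.residue B β = b at g5 g6 rb rab
  have q5 : u * u - a * b = 0 := pow_eq_zero_iff two_ne_zero |>.1 (by rw [← g5]; ring)
  rw [map_ofNat] at g6 r2
  have q6 : 2 * 2 * (u * ((u - a) * (u - b))) = 0 := by linear_combination -g6
  rcases mul_eq_zero.1 ((mul_eq_zero.1 q6).resolve_left (mul_ne_zero r2 r2)) with q | q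
  · exact mul_ne_zero ra rb (by linear_combination u * q - q5)
  · rcases mul_eq_zero.1 q with q | q
    · exact mul_ne_zero ra rab (by linear_combination q5 - (u + a) * q)
    · exact mul_ne_zero rb rab (by linear_combination (u + b) * q - q5)

end Pool.Agent.P.MP_e5b57f_nt.GD
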