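import Pool.Agent.P.MP_e5b57f_nt.GD.Iface

/-! The incomplete elliptic integral along a branch is a G-series. -/

namespace Pool.Agent.P.MP_e5b57f_nt.GD

open PowerSeries Filter Topology Finset
open scoped Polynomial

namespace GSUx

theorem intN_mul {N : ℕ} {f g : ℂ⟦X⟧} (hf : IntN N f) (hg : IntN N g) : IntN N (f * g) := by
  intro n
  choose a ha using hf
  choose b hb using hg
  refine ⟨∑ p ∈ antidiagonal n, a p.1 * b p.2, ?_⟩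
  rw [coeff_mul, mul_sum, Int.cast_sum]
  refine sum_congr rfl fun p hp => ?_
  rw [Int.cast_mul, ← ha, ← hb, ← mem_antidiagonal.1 hp, pow_add]
  ring

theorem ne_of_one {f : ℂ⟦X⟧} (h : constantCoeff f = 0) : 1 - f ≠ 0 := fun e => by
  simpa [h] using congrArg constantCoeff e

theorem df (hDFS : S_DFS) {τ lm Y YL u v uT vT vL : ℂ⟦X⟧} (hτ : Alg τ) (hl : Alg lm) (τ0 : τ ≠ 0)
    (l0 : lm ≠ 0) (c0 : constantCoeff lm = 0) (h1 : Y ^ 2 * (1 - τ) * (1 - lm * τ) = 1)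
    (h2 : 2 * (1 - lm * τ) * YL = τ * Y) (h3 : u + 2 * τ * uT = Y) (h4 : v + 2 * τ * vT = YL)
    (h5 : (1 - lm * τ) * (4 * lm * (1 - lm) * vL + 4 * (1 - 2 * lm) * v - u) = -((1 - τ) * Y))
    (du : d⁄dX ℂ u = d⁄dX ℂ lm * v + d⁄dX ℂ τ * uT)
    (dv : d⁄dX ℂ v = d⁄dX ℂ lm * vL + d⁄dX ℂ τ * vT) : DF u := by
  let K := Subalgebra.algebraicClosure ℚ[X] ℂ⟦X⟧
  have m1 : τ ∈ K := hτ
  have m2 : lm ∈ K := hl
  have m3 : d⁄dX ℂ τ ∈ K := hDFS.1 _ hτ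
  have m4 : d⁄dX ℂ lm ∈ K := hDFS.1 _ hl
  have m5 : Y ∈ K := by
    have e : (1 - τ) * (1 - lm * τ) * Y ^ 2 = 1 := by linear_combination h1
    have h : (1 - τ) * (1 - lm * τ) ∈ K := by apply_rules [mul_mem, sub_mem, one_mem]
    refine IsAlgebraic.of_pow two_pos (IsAlgebraic.of_mul (mem_nonZeroDivisors_of_ne_zero
      (left_ne_zero_of_mul_eq_one e)) h ?_)
    rw [e]
    exact isAlgebraic_one
  have n1 : (2 : ℂ⟦X⟧) ≠ 0 := fun e => by simpa [map_ofNat] using congrArg constantCoeff e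
  have n2 : 1 - lm * τ ≠ 0 := ne_of_one (by simp [c0])
  refine hDFS.2.2 2 ![u, v] ![2 * τ, 2 * 2 * 2 * τ * lm * (1 - lm) * (1 - lm * τ)]
    ![d⁄dX ℂ τ * Y, (2 * lm * (1 - lm) * d⁄dX ℂ τ * τ - 2 * τ * d⁄dX ℂ lm * (1 - τ)) * Y]
    ![![-d⁄dX ℂ τ, 2 * τ * d⁄dX ℂ lm], ![2 * τ * d⁄dX ℂ lm * (1 - lm * τ),
      -(8 * τ * d⁄dX ℂ lm * (1 - lm * τ) * (1 - 2 * lm)) -
        4 * lm * (1 - lm) * d⁄dX ℂ τ * (1 - lm * τ)]] ?_ ?_ 0
  · simp only [Fin.forall_fin_two, Matrix.cons_val_zero, Matrix.cons_val_one]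
    refine ⟨⟨?_, mul_ne_zero n1 τ0, ?_, ?_, ?_⟩, ?_, ?_, ?_, ?_, ?_⟩
    rotate_left 5
    · apply_rules [mul_ne_zero, ne_of_one]
    all_goals
      change _ ∈ K
      apply_rules (maxDepth := 100) [mul_mem, sub_mem, one_mem, neg_mem, ofNat_mem]
  · simp only [Fin.forall_fin_two, Matrix.cons_val_zero, Matrix.cons_val_one, Fin.sum_univ_two]
    rw [du, dv]
    exact ⟨by linear_combination d⁄dX ℂ τ * h3, by
      linear_combination 2 * τ * d⁄dX ℂ lm * h5 + 2 * lm * (1 - lm) * d⁄dX ℂ τ * h2 +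
        4 * lm * (1 - lm) * d⁄dX ℂ τ * (1 - lm * τ) * h4⟩

end GSUx

open GSUx

theorem s_GSU (hEV : S_EV) (hPF1 : S_PF1) (hPF2 : S_PF2) (hBD2 : S_BD2) (hSSD : S_SSD)
    (hDENS : S_DENS) (hQDEN : S_QDEN) (hDFS : S_DFS) (hDFM : S_DFM) (hGC : S_GC) : S_GSU := by
  intro N l s hN hl hs
  have ta : AnalyticAt ℂ (fun z => s z ^ 2) 0 := hs.an.fun_pow 2
  have t0 : (fun z => s z ^ 2) 0 = 0 := by simp [hs.zero]
  have tt : tay (fun z => s z ^ 2) = tay s ^ 2 := tay_pow hs.an 2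
  obtain ⟨hL, hT, hC, hX, -, -, hY, hU⟩ := hBD2
  obtain ⟨B, e, hB, he, eC, eX, ed⟩ := hEV l _ hl.an ta t0
  have ua := (hSSD Uq l _ 0 hU hl.an ta (by simp [Dom, hs.zero])).1
  have eq : tay (fun z => UU (l z) (s z)) = tay s * Ev Uq l fun z => s z ^ 2 := tay_mul hs.an ua
  let b : ∀ q, Bd q → B := fun q h => ⟨q, (hB q).2 h⟩
  have eb : ∀ q h, e (b q h) = Ev q l fun z => s z ^ 2 := fun q h => he _
  have eL : Ev Lam l (fun z => s z ^ 2) = tay l := (eC _).trans (Polynomial.aeval_X _)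
  have i1 : b _ hY ^ 2 * (1 - b _ hX) * (1 - b Lam (hC _) * b _ hX) = 1 := Subtype.ext hPF1.1
  have i2 : 2 * (1 - b Lam (hC _) * b _ hX) * b _ (hL _ hY) = b _ hX * b _ hY :=
    Subtype.ext hPF1.2.1
  have i3 : b _ hU + 2 * b _ hX * b _ (hT _ hU) = b _ hY := Subtype.ext hPF2.1
  have i4 : b _ (hL _ hU) + 2 * b _ hX * b _ (hT _ (hL _ hU)) = b _ (hL _ hY) :=
    Subtype.ext hPF2.2.1
  have i5 : (1 - b Lam (hC _) * b _ hX) * (4 * b Lam (hC _) * (1 - b Lam (hC _)) *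
      b _ (hL _ (hL _ hU)) + 4 * (1 - 2 * b Lam (hC _)) * b _ (hL _ hU) - b _ hU) =
      -((1 - b _ hX) * b _ hY) := Subtype.ext hPF2.2.2
  have j1 := congrArg e i1
  have j2 := congrArg e i2
  have j3 := congrArg e i3
  have j4 := congrArg e i4
  have j5 := congrArg e i5
  simp only [map_mul, map_sub, map_add, map_neg, map_pow, map_one, map_ofNat, eb, eL,
    eX] at j1 j2 j3 j4 j5
  have hu : DF (Ev Uq l fun z => s z ^ 2) :=
    df hDFS (tt ▸ hs.alg.pow 2) hl.alg (tt ▸ pow_ne_zero 2 hs.ne) hl.ne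
      ((constantCoeff_tay l).trans hl.zero) j1 j2 j3 j4 j5 (ed _ hU).1 (ed _ (hL _ hU)).1
  refine ⟨?_, gr_tay (hs.an.fun_mul ua), ?_⟩
  · rw [eq]
    refine hGC.2.2.1 _ _ (hGC.2.2.2.2.2.1 _ ⟨N, 1, hN, one_pos, by simpa using hs.int⟩)
      (hDENS Uq _ _ _ N hN hQDEN.2 (ed _ hU).2 hl.int ?_ ((constantCoeff_tay _).trans t0))
    rw [tt, sq]
    exact intN_mul hs.int hs.int
  · rw [eq]
    exact hDFM.2 _ _ (hDFS.2.1 _ hs.alg) hu

end Pool.Agent.P.MP_e5b57f_nt.GD
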