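import Pool.Agent.P.MP_e5b57f_nt.GD.Iface

/-! Divided derivatives of integer polynomials. -/

namespace Pool.Agent.P.MP_e5b57f_nt.GD

open PowerSeries Filter Topology Finset
open scoped Polynomial

namespace HASx

theorem mul_le (T g : ℤ[X]) (G : ℤ) (h : ∀ j, |g.coeff j| ≤ G) (j : ℕ) :
    |(T * g).coeff j| ≤ (∑ i ∈ T.support, (T.coeff i).natAbs : ℕ) * G := by
  have G0 : 0 ≤ G := (abs_nonneg _).trans (h 0)
  conv_lhs => rw [T.as_sum_support_C_mul_X_pow, sum_mul, Polynomial.finset_sum_coeff]
  push_cast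
  rw [sum_mul]
  refine (abs_sum_le_sum_abs _ _).trans (sum_le_sum fun i _ => ?_)
  rw [mul_assoc, Polynomial.coeff_C_mul, abs_mul, Polynomial.coeff_X_pow_mul']
  refine mul_le_mul_of_nonneg_left ?_ (abs_nonneg _)
  split_ifs
  · exact h _
  · simpa using G0

theorem pow_mul_le (T g : ℤ[X]) (G : ℤ) (h : ∀ j, |g.coeff j| ≤ G) (k j : ℕ) :
    |(T ^ k * g).coeff j| ≤ (∑ i ∈ T.support, (T.coeff i).natAbs : ℕ) ^ k * G := by
  induction k generalizing j with
  | zero => simpa using h j
  | succ k ih =>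
    rw [pow_succ', mul_assoc, pow_succ', mul_assoc]
    exact mul_le T _ _ ih j

end HASx

theorem s_HAS : S_HAS := by
  intro T
  refine ⟨∑ i ∈ T.support, (T.coeff i).natAbs, fun Q k N H hN hH =>
    ⟨T ^ k * Polynomial.hasseDeriv k Q, ?_, fun j => ?_⟩⟩
  · have e := congrFun (Polynomial.factorial_smul_hasseDeriv (R := ℤ) k) Q
    rw [LinearMap.smul_apply, nsmul_eq_mul] at e
    rw [Polynomial.iterate_derivative_map, ← e, Polynomial.map_mul, Polynomial.map_pow,
      Polynomial.map_mul, Polynomial.map_natCast, map_natCast]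
    ring
  · refine (HASx.pow_mul_le T _ (2 ^ N * H) (fun j => ?_) k j).trans ?_
    · rw [Polynomial.hasseDeriv_coeff, abs_mul, Nat.abs_cast]
      by_cases h : j + k ≤ N
      · refine mul_le_mul ?_ (hH _) (abs_nonneg _) (by positivity)
        exact_mod_cast (Nat.choose_le_two_pow _ _).trans (Nat.pow_le_pow_right two_pos h)
      · rw [Polynomial.coeff_eq_zero_of_natDegree_lt (by omega), abs_zero, mul_zero]
        positivity
    · push_cast
      rw [mul_assoc, mul_assoc]
      gcongr
      exact le_mul_of_one_le_left (by positivity) (by linarith [Int.natCast_nonneg N])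

end Pool.Agent.P.MP_e5b57f_nt.GD
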