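import Pool.Agent.P.MP_e5b57f_nt.GD.Iface

/-! Step HIT of the density project. -/

namespace Pool.Agent.P.MP_e5b57f_nt.GD

open PowerSeries Filter Topology Finset
open scoped Polynomial

namespace HITx

theorem al_bnd (g M : ℕ) (θ x : ℝ) (hg : (1 : ℝ) ≤ g) (hM : 1000 * (g : ℝ) ^ 2 ≤ M) (hx : 0 ≤ x)
    (hx1 : x ≤ 2 * (g : ℝ) / M) (h1 : -(1 / 4) ≤ θ) (h2 : θ ≤ g) :
    x * (500 * g) ≤ 1 ∧ 1 ≤ al g M θ x ∧ al g M θ x ≤ 1 + 40 * x ^ 2 := by
  have hM0 : (1000 : ℝ) * g ≤ M := by nlinarith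
  have hMp : (0 : ℝ) < M := by linarith
  have hxM : x * M ≤ 2 * g := (le_div_iff₀ hMp).1 hx1
  have hxg : x * (500 * g) ≤ 1 := by
    have : x * (1000 * (g : ℝ) ^ 2) ≤ 2 * g := (mul_le_mul_of_nonneg_left hM hx).trans hxM
    have h3 : (x * (500 * g) - 1) * (2 * g) ≤ 0 := by nlinarith
    have := nonpos_of_mul_nonpos_left h3 (by linarith)
    linarith
  have hx5 : x ≤ 1 / 500 := by nlinarith
  have hm0 : 0 ≤ mu g M θ x := by
    unfold mu
    exact div_nonneg (mul_nonneg (by linarith) hx) (by linarith)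
  have hm1 : mu g M θ x ≤ 51 / 100 := by
    unfold mu
    rw [div_le_iff₀ (by linarith)]
    nlinarith
  have hs0 : 0 ≤ sz x := by unfold sz; positivity
  have hs1 : sz x ≤ 2 * x := by
    unfold sz
    exact div_le_self (by linarith) (by nlinarith)
  have hr0 : 0 ≤ rz x := by unfold rz; positivity
  have hr1 : rz x ≤ 4 * x := by
    unfold rz
    exact div_le_self (by linarith) (by nlinarith)
  have ha : (sz x + rz x) ^ 2 ≤ 36 * x ^ 2 := by nlinarith
  have hb : (sz x - rz x) ^ 2 ≤ 36 * x ^ 2 := by nlinarith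
  have ha0 : 0 ≤ mu g M θ x * (sz x + rz x) ^ 2 := mul_nonneg hm0 (sq_nonneg _)
  have hb0 : 0 ≤ mu g M θ x * (sz x - rz x) ^ 2 := mul_nonneg hm0 (sq_nonneg _)
  have ha1 : mu g M θ x * (sz x + rz x) ^ 2 ≤ 51 / 100 * (36 * x ^ 2) :=
    mul_le_mul hm1 ha (sq_nonneg _) (by norm_num)
  have hb1 : mu g M θ x * (sz x - rz x) ^ 2 ≤ 51 / 100 * (36 * x ^ 2) :=
    mul_le_mul hm1 hb (sq_nonneg _) (by norm_num)
  refine ⟨hxg, ?_, ?_⟩
  · unfold al; nlinarith
  · unfold al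
    have hx2 : x ^ 2 ≤ 1 / 250000 := by nlinarith
    calc _ ≤ (1 + 51 / 100 * (36 * x ^ 2)) * (1 + 51 / 100 * (36 * x ^ 2)) :=
          mul_le_mul (by linarith) (by linarith) (by linarith) (by positivity)
      _ ≤ _ := by nlinarith [sq_nonneg x]

end HITx

open HITx in
theorem s_HIT : S_HIT := by
  intro g M i t δ hi hM hδ hc ht
  have hg : (1 : ℝ) ≤ g := by exact_mod_cast (show 1 ≤ g by omega)
  have hig : (i : ℝ) + 1 ≤ g := by exact_mod_cast hi
  have hi0 : (0 : ℝ) ≤ i := Nat.cast_nonneg i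
  have hM' : 1000 * (g : ℝ) ^ 2 ≤ M := by exact_mod_cast hM
  have hM0 : (1000 : ℝ) ≤ M := by nlinarith
  set y : ℝ := 2 * (g : ℝ) / M with hy
  have hy0 : 0 < y := by positivity
  have hsub : Set.Icc 0 y ⊆ Set.Icc 0 δ := Set.Icc_subset_Icc le_rfl hδ
  have hb : ∀ x ∈ Set.Icc 0 y, x * (500 * g) ≤ 1 ∧ 1 ≤ al g M (t x) x ∧
      al g M (t x) x ≤ 1 + 40 * x ^ 2 := by
    intro x hx
    have := abs_le.1 (ht x (hsub hx))
    exact al_bnd g M (t x) x hg hM' hx.1 hx.2 (by linarith [this.1]) (by linarith [this.2])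
  have hcm : ContinuousOn (fun x => mu g M (t x) x) (Set.Icc 0 y) := by
    unfold mu
    exact ((continuousOn_const.add (hc.mono hsub)).mul continuousOn_id).div_const _
  have hs : Continuous (fun x : ℝ => sz x) := by
    unfold sz
    exact Continuous.div (by fun_prop) (by fun_prop) fun x => by positivity
  have hr : Continuous (fun x : ℝ => rz x) := by
    unfold rz
    exact Continuous.div (by fun_prop) (by fun_prop) fun x => by positivity
  have hcl : ContinuousOn (fun x => lam g M (t x) x) (Set.Icc 0 y) := by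
    unfold lam
    refine (continuousOn_const.mul hcm).div ?_ fun x hx => by linarith [(hb x hx).2.1]
    unfold al
    exact (continuousOn_const.add (hcm.mul ((hs.add hr).pow 2).continuousOn)).mul
      (continuousOn_const.add (hcm.mul ((hs.sub hr).pow 2).continuousOn))
  have h0 : lam g M (t 0) 0 = 0 := by simp [lam, mu]
  have h1 : 1 ≤ lam g M (t y) y := by
    obtain ⟨b1, b2, b3⟩ := hb y ⟨hy0.le, le_rfl⟩
    have := abs_le.1 (ht y (hsub ⟨hy0.le, le_rfl⟩))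
    have hy5 : y ≤ 1 / 500 := by nlinarith
    unfold lam
    rw [le_div_iff₀ (by linarith), one_mul]
    have e : 4 * mu g M (t y) y = 2 + 2 * t y / M := by
      unfold mu; rw [hy]; field_simp
    have : -(1 / 2) ≤ 2 * t y / M := by
      rw [le_div_iff₀ (by linarith)]; linarith [this.1]
    nlinarith
  have hcl' : IsClosed (Set.Icc 0 y ∩ (fun x => lam g M (t x) x) ⁻¹' Set.Ici 1) :=
    hcl.preimage_isClosed_of_isClosed isClosed_Icc isClosed_Ici
  have hbd : BddBelow (Set.Icc 0 y ∩ (fun x => lam g M (t x) x) ⁻¹' Set.Ici 1) :=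
    ⟨0, fun x hx => hx.1.1⟩
  have hmem := hcl'.csInf_mem ⟨y, ⟨hy0.le, le_rfl⟩, h1⟩ hbd
  set ρ := sInf (Set.Icc 0 y ∩ (fun x => lam g M (t x) x) ⁻¹' Set.Ici 1) with hρ
  have hlt : ∀ x ∈ Set.Ico 0 ρ, lam g M (t x) x < 1 := by
    intro x hx
    by_contra h
    exact absurd (csInf_le hbd ⟨⟨hx.1, hx.2.le.trans hmem.1.2⟩, not_lt.1 h⟩) (not_le.2 hx.2)
  have hge : 1 ≤ lam g M (t ρ) ρ := hmem.2
  have hρ0 : 0 < ρ := by
    refine lt_of_le_of_ne hmem.1.1 fun e => ?_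
    rw [← e, h0] at hge; linarith
  have heq : lam g M (t ρ) ρ = 1 := by
    obtain ⟨x, hx, e⟩ := intermediate_value_Icc hρ0.le
      (hcl.mono (Set.Icc_subset_Icc le_rfl hmem.1.2)) (show (1 : ℝ) ∈ Set.Icc _ _ from
        ⟨by rw [h0]; norm_num, hge⟩)
    rcases hx.2.eq_or_lt with h | h
    · rw [← h]; exact e
    · exact absurd e (hlt x ⟨hx.1, h⟩).ne
  refine ⟨ρ, hρ0, hmem.1.2, heq, hlt, ?_⟩
  obtain ⟨b1, b2, b3⟩ := hb ρ hmem.1
  have h4 := abs_le.1 (ht ρ (hsub hmem.1))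
  have e1 : al g M (t ρ) ρ = (M + t ρ) * ρ / g := by
    unfold lam at heq
    rw [div_eq_one_iff_eq (by linarith)] at heq
    rw [← heq]; unfold mu; field_simp
  have e2 : 1 / ρ - ((M : ℝ) + i) / g = ((t ρ - i) - (al g M (t ρ) ρ - 1) / ρ * g) / g := by
    rw [e1]; field_simp; ring
  have h5 : 0 ≤ (al g M (t ρ) ρ - 1) / ρ * g := by
    have : 0 ≤ al g M (t ρ) ρ - 1 := by linarith
    positivity
  have h6 : (al g M (t ρ) ρ - 1) / ρ * g ≤ 40 * ρ * g := by
    refine mul_le_mul_of_nonneg_right ?_ (by linarith)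
    rw [div_le_iff₀ hρ0]; nlinarith
  rw [e2, abs_div, abs_of_pos (show (0 : ℝ) < g by linarith), div_lt_div_iff₀ (by linarith)
    (by linarith)]
  have : |t ρ - i - (al g M (t ρ) ρ - 1) / ρ * g| < 1 / 2 :=
    abs_lt.2 ⟨by nlinarith [h4.1], by linarith [h4.2]⟩
  nlinarith

end Pool.Agent.P.MP_e5b57f_nt.GD
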