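import Pool.Agent.P.MP_e5b57f_nt.GD.Iface

/-! The parametrisation by Jacobian elliptic functions is a homomorphism. -/

namespace Pool.Agent.P.MP_e5b57f_nt.GD

open PowerSeries Filter Topology Finset
open scoped Polynomial

namespace HOMx

theorem op_inj {W : WeierstrassCurve ℝ} {P Q : W.toAffine.Point} (h : op P = op Q) : P = Q := by
  cases P with
  | zero =>
    cases Q with
    | zero => rfl
    | some x y k => simp [op] at h
  | some x y k =>
    cases Q with
    | zero => simp [op] at h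
    | some x' y' k' =>
      simp only [op, OnePoint.some_eq_iff, Prod.mk.injEq] at h
      obtain ⟨rfl, rfl⟩ := h
      rfl

theorem nons {α β ρ l s c d : ℝ} (hβ : 0 < β) (hα : β < α) (hρ : ρ ^ 2 = α) (hl : l * α = β)
    (h1 : s ^ 2 + c ^ 2 = 1) (h2 : d ^ 2 + l * s ^ 2 = 1) (hs : s ≠ 0) :
    (leg α β).toAffine.Nonsingular (α / s ^ 2) (α * ρ * c * d / s ^ 3) := by
  rw [← WeierstrassCurve.Affine.equation_iff_nonsingular_of_Δ_ne_zero]
  · rw [WeierstrassCurve.Affine.equation_iff]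
    simp only [leg]
    have e1 : c ^ 2 = 1 - s ^ 2 := by linarith
    have e2 : d ^ 2 = 1 - l * s ^ 2 := by linarith
    have e3 : (α * ρ * c * d / s ^ 3) ^ 2 = α ^ 3 * (1 - s ^ 2) * (1 - l * s ^ 2) / s ^ 6 := by
      rw [div_pow, mul_pow, mul_pow, mul_pow, e1, e2, hρ]; ring
    rw [e3, ← hl]
    field_simp
    ring
  · have : (leg α β).toAffine.Δ = 16 * (α * β * (α - β)) ^ 2 := by
      simp only [leg, WeierstrassCurve.Δ, WeierstrassCurve.b₂, WeierstrassCurve.b₄,
        WeierstrassCurve.b₆, WeierstrassCurve.b₈]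
      ring
    rw [this]
    have h3 : 0 < α - β := by linarith
    have h4 : 0 < α := by linarith
    positivity

theorem par {l : ℝ} {S C D : ℝ → ℝ} (h : Jac l S C D) (u : ℝ) :
    S (-u) = -S u ∧ C (-u) = C u ∧ D (-u) = D u := by
  obtain ⟨φ, rfl⟩ := h.surj u
  have a : S (-KI l φ) = -S (KI l φ) := by rw [← h.odd, h.hS, h.hS, Real.sin_neg]
  refine ⟨a, by rw [← h.odd, h.hC, h.hC, Real.cos_neg], ?_⟩
  have b := h.sd (-KI l φ)
  have c := h.sd (KI l φ)
  rw [a] at b
  exact (pow_left_inj₀ (h.pos _).le (h.pos _).le two_ne_zero).1 (by nlinarith)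

theorem ae_ne {l : ℝ} {S C D : ℝ → ℝ} (h : Jac l S C D) (a b : ℝ) (hb : b ≠ 0) :
    ∀ᵐ w : ℝ, S (a + b * w) ≠ 0 := by
  have hc : (Set.range fun n : ℤ => (KI l (n * Real.pi) - a) / b).Countable :=
    Set.countable_range _
  filter_upwards [hc.ae_notMem MeasureTheory.volume] with w hw h0
  apply hw
  obtain ⟨φ, hφ⟩ := h.surj (a + b * w)
  rw [← hφ, h.hS, Real.sin_eq_zero_iff] at h0
  obtain ⟨n, rfl⟩ := h0
  refine ⟨n, ?_⟩
  simp only [hφ]
  field_simp
  ring

theorem den {l : ℝ} {S C D : ℝ → ℝ} (h : Jac l S C D) (h0 : 0 ≤ l) (h1 : l < 1) (u v : ℝ) :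
    1 - l * S u ^ 2 * S v ^ 2 ≠ 0 := by
  have a : S u ^ 2 ≤ 1 := by nlinarith [h.sc u, sq_nonneg (C u)]
  have b : S v ^ 2 ≤ 1 := by nlinarith [h.sc v, sq_nonneg (C v)]
  have c : S u ^ 2 * S v ^ 2 ≤ 1 := mul_le_one₀ a (sq_nonneg _) b
  have d : l * (S u ^ 2 * S v ^ 2) ≤ l := by nlinarith
  rw [mul_assoc]
  exact ne_of_gt (by linarith)

end HOMx

open HOMx in
theorem s_HOM (hADD : S_ADD) (hCHORD : S_CHORD) : S_HOM := by
  intro α β S C D hβ hα h
  have α0 : 0 < α := hβ.trans hα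
  have l0 : 0 ≤ β / α := (div_pos hβ α0).le
  have l1 : β / α < 1 := (div_lt_one α0).2 hα
  have hl : β / α * α = β := div_mul_cancel₀ _ α0.ne'
  have hρ : √α ^ 2 = α := Real.sq_sqrt α0.le
  have add := hADD _ S C D l0 l1 h
  have ns : ∀ u, S u ≠ 0 →
      (leg α β).toAffine.Nonsingular (α / S u ^ 2) (α * √α * C u * D u / S u ^ 3) :=
    fun u hu => nons hβ hα hρ hl (h.sc u) (h.sd u) hu
  classical
  obtain ⟨F, F0, F1⟩ : ∃ F : ℝ → (leg α β).toAffine.Point, (∀ u, S u = 0 → F u = 0) ∧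
      ∀ u (hu : S u ≠ 0), F u = .some _ _ (ns u hu) :=
    ⟨fun u => if hu : S u = 0 then 0 else .some _ _ (ns u hu), fun u hu => dif_pos hu,
      fun u hu => dif_neg hu⟩
  have Fop : ∀ u, S u ≠ 0 →
      op (F u) = OnePoint.some (α / S u ^ 2, α * √α * C u * D u / S u ^ 3) := by
    intro u hu
    rw [F1 u hu]; rfl
  have per : ∀ u v, S u = 0 → F (u + v) = F v := by
    intro u v hu
    obtain ⟨a, b, c⟩ := add u v
    have c1 : C u ^ 2 = 1 := by simpa [hu] using h.sc u
    have d1 : D u = 1 := by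
      have := h.sd u
      rw [hu] at this
      exact (pow_left_inj₀ (h.pos _).le zero_le_one two_ne_zero).1 (by simpa using this)
    have c0 : C u ≠ 0 := by
      intro e; rw [e] at c1; norm_num at c1
    simp only [hu, d1, ne_eq, OfNat.ofNat_ne_zero, not_false_eq_true, zero_pow, mul_zero,
      zero_mul, sub_zero, mul_one, zero_add, one_mul] at a b c
    by_cases hv : S v = 0
    · rw [F0 v hv, F0 (u + v) (by rw [a, hv, zero_mul])]
    · have huv : S (u + v) ≠ 0 := by rw [a]; exact mul_ne_zero hv c0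
      apply op_inj
      rw [Fop _ hv, Fop _ huv, a, b, c, mul_pow, c1, mul_one]
      congr 2
      rw [mul_pow, pow_succ (C u) 2, c1]
      field_simp
  have neg : ∀ u, F (-u) = -F u := by
    intro u
    obtain ⟨a, b, c⟩ := par h u
    by_cases hu : S u = 0
    · rw [F0 u hu, F0 (-u) (by rw [a, hu, neg_zero]), neg_zero]
    · have hu' : S (-u) ≠ 0 := by rw [a]; exact neg_ne_zero.2 hu
      apply op_inj
      rw [Fop _ hu', F1 u hu, WeierstrassCurve.Affine.Point.neg_some, a, b, c]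
      simp only [op, WeierstrassCurve.Affine.negY, leg]
      congr 2
      · ring
      · ring
  have gen : ∀ u v, S u ≠ 0 → S v ≠ 0 → S (u + v) ≠ 0 → S (u - v) ≠ 0 →
      F (u + v) = F u + F v := by
    intro u v hu hv hp hm
    obtain ⟨a, b, c⟩ := add u v
    have hne : S u ^ 2 ≠ S v ^ 2 := by
      intro e
      obtain ⟨a', -, -⟩ := add u (-v)
      obtain ⟨p1, p2, p3⟩ := par h v
      rw [p1, p2, p3, ← sub_eq_add_neg, neg_sq] at a'
      have e1 : C u ^ 2 = C v ^ 2 := by linarith [h.sc u, h.sc v]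
      have e2 : D u ^ 2 = D v ^ 2 := by
        have x := h.sd u
        have y := h.sd v
        rw [e] at x
        linarith
      have z : S (u + v) * (1 - β / α * S u ^ 2 * S v ^ 2) *
          (S (u - v) * (1 - β / α * S u ^ 2 * S v ^ 2)) = 0 := by
        rw [a, a']
        have : (S u * C v * D v + S v * C u * D u) * (S u * C v * D v + -S v * C u * D u) =
          S u ^ 2 * C v ^ 2 * D v ^ 2 - S v ^ 2 * C u ^ 2 * D u ^ 2 := by ring
        rw [this, e, e1, e2, sub_self]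
      exact mul_ne_zero (mul_ne_zero hp (den h l0 l1 u v)) (mul_ne_zero hm (den h l0 l1 u v)) z
    apply op_inj
    rw [Fop _ hp, F1 u hu, F1 v hv]
    exact (hCHORD α β √α (β / α) _ _ _ _ _ _ _ _ _ α0.ne' hρ hl (h.sc u) (h.sd u) (h.sc v)
      (h.sd v) hu hv hp hne (den h l0 l1 u v) a b c _ _).symm
  have hadd : ∀ u v, F (u + v) = F u + F v := by
    intro u v
    by_cases hu : S u = 0
    · rw [per u v hu, F0 u hu, zero_add]
    by_cases hv : S v = 0
    · rw [add_comm u v, per v u hv, F0 v hv, add_zero]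
    by_cases hp : S (u + v) = 0
    · have := per (u + v) (-v) hp
      rw [add_neg_cancel_right, neg] at this
      rw [this, F0 _ hp, neg_add_cancel]
    obtain ⟨w, w1, w2, w3, w4, w5, w6, w7⟩ := ((ae_ne h u 1 one_ne_zero).and
      ((ae_ne h v (-1) (by norm_num)).and ((ae_ne h (u - v) 2 two_ne_zero).and
      ((ae_ne h 0 1 one_ne_zero).and ((ae_ne h u (-1) (by norm_num)).and
      ((ae_ne h 0 (-1) (by norm_num)).and (ae_ne h v 1 one_ne_zero))))))).exists
    simp only [one_mul, neg_mul, zero_add] at w1 w2 w4 w5 w6 w7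
    have e1 := gen (u + w) (v + -w) w1 w2 (by rwa [show u + w + (v + -w) = u + v by ring])
      (by rwa [show u + w - (v + -w) = u - v + 2 * w by ring])
    have e2 := gen u w hu w4 w1 (by rwa [sub_eq_add_neg])
    have e3 := gen v (-w) hv w6 w2 (by rwa [sub_neg_eq_add])
    rw [show u + w + (v + -w) = u + v by ring, e2, e3, neg] at e1
    rw [e1]
    abel
  exact ⟨AddMonoidHom.mk' F hadd, fun u => ⟨F0 u, Fop u⟩⟩

end Pool.Agent.P.MP_e5b57f_nt.GD
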