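import Pool.Agent.P.MP_e5b57f_nt.GD.Iface

/-! Independence of the quotients by the complete integrals. -/

namespace Pool.Agent.P.MP_e5b57f_nt.GD

open PowerSeries Filter Topology Finset
open scoped Polynomial

namespace INDx

theorem idn {f : ℂ → ℂ} {s : Set ℝ} (hs : IsPreconnected s)
    (hf : ∀ x ∈ s, AnalyticAt ℂ f (x : ℝ)) {a : ℝ} (ha : a ∈ s)
    (h : ∀ᶠ z in 𝓝 (a : ℂ), f z = 0) {x : ℝ} (hx : x ∈ s) : f x = 0 :=
  AnalyticOnNhd.eqOn_zero_of_preconnected_of_eventuallyEq_zero (𝕜 := ℂ)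
    (U := Complex.ofReal '' s) (by rintro _ ⟨y, hy, rfl⟩; exact hf y hy)
    (hs.image _ Complex.continuous_ofReal.continuousOn) ⟨a, ha, rfl⟩ h ⟨x, hx, rfl⟩

theorem back {f : ℂ → ℂ} {ρ : ℝ} (h0 : 0 < ρ) (hf : ∀ x ∈ Set.Icc 0 ρ, AnalyticAt ℂ f (x : ℝ))
    (h : ∀ᶠ z in 𝓝 (ρ : ℂ), f z = 0) : ∀ᶠ z in 𝓝 (0 : ℂ), f z = 0 := by
  have ht : Tendsto Complex.ofReal (𝓝[>] 0) (𝓝[≠] 0) :=
    tendsto_nhdsWithin_of_tendsto_nhds_of_eventually_within _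
      ((Complex.continuous_ofReal.tendsto' 0 0 rfl).mono_left nhdsWithin_le_nhds)
      (eventually_mem_nhdsWithin.mono fun x hx => Complex.ofReal_ne_zero.2 (ne_of_gt hx))
  refine (hf 0 ⟨le_rfl, h0.le⟩).frequently_zero_iff_eventually_zero.1 (ht.frequently ?_)
  refine Eventually.frequently ?_
  filter_upwards [Icc_mem_nhdsGT h0] with x hx using
    idn isPreconnected_Icc hf ⟨h0.le, le_rfl⟩ h hx

end INDx

theorem s_IND (hSING : S_SING) (hFFR : S_FFR) (hSSD : S_SSD) (hBD2 : S_BD2) : S_IND := by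
  classical
  intro J _ l H ρ hρ h h0
  have key : ∀ j (x : ℝ), 0 ≤ x → x < ρ j → FF (l j x) ≠ 0 ∧
      AnalyticAt ℂ (fun z => H j z / FF (l j z)) x := fun j x hx hx' => by
    obtain ⟨a, u, e, u0, u1, -⟩ := (h j).2.1 x ⟨hx, hx'.le⟩
    obtain ⟨φ, e', h1, -⟩ := hFFR u u0 (u1 hx')
    have hn : FF (l j x) ≠ 0 := by
      rw [e, e']
      exact Complex.ofReal_ne_zero.2 (by linarith)
    refine ⟨hn, ((h j).2.2 x ⟨hx, hx'.le⟩).div (hSSD Fq (fun _ => 0) (l j) x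
      hBD2.2.2.2.2.2.1 analyticAt_const a ?_).1 hn⟩
    simpa [Dom, e, abs_of_nonneg u0] using u1 hx'
  by_contra hc
  set A := univ.filter fun j => ¬∀ᶠ z in 𝓝 (0 : ℂ), H j z = 0 with hA
  obtain ⟨j, hj, hm⟩ := A.exists_min_image ρ (by
    obtain ⟨j, hj⟩ := not_forall.1 hc
    exact ⟨j, mem_filter.2 ⟨mem_univ _, hj⟩⟩)
  have r0 := (h j).1
  have h1 : ∀ᶠ z in 𝓝 ((0 : ℝ) : ℂ), ∑ i ∈ A, H i z / FF (l i z) = 0 := by
    have h2 : ∀ᶠ z in 𝓝 (0 : ℂ), ∀ i, i ∉ A → H i z = 0 := eventually_all.2 fun i => by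
      by_cases e : i ∈ A
      · exact .of_forall fun _ a => absurd e a
      · exact (not_not.1 fun a => e (mem_filter.2 ⟨mem_univ _, a⟩)).mono fun _ a _ => a
    filter_upwards [h0, h2] with z a b
    rw [← a]
    exact sum_subset (subset_univ _) fun i _ hi => by rw [b i hi, zero_div]
  have h3 : ∀ x ∈ Set.Ico 0 (ρ j), ∑ i ∈ A, H i (x : ℝ) / FF (l i (x : ℝ)) = 0 := fun x hx =>
    INDx.idn (f := fun z => ∑ i ∈ A, H i z / FF (l i z)) isPreconnected_Ico (fun y hy =>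
      A.analyticAt_fun_sum fun i hi => (key i y hy.1 (hy.2.trans_le (hm i hi))).2)
      ⟨le_rfl, r0⟩ h1 hx
  obtain ⟨a, u, e, -, -, u1⟩ := (h j).2.1 _ ⟨r0.le, le_rfl⟩
  refine (mem_filter.1 hj).2 (INDx.back r0 (h j).2.2 (hSING (l j) (H j)
    (fun z => -∑ i ∈ A.erase j, H i z / FF (l i z)) (ρ j) a ((h j).2.2 _ ⟨r0.le, le_rfl⟩)
    ((A.erase j).analyticAt_fun_sum fun i hi => (key i _ r0.le ((hm i (mem_of_mem_erase hi)).lt_of_ne
      fun b => ne_of_mem_erase hi (hρ b).symm)).2).neg (by rw [e, u1 rfl]; rfl) ?_))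
  filter_upwards [Ico_mem_nhdsLT r0] with x hx
  obtain ⟨-, v, e', v0, v1, -⟩ := (h j).2.1 x ⟨hx.1, hx.2.le⟩
  refine ⟨v, e', v0, v1 hx.2, ?_⟩
  have h4 := h3 x hx
  rw [← add_sum_erase _ _ hj, add_eq_zero_iff_eq_neg] at h4
  rw [← h4, div_mul_cancel₀ _ (key j x hx.1 hx.2).1]

end Pool.Agent.P.MP_e5b57f_nt.GD
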