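import Pool.Agent.P.MP_e5b57f_nt.GD.Iface

/-! Step INT1 of the density project. -/

namespace Pool.Agent.P.MP_e5b57f_nt.GD

open PowerSeries Filter Topology Finset
open scoped Polynomial

namespace INT1x

theorem aa_succ (n : ℕ) : aa (n + 1) = aa n * ((2 * n + 1) / (2 * n + 2)) := by
  have h : ((n : ℚ) + 1) * ((n + 1).centralBinom : ℚ) = 2 * (2 * n + 1) * (n.centralBinom : ℚ) := by
    exact_mod_cast Nat.succ_mul_centralBinom_succ n
  have h' : ((n + 1).centralBinom : ℚ) = 2 * (2 * n + 1) * (n.centralBinom : ℚ) / (n + 1) := by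
    rw [← h]; field_simp
  unfold aa
  rw [h']; field_simp; ring

theorem aa_prod (n : ℕ) : ∏ i ∈ range n, ((2 * (i : ℝ) + 1) / (2 * i + 2)) = (aa n : ℝ) := by
  induction n with
  | zero => simp [aa]
  | succ n ih => rw [prod_range_succ, ih, aa_succ]; push_cast; ring

theorem aa_bnd (n : ℕ) : 0 ≤ (aa n : ℝ) ∧ (aa n : ℝ) ≤ 1 := by
  rw [← aa_prod]
  refine ⟨prod_nonneg fun i _ => by positivity, prod_le_one (fun i _ => by positivity) fun i _ => ?_⟩
  rw [div_le_one (by positivity)]; linarith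

theorem cn_zero (n : ℕ) : Polynomial.aeval (0 : ℂ) (cn n) = (aa n : ℂ) := by
  unfold cn
  rw [map_sum, sum_eq_single (n, 0)]
  · simp [aa]
  · rintro ⟨a, b⟩ hab hne
    have : b ≠ 0 := by
      rintro rfl
      exact hne (by simpa using hab)
    simp [this]
  · simp

end INT1x

open INT1x in
theorem s_INT1 (hYV : S_YV) (hSSU : S_SSU) (hBD2 : S_BD2) : S_INT1 := by
  intro l hl0 hl1
  have hs : ∀ x : ℝ, 0 ≤ Real.sin x ^ 2 ∧ Real.sin x ^ 2 ≤ 1 := fun x =>
    ⟨sq_nonneg _, Real.sin_sq_le_one x⟩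
  have hb : ∀ (n : ℕ) (x : ℝ), ‖(aa n : ℝ) * (l * Real.sin x ^ 2) ^ n‖ ≤ l ^ n := by
    intro n x
    have h0 : 0 ≤ l * Real.sin x ^ 2 := mul_nonneg hl0 (hs x).1
    rw [Real.norm_of_nonneg (mul_nonneg (aa_bnd n).1 (pow_nonneg h0 n))]
    exact (mul_le_of_le_one_left (pow_nonneg h0 n) (aa_bnd n).2).trans
      (pow_le_pow_left₀ h0 (mul_le_of_le_one_right hl0 (hs x).2) n)
  have hg := summable_geometric_of_lt_one hl0 hl1
  have h1 : ∀ x : ℝ, HasSum (fun n => (aa n : ℝ) * (l * Real.sin x ^ 2) ^ n)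
      (√(1 - l * Real.sin x ^ 2))⁻¹ := by
    intro x
    have h := hYV 0 (l * Real.sin x ^ 2) le_rfl one_pos (mul_nonneg hl0 (hs x).1)
      ((mul_le_of_le_one_right hl0 (hs x).2).trans_lt hl1)
    rw [zero_mul, sub_zero, Real.sqrt_one, mul_one] at h
    rw [← Complex.ofReal_injective.eq_iff.1 (show ((∑' n, (aa n : ℝ) * (l * Real.sin x ^ 2) ^ n : ℝ) : ℂ)
      = ((√(1 - l * Real.sin x ^ 2))⁻¹ : ℝ) by
        rw [← h, Complex.ofReal_tsum]
        refine tsum_congr fun n => ?_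
        simp [Yq, cn_zero])]
    exact (Summable.of_norm_bounded hg fun n => hb n x).hasSum
  have h2 := intervalIntegral.hasSum_integral_of_dominated_convergence (μ := MeasureTheory.volume)
    (a := 0) (b := Real.pi) (F := fun n x => (aa n : ℝ) * (l * Real.sin x ^ 2) ^ n)
    (f := fun x => (√(1 - l * Real.sin x ^ 2))⁻¹) (fun n _ => l ^ n)
    (fun n => Continuous.aestronglyMeasurable (by fun_prop))
    (fun n => Eventually.of_forall fun x _ => hb n x) (Eventually.of_forall fun x _ => hg)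
    intervalIntegrable_const (Eventually.of_forall fun x _ => h1 x)
  have h3 : ∀ n : ℕ, ∫ x in (0 : ℝ)..Real.pi, (aa n : ℝ) * (l * Real.sin x ^ 2) ^ n =
      Real.pi * ((aa n : ℝ) ^ 2 * l ^ n) := by
    intro n
    simp only [mul_pow, ← pow_mul, intervalIntegral.integral_const_mul, integral_sin_pow_even,
      aa_prod]
    ring
  simp only [h3] at h2
  unfold KI
  rw [← h2.tsum_eq, tsum_mul_left, Complex.ofReal_mul, Complex.ofReal_tsum]
  congr 1
  refine tsum_congr fun n => ?_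
  simp [Fq]

end Pool.Agent.P.MP_e5b57f_nt.GD
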