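import Pool.Agent.P.MP_e5b57f_nt.GD.Iface

/-! The incomplete elliptic integral as a value of the series `Uq`. -/

namespace Pool.Agent.P.MP_e5b57f_nt.GD

open PowerSeries Filter Topology Finset
open scoped Polynomial

namespace INT2x

theorem cont (l : ℝ) (hl0 : 0 ≤ l) (hl : l < 1) :
    Continuous fun t : ℝ => (√(1 - l * Real.sin t ^ 2))⁻¹ := by
  refine Continuous.inv₀ (by fun_prop) fun t => ?_
  have h1 := Real.sin_sq_le_one t
  have h2 : 0 < 1 - l * Real.sin t ^ 2 := by nlinarith [sq_nonneg (Real.sin t)]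
  exact (Real.sqrt_pos.2 h2).ne'

theorem dKI (l : ℝ) (hl0 : 0 ≤ l) (hl : l < 1) (x : ℝ) (hx0 : 0 ≤ x) (hx : x < 1) :
    HasDerivAt (fun x : ℝ => KI l (Real.arcsin x)) ((√(1 - x ^ 2) * √(1 - l * x ^ 2))⁻¹) x := by
  have h1 : HasDerivAt (KI l) ((√(1 - l * Real.sin (Real.arcsin x) ^ 2))⁻¹) (Real.arcsin x) :=
    intervalIntegral.integral_hasDerivAt_right ((cont l hl0 hl).intervalIntegrable _ _)
      ((cont l hl0 hl).stronglyMeasurableAtFilter _ _) (cont l hl0 hl).continuousAt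
  have h2 := Real.hasDerivAt_arcsin (x := x) (by linarith) hx.ne
  have h3 := h1.comp x h2
  rw [Real.sin_arcsin (by linarith) hx.le] at h3
  exact h3.congr_deriv (by rw [mul_inv, one_div, mul_comm])

theorem dom (l x : ℝ) (hl0 : 0 ≤ l) (hl : l < 1) (hx0 : 0 ≤ x) (hx : x < 1) :
    Dom (l : ℂ) ((x : ℂ) ^ 2) := by
  unfold Dom
  rw [norm_pow, Complex.norm_real, Complex.norm_real, Real.norm_of_nonneg hl0,
    Real.norm_of_nonneg hx0, max_eq_left hl.le]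
  nlinarith

theorem dUU (hYV : S_YV) (hSSD : S_SSD) (hSSR : S_SSR) (hPF2 : S_PF2) (hBD2 : S_BD2)
    (l : ℝ) (hl0 : 0 ≤ l) (hl : l < 1) (x : ℝ) (hx0 : 0 ≤ x) (hx : x < 1) :
    HasDerivAt (fun z : ℂ => UU l z) (((√(1 - x ^ 2) * √(1 - l * x ^ 2))⁻¹ : ℝ) : ℂ) (x : ℂ) := by
  obtain ⟨-, hT, hC, hX, -, -, hY, hU⟩ := hBD2
  have hD := dom l x hl0 hl hx0 hx
  obtain ⟨ha, hd⟩ := hSSD Uq (fun _ => (l : ℂ)) (fun z => z ^ 2) (x : ℂ) hU analyticAt_const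
    (by fun_prop) hD
  have h1 := (hasDerivAt_id (x : ℂ)).mul ha.differentiableAt.hasDerivAt
  rw [hd] at h1
  obtain ⟨B, e, hB, he, heC, heX⟩ := hSSR _ _ hD
  have h2 : (2 : ℚ[X]⟦X⟧) = C (2 : ℚ[X]) := (map_ofNat _ 2).symm
  have h3 : e ⟨Yq, (hB _).2 hY⟩ = e ⟨Uq, (hB _).2 hU⟩ + e ⟨C 2, (hB _).2 (hC 2)⟩ *
      e ⟨X, (hB _).2 hX⟩ * e ⟨dT Uq, (hB _).2 (hT _ hU)⟩ := by
    rw [← map_mul, ← map_mul, ← map_add]
    congr 1
    exact Subtype.ext (by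
      show Yq = Uq + C 2 * X * dT Uq
      rw [← h2]; exact hPF2.1.symm)
  simp only [he] at h3
  rw [heC, heX, map_ofNat] at h3
  have h4 := hYV l (x ^ 2) hl0 hl (sq_nonneg x) (by nlinarith)
  rw [Complex.ofReal_pow] at h4
  refine h1.congr_deriv ?_
  rw [← h4, h3]
  simp
  ring

end INT2x

open INT2x in
theorem s_INT2 (hYV : S_YV) (hSSD : S_SSD) (hSSR : S_SSR) (hPF2 : S_PF2) (hBD2 : S_BD2) :
    S_INT2 := by
  intro l s hl0 hl hs0 hs
  have hg : ∀ x ∈ Set.Icc (0 : ℝ) s,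
      HasDerivAt (fun x : ℝ => UU l x - (KI l (Real.arcsin x) : ℂ)) 0 x := by
    intro x hx
    have h1 := (dUU hYV hSSD hSSR hPF2 hBD2 l hl0 hl x hx.1 (hx.2.trans_lt hs)).comp_ofReal
    have h2 := (dKI l hl0 hl x hx.1 (hx.2.trans_lt hs)).ofReal_comp
    exact (h1.sub h2).congr_deriv (sub_self _)
  have := constant_of_has_deriv_right_zero
    (f := fun x : ℝ => UU l x - (KI l (Real.arcsin x) : ℂ)) (a := 0) (b := s)
    (fun x hx => (hg x hx).continuousAt.continuousWithinAt)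
    (fun x hx => (hg x ⟨hx.1, hx.2.le⟩).hasDerivWithinAt) s ⟨hs0, le_rfl⟩
  simp only [UU, KI, Complex.ofReal_zero, zero_mul, Real.arcsin_zero, intervalIntegral.integral_same,
    sub_zero] at this
  rw [sub_eq_zero] at this
  exact this.symm

end Pool.Agent.P.MP_e5b57f_nt.GD
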