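import Pool.Agent.P.MP_e5b57f_nt.GD.Iface

/-! Local inverses of the falling factorial. -/

namespace Pool.Agent.P.MP_e5b57f_nt.GD

open PowerSeries Filter Topology Finset
open scoped Polynomial

namespace INVx

theorem one (g i : ℕ) (hi : i < g) (ε : ℝ) (hε : 0 < ε) : ∃ θ : ℂ → ℂ, θ 0 = i ∧
    ∀ᶠ z in 𝓝 (0 : ℂ), AnalyticAt ℂ θ z ∧ ∏ l ∈ range g, (θ z - l) = z ∧
      ‖θ z - i‖ < ε ∧ (z.im = 0 → (θ z).im = 0) := by
  have hm : i ∈ range g := mem_range.2 hi
  set p : ℂ → ℂ := fun Y => ∏ l ∈ range g, (Y - l) with hp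
  set r : ℂ → ℂ := fun Y => ∏ l ∈ (range g).erase i, (Y - l) with hr
  have hpa : AnalyticAt ℂ p i := Finset.analyticAt_fun_prod _ fun l _ => by fun_prop
  have hra : AnalyticAt ℂ r i := Finset.analyticAt_fun_prod _ fun l _ => by fun_prop
  have e : p = fun Y => (Y - i) * r Y := funext fun Y => (mul_prod_erase _ _ hm).symm
  have p0 : p i = 0 := by rw [e]; simp
  have hd : deriv p i ≠ 0 := by
    have := (((hasDerivAt_id (i : ℂ)).sub_const (i : ℂ)).mul
      hra.differentiableAt.hasDerivAt).deriv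
    rw [e]
    simp only [id, sub_self, zero_mul, add_zero, one_mul] at this
    refine this ▸ prod_ne_zero_iff.2 fun l hl => sub_ne_zero.2 ?_
    exact_mod_cast (ne_of_mem_erase hl).symm
  set θ := hpa.hasStrictDerivAt.localInverse _ _ _ hd with hθ
  have ha : AnalyticAt ℂ θ 0 := p0 ▸ hpa.analyticAt_localInverse hd
  have hl : ∀ᶠ x in 𝓝 (i : ℂ), θ (p x) = x := HasStrictDerivAt.eventually_left_inverse ..
  have hrt : ∀ᶠ z in 𝓝 (0 : ℂ), p (θ z) = z := p0 ▸ HasStrictDerivAt.eventually_right_inverse ..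
  have t0 : θ 0 = i := p0 ▸ hl.self_of_nhds
  have ht : Tendsto θ (𝓝 0) (𝓝 i) := t0 ▸ ha.continuousAt.tendsto
  have hc : Tendsto (fun z => (starRingEnd ℂ) (θ z)) (𝓝 0) (𝓝 i) := by
    simpa [Function.comp_def] using (Complex.continuous_conj.tendsto (i : ℂ)).comp ht
  refine ⟨θ, t0, ?_⟩
  filter_upwards [ha.eventually_analyticAt, hrt, hc.eventually hl,
    ht.eventually (Metric.ball_mem_nhds _ hε)] with z h1 h2 h3 h4
  refine ⟨h1, h2, by simpa [dist_eq_norm] using h4, fun hz => ?_⟩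
  have : p ((starRingEnd ℂ) (θ z)) = z := by
    conv_rhs => rw [← Complex.conj_eq_iff_im.2 hz, ← h2]
    simp [hp]
  rw [this] at h3
  exact Complex.conj_eq_iff_im.1 h3.symm

end INVx

theorem s_INV : S_INV := by
  intro g ε hε
  choose θ h0 h using fun i : Fin g => INVx.one g i i.2 ε hε
  obtain ⟨δ, hδ, H⟩ := Metric.eventually_nhds_iff.1 (eventually_all.2 h)
  exact ⟨δ, hδ, θ, fun i => ⟨h0 i, fun z hz => H (by simpa using hz) i⟩⟩

end Pool.Agent.P.MP_e5b57f_nt.GD
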