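import Pool.Agent.P.MP_e5b57f_nt.GD.Iface

/-! An irreducibility theorem of Schur type. -/

namespace Pool.Agent.P.MP_e5b57f_nt.GD

open PowerSeries Filter Topology Finset
open scoped Polynomial

open Polynomial in
theorem s_IRR : S_IRR := by
  intro g b hg hb
  have hm : (∏ l ∈ range g, (Polynomial.X - Polynomial.C (l : ℤ)) : ℤ[X]).Monic :=
    monic_prod_of_monic _ _ fun l _ => monic_X_sub_C _
  have hd : (∏ l ∈ range g, (Polynomial.X - Polynomial.C (l : ℤ)) : ℤ[X]).natDegree = g := by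
    rw [natDegree_finsetProd_X_sub_C_eq_card, card_range]
  have hb' : (b : ℤ) ≠ 0 := by omega
  obtain ⟨f, hf⟩ : ∃ f : ℤ[X], f = Polynomial.C (b : ℤ) *
    ∏ l ∈ range g, (Polynomial.X - Polynomial.C (l : ℤ)) - 1 := ⟨_, rfl⟩
  rw [← hf]
  have h1 : f.natDegree = g := by
    rw [hf, ← C_1, natDegree_sub_C, natDegree_C_mul hb', hd]
  have h2 : f.leadingCoeff = b := by
    have := hm.coeff_natDegree
    rw [hd] at this
    rw [leadingCoeff, h1, hf, Polynomial.coeff_sub, Polynomial.coeff_C_mul, Polynomial.coeff_one, if_neg hg.ne', sub_zero, this, mul_one]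
  have h3 : ∀ l ∈ range g, f.eval (l : ℤ) = -1 := fun l hl => by
    rw [hf, eval_sub, eval_mul, eval_prod, prod_eq_zero hl (by simp)]
    simp
  refine ⟨fun h => hg.ne' (h1 ▸ natDegree_eq_zero_of_isUnit h), fun u v e => ?_⟩
  have h4 : ∀ l ∈ range g, u.eval (l : ℤ) * v.eval (l : ℤ) = -1 := fun l hl => by
    rw [← eval_mul, ← e, h3 l hl]
  have h5 := h4 0 (mem_range.2 hg)
  have unit : ∀ w : ℤ[X], w.natDegree = 0 → IsUnit (w.eval ((0 : ℕ) : ℤ)) → IsUnit w :=
    fun w a c => by
      rw [eq_C_of_natDegree_eq_zero a] at c ⊢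
      exact isUnit_C.2 (by simpa using c)
  by_contra hc
  rw [not_or] at hc
  have hu : u.natDegree ≠ 0 := fun a =>
    hc.1 (unit u a (isUnit_of_mul_isUnit_left (h5 ▸ isUnit_one.neg)))
  have hv : v.natDegree ≠ 0 := fun a =>
    hc.2 (unit v a (isUnit_of_mul_isUnit_right (h5 ▸ isUnit_one.neg)))
  have h6 : u.natDegree + v.natDegree = g := by
    rw [← h1, e, natDegree_mul (fun a => hu (by simp [a])) fun a => hv (by simp [a])]
  have h7 : u + v = 0 := by
    refine eq_zero_of_natDegree_lt_card_of_eval_eq_zero' _ ((range g).image (Nat.cast : ℕ → ℤ))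
      (fun x hx => ?_) ?_
    · obtain ⟨l, hl, rfl⟩ := mem_image.1 hx
      rcases Int.eq_one_or_neg_one_of_mul_eq_neg_one' (h4 l hl) with h | h <;>
        rw [eval_add, h.1, h.2] <;> rfl
    · rw [card_image_of_injective _ Nat.cast_injective, card_range]
      exact (natDegree_add_le _ _).trans_lt (by omega)
  rw [e, eq_neg_of_add_eq_zero_right h7, leadingCoeff_mul, leadingCoeff_neg] at h2
  nlinarith [mul_self_nonneg u.leadingCoeff]

end Pool.Agent.P.MP_e5b57f_nt.GD
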