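import Pool.Agent.P.MP_e5b57f_nt.GD.Iface

/-! The iterates of a simultaneous approximation are simultaneous approximations. -/

namespace Pool.Agent.P.MP_e5b57f_nt.GD

open PowerSeries Filter Topology Finset
open scoped Polynomial

namespace ITERx

theorem dvd_der (f : ℚ⟦X⟧) (E k : ℕ) (h : (X : ℚ⟦X⟧) ^ (E - k) ∣ f) :
    (X : ℚ⟦X⟧) ^ (E - (k + 1)) ∣ d⁄dX ℚ f := by
  rw [X_pow_dvd_iff] at h ⊢
  intro n hn
  rw [coeff_derivative, h (n + 1) (by omega), zero_mul]

theorem dvd_low (f : ℚ⟦X⟧) (E k : ℕ) (h : (X : ℚ⟦X⟧) ^ (E - k) ∣ f) :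
    (X : ℚ⟦X⟧) ^ (E - (k + 1)) ∣ f :=
  (pow_dvd_pow _ (by omega)).trans h

theorem coe_sum' {ι : Type} (s : Finset ι) (f : ι → ℚ[X]) :
    ((∑ j ∈ s, f j : ℚ[X]) : ℚ⟦X⟧) = ∑ j ∈ s, (f j : ℚ⟦X⟧) :=
  map_sum (Polynomial.coeToPowerSeries.ringHom (R := ℚ)) f s

theorem coe_nat (k : ℕ) : (((k : ℚ[X]) : ℚ[X]) : ℚ⟦X⟧) = (k : ℚ⟦X⟧) :=
  map_natCast (Polynomial.coeToPowerSeries.ringHom (R := ℚ)) k

theorem first (T Q : ℚ[X]) (k : ℕ) :
    T * Polynomial.derivative (T ^ k * Polynomial.derivative^[k] Q) -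
      (k : ℚ[X]) * Polynomial.derivative T * (T ^ k * Polynomial.derivative^[k] Q) =
      T ^ (k + 1) * Polynomial.derivative^[k + 1] Q := by
  rw [Function.iterate_succ_apply', Polynomial.derivative_mul, Polynomial.derivative_pow]
  cases k with
  | zero => simp
  | succ k =>
    simp only [Nat.add_sub_cancel, map_natCast]
    ring

theorem deg_step {ι : Type} [Fintype ι] (T : ℚ[X]) (a V : ι → ℚ[X]) (U : ℚ[X]) (k t n : ℕ)
    (hT : T.natDegree ≤ t) (ha : ∀ j, (a j).natDegree ≤ t) (hV : ∀ j, (V j).natDegree ≤ n)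
    (hU : U.natDegree ≤ n) :
    (T * Polynomial.derivative U - (k : ℚ[X]) * Polynomial.derivative T * U -
      ∑ j, a j * V j).natDegree ≤ n + t := by
  have hd : ∀ p : ℚ[X], (Polynomial.derivative p).natDegree ≤ p.natDegree := fun p =>
    (Polynomial.natDegree_derivative_le p).trans (Nat.sub_le _ _)
  have h1 : (T * Polynomial.derivative U).natDegree ≤ n + t := by
    refine Polynomial.natDegree_mul_le.trans ?_
    have := hd U
    omega
  have h2 : ((k : ℚ[X]) * Polynomial.derivative T * U).natDegree ≤ n + t := by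
    refine Polynomial.natDegree_mul_le.trans ?_
    have h3 : ((k : ℚ[X]) * Polynomial.derivative T).natDegree ≤ t := by
      refine Polynomial.natDegree_mul_le.trans ?_
      have := hd T
      rw [Polynomial.natDegree_natCast]
      omega
    omega
  have h3 : (∑ j, a j * V j).natDegree ≤ n + t := by
    refine Polynomial.natDegree_sum_le_of_forall_le _ _ fun j _ => ?_
    refine Polynomial.natDegree_mul_le.trans ?_
    have := ha j
    have := hV j
    omega
  refine (Polynomial.natDegree_sub_le _ _).trans (max_le ?_ h3)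
  exact (Polynomial.natDegree_sub_le _ _).trans (max_le h1 h2)

end ITERx

open ITERx in
theorem s_ITER : S_ITER := by
  intro m y T A hS t hT hA W N E hW k
  induction k with
  | zero => exact ⟨by simp [iter], by simpa [iter] using hW⟩
  | succ k ih =>
    obtain ⟨h0, hP⟩ := ih
    have hz : iter T A W (k + 1) 0 = T * Polynomial.derivative (iter T A W k 0) -
        (k : ℚ[X]) * Polynomial.derivative T * iter T A W k 0 := by
      simp [iter, hS.row]
    refine ⟨by rw [hz, h0, first], fun i => ⟨?_, ?_⟩⟩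
    · have := deg_step T (A i) (iter T A W k) (iter T A W k i) k t (N + k * t) hT (hA i)
        (fun j => (hP j).1) (hP i).1
      have e : N + (k + 1) * t = N + k * t + t := by ring
      rw [e]
      exact this
    · set V := iter T A W k with hV
      have key : ((iter T A W (k + 1) 0 : ℚ[X]) : ℚ⟦X⟧) * y i - (iter T A W (k + 1) i : ℚ[X]) =
          (T : ℚ⟦X⟧) * d⁄dX ℚ ((V 0 : ℚ⟦X⟧) * y i - V i) -
            (k : ℚ⟦X⟧) * (Polynomial.derivative T : ℚ[X]) * ((V 0 : ℚ⟦X⟧) * y i - V i) -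
            ∑ j, (A i j : ℚ⟦X⟧) * ((V 0 : ℚ⟦X⟧) * y j - V j) := by
        have hi : iter T A W (k + 1) i = T * Polynomial.derivative (V i) -
            (k : ℚ[X]) * Polynomial.derivative T * V i - ∑ j, A i j * V j := rfl
        have hs : ∑ j, (A i j : ℚ⟦X⟧) * ((V 0 : ℚ⟦X⟧) * y j - V j) =
            (V 0 : ℚ⟦X⟧) * ((T : ℚ⟦X⟧) * d⁄dX ℚ (y i)) - ∑ j, (A i j : ℚ⟦X⟧) * V j := by
          rw [hS.sys i, Finset.mul_sum, ← Finset.sum_sub_distrib]
          exact Finset.sum_congr rfl fun j _ => by ring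
        rw [hz, hi, hs, map_sub, Derivation.leibniz, derivative_coe, derivative_coe]
        simp only [Polynomial.coe_sub, Polynomial.coe_mul, coe_sum', coe_nat, smul_eq_mul]
        ring
      rw [key]
      refine dvd_sub (dvd_sub ?_ ?_) ?_
      · exact (dvd_der _ E k (hP i).2).mul_left _
      · exact (dvd_low _ E k (hP i).2).mul_left _
      · exact Finset.dvd_sum fun j _ => (dvd_low _ E k (hP j).2).mul_left _

end Pool.Agent.P.MP_e5b57f_nt.GD
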