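import Pool.Agent.P.MP_e5b57f_nt.GD.Iface

/-! The approximation theorem of Kronecker, by Fourier averaging on the torus. -/

namespace Pool.Agent.P.MP_e5b57f_nt.GD

open PowerSeries Filter Topology Finset
open scoped Polynomial

namespace KROx

open UnitAddTorus

variable {ι : Type} [Fintype ι]

/-- The image of a real vector in the torus. -/
noncomputable def pr (x : ι → ℝ) : UnitAddTorus ι := fun i => (x i : UnitAddCircle)

theorem mF_add (c : ι → ℤ) (y z : UnitAddTorus ι) :
    mFourier c (y + z) = mFourier c y * mFourier c z := by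
  simp only [mFourier, ContinuousMap.coe_mk, Pi.add_apply, fourier_apply, smul_add,
    AddCircle.toCircle_add, Circle.coe_mul, Finset.prod_mul_distrib]

theorem mF_zero (c : ι → ℤ) : mFourier c (0 : UnitAddTorus ι) = 1 := by
  simp [mFourier]

theorem mF_nsmul (c : ι → ℤ) (y : UnitAddTorus ι) (n : ℕ) :
    mFourier c (n • y) = mFourier c y ^ n := by
  induction n with
  | zero => simp [mF_zero]
  | succ n ih => rw [succ_nsmul, mF_add, ih, pow_succ]

theorem mF_norm (c : ι → ℤ) (y : UnitAddTorus ι) : ‖mFourier c y‖ = 1 := by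
  simp only [mFourier, fourier_apply, ContinuousMap.coe_mk, norm_prod, Circle.norm_coe,
    Finset.prod_const_one]

theorem mF_pr (c : ι → ℤ) (x : ι → ℝ) :
    mFourier c (pr x) = Complex.exp (((∑ i, c i * x i : ℝ) : ℂ) * (2 * Real.pi * Complex.I)) := by
  simp only [mFourier, pr, ContinuousMap.coe_mk, fourier_coe_apply]
  rw [← Complex.exp_sum]
  congr 1
  push_cast
  rw [Finset.sum_mul]
  refine Finset.sum_congr rfl fun i _ => ?_
  ring

theorem mF_pr_eq_one (c : ι → ℤ) (x : ι → ℝ) :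
    mFourier c (pr x) = 1 ↔ ∃ c₀ : ℤ, ∑ i, c i * x i = c₀ := by
  rw [mF_pr, Complex.exp_eq_one_iff]
  refine exists_congr fun c₀ => ?_
  rw [mul_left_inj' Complex.two_pi_I_ne_zero]
  exact_mod_cast Iff.rfl

theorem bdd (b x : UnitAddTorus ι) (h : ∀ c : ι → ℤ, mFourier c b = 1 → mFourier c x = 1)
    (g : C(UnitAddTorus ι, ℂ)) (hg : g ∈ Submodule.span ℂ (Set.range (mFourier (d := ι)))) :
    ∃ C : ℝ, ∀ N : ℕ, ‖∑ n ∈ range N, (g (x + n • b) - g (n • b))‖ ≤ C := by
  induction hg using Submodule.span_induction with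
  | mem g hg =>
    obtain ⟨c, rfl⟩ := hg
    have e : ∀ N : ℕ, ∑ n ∈ range N, (mFourier c (x + n • b) - mFourier c (n • b)) =
        (mFourier c x - 1) * ∑ n ∈ range N, mFourier c b ^ n := fun N => by
      rw [Finset.mul_sum]
      refine Finset.sum_congr rfl fun n _ => ?_
      rw [mF_add, mF_nsmul]; ring
    by_cases hb : mFourier c b = 1
    · exact ⟨0, fun N => by rw [e, h c hb]; simp⟩
    · refine ⟨‖mFourier c x - 1‖ * (2 / ‖mFourier c b - 1‖), fun N => ?_⟩
      rw [e, geom_sum_eq hb, norm_mul, norm_div]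
      gcongr
      refine (norm_sub_le _ _).trans ?_
      rw [norm_pow, mF_norm, one_pow, norm_one]; norm_num
  | zero => exact ⟨0, fun N => by simp⟩
  | add g g' _ _ ih ih' =>
    obtain ⟨C, hC⟩ := ih
    obtain ⟨C', hC'⟩ := ih'
    refine ⟨C + C', fun N => le_trans (le_of_eq ?_)
      ((norm_add_le _ _).trans (add_le_add (hC N) (hC' N)))⟩
    rw [← Finset.sum_add_distrib]
    congr 1
    refine Finset.sum_congr rfl fun n _ => ?_
    simp only [ContinuousMap.add_apply]; ring
  | smul a g _ ih =>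
    obtain ⟨C, hC⟩ := ih
    refine ⟨‖a‖ * C, fun N => le_trans (le_of_eq ?_)
      (mul_le_mul_of_nonneg_left (hC N) (norm_nonneg a))⟩
    rw [← norm_mul, Finset.mul_sum]
    congr 1
    refine Finset.sum_congr rfl fun n _ => ?_
    simp only [ContinuousMap.smul_apply, smul_eq_mul]; ring

theorem mem_cl (b x : UnitAddTorus ι) (h : ∀ c : ι → ℤ, mFourier c b = 1 → mFourier c x = 1) :
    x ∈ (AddSubgroup.zmultiples b).topologicalClosure := by
  by_contra hx
  set H := (AddSubgroup.zmultiples b).topologicalClosure with hH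
  have hc : IsClosed (H : Set (UnitAddTorus ι)) := AddSubgroup.isClosed_topologicalClosure _
  have hc' : IsClosed ((fun y => y - x) ⁻¹' (H : Set (UnitAddTorus ι))) :=
    hc.preimage (by fun_prop)
  have hdis : Disjoint (H : Set (UnitAddTorus ι)) ((fun y => y - x) ⁻¹' (H : Set _)) := by
    refine Set.disjoint_left.2 fun y hy hy' => hx ?_
    have := H.sub_mem hy hy'
    simpa using this
  obtain ⟨f, hf0, hf1, -⟩ := exists_continuous_zero_one_of_isClosed hc hc' hdis
  let F : C(UnitAddTorus ι, ℂ) := ⟨fun y => (f y : ℂ), by fun_prop⟩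
  have hF : F ∈ closure (Submodule.span ℂ (Set.range (mFourier (d := ι))) : Set _) := by
    rw [← Submodule.topologicalClosure_coe, span_mFourier_closure_eq_top]; trivial
  obtain ⟨g, hg, hd⟩ := Metric.mem_closure_iff.1 hF (1 / 4) (by norm_num)
  obtain ⟨C, hC⟩ := bdd b x h g hg
  have hb : ∀ n : ℕ, n • b ∈ H := fun n =>
    AddSubgroup.le_topologicalClosure _ ((AddSubgroup.zmultiples b).nsmul_mem
      (AddSubgroup.mem_zmultiples b) n)
  have hp : ∀ y, ‖F y - g y‖ ≤ 1 / 4 := fun y => by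
    rw [← dist_eq_norm]; exact (ContinuousMap.dist_apply_le_dist y).trans hd.le
  have key : ∀ n : ℕ, ‖1 - (g (x + n • b) - g (n • b))‖ ≤ 1 / 2 := fun n => by
    have e0 : F (n • b) = 0 := by
      show ((f (n • b) : ℝ) : ℂ) = 0
      rw [hf0 (hb n)]; simp
    have e1 : F (x + n • b) = 1 := by
      show ((f (x + n • b) : ℝ) : ℂ) = 1
      rw [hf1 (show x + n • b - x ∈ (H : Set _) by simpa using hb n)]; simp
    have a := hp (n • b)
    have a' := hp (x + n • b)
    rw [e0] at a
    rw [e1] at a'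
    calc _ = ‖(1 - g (x + n • b)) - (0 - g (n • b))‖ := by congr 1; ring
      _ ≤ _ := norm_sub_le _ _
      _ ≤ _ := by linarith
  obtain ⟨N, hN⟩ := exists_nat_gt (2 * C)
  have h1 : ‖∑ n ∈ range N, (1 - (g (x + n • b) - g (n • b)))‖ ≤ N * (1 / 2) := by
    refine (norm_sum_le _ _).trans ((Finset.sum_le_sum fun n _ => key n).trans ?_)
    simp
  rw [Finset.sum_sub_distrib, Finset.sum_const, card_range, nsmul_eq_mul, mul_one] at h1
  have h2 := norm_sub_norm_le (N : ℂ) (∑ n ∈ range N, (g (x + n • b) - g (n • b)))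
  rw [Complex.norm_natCast] at h2
  linarith [hC N]

end KROx

theorem s_KRO : S_KRO := by
  intro ι _ β x h ε hε
  have hm := KROx.mem_cl (KROx.pr β) (KROx.pr x) fun c hc => by
    obtain ⟨c₀, h₀⟩ := (KROx.mF_pr_eq_one c β).1 hc
    exact (KROx.mF_pr_eq_one c x).2 (h c c₀ h₀)
  have hm' : KROx.pr x ∈ closure (AddSubgroup.zmultiples (KROx.pr β) : Set _) := hm
  obtain ⟨y, hy, hd⟩ := Metric.mem_closure_iff.1 hm' ε hε
  obtain ⟨n, rfl⟩ := AddSubgroup.mem_zmultiples_iff.1 hy
  refine ⟨n, fun i => round (n * β i - x i), fun i => ?_⟩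
  have h1 := (dist_le_pi_dist (KROx.pr x) (n • KROx.pr β) i).trans_lt hd
  rw [dist_comm, dist_eq_norm] at h1
  have e : (n • KROx.pr β) i - KROx.pr x i = ((n * β i - x i : ℝ) : UnitAddCircle) := by
    simp only [KROx.pr, Pi.smul_apply, AddCircle.coe_sub]
    rw [← zsmul_eq_mul, AddCircle.coe_zsmul]
  rw [e, UnitAddCircle.norm_eq] at h1
  rw [sub_right_comm]
  exact h1

end Pool.Agent.P.MP_e5b57f_nt.GD
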