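import Pool.Agent.P.MP_e5b57f_nt.GD.Iface

/-! Linear independence of the Betti coordinates. -/

namespace Pool.Agent.P.MP_e5b57f_nt.GD

open PowerSeries Filter Topology Finset
open scoped Polynomial

theorem s_LI (hGF : S_GF) (hGC : S_GC) (hDFM : S_DFM) (hGSF : S_GSF) (hGSU : S_GSU) (hBRA : S_BRA) (hBRS : S_BRS) (hLIF : S_LIF) (hFFR : S_FFR) (hSSD : S_SSD) (hBD2 : S_BD2) : S_LI := by
  intro J _ g M i θ w ρ hρ hB
  classical
  have h0 : ∀ j, (0 : ℝ) ∈ Set.Icc 0 (ρ j) := fun j => ⟨le_rfl, (hB j).pos.le⟩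
  have al : ∀ j, AnalyticAt ℂ (fun z => lam g M (θ j z) (w j z)) 0 := fun j => by
    simpa using ((hBRA _ _ _ _ _ _ (hB j)).1 0 (h0 j)).1
  have hu : ∀ j, ∃ u : ℝ, lam g M (θ j 0) (w j 0) = u ∧ 0 ≤ u ∧ u < 1 := fun j => by
    obtain ⟨u, h1, h2, h3, _⟩ := ((hBRA _ _ _ _ _ _ (hB j)).1 0 (h0 j)).2
    exact ⟨u, by simpa using h1, h2, h3 (hB j).pos⟩
  have aF : ∀ j, AnalyticAt ℂ (fun z => FF (lam g M (θ j z) (w j z))) 0 := fun j => by
    refine (hSSD Fq (fun _ => 0) _ 0 hBD2.2.2.2.2.2.1 analyticAt_const (al j) ?_).1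
    obtain ⟨u, h1, h2, h3⟩ := hu j
    simp only [Dom, h1, norm_zero, Complex.norm_real, Real.norm_eq_abs, abs_of_nonneg h2]
    rw [max_eq_left zero_le_one]; linarith
  have aU : ∀ j a, AnalyticAt ℂ (fun z => UU (lam g M (θ j z) (w j z)) (sr a (w j z))) 0 :=
    fun j a => by
      obtain ⟨h1, h2⟩ := (hBRA _ _ _ _ _ _ (hB j)).2 0 (h0 j) a
      rw [Complex.ofReal_zero] at h1 h2
      exact h1.fun_mul (hSSD Uq _ (fun z => sr a (w j z) ^ 2) 0 hBD2.2.2.2.2.2.2.2 (al j)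
        (h1.fun_pow 2) h2).1
  have nF : ∀ j, FF (lam g M (θ j 0) (w j 0)) ≠ 0 := fun j => by
    obtain ⟨u, h1, h2, h3⟩ := hu j
    obtain ⟨φ, e, p, _⟩ := hFFR u h2 h3
    rw [h1, e]
    exact_mod_cast (by linarith : φ ≠ 0)
  have gF : ∀ j, GS (tay fun z => FF (lam g M (θ j z) (w j z))) := fun j => by
    obtain ⟨N, hN, h1, _⟩ := hBRS _ _ _ _ _ _ (hB j)
    exact hGSF N _ hN h1
  have gU : ∀ j a, GS (tay fun z => UU (lam g M (θ j z) (w j z)) (sr a (w j z))) := fun j a => by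
    obtain ⟨N, hN, h1, h2⟩ := hBRS _ _ _ _ _ _ (hB j)
    exact hGSU N _ _ hN h1 (h2 a)
  have aP : ∀ s : Finset J, AnalyticAt ℂ (fun z => ∏ j ∈ s, FF (lam g M (θ j z) (w j z))) 0 :=
    fun s => Finset.analyticAt_fun_prod s fun j _ => aF j
  have aG : ∀ p : J × Bool, AnalyticAt ℂ (fun z => UU (lam g M (θ p.1 z) (w p.1 z))
      (sr p.2 (w p.1 z)) * ∏ j ∈ univ.erase p.1, FF (lam g M (θ j z) (w j z))) 0 :=
    fun p => (aU p.1 p.2).fun_mul (aP _)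
  have key := hGF (J × Bool) _ (fun p => ?_) (hLIF J g M i θ w ρ hρ hB)
  · have e1 := tendsto_inv_nat.eventually (eventually_all.2 fun p => ev_tay (aG p))
    have e2 := tendsto_inv_nat.eventually
      (eventually_all.2 fun j => (aF j).continuousAt.eventually_ne (nF j))
    filter_upwards [key, e1, e2] with b hb h1 h2
    refine LinearIndependent.of_comp
      (LinearMap.mulRight ℚ (∏ j, FF (lam g M (θ j (b : ℂ)⁻¹) (w j (b : ℂ)⁻¹)))) ?_
    refine Eq.mp (congrArg (fun v : J × Bool → ℂ => LinearIndependent ℚ v) (funext fun p => ?_)) hb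
    rw [h1 p, Function.comp_apply, LinearMap.mulRight_apply, BB,
      ← mul_prod_erase _ _ (mem_univ p.1), ← mul_assoc, div_mul_cancel₀ _ (h2 p.1)]
  · refine ⟨?_, gr_tay (aG p), ?_⟩
    · rw [tay_mul (aU _ _) (aP _), tay_prod _ fun j _ => aF j]
      exact hGC.2.2.1 _ _ (gU _ _).1
        (prod_induction _ Den hGC.2.2.1 hGC.2.2.2.1 fun j _ => (gF j).1)
    · rw [tay_mul (aU _ _) (aP _), tay_prod _ fun j _ => aF j]
      exact hDFM.2 _ _ (gU _ _).2.2 (prod_induction _ DF hDFM.2 hDFM.1 fun j _ => (gF j).2.2)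

end Pool.Agent.P.MP_e5b57f_nt.GD
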