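import Pool.Agent.P.MP_e5b57f_nt.GD.Iface

/-! Independence of the numerators over the polynomials. -/

namespace Pool.Agent.P.MP_e5b57f_nt.GD

open PowerSeries Filter Topology Finset
open scoped Polynomial

namespace LIFx

lemma an_FF (hSSD : S_SSD) (hBD2 : S_BD2) {l : ℂ → ℂ} {z : ℂ} (hl : AnalyticAt ℂ l z)
    (h1 : ‖l z‖ < 1) : AnalyticAt ℂ (fun z => FF (l z)) z := by
  have hF : Bd Fq := hBD2.2.2.2.2.2.1
  refine (hSSD Fq (fun _ => 0) l z hF analyticAt_const hl ?_).1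
  unfold Dom
  simpa using h1

lemma an_UU (hSSD : S_SSD) (hBD2 : S_BD2) {l s : ℂ → ℂ} {z : ℂ} (hl : AnalyticAt ℂ l z)
    (hs : AnalyticAt ℂ s z) (h1 : Dom (l z) (s z ^ 2)) :
    AnalyticAt ℂ (fun z => UU (l z) (s z)) z := by
  have hU : Bd Uq := hBD2.2.2.2.2.2.2.2
  exact hs.fun_mul (hSSD Uq l (fun z => s z ^ 2) z hU hl (hs.fun_pow 2) h1).1

end LIFx

open LIFx in
theorem s_LIF (hIND : S_IND) (hUIND : S_UIND) (hBRA : S_BRA) (hSSD : S_SSD) (hBD2 : S_BD2)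
    (hFFR : S_FFR) : S_LIF := by
  intro J _ _ g M i θ w ρ hρ hB
  rw [Fintype.linearIndependent_iff]
  intro c hc
  set l : J → ℂ → ℂ := fun j z => lam g M (θ j z) (w j z) with hl
  set U : J → Bool → ℂ → ℂ := fun j a z => UU (l j z) (sr a (w j z)) with hU
  have hid : ∀ z : ℂ, AnalyticAt ℂ (fun z : ℂ => z) z := fun _ => analyticAt_id
  have hit : ∀ j, Hit (l j) (ρ j) := fun j => (hBRA g M (i j) (θ j) (w j) (ρ j) (hB j)).1
  have h0 : ∀ j, (0 : ℝ) ∈ Set.Icc 0 (ρ j) := fun j => ⟨le_rfl, (hB j).pos.le⟩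
  have aU : ∀ j a, ∀ x ∈ Set.Icc 0 (ρ j), AnalyticAt ℂ (U j a) (x : ℝ) := fun j a x hx => by
    obtain ⟨h1, h2⟩ := (hBRA g M (i j) (θ j) (w j) (ρ j) (hB j)).2 x hx a
    exact an_UU hSSD hBD2 (hit j x hx).1 h1 h2
  have aU0 : ∀ j a, AnalyticAt ℂ (U j a) 0 := fun j a => by
    simpa using aU j a 0 (h0 j)
  have aF : ∀ j, AnalyticAt ℂ (fun z => FF (l j z)) 0 ∧ FF (l j 0) ≠ 0 := fun j => by
    obtain ⟨h1, u, h2, h3, h4, -⟩ := hit j 0 (h0 j)
    have h5 := h4 (hB j).pos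
    simp only [Complex.ofReal_zero] at h1 h2
    refine ⟨an_FF hSSD hBD2 h1 ?_, ?_⟩
    · rw [h2, Complex.norm_real, Real.norm_of_nonneg h3]
      exact h5
    · obtain ⟨φ, e, h6, -⟩ := hFFR u h3 h5
      rw [h2, e]
      exact Complex.ofReal_ne_zero.2 (by linarith)
  have aG : ∀ p : J × Bool, AnalyticAt ℂ
      (fun z => U p.1 p.2 z * ∏ j ∈ univ.erase p.1, FF (l j z)) 0 := fun p =>
    (aU0 p.1 p.2).fun_mul (Finset.analyticAt_fun_prod _ fun j _ => (aF j).1)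
  have aP : ∀ p : J × Bool, AnalyticAt ℂ (fun z => Polynomial.aeval z (c p) *
      (U p.1 p.2 z * ∏ j ∈ univ.erase p.1, FF (l j z))) 0 := fun p =>
    (analyticAt_aeval (hid 0) (c p)).fun_mul (aG p)
  have e1 : tay (fun z => ∑ p : J × Bool, Polynomial.aeval z (c p) *
      (U p.1 p.2 z * ∏ j ∈ univ.erase p.1, FF (l j z))) = tay fun _ => 0 := by
    rw [tay_sum _ fun p _ => aP p, tay_zero, ← hc]
    exact sum_congr rfl fun p _ => tay_smul (aG p) (c p)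
  have e2 := eq_of_tay_eq (Finset.analyticAt_fun_sum _ fun p _ => aP p) analyticAt_const e1
  have e3 : ∀ᶠ z in 𝓝 (0 : ℂ), ∀ j, FF (l j z) ≠ 0 :=
    eventually_all.2 fun j => (aF j).1.continuousAt.eventually_ne (aF j).2
  set H : J → ℂ → ℂ := fun j z => ∑ a, Polynomial.aeval z (c (j, a)) * U j a z with hH
  have aH : ∀ j, ∀ x ∈ Set.Icc 0 (ρ j), AnalyticAt ℂ (H j) (x : ℝ) := fun j x hx =>
    Finset.analyticAt_fun_sum _ fun a _ =>
      (analyticAt_aeval (hid _) (c (j, a))).fun_mul (aU j a x hx)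
  have e4 : ∀ᶠ z in 𝓝 (0 : ℂ), ∑ j, H j z / FF (l j z) = 0 := by
    filter_upwards [e2, e3] with z h1 h2
    have hp : ∏ j, FF (l j z) ≠ 0 := prod_ne_zero_iff.2 fun j _ => h2 j
    refine mul_right_cancel₀ hp ?_
    rw [zero_mul, ← h1, Fintype.sum_prod_type, sum_mul]
    refine sum_congr rfl fun j _ => ?_
    rw [← mul_prod_erase _ _ (mem_univ j), ← mul_assoc, div_mul_cancel₀ _ (h2 j)]
    simp only [hH]
    rw [sum_mul]
    exact sum_congr rfl fun a _ => mul_assoc _ _ _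
  have e5 := hIND J l H ρ hρ (fun j => ⟨(hB j).pos, hit j, aH j⟩) e4
  rintro ⟨j, a⟩
  have e6 : tay (H j) = 0 := by
    rw [← tay_zero]
    exact tay_congr (e5 j)
  have e7 : ∑ a, c (j, a) • tay (U j a) = 0 := by
    rw [← e6, hH, tay_sum _ fun a _ => (analyticAt_aeval (hid 0) (c (j, a))).fun_mul (aU0 j a)]
    exact sum_congr rfl fun a _ => (tay_smul (aU0 j a) (c (j, a))).symm
  exact congrFun (hUIND g M (i j) (θ j) (w j) (ρ j) (hB j) (fun a => c (j, a)) e7) a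

end Pool.Agent.P.MP_e5b57f_nt.GD
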