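import Pool.Agent.P.MP_e5b57f_nt.GD.Iface

/-! The main theorem from the steps. -/

namespace Pool.Agent.P.MP_e5b57f_nt.GD

open Filter Topology Finset WeierstrassCurve.Affine

section maps
variable {K L : Type} [Field K] [Field L] (σ : K →+* L) (g M : ℕ) (θ z : K)

lemma map_mu : σ (mu g M θ z) = mu g M (σ θ) (σ z) := by simp [mu, map_ofNat]

lemma map_sr (a : Bool) : σ (sr a z) = sr a (σ z) := by cases a <;> simp [sr, sz, rz, map_ofNat]

lemma map_al : σ (al g M θ z) = al g M (σ θ) (σ z) := by simp [al, map_mu, sz, rz, map_ofNat]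

lemma map_yc (a : Bool) : σ (yc g M θ z a) = yc g M (σ θ) (σ z) a := by
  cases a <;> simp [yc, cr, map_al, map_mu, map_sr, map_ofNat]

lemma map_leg (α β : K) : (leg α β).map σ = leg (σ α) (σ β) := by
  ext <;> simp [leg]

lemma leg_Δ (α β : K) : (leg α β).Δ = 16 * α ^ 2 * β ^ 2 * (α - β) ^ 2 := by
  simp only [leg, WeierstrassCurve.Δ, WeierstrassCurve.b₂, WeierstrassCurve.b₄,
    WeierstrassCurve.b₆, WeierstrassCurve.b₈]
  ring

lemma leg_eqn (α β x y : K) :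
    (leg α β).toAffine.Equation x y ↔ y ^ 2 = x * (x - α) * (x - β) := by
  rw [equation_iff]
  simp only [leg]
  constructor <;> intro h <;> linear_combination h

end maps

lemma op_inj {W : WeierstrassCurve ℝ} : Function.Injective (op (W := W)) := by
  rintro (_ | ⟨x, y, h⟩) (_ | ⟨x', y', h'⟩) e
  · rfl
  · exact absurd e (OnePoint.infty_ne_coe _)
  · exact absurd e (OnePoint.coe_ne_infty _)
  · obtain ⟨rfl, rfl⟩ := Prod.mk.inj (OnePoint.coe_injective e)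
    rfl

/-- The combined statement. -/
def MainP : Prop := ∀ g : ℕ, 0 < g → ∃ M₀ : ℕ, ∀ M, M₀ ≤ M → ∃ (N b₀ : ℕ) (X : Set ℕ), 0 < N ∧
  (∀ k, 0 < k → Set.Finite {b | b ∈ X ∧ b + k ∈ X}) ∧ ∀ b, b₀ ≤ b → N ∣ b →
  ∀ (K : Type) [Field K] [NumberField K] [DecidableEq K] (θ : K),
    ∏ l ∈ range g, (θ - l) = (b : K)⁻¹ → Algebra.adjoin ℚ {θ} = ⊤ →
    Adm g (fam g M θ (b : K)⁻¹) ∧ ∃ y₁ y₂ h₁ h₂, ∃ u v : ℤ, (u, v) ≠ 0 ∧
      ∀ (P : (fam g M θ (b : K)⁻¹).toAffine.Point) (k m n : ℤ),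
        k • P = m • Point.some (al g M θ (b : K)⁻¹ / sz (b : K)⁻¹ ^ 2) y₁ h₁ +
          n • Point.some (al g M θ (b : K)⁻¹ / rz (b : K)⁻¹ ^ 2) y₂ h₂ →
        (m * v ≠ n * u ∨ b ∉ X ∧ (m, n) ≠ 0) → DenseMult P

lemma gaps (hLI : S_LI) (hSHIFT : S_SHIFT) (hELIM : S_ELIM) {g M : ℕ} {ϑ : Fin g → ℂ → ℂ}
    {ρ : Fin g → ℝ} (hbr : ∀ i : Fin g, Br g M i (ϑ i) (fun z => z) (ρ i))
    (hρ : ∀ i j, i ≠ j → 0 < |1 / ρ i - 1 / ρ j| ∧ |1 / ρ i - 1 / ρ j| < 1) {k : ℕ} (hk : 0 < k)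
    {X : Set ℕ} (hX : ∀ b, b ∈ X ↔ ∃ m n : ℤ, (m, n) ≠ 0 ∧
      Exc (fun p => BB g M (ϑ p.1 (b : ℂ)⁻¹) (b : ℂ)⁻¹ p.2) m n) :
    Set.Finite {b | b ∈ X ∧ b + k ∈ X} := by
  have hk1 : (1 : ℝ) ≤ k := by exact_mod_cast hk
  have e1 : ∀ i, 1 / (ρ i / (1 + k * ρ i)) = 1 / ρ i + k := fun i => by
    have := (hbr i).pos
    field_simp
  have h1 := hLI (Fin g × Bool) g M (fun p => p.1)
    (fun p => bif p.2 then fun z => ϑ p.1 (z / (1 - k * z)) else ϑ p.1)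
    (fun p => bif p.2 then fun z => z / (1 - k * z) else fun z => z)
    (fun p => bif p.2 then ρ p.1 / (1 + k * ρ p.1) else ρ p.1) ?_ ?_
  · obtain ⟨b₁, hb₁⟩ := eventually_atTop.1 h1
    refine (Set.finite_Iic b₁).subset fun b hb => ?_
    by_contra hlt
    have hlt : b₁ < b := not_le.1 hlt
    obtain ⟨⟨m, n, h2, h3⟩, m', n', h4, h5⟩ := And.intro ((hX _).1 hb.1) ((hX _).1 hb.2)
    have e2 : ((b + k : ℕ) : ℂ)⁻¹ / (1 - k * ((b + k : ℕ) : ℂ)⁻¹) = (b : ℂ)⁻¹ := by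
      have a1 : ((b + k : ℕ) : ℂ) ≠ 0 := Nat.cast_ne_zero.2 (by omega)
      have a2 : (b : ℂ) ≠ 0 := Nat.cast_ne_zero.2 (by omega)
      have a3 : 1 - k * ((b + k : ℕ) : ℂ)⁻¹ = b * ((b + k : ℕ) : ℂ)⁻¹ := by
        field_simp
        push_cast
        ring
      rw [a3]
      field_simp
    refine (hELIM g).2 _ (hb₁ (b + k) (by omega)) m n m' n' h2 h4 ?_ h5
    simpa only [cond_true, e2] using h3
  · rintro ⟨i, a⟩ ⟨j, c⟩ e
    have e3 := congrArg (fun x : ℝ => 1 / x) e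
    by_cases hij : i = j
    · subst hij
      cases a <;> cases c <;> simp only [cond_true, cond_false, e1] at e3
      all_goals first | rfl | (exfalso; linarith)
    · obtain ⟨a1, a2⟩ := hρ i j hij
      rw [abs_lt] at a2
      rw [abs_pos] at a1
      cases a <;> cases c <;> simp only [cond_true, cond_false, e1] at e3
      all_goals exfalso
      · exact a1 (by linarith)
      · linarith
      · linarith
      · exact a1 (by linarith)
  · rintro ⟨i, a⟩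
    cases a
    · exact hbr i
    · exact hSHIFT _ _ _ _ _ (hbr i) k

theorem main0 (hFAM : S_FAM) (hVAL : S_VAL) (hLI : S_LI) (hSHIFT : S_SHIFT) (hELIM : S_ELIM)
    (hEVT : S_EVT) (hNF : S_NF) (hEQN : S_EQN) (hNISO : S_NISO) (hRPT : S_RPT) (hPMAP : S_PMAP)
    (hDENSE : S_DENSE) : MainP := by
  intro g hg
  obtain ⟨M₁, hM₁⟩ := hFAM g hg
  refine ⟨max M₁ (4 * g + 1), fun M hM => ?_⟩
  obtain ⟨ϑ, ρ, hbr, hρ⟩ := hM₁ M ((le_max_left ..).trans hM)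
  obtain ⟨N, hN, hval⟩ := hVAL g M hg ((le_max_right ..).trans hM)
  have hinj : Function.Injective ρ := fun i j e => by
    by_contra hij
    simpa [e] using (hρ i j hij).1
  obtain ⟨b₀, hb₀⟩ := eventually_atTop.1
    ((hLI (Fin g) g M (fun i => i) ϑ (fun _ z => z) ρ hinj hbr).and (hEVT g M ϑ ρ hbr))
  refine ⟨N, b₀, {b | ∃ m n : ℤ, (m, n) ≠ 0 ∧
    Exc (fun p => BB g M (ϑ p.1 (b : ℂ)⁻¹) (b : ℂ)⁻¹ p.2) m n}, hN,
    fun k hk => gaps hLI hSHIFT hELIM hbr hρ hk fun _ => Iff.rfl, ?_⟩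
  intro b hb hNb K _ _ _ θ hθ hadj
  obtain ⟨hli, h8, t, ht, htt⟩ := hb₀ b hb
  obtain ⟨hdeg, hreal, ⟨σ₀⟩, ⟨e, he, heθ⟩, hext⟩ :=
    hNF g b K θ t hg (by omega) hθ hadj ht fun i => (htt i).2.1
  have hb0 : (0 : ℝ) < (b : ℝ)⁻¹ := inv_pos.2 (by exact_mod_cast (by omega : 0 < b))
  have hb8 : (b : ℝ)⁻¹ ≤ 1 / 8 := by
    rw [one_div]
    exact inv_anti₀ (by norm_num) (by exact_mod_cast h8)
  have hr := fun i => hRPT g M (t i) (b : ℝ)⁻¹ hb0 hb8 (htt i).2.2.1 (htt i).2.2.2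
  choose hlt Φ hΦ τ hτ hop using hr
  have ez : ∀ {L : Type} [Field L] (σ : K →+* L), σ (b : K)⁻¹ = (b : L)⁻¹ := fun σ => by simp
  have ea : ∀ σ : K →+* ℝ, σ (al g M θ (b : K)⁻¹) = al g M (t (e σ)) (b : ℝ)⁻¹ := fun σ => by
    rw [map_al, heθ, ez]
  have eb : ∀ σ : K →+* ℝ, σ (4 * mu g M θ (b : K)⁻¹) = 4 * mu g M (t (e σ)) (b : ℝ)⁻¹ :=
    fun σ => by rw [map_mul, map_mu, heθ, ez, map_ofNat]
  have hβ : ∀ i, 0 < 4 * mu g M (t i) (b : ℝ)⁻¹ := fun i => by linarith [(htt i).2.2.1]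
  have hΔ : (fam g M θ (b : K)⁻¹).Δ ≠ 0 := fun h => by
    have h1 := congrArg σ₀ ((leg_Δ _ _).symm.trans h)
    simp only [map_mul σ₀ _ (_ ^ 2), map_pow, map_sub, ea, eb, map_ofNat, map_zero] at h1
    have a1 := hβ (e σ₀)
    have a2 := hlt (e σ₀)
    have a3 := a1.trans a2
    have a4 := sub_pos.2 a2
    exact absurd h1 (by positivity)
  have hns : ∀ a, (fam g M θ (b : K)⁻¹).toAffine.Nonsingular
      (al g M θ (b : K)⁻¹ / sr a (b : K)⁻¹ ^ 2) (yc g M θ (b : K)⁻¹ a) := fun a => by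
    refine (equation_iff_nonsingular_of_Δ_ne_zero hΔ).1 ((leg_eqn _ _ _ _).2 ?_)
    refine hEQN K g M θ _ a two_ne_zero (fun h => ?_) (fun h => ?_) fun h => ?_
    all_goals
      have h1 := congrArg σ₀ h
      simp only [map_add, map_mul, map_pow, map_one, map_ofNat, map_zero, ez] at h1
      exact absurd h1 (by positivity)
  obtain ⟨u, v, huv, hline⟩ := (hELIM g).1 _ hli
  refine ⟨⟨hdeg, hreal, ⟨isUnit_iff_ne_zero.2 hΔ⟩, fun σ σ' hσ => ?_⟩, _, _, hns true, hns false,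
    u, v, huv, fun P k m n hP hmn => ?_⟩
  · have hroot : ∀ σ : K →+* ℂ, ∏ l ∈ range g, (σ θ - l) = (b : ℂ)⁻¹ := fun σ => by
      simpa using congrArg σ hθ
    obtain ⟨B, hB⟩ := hval b (by omega) hNb (σ θ) (σ' θ) (fun h => hσ (hext _ _ h)) (hroot _)
      (hroot _)
    simpa only [fam, map_leg, map_mul, map_al, map_mu, map_ofNat, ez] using hNISO B _ _ _ _ hB
  have hne : ¬Exc (fun p => BB g M (ϑ p.1 (b : ℂ)⁻¹) (b : ℂ)⁻¹ p.2) m n := fun h => by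
    rcases hmn with h1 | ⟨h1, h2⟩
    · exact h1 (hline m n h)
    · exact h1 ⟨m, n, h2, h⟩
  refine hDENSE K _ _ P (fun σ => al g M (t (e σ)) (b : ℝ)⁻¹)
    (fun σ => 4 * mu g M (t (e σ)) (b : ℝ)⁻¹) (fun σ => m * τ (e σ) true + n * τ (e σ) false)
    (fun σ => Φ (e σ)) k (fun σ => ⟨ea σ, eb σ, hβ _, hlt _, hΦ _, ?_⟩) fun c c₀ hc => ?_
  · obtain ⟨f, hf⟩ := hPMAP K σ _ _ _ _ (ea σ) (eb σ)
    have h1 : ∀ a, f (Point.some _ _ (hns a)) = Φ (e σ) (τ (e σ) a) := fun a => op_inj (by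
      rw [hf, hop]
      simp only [toReal, map_div₀, map_pow, ea, map_sr, map_yc, heθ, ez])
    have h2 : f (k • P) = m • f (Point.some _ _ (hns true)) + n • f (Point.some _ _ (hns false)) :=
      (congrArg f hP).trans ((map_add f _ _).trans
        (congrArg₂ (· + ·) (map_zsmul f _ _) (map_zsmul f _ _)))
    rw [h1, h1, ← map_zsmul, ← map_zsmul, ← map_add, zsmul_eq_mul, zsmul_eq_mul] at h2
    exact (hf _).symm.trans (congrArg op h2)
  · by_contra h0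
    refine hne ⟨fun i => ∑ σ with e σ = i, c σ, c₀, fun h => h0 (funext fun σ => ?_), ?_⟩
    · have h1 : ∑ σ' with e σ' = e σ, c σ' = 0 := congrFun h (e σ)
      rwa [Finset.sum_eq_single_of_mem σ (by simp) fun σ' h2 h3 =>
        absurd (he (Finset.mem_filter.1 h2).2) h3] at h1
    · have h3 : ∀ i a, BB g M (ϑ i (b : ℂ)⁻¹) (b : ℂ)⁻¹ a = Real.pi * τ i a := fun i a => by
        rw [(htt i).1, ← hτ]
        simp
      have h4 := congrArg (fun x : ℝ => (Real.pi : ℂ) * x) hc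
      simp only [h3]
      push_cast at h4 ⊢
      rw [← h4, ← Finset.sum_fiberwise univ e, Finset.mul_sum]
      refine Finset.sum_congr rfl fun i _ => ?_
      rw [Finset.sum_mul, Finset.mul_sum]
      refine Finset.sum_congr rfl fun σ hσ => ?_
      rw [(Finset.mem_filter.1 hσ).2]
      ring

end Pool.Agent.P.MP_e5b57f_nt.GD
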