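import Pool.Agent.P.MP_e5b57f_nt.GD.Iface

/-! The number field generated by a root of the polynomial. -/

namespace Pool.Agent.P.MP_e5b57f_nt.GD

open PowerSeries Filter Topology Finset
open scoped Polynomial

namespace NFx

/-- the monic polynomial -/
noncomputable def Pm (L : Type) [Field L] (g b : ℕ) : L[X] :=
  ∏ l ∈ range g, (Polynomial.X - Polynomial.C (l : L)) - Polynomial.C (b : L)⁻¹

variable {L : Type} [Field L] {g b : ℕ}

theorem deg0 (L : Type) [Field L] (g : ℕ) :
    (∏ l ∈ range g, (Polynomial.X - Polynomial.C (l : L))).natDegree = g := by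
  rw [Polynomial.natDegree_finsetProd_X_sub_C_eq_card, card_range]

theorem deg : (Pm L g b).natDegree = g := by rw [Pm, Polynomial.natDegree_sub_C, deg0]

theorem monic (hg : 0 < g) : (Pm L g b).Monic := by
  have m : (∏ l ∈ range g, (Polynomial.X - Polynomial.C (l : L))).Monic :=
    Polynomial.monic_prod_of_monic _ _ fun l _ => Polynomial.monic_X_sub_C _
  refine m.sub_of_left (Polynomial.degree_C_le.trans_lt ?_)
  rw [Polynomial.degree_eq_natDegree m.ne_zero, deg0]
  exact_mod_cast hg

theorem root (hg : 0 < g) {t : Fin g → L} (ht : Function.Injective t)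
    (h : ∀ i, ∏ l ∈ range g, (t i - l) = (b : L)⁻¹) {x : L}
    (hx : ∏ l ∈ range g, (x - l) = (b : L)⁻¹) : ∃ i, x = t i := by
  classical
  by_contra hn
  have k : ∀ y : L, ∏ l ∈ range g, (y - l) = (b : L)⁻¹ → y ∈ (Pm L g b).roots := fun y hy => by
    rw [Polynomial.mem_roots (monic hg).ne_zero]
    simp [Pm, Polynomial.eval_prod, hy]
  have c := Polynomial.card_le_degree_of_subset_roots (p := Pm L g b) (Z := insert x (univ.image t))
    fun y hy => by
      rcases mem_insert.1 (mem_def.2 hy) with rfl | hy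
      · exact k _ hx
      · obtain ⟨i, -, rfl⟩ := mem_image.1 hy
        exact k _ (h i)
  rw [card_insert_of_notMem (fun a => by
    obtain ⟨i, -, e⟩ := mem_image.1 a
    exact hn ⟨i, e.symm⟩), card_image_of_injective _ ht, card_univ, Fintype.card_fin, deg] at c
  omega

theorem irr (hIRR : S_IRR) (hg : 0 < g) (hb : 0 < b) : Irreducible (Pm ℚ g b) := by
  have b0 : (b : ℚ) ≠ 0 := by exact_mod_cast hb.ne'
  have h := hIRR g b hg hb
  have e : (Polynomial.C (b : ℤ) * ∏ l ∈ range g, (Polynomial.X - Polynomial.C (l : ℤ)) - 1 :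
      ℤ[X]).map (Int.castRingHom ℚ) = Polynomial.C (b : ℚ) * Pm ℚ g b := by
    rw [Pm, mul_sub, ← Polynomial.C_mul, mul_inv_cancel₀ b0]
    simp [Polynomial.map_prod]
  have d := Polynomial.natDegree_map_le (f := Int.castRingHom ℚ)
    (p := Polynomial.C (b : ℤ) * ∏ l ∈ range g, (Polynomial.X - Polynomial.C (l : ℤ)) - 1)
  rw [e, Polynomial.natDegree_C_mul b0, deg] at d
  have h2 := (Polynomial.IsPrimitive.Int.irreducible_iff_irreducible_map_cast
    (h.isPrimitive (by omega))).1 h
  rwa [e, irreducible_isUnit_mul (Polynomial.isUnit_C.2 b0.isUnit)] at h2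

theorem ext {K : Type} [Field K] [NumberField K] {θ : K} (h : Algebra.adjoin ℚ {θ} = ⊤)
    [CharZero L] (σ τ : K →+* L) (e : σ θ = τ θ) : σ = τ := by
  have : σ.toRatAlgHom = τ.toRatAlgHom :=
    AlgHom.ext_of_adjoin_eq_top h fun x hx => by rw [Set.mem_singleton_iff.1 hx]; exact e
  exact RingHom.ext fun x => DFunLike.congr_fun this x

theorem img {K : Type} [Field K] {θ : K} (h : ∏ l ∈ range g, (θ - l) = (b : K)⁻¹) (σ : K →+* L) :
    ∏ l ∈ range g, (σ θ - l) = (b : L)⁻¹ := by
  simpa using congrArg σ h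

end NFx

open NFx in
theorem s_NF (hIRR : S_IRR) : S_NF := by
  intro g b K _ _ θ t hg hb h ha ht h1
  have real : ∀ φ : K →+* ℂ, NumberField.ComplexEmbedding.IsReal φ := fun φ => by
    obtain ⟨i, e⟩ := root (t := fun i => (t i : ℂ)) hg (Complex.ofReal_injective.comp ht)
      (fun i => img (h1 i) Complex.ofRealHom) (img h φ)
    refine NumberField.ComplexEmbedding.isReal_iff.2 (ext ha _ _ ?_)
    rw [NumberField.ComplexEmbedding.conjugate_coe_eq, e, Complex.conj_ofReal]
  choose e he using fun σ : K →+* ℝ => root hg ht h1 (img h σ)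
  refine ⟨?_, ⟨fun v => NumberField.InfinitePlace.isReal_iff.2 (real _)⟩,
    ⟨(real (Classical.arbitrary _)).embedding⟩,
    ⟨e, fun σ τ a => ext ha σ τ (by rw [he, he, a]), he⟩, ext ha⟩
  rw [← (Field.primitive_element_iff_minpoly_natDegree_eq ℚ θ).1
    (IntermediateField.adjoin_eq_top_of_algebra ℚ _ ha),
    ← minpoly.eq_of_irreducible_of_monic (irr hIRR hg hb) _ (monic hg), deg]
  simp [Pm, h]

end Pool.Agent.P.MP_e5b57f_nt.GD
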