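import Pool.Agent.P.MP_e5b57f_nt.GD.Iface

/-! Curves with different reduction types are not isogenous. -/

namespace Pool.Agent.P.MP_e5b57f_nt.GD

open PowerSeries Filter Topology Finset
open scoped Polynomial

theorem s_NISO (hBAD : S_BAD) (hGOOD : S_GOOD) (hRAT : S_RAT) (hASY : S_ASY) : S_NISO := by
  intro B α β α' β' hs hi
  obtain ⟨x, y, h, hm, ht⟩ := hBAD B α β hs.two hs.a1 hs.b1 hs.b0
  obtain ⟨φ, p, q, hk, hf⟩ := hRAT α β α' β' hi
  have hg := hGOOD B α' β' hs.two hs.a2 hs.b2 hs.c2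
  set P : ℕ → (leg α β).toAffine.Point := fun n => .some _ _ (h n) with hP
  have inj : Function.Injective P := fun m n e => by
    injection e with e1 _
    exact hm.injective (congrArg B.valuation e1)
  have ev := (hf.preimage inj.injOn).eventually_cofinite_notMem
  rw [Nat.cofinite_eq_atTop, eventually_atTop] at ev
  obtain ⟨N, hN⟩ := ev
  have key : ∀ n, ∃ x' y' h', φ (P (n + N)) = .some x' y' h' ∧ q.eval (x (n + N)) ≠ 0 ∧
      x' * q.eval (x (n + N)) = p.eval (x (n + N)) := fun n => by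
    obtain ⟨a, b, c, x', y', h', e1, e2, e3⟩ := not_not.1 (hN (n + N) (Nat.le_add_left _ _))
    injection e1 with e1 _
    exact ⟨x', y', h', e2, e1 ▸ e3⟩
  choose x' y' h' k1 k2 k3 using key
  have tor : ∀ n, ∃ k : ℕ, 2 ^ k • (.some _ _ (h' n) : (leg α' β').toAffine.Point) = 0 := fun n => by
    obtain ⟨k, e⟩ := ht (n + N)
    exact ⟨k, by rw [← k1, ← map_nsmul, e, map_zero]⟩
  obtain ⟨n₀, hn⟩ := hASY B (fun n => x (n + N)) x' p q
    (fun a b hab => hm (Nat.add_lt_add_right hab N))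
    (Eventually.of_forall fun n => ⟨k2 n, k3 n, (hg _ _ (h' n) (tor n)).1⟩)
  have fin : (φ.ker : Set (leg α β).toAffine.Point).Finite := Set.toFinite _
  refine Set.infinite_of_injective_forall_mem (f := fun n => P (n + n₀ + N))
    (fun a b e => by have := inj e; omega) (fun n => ?_)
    ((fin.image (· + P (n₀ + N))).union (fin.image (· - P (n₀ + N))))
  have e := (hg _ _ (h' (n + n₀)) (tor _)).2 _ _ (h' n₀) (tor _) (hn _ (Nat.le_add_left _ _))
  rcases (WeierstrassCurve.Affine.Point.X_eq_iff (h₁ := h' (n + n₀)) (h₂ := h' n₀)).1 e with e | e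
  · exact Or.inl ⟨_, (AddMonoidHom.mem_ker.2 (by rw [map_sub, k1, k1, e, sub_self]) :
      P (n + n₀ + N) - P (n₀ + N) ∈ φ.ker), sub_add_cancel _ _⟩
  · exact Or.inr ⟨_, (AddMonoidHom.mem_ker.2 (by rw [map_add, k1, k1, e, neg_add_cancel]) :
      P (n + n₀ + N) + P (n₀ + N) ∈ φ.ker), add_sub_cancel_right _ _⟩

end Pool.Agent.P.MP_e5b57f_nt.GD
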