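import Pool.Agent.P.MP_e5b57f_nt.GD.Iface

/-! The two incomplete integrals are not proportional. -/

namespace Pool.Agent.P.MP_e5b57f_nt.GD

open PowerSeries Filter Topology Finset
open scoped Polynomial

namespace NPRx

theorem c0 : coeff 0 Uq = 1 := by simp [Uq, cn, aa]

theorem c1 : coeff 1 Uq = Polynomial.C (1 / 6) * (1 + Polynomial.X) := by
  have a0 : aa 0 = 1 := by simp [aa]
  have a1 : aa 1 = 1 / 2 := by norm_num [aa, Nat.centralBinom]
  have e : antidiagonal 1 = {(0, 1), (1, 0)} := by decide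
  rw [Uq, coeff_mk, cn, e, sum_pair (by decide), a0, a1]
  ext n
  simp only [mul_add, Polynomial.coeff_add, Polynomial.coeff_C_mul, pow_one, pow_zero]
  norm_num
  ring

end NPRx

theorem s_NPR : S_NPR := by
  intro w l s r u v w0 w1 l0 hs hr hu hv h
  obtain ⟨a, ha⟩ := hu 2
  obtain ⟨b, hb⟩ := hv 2
  rw [sum_range_succ, sum_range_one, NPRx.c0, NPRx.c1, map_one] at ha hb
  have c0 : constantCoeff (Polynomial.aeval l
      (Polynomial.C (1 / 6) * (1 + Polynomial.X) : ℚ[X])) = 1 / 6 := by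
    rw [map_mul, map_add, map_one, Polynomial.aeval_X, Polynomial.aeval_C, algebraMap_rat]
    simp [l0]
  generalize Polynomial.aeval l (Polynomial.C (1 / 6) * (1 + Polynomial.X) : ℚ[X]) = c at ha hb c0
  have hw : w ≠ 0 := by rintro rfl; simp at w1
  obtain ⟨s1, e1⟩ : ∃ s1, s1 = 2 - s * w := ⟨_, rfl⟩
  obtain ⟨r1, e2⟩ : ∃ r1, r1 = 4 - 4 * r * w := ⟨_, rfl⟩
  have t2 : constantCoeff (2 : ℂ⟦X⟧) = 2 := map_ofNat _ _
  have t4 : constantCoeff (4 : ℂ⟦X⟧) = 4 := map_ofNat _ _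
  have s0 : constantCoeff s1 = 2 := by rw [e1]; simp [w0, t2]
  have r0 : constantCoeff r1 = 4 := by rw [e2]; simp [w0, t4]
  have es : s = w * s1 := by rw [e1]; linear_combination hs
  have er : r = w * r1 := by rw [e2]; linear_combination hr
  have k : w ^ 3 * (2 * s1 - 4 * r1 + c * (r1 ^ 3 - 2 * s1 ^ 3) +
      w ^ 2 * (r1 ^ 5 * b - 2 * s1 ^ 5 * a)) = 0 := by
    subst es er
    linear_combination h - (w * r1) * hb + 2 * (w * s1) * ha - hr + 2 * hs
  have := congrArg constantCoeff ((mul_eq_zero.1 k).resolve_left (pow_ne_zero _ hw))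
  simp only [map_add, map_sub, map_mul, map_pow, t2, t4, s0, r0, c0, w0, map_zero] at this
  norm_num at this

end Pool.Agent.P.MP_e5b57f_nt.GD
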