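import Pool.Agent.P.MP_e5b57f_nt.GD.Iface

/-! Bounded order of vanishing. -/

namespace Pool.Agent.P.MP_e5b57f_nt.GD

open PowerSeries Filter Topology Finset
open scoped Polynomial

theorem s_ORD : S_ORD := by
  intro n y hy c
  haveI : Module.Finite ℚ (Polynomial.degreeLT ℚ (c + 1)) :=
    Module.Finite.equiv (Polynomial.degreeLTEquiv ℚ (c + 1)).symm
  let K : ℕ → Submodule ℚ (Fin n → Polynomial.degreeLT ℚ (c + 1)) := fun e =>
    { carrier := {v | (X : ℚ⟦X⟧) ^ e ∣ ∑ i, (((v i : ℚ[X])) : ℚ⟦X⟧) * y i}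
      add_mem' := fun {a b} ha hb => by
        simpa [add_mul, sum_add_distrib] using dvd_add ha hb
      zero_mem' := by simp
      smul_mem' := fun a v hv => by
        have := Dvd.dvd.mul_left hv (C a)
        simpa [mul_sum, Polynomial.smul_eq_C_mul, mul_assoc] using this }
  obtain ⟨e, he⟩ := IsArtinian.monotone_stabilizes (R := ℚ)
    (⟨fun e => OrderDual.toDual (K e), fun a b h v hv => (pow_dvd_pow _ h).trans hv⟩ :
      ℕ →o (Submodule ℚ (Fin n → Polynomial.degreeLT ℚ (c + 1)))ᵒᵈ)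
  refine ⟨e, fun v v0 hv hd => v0 (hy v ?_)⟩
  let u : Fin n → Polynomial.degreeLT ℚ (c + 1) := fun i => ⟨v i, Polynomial.mem_degreeLT.2
    (Polynomial.degree_le_natDegree.trans_lt (by exact_mod_cast Nat.lt_succ_of_le (hv i)))⟩
  ext k
  have h1 : K e = K (e + (k + 1)) := he _ (Nat.le_add_right ..)
  have h2 : u ∈ K (e + (k + 1)) := h1 ▸ (hd : u ∈ K e)
  exact X_pow_dvd_iff.1 h2 k (by omega)

end Pool.Agent.P.MP_e5b57f_nt.GD
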