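import Pool.Agent.P.MP_e5b57f_nt.GD.Iface

/-! A relation between two incomplete integrals forces a relation between the coefficients. -/

namespace Pool.Agent.P.MP_e5b57f_nt.GD

open PowerSeries Filter Topology Finset
open scoped Polynomial

namespace PADx

/-- Integer series as complex series. -/
noncomputable abbrev upZ : ℤ⟦X⟧ →+* ℂ⟦X⟧ := PowerSeries.map (Int.castRingHom ℂ)

theorem lift {N : ℕ} {f : ℂ⟦X⟧} (h : IntN N f) : ∃ g : ℤ⟦X⟧, upZ g = rescale (N : ℂ) f ∧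
    ∀ n, ((coeff n g : ℤ) : ℂ) = (N : ℂ) ^ n * coeff n f := by
  choose a ha using h
  refine ⟨mk a, ?_, fun n => by rw [coeff_mk, ha]⟩
  ext n
  rw [coeff_map, coeff_mk, coeff_rescale, ha, eq_intCast]

theorem const {N : ℕ} {f : ℂ⟦X⟧} {g : ℤ⟦X⟧}
    (h : ∀ n, ((coeff n g : ℤ) : ℂ) = (N : ℂ) ^ n * coeff n f) (h0 : constantCoeff f = 0) :
    constantCoeff g = 0 := by
  have := h 0
  rw [coeff_zero_eq_constantCoeff_apply, coeff_zero_eq_constantCoeff_apply, h0, mul_zero] at this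
  exact_mod_cast this

theorem clear (N : ℕ) (p : ℚ[X]) : ∃ (b : ℤ) (f : ℤ[X]), b ≠ 0 ∧
    ∀ j, (f.coeff j : ℚ) = b * ((N : ℚ) ^ j * p.coeff j) := by
  obtain ⟨b, hb, e⟩ := IsLocalization.integerNormalization_spec (nonZeroDivisors ℤ)
    (p.comp (Polynomial.C (N : ℚ) * Polynomial.X))
  refine ⟨b, IsLocalization.integerNormalization (nonZeroDivisors ℤ)
    (p.comp (Polynomial.C (N : ℚ) * Polynomial.X)), nonZeroDivisors.ne_zero hb, fun j => ?_⟩
  have := Polynomial.ext_iff.1 e j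
  rwa [Polynomial.coeff_map, Polynomial.coeff_smul, Polynomial.comp_C_mul_X_coeff,
    eq_intCast, zsmul_eq_mul, mul_comm (p.coeff j)] at this

theorem up_poly {N : ℕ} {b : ℤ} {p : ℚ[X]} {f : ℤ[X]}
    (h : ∀ j, (f.coeff j : ℚ) = b * ((N : ℚ) ^ j * p.coeff j)) :
    upZ (f : ℤ⟦X⟧) = (b : ℂ⟦X⟧) * rescale (N : ℂ) (algebraMap ℚ[X] ℂ⟦X⟧ p) := by
  ext n
  have := congrArg (fun x : ℚ => (x : ℂ)) (h n)
  rw [← map_intCast (C (R := ℂ)), coeff_C_mul, coeff_rescale, algebraMap_apply', coeff_map,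
    coeff_map, Polynomial.coeff_coe, Polynomial.coeff_coe]
  simpa using this

theorem key {P D : ℕ} {e : ℕ → ℤ[X]} {e₀ : ℤ[X]} (hP : Odd P)
    (he : ∀ k < P, Polynomial.C ((P * D : ℕ) : ℚ) * coeff k Uq =
      (if 2 * k + 1 = P then e₀ else Polynomial.C (P : ℤ) * e k).map (Int.castRingHom ℚ))
    (ρ : ℂ⟦X⟧ →+* ℂ⟦X⟧) {l s u : ℂ⟦X⟧} {l1 s1 : ℤ⟦X⟧} (hl : upZ l1 = ρ l) (hs : upZ s1 = ρ s)
    (h0 : constantCoeff s1 = 0) (hu : Sub Uq l (s ^ 2) u) : ∃ A : ℤ⟦X⟧, (X : ℂ⟦X⟧) ^ (2 * P) ∣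
      ((P * D : ℕ) : ℂ⟦X⟧) * ρ (s * u) -
        upZ (Polynomial.aeval l1 e₀ * s1 ^ P + (P : ℤ⟦X⟧) * A) := by
  obtain ⟨k0, hk⟩ := hP
  have a1 : (P : ℤ⟦X⟧) ∣ ∑ k ∈ range P, Polynomial.aeval l1
      (if 2 * k + 1 = P then e₀ else Polynomial.C (P : ℤ) * e k) * s1 ^ (2 * k + 1) -
      Polynomial.aeval l1 e₀ * s1 ^ P := by
    rw [← add_sum_erase _ _ (mem_range.2 (show k0 < P by omega)), if_pos hk.symm, ← hk,
      add_sub_cancel_left]
    refine dvd_sum fun k hk' => ?_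
    rw [if_neg fun c => ne_of_mem_erase hk' (by omega), map_mul, Polynomial.aeval_C,
      map_natCast, mul_assoc]
    exact dvd_mul_right _ _
  obtain ⟨A, hA⟩ := a1
  refine ⟨A, ?_⟩
  have a2 : (X : ℂ⟦X⟧) ∣ ρ s := by
    rw [← hs, ← map_X (Int.castRingHom ℂ)]
    exact map_dvd upZ (X_dvd_iff.2 h0)
  have a3 := (pow_dvd_pow_of_dvd a2 (2 * P)).trans (by
    simpa only [map_pow, ← pow_mul] using map_dvd ρ (hu P))
  refine (a3.mul_left (((P * D : ℕ) : ℂ⟦X⟧) * ρ s)).trans (dvd_of_eq ?_)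
  rw [← hA, add_sub_cancel, map_sub, map_sum, map_sum, mul_sub, mul_sum, map_mul, mul_assoc]
  refine congrArg _ (sum_congr rfl fun k hk' => ?_)
  rw [map_mul, map_mul, map_pow, map_pow, hs,
    Polynomial.map_aeval_eq_aeval_map (φ := Int.castRingHom ℚ) (RingHom.ext_int _ _), hl,
    ← he k (mem_range.1 hk'),
    Polynomial.map_aeval_eq_aeval_map (φ := RingHom.id ℚ) (RingHom.ext_rat _ _), Polynomial.map_id,
    map_mul, Polynomial.aeval_C, map_natCast]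
  ring

end PADx

open PADx in
theorem s_PAD (hPINT : S_PINT) (hPMOD : S_PMOD) : S_PAD := by
  intro N l s r u v N0 il is ir l0 s0 r0 s1 r1 hu hv p q h
  obtain ⟨l', hl, cl⟩ := lift il
  obtain ⟨s', hs, cs⟩ := lift is
  obtain ⟨r', hr, cr⟩ := lift ir
  obtain ⟨b, f0, b0, hf0⟩ := clear N p
  obtain ⟨c, g0, c0, hg0⟩ := clear N q
  obtain ⟨f, hf⟩ : ∃ f : ℤ[X], ∀ j, (f.coeff j : ℚ) = (b * c : ℤ) * ((N : ℚ) ^ j * p.coeff j) :=
    ⟨Polynomial.C c * f0, fun j => by rw [Polynomial.coeff_C_mul]; push_cast; rw [hf0]; ring⟩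
  obtain ⟨g, hg⟩ : ∃ g : ℤ[X], ∀ j, (g.coeff j : ℚ) = (b * c : ℤ) * ((N : ℚ) ^ j * q.coeff j) :=
    ⟨Polynomial.C b * g0, fun j => by rw [Polynomial.coeff_C_mul]; push_cast; rw [hg0]; ring⟩
  have rel : upZ (f : ℤ⟦X⟧) * rescale (N : ℂ) (s * u) +
      upZ (g : ℤ⟦X⟧) * rescale (N : ℂ) (r * v) = 0 := by
    have := congrArg (rescale (N : ℂ)) h
    rw [Algebra.smul_def, Algebra.smul_def, map_add, map_mul, map_mul _ _ (r * v),
      map_zero] at this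
    rw [up_poly hf, up_poly hg, mul_assoc, mul_assoc, ← mul_add, this, mul_zero]
  have e1 : coeff 1 s' = N * 2 := by
    have := cs 1
    rw [s1, pow_one] at this
    exact_mod_cast this
  have e2 : coeff 1 r' = N * 4 := by
    have := cr 1
    rw [r1, pow_one] at this
    exact_mod_cast this
  ext j
  obtain ⟨P, hP, pP⟩ := Nat.exists_infinite_primes
    (3 + f.natDegree + g.natDegree + (f.coeff j * (N * 2) + g.coeff j * (N * 4)).natAbs)
  obtain ⟨D, e, e₀, -, he0, he⟩ := hPINT P pP (by omega)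
  have odd := pP.odd_of_ne_two (by omega)
  obtain ⟨A, hA⟩ := key odd he _ hl hs (const cs s0) hu
  obtain ⟨B, hB⟩ := key odd he _ hl hr (const cr r0) hv
  have d1 := hPMOD P f g e₀ l' s' r' (f * A + g * B) pP (const cl l0) (const cs s0) (const cr r0)
    he0 (by omega) (by omega) (X_pow_dvd_iff.2 fun m hm => by
      have d := ((hA.mul_left (upZ f)).add (hB.mul_left (upZ g))).neg_right
      have d' : (X : ℂ⟦X⟧) ^ (2 * P) ∣ upZ (Polynomial.aeval l' e₀ *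
          ((f : ℤ⟦X⟧) * s' ^ P + (g : ℤ⟦X⟧) * r' ^ P) + (P : ℤ⟦X⟧) * (f * A + g * B)) :=
        d.trans (dvd_of_eq (by
          simp only [map_add, map_mul] at rel ⊢
          linear_combination -((P * D : ℕ) : ℂ⟦X⟧) * rel))
      have := X_pow_dvd_iff.1 d' m hm
      rw [coeff_map, eq_intCast] at this
      exact_mod_cast this) j
  rw [e1, e2] at d1
  have z := Int.eq_zero_of_dvd_of_natAbs_lt_natAbs d1 (by rw [Int.natAbs_natCast]; omega)
  have z' := congrArg (fun x : ℤ => (x : ℚ)) z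
  push_cast at z'
  rw [hf, hg] at z'
  have n0 : ((b * c : ℤ) : ℚ) * (N : ℚ) ^ j * (N * 2) ≠ 0 := by
    have := mul_ne_zero b0 c0
    have := N0.ne'
    positivity
  refine mul_left_cancel₀ n0 ?_
  rw [Polynomial.coeff_add, Polynomial.coeff_ofNat_mul, Polynomial.coeff_zero]
  linear_combination z'

end Pool.Agent.P.MP_e5b57f_nt.GD
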