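import Pool.Agent.P.MP_e5b57f_nt.GD.Iface

/-! Construction of the simultaneous approximations by the lemma of Siegel. -/

namespace Pool.Agent.P.MP_e5b57f_nt.GD

open PowerSeries Filter Topology Finset
open scoped Polynomial

namespace PADEx

attribute [local instance] Matrix.seminormedAddCommGroup

theorem siegel {α β : Type} [Fintype α] [Fintype β] (A : Matrix α β ℤ) (H e : ℕ) (hH : 1 ≤ H)
    (hA : ∀ i j, |A i j| ≤ H) (hn : Fintype.card α < Fintype.card β)
    (he : Fintype.card α + e * Fintype.card α ≤ e * Fintype.card β) :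
    ∃ t : β → ℤ, t ≠ 0 ∧ A.mulVec t = 0 ∧ ∀ j, |t j| ≤ ((Fintype.card β * H) ^ e : ℕ) := by
  have hb : 1 ≤ Fintype.card β * H := Nat.mul_pos (by omega) hH
  rcases Nat.eq_zero_or_pos (Fintype.card α) with h0 | h0
  · have := Fintype.card_eq_zero_iff.1 h0
    have : Nonempty β := Fintype.card_pos_iff.1 (by omega)
    refine ⟨1, one_ne_zero, Subsingleton.elim _ _, fun j => ?_⟩
    rw [Pi.one_apply]
    exact_mod_cast Nat.one_le_pow e _ hb
  obtain ⟨t, h1, h2, h3⟩ := Int.Matrix.exists_ne_zero_int_vec_norm_le A hn h0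
  refine ⟨t, h1, h2, fun j => ?_⟩
  have hH' : (1 : ℝ) ≤ H := by exact_mod_cast hH
  have a1 : ‖A‖ ≤ H := (Matrix.norm_le_iff (by positivity)).2 fun i j => by
    rw [Int.norm_eq_abs]; exact_mod_cast hA i j
  have a2 : (Fintype.card α : ℝ) / (Fintype.card β - Fintype.card α) ≤ e := by
    rw [div_le_iff₀ (sub_pos.2 (by exact_mod_cast hn))]
    have : (Fintype.card α : ℝ) + e * Fintype.card α ≤ e * Fintype.card β := by exact_mod_cast he
    linarith
  have a3 : ‖t j‖ ≤ ((Fintype.card β : ℝ) * H) ^ (e : ℝ) := by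
    refine (norm_le_pi_norm t j).trans (h3.trans (le_trans ?_
      (Real.rpow_le_rpow_of_exponent_le (by exact_mod_cast hb) a2)))
    refine Real.rpow_le_rpow (by positivity) ?_ (div_nonneg (by positivity)
      (sub_nonneg.2 (by exact_mod_cast hn.le)))
    exact mul_le_mul_of_nonneg_left (max_le hH' a1) (by positivity)
  rw [Real.rpow_natCast, Int.norm_eq_abs] at a3
  exact_mod_cast a3

theorem pade_of {m : ℕ} (y : Fin (m + 1) → ℚ⟦X⟧) (h0 : y 0 = 1) (Q : ℚ[X]) (N M : ℕ)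
    (hQ : Q.natDegree ≤ N)
    (hv : ∀ i : Fin m, ∀ j < M, coeff (N + 1 + j) ((Q : ℚ⟦X⟧) * y i.succ) = 0) :
    ∃ W : Fin (m + 1) → ℚ[X], W 0 = Q ∧ Pade y W N (N + M) := by
  have e : trunc (N + 1) ((Q : ℚ⟦X⟧) * y 0) = Q := by
    rw [h0, mul_one, trunc_coe_eq_self (by omega)]
  refine ⟨fun i => trunc (N + 1) ((Q : ℚ⟦X⟧) * y i), e, fun i =>
    ⟨Nat.lt_succ_iff.1 (natDegree_trunc_lt _ _), ?_⟩⟩
  simp only [e]
  cases i using Fin.cases with
  | zero => rw [e, h0, mul_one, sub_self]; exact dvd_zero _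
  | succ i =>
    refine X_pow_dvd_iff.2 fun n hn => ?_
    rw [map_sub, Polynomial.coeff_coe, coeff_trunc]
    split_ifs with h
    · exact sub_self _
    · obtain ⟨j, rfl⟩ := Nat.exists_eq_add_of_le (not_lt.1 h)
      rw [hv i j (by omega), sub_self]

theorem main {m : ℕ} (y : Fin (m + 1) → ℚ⟦X⟧) (C : ℕ) (h0 : y 0 = 1) (hU : Unif y C)
    (N M e : ℕ) (h1 : m * M < N + 1) (h2 : m * M + e * (m * M) ≤ e * (N + 1)) :
    ∃ (Q : ℤ[X]) (W : Fin (m + 1) → ℚ[X]), Q ≠ 0 ∧ W 0 = Q.map (Int.castRingHom ℚ) ∧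
      Pade y W N (N + M) ∧ ∀ j, |Q.coeff j| ≤ (((2 * C ^ 2) ^ (N + M + 1)) ^ e : ℕ) := by
  have hC : 0 < C := by
    obtain ⟨d, a, b, _⟩ := hU.1 0
    simpa using a.trans_le b
  obtain ⟨d, hd0, hd, hz⟩ := hU.1 (N + M)
  choose! z hz using hz
  have hzb : ∀ i, ∀ k ≤ N + M, |z i k| ≤ (C ^ (N + M + 1) * C ^ (N + M + 1) : ℕ) := fun i k hk => by
    have a1 : (d : ℚ) ≤ (C : ℚ) ^ (N + M + 1) := by exact_mod_cast hd
    have a2 : |coeff k (y i)| ≤ (C : ℚ) ^ (N + M + 1) :=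
      (hU.2 i k).trans (pow_le_pow_right₀ (by exact_mod_cast hC) (by omega))
    have a3 : |(z i k : ℚ)| ≤ (C : ℚ) ^ (N + M + 1) * (C : ℚ) ^ (N + M + 1) := by
      rw [← hz i k hk, abs_mul, Nat.abs_cast]
      exact mul_le_mul a1 a2 (abs_nonneg _) (by positivity)
    exact_mod_cast a3
  obtain ⟨t, t0, t1, t2⟩ := siegel
    (Matrix.of fun (p : Fin m × Fin M) (a : Fin (N + 1)) => z p.1.succ (N + 1 + p.2 - a))
    (C ^ (N + M + 1) * C ^ (N + M + 1)) e (Nat.mul_pos (by positivity) (by positivity))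
    (fun p a => hzb _ _ (by omega)) (by simpa using h1) (by simpa using h2)
  have c1 : ∀ a : Fin (N + 1), (Polynomial.ofFn (N + 1) t).coeff a = t a := fun a =>
    Polynomial.ofFn_coeff_eq_val_of_lt t a.2
  have c2 : ∀ a, N + 1 ≤ a → (Polynomial.ofFn (N + 1) t).coeff a = 0 := fun a ha =>
    Polynomial.ofFn_coeff_eq_zero_of_ge t ha
  obtain ⟨W, w1, w2⟩ := pade_of y h0 ((Polynomial.ofFn (N + 1) t).map (Int.castRingHom ℚ)) N M
    (Polynomial.natDegree_map_le.trans (Polynomial.natDegree_le_iff_coeff_eq_zero.2 c2))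
    fun i j hj => by
      have e1 := congrFun t1 (i, ⟨j, hj⟩)
      simp only [Matrix.mulVec, dotProduct, Matrix.of_apply, Pi.zero_apply] at e1
      rw [coeff_mul, Nat.sum_antidiagonal_eq_sum_range_succ_mk,
        ← sum_subset (range_mono (show N + 1 ≤ (N + 1 + j).succ by omega)) fun a _ ha => by
          simp [c2 a (by simpa using ha)], sum_range]
      refine mul_left_cancel₀ (a := (d : ℚ)) (by exact_mod_cast hd0.ne') ?_
      rw [mul_zero, mul_sum, sum_congr rfl (g := fun a : Fin (N + 1) =>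
        ((z i.succ (N + 1 + j - a) * t a : ℤ) : ℚ)) fun a _ => ?_]
      · exact_mod_cast e1
      · rw [Int.cast_mul, ← hz _ _ (by omega), Polynomial.coeff_coe, Polynomial.coeff_map, c1]
        simp only [eq_intCast]
        ring
  refine ⟨_, W, fun h => t0 (funext fun a => by rw [← c1, h]; rfl), w1, w2, fun j => ?_⟩
  rcases lt_or_ge j (N + 1) with hj | hj
  · refine ((congrArg _ (c1 ⟨j, hj⟩)).trans_le (t2 _)).trans ?_
    rw [Fintype.card_fin, mul_pow 2, sq C, mul_pow C]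
    have : N + 1 ≤ 2 ^ (N + M + 1) := le_trans (by omega) (Nat.lt_two_pow_self (n := N + M + 1)).le
    exact_mod_cast Nat.pow_le_pow_left (Nat.mul_le_mul_right _ this) e
  · rw [c2 j hj, abs_zero]; positivity

end PADEx

theorem s_PADE : S_PADE := by
  intro m y C h0 hU κ
  refine ⟨(2 * C ^ 2) ^ ((m * κ + κ + 2) * (m * κ)), fun L hL => ?_⟩
  obtain ⟨Q, W, h1, h2, h3, h4⟩ := PADEx.main y C h0 hU (m * (κ * L) + L) (κ * L) (m * κ)
    (by omega) (by nlinarith [Nat.zero_le (m * κ)])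
  refine ⟨Q, W, h1, h2, h3, fun j => (h4 j).trans ?_⟩
  have hC : 0 < C := by
    obtain ⟨d, a, b, _⟩ := hU.1 0
    simpa using a.trans_le b
  have h5 : m * (κ * L) + L + κ * L + 1 ≤ (m * κ + κ + 2) * L := by nlinarith
  have h6 : ((2 * C ^ 2) ^ (m * (κ * L) + L + κ * L + 1)) ^ (m * κ) ≤
      ((2 * C ^ 2) ^ ((m * κ + κ + 2) * (m * κ))) ^ L := by
    rw [← pow_mul, ← pow_mul, mul_right_comm]
    exact Nat.pow_le_pow_right (by positivity) (Nat.mul_le_mul_right _ h5)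
  exact_mod_cast h6

end Pool.Agent.P.MP_e5b57f_nt.GD
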