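import Pool.Agent.P.MP_e5b57f_nt.GD.Iface

/-! The algebraic and differential equations of the series `Yq` and `Fq`. -/

namespace Pool.Agent.P.MP_e5b57f_nt.GD

open PowerSeries Filter Topology Finset
open scoped Polynomial

namespace PF1x

theorem aa_zero : aa 0 = 1 := by simp [aa]

theorem aa_succ (n : ℕ) : 2 * ((n : ℚ) + 1) * aa (n + 1) = (2 * n + 1) * aa n := by
  have h : ((n : ℚ) + 1) * (Nat.centralBinom (n + 1) : ℚ) = 2 * (2 * n + 1) * Nat.centralBinom n := by
    exact_mod_cast Nat.succ_mul_centralBinom_succ n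
  unfold aa
  rw [pow_succ]
  field_simp
  linear_combination 2 * h

theorem caa_succ (n : ℕ) : 2 * ((n : ℚ[X]) + 1) * Polynomial.C (aa (n + 1)) =
    (2 * n + 1) * Polynomial.C (aa n) := by
  have := congrArg (Polynomial.C : ℚ → ℚ[X]) (aa_succ n)
  simpa only [map_mul, map_add, map_natCast, map_one, map_ofNat] using this

noncomputable def B1 : ℚ[X]⟦X⟧ := mk fun n => Polynomial.C (aa n)

noncomputable def B2 : ℚ[X]⟦X⟧ := rescale Polynomial.X B1

theorem coeff_B2 (n : ℕ) : coeff n B2 = Polynomial.X ^ n * Polynomial.C (aa n) := by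
  simp [B2, B1, coeff_rescale]

theorem two_eq : (2 : ℚ[X]⟦X⟧) = C (2 : ℚ[X]) := (map_ofNat _ 2).symm

theorem four_eq : (4 : ℚ[X]⟦X⟧) = C (4 : ℚ[X]) := (map_ofNat _ 4).symm

theorem dB1 : 2 * (1 - X) * d⁄dX ℚ[X] B1 = B1 := by
  have e : 2 * (1 - X) * d⁄dX ℚ[X] B1 = C 2 * d⁄dX ℚ[X] B1 - C 2 * (X * d⁄dX ℚ[X] B1) := by
    rw [two_eq]; ring
  rw [e]
  ext1 n
  rw [map_sub, coeff_C_mul, coeff_C_mul, coeff_derivative]
  cases n with
  | zero =>
    have := caa_succ 0
    simp only [B1, coeff_mk, coeff_zero_X_mul]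
    push_cast at this ⊢
    linear_combination this
  | succ n =>
    have := caa_succ (n + 1)
    rw [coeff_succ_X_mul, coeff_derivative]
    simp only [B1, coeff_mk]
    push_cast at this ⊢
    linear_combination this

theorem d_sq {R : Type} [CommRing R] (B : R⟦X⟧) :
    d⁄dX R (B ^ 2 * (1 - X)) = B * (2 * (1 - X) * d⁄dX R B - B) ∧ d⁄dX R (1 : R⟦X⟧) = 0 := by
  refine ⟨?_, Derivation.map_one_eq_zero _⟩
  rw [Derivation.leibniz, Derivation.leibniz_pow, map_sub, derivative_X]
  simp only [Derivation.map_one_eq_zero, smul_eq_mul, nsmul_eq_mul]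
  push_cast
  ring

theorem sq_B1 : B1 ^ 2 * (1 - X) = 1 := by
  refine derivative.ext ?_ ?_
  · rw [(d_sq B1).1, (d_sq B1).2, dB1, sub_self, mul_zero]
  · simp [B1, aa_zero, ← coeff_zero_eq_constantCoeff_apply, pow_two, coeff_mul]

theorem sq_B2 : B2 ^ 2 * (1 - Lam * X) = 1 := by
  have := congrArg (rescale (Polynomial.X : ℚ[X])) sq_B1
  rwa [map_mul, map_pow, map_sub, map_one, rescale_X] at this

theorem dL_mul (p q : ℚ[X]⟦X⟧) : dL (p * q) = dL p * q + p * dL q := by
  ext1 n
  simp only [dL, coeff_mk, coeff_mul, map_add, Polynomial.derivative_sum, Polynomial.derivative_mul,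
    Finset.sum_add_distrib]

theorem dL_B1 : dL B1 = 0 := by
  ext1 n
  simp [dL, B1]

theorem dL_B2 : 2 * (1 - Lam * X) * dL B2 = X * B2 := by
  have e : 2 * (1 - Lam * X) * dL B2 = C 2 * dL B2 - C (2 * Polynomial.X) * (X * dL B2) := by
    rw [two_eq, Lam, map_mul]; ring
  rw [e]
  ext1 n
  rw [map_sub, coeff_C_mul, coeff_C_mul]
  cases n with
  | zero => simp [dL, coeff_B2]
  | succ n =>
    have := caa_succ n
    rw [coeff_succ_X_mul, coeff_succ_X_mul]
    simp only [dL, coeff_mk, coeff_B2, Polynomial.derivative_mul, Polynomial.derivative_C,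
      Polynomial.derivative_X_pow, map_natCast]
    cases n with
    | zero =>
      push_cast at this ⊢
      simp only [pow_zero]
      linear_combination this
    | succ n =>
      simp only [Nat.add_sub_cancel]
      push_cast at this ⊢
      linear_combination Polynomial.X ^ (n + 1) * this

theorem Yq_eq : Yq = B1 * B2 := by
  ext1 n
  rw [coeff_mul]
  simp only [Yq, cn, B1, coeff_mk, coeff_B2]
  refine Finset.sum_congr rfl fun p _ => ?_
  rw [map_mul]
  ring

theorem Fq_eq : 4 * X * (1 - X) * dT (dT Fq) + 4 * (1 - 2 * X) * dT Fq = Fq := by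
  have e : 4 * X * (1 - X) * dT (dT Fq) + 4 * (1 - 2 * X) * dT Fq =
      C 4 * (X * dT (dT Fq)) - C 4 * (X * (X * dT (dT Fq))) + C 4 * dT Fq -
        C 4 * (C 2 * (X * dT Fq)) := by
    rw [four_eq, two_eq]; ring
  rw [e]
  ext1 n
  simp only [map_sub, map_add, coeff_C_mul]
  have sq : ∀ m : ℕ, (2 * ((m : ℚ[X]) + 1)) ^ 2 * Polynomial.C (aa (m + 1)) ^ 2 =
      (2 * m + 1) ^ 2 * Polynomial.C (aa m) ^ 2 := fun m => by
    rw [← mul_pow, caa_succ, mul_pow]
  rcases n with _ | _ | n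
  · have := sq 0
    simp only [coeff_zero_X_mul, dT, Fq, coeff_mk, map_pow]
    push_cast at this ⊢
    linear_combination this
  · have := sq 1
    simp only [coeff_succ_X_mul, coeff_zero_X_mul, dT, Fq, coeff_mk, map_pow]
    push_cast at this ⊢
    linear_combination this
  · have := sq (n + 2)
    simp only [coeff_succ_X_mul, dT, Fq, coeff_mk, map_pow]
    push_cast at this ⊢
    linear_combination this

end PF1x

open PF1x in
theorem s_PF1 : S_PF1 := by
  refine ⟨?_, ?_, Fq_eq, ?_⟩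
  · rw [Yq_eq]
    linear_combination (B2 ^ 2 * (1 - Lam * X)) * sq_B1 + sq_B2
  · rw [Yq_eq, dL_mul, dL_B1]
    linear_combination B1 * dL_B2
  · ext1 n
    simp [dL, Fq]

end Pool.Agent.P.MP_e5b57f_nt.GD
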