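import Pool.Agent.P.MP_e5b57f_nt.GD.Iface

/-! Denominators of the first coefficients of the elliptic logarithm. -/

namespace Pool.Agent.P.MP_e5b57f_nt.GD

open PowerSeries Filter Topology Finset
open scoped Polynomial

namespace PINTx

noncomputable def cz (k : ℕ) : ℤ[X] :=
  ∑ q ∈ antidiagonal k,
    Polynomial.C ((q.1.centralBinom * q.2.centralBinom : ℕ) : ℤ) * Polynomial.X ^ q.2

theorem cn_eq (k : ℕ) :
    cn k = Polynomial.C (1 / 4 ^ k : ℚ) * (cz k).map (Int.castRingHom ℚ) := by
  rw [cn, cz, Polynomial.map_sum, mul_sum]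
  refine sum_congr rfl fun q hq => ?_
  rw [Polynomial.map_mul, Polynomial.map_C, Polynomial.map_pow, Polynomial.map_X, ← mul_assoc,
    ← Polynomial.C_mul, ← mem_antidiagonal.1 hq]
  congr 2
  simp only [aa, eq_intCast, Int.cast_natCast, Nat.cast_mul, Int.cast_mul, pow_add]
  field_simp

theorem cz_zero (k : ℕ) : (cz k).coeff 0 = k.centralBinom := by
  rw [cz, Polynomial.finsetSum_coeff, sum_eq_single (k, 0)]
  · simp
  · rintro ⟨i, j⟩ hq hne
    have h1 := mem_antidiagonal.1 hq
    have hj : j ≠ 0 := by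
      rintro rfl
      exact hne (by simpa using h1)
    rw [Polynomial.coeff_C_mul, Polynomial.coeff_X_pow, if_neg hj.symm, mul_zero]
  · simp

theorem key (k c m : ℕ) (h : (c : ℚ) = m * ((2 * k + 1) * 4 ^ k)) :
    Polynomial.C (c : ℚ) * coeff k Uq =
      (Polynomial.C (m : ℤ) * cz k).map (Int.castRingHom ℚ) := by
  rw [Uq, coeff_mk, cn_eq, Polynomial.map_mul, Polynomial.map_C, ← mul_assoc, ← mul_assoc,
    ← Polynomial.C_mul, ← Polynomial.C_mul, h]
  congr 2
  simp only [eq_intCast, Int.cast_natCast]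
  field_simp

end PINTx

open PINTx in
theorem s_PINT : S_PINT := by
  intro p hp h2
  obtain ⟨n, hn⟩ : ∃ n, p = 2 * n + 1 := hp.odd_of_ne_two h2.ne'
  refine ⟨4 ^ p * ∏ k ∈ (range p).erase n, (2 * k + 1),
    fun k => Polynomial.C ((4 ^ (p - k) * ∏ j ∈ ((range p).erase n).erase k, (2 * j + 1) : ℕ) : ℤ) *
      cz k,
    Polynomial.C ((4 ^ (p - n) * ∏ k ∈ (range p).erase n, (2 * k + 1) : ℕ) : ℤ) * cz n,
    mul_ne_zero (by positivity) (prod_ne_zero_iff.2 fun k _ => by omega), ?_, fun k hk => ?_⟩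
  · rw [Polynomial.coeff_C_mul, cz_zero, ← Nat.cast_mul, Int.natCast_dvd_natCast, hp.dvd_mul,
      hp.dvd_mul]
    rintro ((h | h) | h)
    · have h4 := hp.dvd_of_dvd_pow h
      rw [show 4 = 2 ^ 2 by norm_num] at h4
      exact absurd (Nat.le_of_dvd two_pos (hp.dvd_of_dvd_pow h4)) (by omega)
    · obtain ⟨k, hk, c, hc⟩ := (hp.prime.dvd_finsetProd_iff _).1 h
      have h1 := mem_range.1 (mem_of_mem_erase hk)
      have h3 := ne_of_mem_erase hk
      rcases c with _ | _ | c
      · omega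
      · omega
      · have : p * (c + 1 + 1) = 2 * p + p * c := by ring
        omega
    · have h1 : n.centralBinom ∣ (2 * n).factorial :=
        ⟨_, by rw [Nat.centralBinom_eq_two_mul_choose, ← mul_assoc,
          Nat.choose_mul_factorial_mul_factorial (by omega : n ≤ 2 * n)]⟩
      have := hp.dvd_factorial.1 (h.trans h1)
      omega
  · have h4 : (4 : ℚ) ^ p = 4 ^ (p - k) * 4 ^ k := by rw [← pow_add, Nat.sub_add_cancel hk.le]
    split_ifs with hk2
    · obtain rfl : k = n := by omega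
      refine key k _ _ ?_
      have : (p : ℚ) = 2 * k + 1 := by exact_mod_cast hn
      rw [Nat.cast_mul, Nat.cast_mul, Nat.cast_mul, Nat.cast_pow, Nat.cast_pow, Nat.cast_ofNat, h4,
        this]
      ring
    · beta_reduce
      rw [← mul_assoc (Polynomial.C (p : ℤ)), ← Polynomial.C_mul, ← Nat.cast_mul]
      refine key k _ _ ?_
      rw [← mul_prod_erase ((range p).erase n) _
        (mem_erase.2 ⟨(by omega : k ≠ n), mem_range.2 hk⟩)]
      generalize ∏ j ∈ ((range p).erase n).erase k, (2 * j + 1) = Q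
      push_cast
      rw [h4]
      ring

end Pool.Agent.P.MP_e5b57f_nt.GD
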