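import Pool.Agent.P.MP_e5b57f_nt.GD.Iface

/-! Points map along a real embedding. -/

namespace Pool.Agent.P.MP_e5b57f_nt.GD

open PowerSeries Filter Topology Finset
open scoped Polynomial

open WeierstrassCurve.Affine in
theorem s_PMAP : S_PMAP := by
  intro K _ _ σ α β α' β' h1 h2
  let _ := σ.toAlgebra
  have key : ∀ (W W₁ : WeierstrassCurve K) (W₂ : WeierstrassCurve ℝ),
      W.toAffine.baseChange K = W₁ → W.toAffine.baseChange ℝ = W₂ →
      ∃ f : W₁.toAffine.Point →+ W₂.toAffine.Point, ∀ P, op (f P) = toReal P σ := by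
    rintro W _ _ rfl rfl
    refine ⟨Point.map (W' := W.toAffine) (Algebra.ofId K ℝ), ?_⟩
    rintro (_ | ⟨x, y, h⟩) <;> rfl
  refine key (leg α β) _ _ ?_ ?_
  · ext <;> simp [leg]
  · subst h1 h2
    ext <;> simp [leg, RingHom.algebraMap_toAlgebra]

end Pool.Agent.P.MP_e5b57f_nt.GD
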