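import Pool.Agent.P.MP_e5b57f_nt.GD.Iface

/-! A congruence modulo a prime. -/

namespace Pool.Agent.P.MP_e5b57f_nt.GD

open PowerSeries Filter Topology Finset
open scoped Polynomial

namespace PMODx

theorem pow_eq {p : ℕ} [Fact p.Prime] (s : (ZMod p)⟦X⟧) (h : constantCoeff s = 0) :
    ∃ t, s ^ p = X ^ p * (C (coeff 1 s) + X ^ p * t) := by
  have : CharP (ZMod p)⟦X⟧ p := charP_of_injective_ringHom C_injective p
  obtain ⟨u, rfl⟩ := X_dvd_iff.2 h
  obtain ⟨t, ht⟩ := X_dvd_iff.2 (show constantCoeff (u - C (constantCoeff u)) = 0 by simp)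
  refine ⟨t ^ p, ?_⟩
  have e : u = C (constantCoeff u) + X * t := by rw [← ht]; ring
  rw [coeff_succ_X_mul, coeff_zero_eq_constantCoeff, mul_pow]
  nth_rewrite 1 [e]
  rw [add_pow_char, ← map_pow, ZMod.pow_card, mul_pow]

theorem cc_aeval (l : ℤ⟦X⟧) (h : constantCoeff l = 0) (e : ℤ[X]) :
    constantCoeff (Polynomial.aeval l e) = e.coeff 0 := by
  rw [Polynomial.aeval_def, Polynomial.hom_eval₂, h, Polynomial.eval₂_at_zero]
  simp

end PMODx

open PMODx

theorem s_PMOD : S_PMOD := by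
  intro p f g e l s r A hp hl hs hr he hf hg h j
  have := Fact.mk hp
  have : CharP (ZMod p)⟦X⟧ p := charP_of_injective_ringHom C_injective p
  rcases le_or_gt p j with hj | hj
  · simp [Polynomial.coeff_eq_zero_of_natDegree_lt (hf.trans_le hj),
      Polynomial.coeff_eq_zero_of_natDegree_lt (hg.trans_le hj)]
  let φ := PowerSeries.map (Int.castRingHom (ZMod p))
  have c : ∀ u, constantCoeff (φ u) = (constantCoeff u : ℤ) := fun u => rfl
  have hu : IsUnit (φ (Polynomial.aeval l e)) := by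
    rw [isUnit_iff_constantCoeff, c, cc_aeval l hl, isUnit_iff_ne_zero]
    exact fun h => he ((ZMod.intCast_zmod_eq_zero_iff_dvd _ _).1 h)
  obtain ⟨a, ha⟩ := pow_eq (φ s) (by simp [c, hs])
  obtain ⟨b, hb⟩ := pow_eq (φ r) (by simp [c, hr])
  have h1 := map_dvd φ h
  rw [map_add, map_mul φ (p : ℤ⟦X⟧), map_natCast, CharP.cast_eq_zero, zero_mul, add_zero, map_mul,
    hu.dvd_mul_left, map_add, map_mul, map_mul, map_pow, map_pow, map_pow, ha, hb, map_X, two_mul,
    pow_add, mul_left_comm, mul_left_comm (φ g), ← mul_add,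
    mul_dvd_mul_iff_left (pow_ne_zero _ X_ne_zero),
    show ∀ x y z w u v : (ZMod p)⟦X⟧, x * (y + X ^ p * z) + w * (u + X ^ p * v) =
      X ^ p * (x * z + w * v) + (x * y + w * u) from fun _ _ _ _ _ _ => by ring,
    dvd_add_right (dvd_mul_right _ _), X_pow_dvd_iff] at h1
  refine (ZMod.intCast_zmod_eq_zero_iff_dvd _ _).1 ?_
  have h2 := h1 j hj
  rw [map_add, coeff_mul_C, coeff_mul_C] at h2
  simpa [φ] using h2

end Pool.Agent.P.MP_e5b57f_nt.GD
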