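import Pool.Agent.P.MP_e5b57f_nt.GD.Iface

/-! Common denominators of the elliptic integrals. -/

namespace Pool.Agent.P.MP_e5b57f_nt.GD

open PowerSeries Filter Topology Finset
open scoped Polynomial

namespace QDENx

lemma lcm_le : ∃ B : ℕ, 1 ≤ B ∧ ∀ m, Nat.lcmUpto m ≤ B ^ m := by
  obtain ⟨B, hB⟩ := exists_nat_ge (Real.exp (Real.log 4 + 4))
  refine ⟨B + 1, by omega, fun m => ?_⟩
  have h1 := Chebyshev.psi_le_const_mul_self (x := m) (Nat.cast_nonneg m)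
  have h2 : (0 : ℝ) < Nat.lcmUpto m := by exact_mod_cast Nat.lcmUpto_pos m
  rw [Chebyshev.psi_eq_log_lcmUpto, Real.log_le_iff_le_exp h2, mul_comm, Real.exp_nat_mul] at h1
  have h3 : Real.exp (Real.log 4 + 4) ^ m ≤ ((B + 1 : ℕ) : ℝ) ^ m :=
    pow_le_pow_left₀ (Real.exp_pos _).le (hB.trans (by exact_mod_cast Nat.le_succ B)) m
  exact_mod_cast h1.trans h3

lemma cn_int (k j : ℕ) : ∃ a : ℕ, (4 : ℚ) ^ k * (cn k).coeff j = a := by
  refine ⟨∑ p ∈ antidiagonal k, if j = p.2 then p.1.centralBinom * p.2.centralBinom else 0, ?_⟩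
  rw [cn, Polynomial.finsetSum_coeff, mul_sum, Nat.cast_sum]
  refine sum_congr rfl fun p hp => ?_
  rw [Polynomial.coeff_C_mul_X_pow, ← mem_antidiagonal.1 hp]
  split_ifs
  · unfold aa
    push_cast
    rw [pow_add]
    field_simp
  · simp

lemma den_F : Den2 Fq := by
  refine ⟨16, fun n => ⟨16 ^ n, by positivity, Nat.pow_le_pow_right (by norm_num) (by omega),
    fun k hk j => ?_⟩⟩
  obtain ⟨e, rfl⟩ := Nat.exists_eq_add_of_le hk
  rw [Fq, coeff_mk, Polynomial.coeff_C]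
  split_ifs
  · refine ⟨16 ^ e * (k.centralBinom : ℤ) ^ 2, ?_⟩
    have h : (16 : ℚ) ^ k = (4 ^ k) ^ 2 := by
      rw [← pow_mul, mul_comm, pow_mul]
      norm_num
    unfold aa
    push_cast
    rw [pow_add, h]
    field_simp
  · exact ⟨0, by simp⟩

lemma den_U : Den2 Uq := by
  obtain ⟨B, hB, h⟩ := lcm_le
  refine ⟨4 * B ^ 2, fun n => ⟨4 ^ n * Nat.lcmUpto (2 * n + 1),
    Nat.mul_pos (by positivity) (Nat.lcmUpto_pos _), ?_, fun k hk j => ?_⟩⟩
  · rw [mul_pow, ← pow_mul]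
    exact Nat.mul_le_mul (Nat.pow_le_pow_right (by norm_num) (by omega))
      ((h _).trans (Nat.pow_le_pow_right hB (by omega)))
  · obtain ⟨c, hc⟩ : 2 * k + 1 ∣ Nat.lcmUpto (2 * n + 1) :=
      Finset.dvd_lcm (f := id) (mem_Icc.2 ⟨by omega, by omega⟩)
    obtain ⟨e, rfl⟩ := Nat.exists_eq_add_of_le hk
    obtain ⟨a, ha⟩ := cn_int k j
    refine ⟨4 ^ e * c * a, ?_⟩
    rw [Uq, coeff_mk, Polynomial.coeff_C_mul, hc]
    push_cast
    rw [← ha, pow_add]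
    field_simp

end QDENx

theorem s_QDEN : S_QDEN := ⟨QDENx.den_F, QDENx.den_U⟩

end Pool.Agent.P.MP_e5b57f_nt.GD
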