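import Pool.Agent.P.MP_e5b57f_nt.GD.Iface

/-! The first coordinate of an isogeny is a rational function of the first coordinate. -/

namespace Pool.Agent.P.MP_e5b57f_nt.GD

open PowerSeries Filter Topology Finset
open scoped Polynomial

namespace RATx

theorem split (f : ℂ[X]) (p : ℂ[X][X]) : ∃ a b : ℂ[X], ∀ x y, y ^ 2 = f.eval x →
    p.evalEval x y = a.eval x + y * b.eval x := by
  induction p using Polynomial.induction_on with
  | C c => exact ⟨c, 0, fun x y _ => by simp [Polynomial.evalEval_C]⟩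
  | add p q hp hq =>
    obtain ⟨a, b, h⟩ := hp
    obtain ⟨c, d, h'⟩ := hq
    exact ⟨a + c, b + d, fun x y e => by
      rw [Polynomial.evalEval_add, h x y e, h' x y e, Polynomial.eval_add, Polynomial.eval_add]
      ring⟩
  | monomial n c hp =>
    obtain ⟨a, b, h⟩ := hp
    exact ⟨f * b, a, fun x y e => by
      rw [pow_succ, ← mul_assoc, Polynomial.evalEval_mul, h x y e, Polynomial.evalEval_X,
        Polynomial.eval_mul, ← e]
      ring⟩

end RATx

theorem s_RAT : S_RAT := by
  rintro α β α' β' ⟨φ, p, q, hk, hf⟩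
  obtain ⟨f, hF⟩ : ∃ f : ℂ[X], ∀ x, f.eval x = x ^ 3 - (α + β) * x ^ 2 + α * β * x :=
    ⟨Polynomial.X ^ 3 - Polynomial.C (α + β) * Polynomial.X ^ 2 +
      Polynomial.C (α * β) * Polynomial.X, fun x => by simp⟩
  obtain ⟨a, b, hp⟩ := RATx.split f p
  obtain ⟨c, d, hq⟩ := RATx.split f q
  refine ⟨φ, a * c - f * b * d, c ^ 2 - f * d ^ 2, hk,
    (hf.union (hf.preimage neg_injective.injOn)).subset fun P hP => ?_⟩
  by_contra hn
  simp only [Set.mem_union, Set.mem_preimage, Set.mem_ofPred_eq, not_or, not_not] at hn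
  obtain ⟨⟨x, y, h, x', y', h', rfl, e1, q1, r1⟩, x₂, y₂, h₂, x₃, y₃, h₃, e2, e3, q2, r2⟩ := hn
  rw [map_neg, e1, WeierstrassCurve.Affine.Point.neg_some] at e3
  rw [WeierstrassCurve.Affine.Point.neg_some] at e2
  obtain ⟨rfl, rfl⟩ := WeierstrassCurve.Affine.Point.some.inj e2
  obtain ⟨rfl, -⟩ := WeierstrassCurve.Affine.Point.some.inj e3
  have en : (leg α β).toAffine.negY x y = -y := by simp [WeierstrassCurve.Affine.negY, leg]
  have ey : y ^ 2 = f.eval x := by
    have := (WeierstrassCurve.Affine.equation_iff _ _).1 h.1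
    simp only [leg] at this
    rw [hF]; linear_combination this
  have ey' : (-y) ^ 2 = f.eval x := by rw [neg_sq, ey]
  rw [en, hq x _ ey'] at q2 r2
  rw [hp x _ ey'] at r2
  rw [hq x _ ey] at q1 r1
  rw [hp x _ ey] at r1
  refine hP ⟨x, y, h, x', y', h', rfl, e1, fun e => mul_ne_zero q1 q2 ?_, ?_⟩
  · simp only [Polynomial.eval_sub, Polynomial.eval_mul, Polynomial.eval_pow, ← ey] at e
    linear_combination e
  · simp only [Polynomial.eval_sub, Polynomial.eval_mul, Polynomial.eval_pow, ← ey]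
    linear_combination (c.eval x - y * d.eval x) / 2 * r1 + (c.eval x + y * d.eval x) / 2 * r2

end Pool.Agent.P.MP_e5b57f_nt.GD
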