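import Pool.Agent.P.MP_e5b57f_nt.GD.Iface

/-! A resultant. -/

namespace Pool.Agent.P.MP_e5b57f_nt.GD

open PowerSeries Filter Topology Finset
open scoped Polynomial

open Polynomial in
theorem s_RES : S_RES := by
  intro q u v hq h
  refine ⟨(q.scaleRoots v).eval (-u), fun h0 => h ?_, fun k _ y h1 h2 => ?_⟩
  · by_cases hv : v = 0
    · rw [hv, scaleRoots_zero, hq.leadingCoeff, one_smul, eval_pow, eval_X] at h0
      rw [hv, neg_eq_zero.1 (eq_zero_of_pow_eq_zero h0)]
    · have hv' : (v : ℚ) ≠ 0 := by exact_mod_cast hv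
      have h1 := scaleRoots_eval₂_mul (p := q) (algebraMap ℤ ℚ) (-u / v : ℚ) v
      have h2 : algebraMap ℤ ℚ v * (-u / v) = algebraMap ℤ ℚ (-u) := by
        simp only [eq_intCast]
        push_cast
        field_simp
      rw [h2, eval₂_at_apply, h0, map_zero] at h1
      have h3 : aeval (-u / v : ℚ) q = 0 :=
        (mul_eq_zero.1 h1.symm).resolve_left (pow_ne_zero _ (by simpa using hv))
      obtain ⟨c, hc⟩ := isInteger_of_is_root_of_monic hq h3
      refine ⟨-c, ?_⟩
      rw [eq_intCast, eq_div_iff hv'] at hc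
      have : c * v = -u := by exact_mod_cast hc
      linarith
  · have h3 := scaleRoots_aeval_eq_zero (p := q) (r := v) h1
    have h4 : algebraMap ℤ k v * y = algebraMap ℤ k (-u) := by
      simp only [eq_intCast]
      push_cast
      linear_combination h2
    rwa [h4, aeval_algebraMap_apply_eq_algebraMap_eval, eq_intCast] at h3

end Pool.Agent.P.MP_e5b57f_nt.GD
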