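import Pool.Agent.P.MP_e5b57f_nt.GD.Iface

/-! Nonvanishing of the parameters of the family modulo almost all primes. -/

namespace Pool.Agent.P.MP_e5b57f_nt.GD

open PowerSeries Filter Topology Finset
open scoped Polynomial

namespace RFLDx

/-- The product of the linear factors. -/
noncomputable def P (g : ℕ) : ℤ[X] := ∏ l ∈ range g, (Polynomial.X - Polynomial.C (l : ℤ))

theorem P_monic (g : ℕ) : (P g).Monic :=
  Polynomial.monic_prod_of_monic _ _ fun _ _ => Polynomial.monic_X_sub_C _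

theorem P_deg (g : ℕ) : (P g).natDegree = g := by
  rw [P, Polynomial.natDegree_prod_of_monic _ _ fun _ _ => Polynomial.monic_X_sub_C _]
  simp only [Polynomial.natDegree_X_sub_C, sum_const, card_range, smul_eq_mul, mul_one]

theorem P_eval (g : ℕ) (x : ℤ) : (P g).eval x = ∏ l ∈ range g, (x - l) := by
  simp only [P, Polynomial.eval_prod, Polynomial.eval_sub, Polynomial.eval_X, Polynomial.eval_C]

theorem sign (M : ℕ) (hM : 0 < M) (g : ℕ) :
    1 ≤ (-1) ^ g * (P g).eval (-(M : ℤ)) ∧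
      (-1) ^ g * (Polynomial.derivative (P g)).eval (-(M : ℤ)) ≤ 0 ∧
      (0 < g → (M : ℤ) ≤ (-1) ^ g * (P g).eval (-(M : ℤ)) ∧
        (-1) ^ g * (Polynomial.derivative (P g)).eval (-(M : ℤ)) < 0) := by
  have hM' : (1 : ℤ) ≤ M := by exact_mod_cast hM
  induction g with
  | zero => simp [P]
  | succ g ih =>
    obtain ⟨a, b, -⟩ := ih
    have e : P (g + 1) = P g * (Polynomial.X - Polynomial.C (g : ℤ)) := prod_range_succ _ _
    have g0 : (0 : ℤ) ≤ g := Int.natCast_nonneg g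
    have e1 : (-1) ^ (g + 1) * (P (g + 1)).eval (-(M : ℤ)) =
        (-1) ^ g * (P g).eval (-(M : ℤ)) * (M + g) := by
      rw [e, Polynomial.eval_mul, Polynomial.eval_sub, Polynomial.eval_X, Polynomial.eval_C]; ring
    have e2 : (-1) ^ (g + 1) * (Polynomial.derivative (P (g + 1))).eval (-(M : ℤ)) =
        (-1) ^ g * (Polynomial.derivative (P g)).eval (-(M : ℤ)) * (M + g) -
          (-1) ^ g * (P g).eval (-(M : ℤ)) := by
      rw [e, Polynomial.derivative_mul, Polynomial.derivative_X_sub_C, Polynomial.eval_add,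
        Polynomial.eval_mul, Polynomial.eval_mul, Polynomial.eval_sub, Polynomial.eval_X,
        Polynomial.eval_C, Polynomial.eval_one]; ring
    rw [e1, e2]
    have c : (M : ℤ) ≤ (-1) ^ g * (P g).eval (-(M : ℤ)) * (M + g) := by nlinarith
    have d : (-1) ^ g * (Polynomial.derivative (P g)).eval (-(M : ℤ)) * (M + g) ≤ 0 :=
      mul_nonpos_of_nonpos_of_nonneg b (by linarith)
    exact ⟨by linarith, by linarith, fun _ => ⟨c, by linarith⟩⟩

theorem quo (g M : ℕ) (hg : 0 < g) (hM : 0 < M) : ∃ q : ℤ[X], q.Monic ∧ q.eval (-(M : ℤ)) ≠ 0 ∧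
    (Polynomial.X + Polynomial.C (M : ℤ)) * q = P g - Polynomial.C ((P g).eval (-(M : ℤ))) := by
  obtain ⟨q, hq⟩ := Polynomial.X_sub_C_dvd_sub_C_eval (p := P g) (a := -(M : ℤ))
  rw [Polynomial.C_neg, sub_neg_eq_add] at hq
  have hm : (P g - Polynomial.C ((P g).eval (-(M : ℤ)))).Monic :=
    (P_monic g).sub_of_left (Polynomial.degree_C_le.trans_lt
      (Polynomial.natDegree_pos_iff_degree_pos.1 (by rw [P_deg]; exact hg)))
  refine ⟨q, (Polynomial.monic_X_add_C _).of_mul_monic_left (hq ▸ hm), fun h => ?_, hq.symm⟩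
  have e := congrArg (fun p => (Polynomial.derivative p).eval (-(M : ℤ))) hq
  simp only [Polynomial.derivative_sub, Polynomial.derivative_C, sub_zero,
    Polynomial.derivative_mul, Polynomial.derivative_add, Polynomial.derivative_X, add_zero,
    one_mul, Polynomial.eval_add, Polynomial.eval_mul, Polynomial.eval_X, Polynomial.eval_C,
    neg_add_cancel, zero_mul, h] at e
  have := ((sign M hM g).2.2 hg).2
  rw [e, mul_zero] at this
  exact lt_irrefl _ this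

theorem res (hRES : S_RES) (g M : ℕ) (hg : 0 < g) (A : ℤ) (hA : 4 * (g : ℤ) < |A|) (q : ℤ[X])
    (hq : q.Monic) (w : ℤ) : ∃ R : ℤ, R ≠ 0 ∧ ∀ (k : Type) [Field k] (y : k),
      Polynomial.aeval y q = 0 → (R : k) ≠ 0 →
      4 * (g : k) * ((1 + (A : k) ^ 2) * (1 + 4 * (A : k) ^ 2)) ^ 2 + (M + y) * A * w ≠ 0 := by
  obtain ⟨R, R0, hR⟩ := hRES q (4 * g * ((1 + A ^ 2) * (1 + 4 * A ^ 2)) ^ 2 + M * (A * w)) (A * w)
    hq fun ⟨c, hc⟩ => by
      have d : A ∣ 4 * (g : ℤ) :=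
        ⟨w * c - M * w - 4 * g * (10 * A + 33 * A ^ 3 + 40 * A ^ 5 + 16 * A ^ 7), by
          linear_combination hc⟩
      have g0 : (0 : ℤ) < 4 * g := by positivity
      exact absurd (Int.le_of_dvd g0 ((abs_dvd _ _).2 d)) (not_le.2 hA)
  refine ⟨R, R0, fun k _ y hy h e => h (hR k y hy ?_)⟩
  push_cast
  linear_combination e

end RFLDx

open RFLDx in
theorem s_RFLD (hRES : S_RES) : S_RFLD := by
  intro g M hg hM
  have M0 : 0 < M := by omega
  obtain ⟨q, qm, q0, hq⟩ := quo g M hg M0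
  obtain ⟨A, hA⟩ : ∃ A, A = (P g).eval (-(M : ℤ)) := ⟨_, rfl⟩
  have A1 : 4 * (g : ℤ) < |A| := by
    have a := (((sign M M0 g).2.2 hg).1).trans (le_abs_self _)
    rw [abs_mul, abs_pow, abs_neg, abs_one, one_pow, one_mul, ← hA] at a
    have : 4 * (g : ℤ) < M := by exact_mod_cast hM
    linarith
  obtain ⟨R1, a1, b1⟩ := res hRES g M hg A A1 q qm ((6 * A * (1 + 2 * A ^ 2)) ^ 2)
  obtain ⟨R2, a2, b2⟩ := res hRES g M hg A A1 q qm ((2 * A * (1 - 2 * A ^ 2)) ^ 2)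
  obtain ⟨R3, a3, b3⟩ := res hRES g M hg A A1 q qm (-(2 - 8 * A ^ 4) ^ 2)
  obtain ⟨R4, a4, b4⟩ := res hRES g M hg A A1 q qm (-(6 * A ^ 2) ^ 2)
  refine ⟨(2 * g * (1 + A ^ 2) * (1 + 4 * A ^ 2) * q.eval (-(M : ℤ)) * R1 * R2 * R3 * R4).natAbs,
    Int.natAbs_pos.2 (by positivity), fun k _ y hN z hz hy => ?_⟩
  have hN' : ((2 * g * (1 + A ^ 2) * (1 + 4 * A ^ 2) * q.eval (-(M : ℤ)) * R1 * R2 * R3 * R4 : ℤ) :
      k) ≠ 0 := fun h => hN (by
    rw [← Int.cast_natCast]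
    rcases Int.natAbs_eq_iff.1 (rfl : (2 * g * (1 + A ^ 2) * (1 + 4 * A ^ 2) * q.eval (-(M : ℤ)) *
      R1 * R2 * R3 * R4).natAbs = _) with e | e
    · rw [← e, h]
    · rw [e, Int.cast_neg, neg_eq_zero] at h; exact h)
  have zA : z = (A : k) := by rw [hz, hA, P_eval]; push_cast; rfl
  have y0 : Polynomial.aeval y q = 0 := hy q (by rw [hq, P_eval]; rfl)
  subst zA
  push_cast at hN'
  simp only [mul_ne_zero_iff] at hN'
  obtain ⟨⟨⟨⟨⟨⟨⟨⟨h2, hg'⟩, p1⟩, p2⟩, hq0⟩, r1⟩, r2⟩, r3⟩, r4⟩ := hN'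
  have h4 : (4 : k) ≠ 0 := by rw [show (4 : k) = 2 * 2 by norm_num]; exact mul_ne_zero h2 h2
  have c1 := b1 k y y0 r1
  have c2 := b2 k y y0 r2
  have c3 := b3 k y y0 r3
  have c4 := b4 k y y0 r4
  push_cast at c1 c2 c3 c4
  refine ⟨h2, hg', p1, p2, fun h => hq0 ?_, fun h => mul_ne_zero c1 c2 ?_,
    fun h => mul_ne_zero c3 c4 ?_⟩
  · have e : y = algebraMap ℤ k (-(M : ℤ)) := by
      rw [eq_neg_of_add_eq_zero_right h]; simp
    rw [e, Polynomial.aeval_algebraMap_apply_eq_algebraMap_eval] at y0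
    exact y0
  · refine Eq.trans ?_ (mul_eq_zero_of_left h
      ((4 * (g : k) * ((1 + (A : k) ^ 2) * (1 + 4 * (A : k) ^ 2)) ^ 2) ^ 2))
    unfold al mu sz rz
    have p3 : 1 + (A : k) ^ 2 * 4 ≠ 0 := by rwa [mul_comm]
    field_simp
    ring
  · refine Eq.trans ?_ (mul_eq_zero_of_left h
      ((4 * (g : k) * ((1 + (A : k) ^ 2) * (1 + 4 * (A : k) ^ 2)) ^ 2) ^ 2))
    unfold al mu sz rz
    have p3 : 1 + (A : k) ^ 2 * 4 ≠ 0 := by rwa [mul_comm]
    field_simp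
    ring

end Pool.Agent.P.MP_e5b57f_nt.GD
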