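import Pool.Agent.P.MP_e5b57f_nt.GD.Iface

/-! The two real points in the parametrisation of the identity component. -/

namespace Pool.Agent.P.MP_e5b57f_nt.GD

open PowerSeries Filter Topology Finset
open scoped Polynomial

namespace RPTx

theorem sr_bd {z : ℝ} (h0 : 0 < z) (h1 : z ≤ 1 / 8) (a : Bool) :
    0 < sr a z ∧ sr a z < 1 ∧ 0 < cr a z := by
  cases a
  · refine ⟨by simp only [sr, rz, cond_false]; positivity, ?_, ?_⟩
    · simp only [sr, rz, cond_false]
      rw [div_lt_one (by positivity)]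
      nlinarith
    · simp only [cr, cond_false]
      exact div_pos (by nlinarith) (by positivity)
  · refine ⟨by simp only [sr, sz, cond_true]; positivity, ?_, ?_⟩
    · simp only [sr, sz, cond_true]
      rw [div_lt_one (by positivity)]
      nlinarith
    · simp only [cr, cond_true]
      exact div_pos (by nlinarith) (by positivity)

end RPTx

open RPTx in
theorem s_RPT (hUNI : S_UNI) (hINT1 : S_INT1) (hINT2 : S_INT2) (hEQN : S_EQN) (hFFR : S_FFR) :
    S_RPT := by
  intro g M t z h0 h1 m0 m1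
  have ha : 1 ≤ al g M t z :=
    one_le_mul_of_one_le_of_one_le (le_add_of_nonneg_right (by positivity))
      (le_add_of_nonneg_right (by positivity))
  have hlt : 4 * mu g M t z < al g M t z := by linarith
  obtain ⟨Φ, hΦ⟩ := hUNI _ _ (by positivity) hlt
  refine ⟨hlt, Φ, hΦ, fun a => ?_⟩
  obtain ⟨s0, s1, c0⟩ := sr_bd h0 h1 a
  have hy : 0 < yc g M t z a := by
    refine div_pos (mul_pos (mul_pos (by linarith) c0) ?_) (by positivity)
    have h2 : sr a z ^ 2 ≤ 1 := by nlinarith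
    nlinarith [mul_nonneg m0.le (sq_nonneg (sr (!a) z)), mul_le_mul_of_nonneg_left h2 m0.le]
  refine ⟨_, ?_, hΦ.pt _ _ s0 s1 hy
    (hEQN ℝ g M t z a two_ne_zero h0.ne' (by positivity) (by positivity))⟩
  have l0 : 0 ≤ lam g M t z := div_nonneg (by positivity) (by linarith)
  have l1 : lam g M t z < 1 := (div_lt_one (by linarith)).2 hlt
  have e1 : lam g M (t : ℂ) (z : ℂ) = (lam g M t z : ℝ) := by simp [lam, mu, al, sz, rz]
  have e2 : sr a (z : ℂ) = (sr a z : ℝ) := by cases a <;> simp [sr, sz, rz]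
  obtain ⟨φ, p1, p2, -⟩ := hFFR _ l0 l1
  have p3 : (φ : ℂ) ≠ 0 := Complex.ofReal_ne_zero.2 (by linarith)
  have p4 : (Real.pi : ℂ) ≠ 0 := Complex.ofReal_ne_zero.2 Real.pi_ne_zero
  change _ = _ * ((KI (lam g M t z) (Real.arcsin (sr a z)) / KI (lam g M t z) Real.pi : ℝ) : ℂ)
  rw [BB, e1, e2, Complex.ofReal_div, hINT1 _ l0 l1, hINT2 _ _ l0 l1 s0.le s1, p1]
  field_simp

end Pool.Agent.P.MP_e5b57f_nt.GD
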