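import Pool.Agent.P.MP_e5b57f_nt.GD.Iface

/-! Step SH of the density project. -/

namespace Pool.Agent.P.MP_e5b57f_nt.GD

open PowerSeries Filter Topology Finset
open scoped Polynomial

namespace SHx

theorem der_taylor (a : ℚ) (p : ℚ[X]) :
    Polynomial.derivative (Polynomial.taylorAlgHom a p) =
      Polynomial.taylorAlgHom a (Polynomial.derivative p) := by
  change Polynomial.derivative (p.comp _) = (Polynomial.derivative p).comp _
  rw [Polynomial.derivative_comp]; simp

theorem iter_taylor {n : ℕ} (a : ℚ) (T : ℚ[X]) (A : Fin n → Fin n → ℚ[X]) (W : Fin n → ℚ[X])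
    (k : ℕ) : ∀ i, iter (Polynomial.taylorAlgHom a T) (fun i j => Polynomial.taylorAlgHom a (A i j))
      (fun i => Polynomial.taylorAlgHom a (W i)) k i =
        Polynomial.taylorAlgHom a (iter T A W k i) := by
  induction k with
  | zero => intro i; rfl
  | succ k ih =>
    intro i
    simp only [iter, ih, der_taylor, map_sub, map_mul, map_sum, map_natCast]

end SHx

open SHx in
theorem s_SH (hSH0 : S_SH0) : S_SH := by
  intro n T A hT
  obtain ⟨a, ha⟩ : ∃ a, T.eval a ≠ 0 := by
    by_contra h
    push Not at h
    exact hT (Polynomial.funext fun r => by rw [h r, Polynomial.eval_zero])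
  obtain ⟨c, hc⟩ := hSH0 n (Polynomial.taylorAlgHom a T)
    (fun i j => Polynomial.taylorAlgHom a (A i j))
    (by change (Polynomial.taylor a T).coeff 0 ≠ 0; rwa [Polynomial.taylor_coeff_zero])
  refine ⟨c, fun W hW => ?_⟩
  obtain ⟨v, hv, hd, hs⟩ := hc (fun i => Polynomial.taylorAlgHom a (W i)) (by
    have : itM (Polynomial.taylorAlgHom a T) (fun i j => Polynomial.taylorAlgHom a (A i j))
        (fun i => Polynomial.taylorAlgHom a (W i)) =
        (Polynomial.taylorAlgHom a).mapMatrix (itM T A W) := by
      ext1 k i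
      exact iter_taylor a T A W k i
    rw [this, ← AlgHom.map_det, hW, map_zero])
  refine ⟨fun i => Polynomial.taylor (-a) (v i), fun h => hv (funext fun i => ?_), fun i => ?_, ?_⟩
  · exact (Polynomial.taylor_eq_zero _ _).1 (congrFun h i)
  · rw [Polynomial.natDegree_taylor]; exact hd i
  · apply Polynomial.taylor_injective a
    rw [map_sum, map_zero, ← hs]
    refine Finset.sum_congr rfl fun i _ => ?_
    rw [Polynomial.taylor_mul, Polynomial.taylor_taylor, add_neg_cancel, Polynomial.taylor_zero]
    rfl

end Pool.Agent.P.MP_e5b57f_nt.GD
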