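import Pool.Agent.P.MP_e5b57f_nt.GD.Iface

/-! The lemma of Shidlovskii at a regular point. -/

namespace Pool.Agent.P.MP_e5b57f_nt.GD

open PowerSeries Filter Topology Finset
open scoped Polynomial

namespace SH0x

theorem coords {R S P : Type} [CommRing R] [IsDomain R] [IsPrincipalIdealRing R] [CommRing S]
    [IsDomain S] [Fintype P] (f : R →+* S) (hf : Function.Injective f) (z : P → S) :
    ∃ (m : ℕ) (ρ : P → Fin m → R), ∀ a : P → R,
      ∑ p, f (a p) * z p = 0 ↔ ∀ j, ∑ p, a p * ρ p j = 0 := by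
  let := f.toAlgebra
  have : FaithfulSMul R S := (faithfulSMul_iff_algebraMap_injective R S).mpr hf
  have : Module.Finite R (Submodule.span R (Set.range z)) :=
    Module.Finite.span_of_finite R (Set.finite_range z)
  let b := Module.finBasis R (Submodule.span R (Set.range z))
  let w : P → Submodule.span R (Set.range z) := fun p => ⟨z p, Submodule.subset_span ⟨p, rfl⟩⟩
  refine ⟨_, fun p j => b.coord j (w p), fun a => ?_⟩
  have h1 : ∑ p, f (a p) * z p = ((∑ p, a p • w p : Submodule.span R (Set.range z)) : S) := by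
    rw [Submodule.coe_sum]; rfl
  rw [h1, Submodule.coe_eq_zero, ← b.forall_coord_eq_zero_iff]
  simp only [map_sum, map_smul, smul_eq_mul]

theorem key {n : ℕ} (T : ℚ[X]) (A : Fin n → Fin n → ℚ[X]) (W : Fin n → ℚ[X])
    (z : Fin n → ℚ⟦X⟧) (hz : ∀ i, (T : ℚ⟦X⟧) * d⁄dX ℚ (z i) = -∑ j, (A j i : ℚ⟦X⟧) * z j)
    (k : ℕ) : ∑ i, (iter T A W k i : ℚ⟦X⟧) * z i =
      (T : ℚ⟦X⟧) ^ k * (fun f : ℚ⟦X⟧ => d⁄dX ℚ f)^[k] (∑ i, (W i : ℚ⟦X⟧) * z i) := by
  induction k with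
  | zero => simp [iter]
  | succ k ih =>
    rw [Function.iterate_succ_apply']
    generalize (fun f : ℚ⟦X⟧ => d⁄dX ℚ f)^[k] (∑ i, (W i : ℚ⟦X⟧) * z i) = G at ih ⊢
    have h1 := congrArg (fun f => (T : ℚ⟦X⟧) * d⁄dX ℚ f) ih
    simp only [map_sum, Derivation.leibniz, smul_eq_mul, mul_add, mul_sum, sum_add_distrib] at h1
    have h2 : (T : ℚ⟦X⟧) * d⁄dX ℚ ((T : ℚ⟦X⟧) ^ k) = k * (T : ℚ⟦X⟧) ^ k * d⁄dX ℚ (T : ℚ⟦X⟧) := by
      rw [derivative_pow]
      rcases k with _ | k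
      · simp
      · rw [Nat.add_sub_cancel]; ring
    have h3 : ∑ i, (T : ℚ⟦X⟧) * ((iter T A W k i : ℚ⟦X⟧) * d⁄dX ℚ (z i)) =
        -∑ i, (∑ j, (A i j : ℚ⟦X⟧) * (iter T A W k j : ℚ⟦X⟧)) * z i := by
      simp only [mul_left_comm (T : ℚ⟦X⟧), hz, mul_neg, sum_neg_distrib, mul_sum, sum_mul]
      rw [sum_comm]
      exact congrArg _ (sum_congr rfl fun i _ => sum_congr rfl fun j _ => by ring)
    have h4 : ∀ i, (iter T A W (k + 1) i : ℚ⟦X⟧) =
        (T : ℚ⟦X⟧) * d⁄dX ℚ (iter T A W k i : ℚ⟦X⟧) -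
          k * d⁄dX ℚ (T : ℚ⟦X⟧) * (iter T A W k i : ℚ⟦X⟧) -
          ∑ j, (A i j : ℚ⟦X⟧) * (iter T A W k j : ℚ⟦X⟧) := fun i => by
      simp only [derivative_coe]
      simp only [← Polynomial.coeToPowerSeries.ringHom_apply]
      rw [iter]
      simp only [map_sub, map_mul, map_sum, map_natCast]
    have h5 : ∑ i, (T : ℚ⟦X⟧) * d⁄dX ℚ (iter T A W k i : ℚ⟦X⟧) * z i =
        ∑ i, (T : ℚ⟦X⟧) * (z i * d⁄dX ℚ (iter T A W k i : ℚ⟦X⟧)) :=
      sum_congr rfl fun i _ => by ring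
    simp only [h4, sub_mul, sum_sub_distrib, mul_assoc (k * d⁄dX ℚ (T : ℚ⟦X⟧)), ← mul_sum, ih]
    rw [h5]
    linear_combination h1 - h3 + G * h2

end SH0x

open SH0x in
theorem s_SH0 (hWR : S_WR) (hFUND : S_FUND) : S_SH0 := by
  intro n T A hT
  have hT' : constantCoeff (T : ℚ⟦X⟧) ≠ 0 := by rwa [Polynomial.constantCoeff_coe]
  have hT0 : (T : ℚ⟦X⟧) ≠ 0 := fun h => hT' (by rw [h, map_zero])
  obtain ⟨Z, hZ, hZ0⟩ := hFUND n fun i j => -((T : ℚ⟦X⟧)⁻¹ * (A j i : ℚ⟦X⟧))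
  have hz : ∀ l i, (T : ℚ⟦X⟧) * d⁄dX ℚ (Z i l) = -∑ j, (A j i : ℚ⟦X⟧) * Z j l := fun l i => by
    rw [hZ, mul_sum, ← sum_neg_distrib]
    refine sum_congr rfl fun j _ => ?_
    linear_combination (-((A j i : ℚ⟦X⟧) * Z j l)) * PowerSeries.mul_inv_cancel _ hT'
  obtain ⟨m, ρ, hρ⟩ := coords (Polynomial.coeToPowerSeries.ringHom (R := ℚ))
    (Polynomial.coe_injective ℚ) fun p : Fin n × Fin n => Z p.1 p.2
  refine ⟨univ.sup fun x : (Fin n × Fin n) × Fin m => (ρ x.1 x.2).natDegree, fun W hW => ?_⟩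
  have h1 : (itM T A W).map (Polynomial.coeToPowerSeries.ringHom (R := ℚ)) * Matrix.of Z =
      Matrix.diagonal (fun k : Fin n => (T : ℚ⟦X⟧) ^ (k : ℕ)) * Matrix.of fun k l : Fin n =>
        (fun f : ℚ⟦X⟧ => d⁄dX ℚ f)^[k] (∑ i, (W i : ℚ⟦X⟧) * Z i l) := by
    ext1 k l
    rw [Matrix.diagonal_mul, Matrix.mul_apply]
    exact key T A W (fun i => Z i l) (hz l) k
  have h2 := congrArg Matrix.det h1
  rw [Matrix.det_mul, Matrix.det_mul, ← RingHom.mapMatrix_apply, ← RingHom.map_det, hW, map_zero,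
    zero_mul, Matrix.det_diagonal] at h2
  have h3 := (mul_eq_zero.mp h2.symm).resolve_left
    (prod_ne_zero_iff.mpr fun k _ => pow_ne_zero _ hT0)
  obtain ⟨c, hc, i₀, hi₀⟩ := Fintype.not_linearIndependent_iff.mp fun h => hWR n _ h h3
  have h4 := (hρ fun p => W p.1 * Polynomial.C (c p.2)).mp (by
    rw [← hc, Fintype.sum_prod_type_right]
    refine sum_congr rfl fun l _ => ?_
    rw [smul_sum]
    refine sum_congr rfl fun i _ => ?_
    simp only [map_mul, Polynomial.coeToPowerSeries.ringHom_apply, Polynomial.coe_C, smul_eq_C_mul]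
    ring)
  have h5 : ∃ j, ∑ l, Polynomial.C (c l) * ρ (i₀, l) j ≠ 0 := by
    by_contra h
    have h6 := (hρ fun p => if p.1 = i₀ then Polynomial.C (c p.2) else 0).mpr fun j => by
      rw [Fintype.sum_prod_type, sum_eq_single i₀ (fun i _ hi => by simp [hi]) (by simp)]
      simpa using not_exists.mp h j
    rw [Fintype.sum_prod_type, sum_eq_single i₀ (fun i _ hi => by simp [hi]) (by simp)] at h6
    have h7 := congrArg constantCoeff h6
    simp [hZ0] at h7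
    exact hi₀ h7
  obtain ⟨j, hj⟩ := h5
  refine ⟨fun i => ∑ l, Polynomial.C (c l) * ρ (i, l) j, fun h => hj (congrFun h i₀),
    fun i => Polynomial.natDegree_sum_le_of_forall_le _ _ fun l _ =>
      (Polynomial.natDegree_C_mul_le _ _).trans
        (le_sup (f := fun x : (Fin n × Fin n) × Fin m => (ρ x.1 x.2).natDegree)
          (mem_univ ((i, l), j))), ?_⟩
  rw [← h4 j, Fintype.sum_prod_type]
  refine sum_congr rfl fun i _ => ?_
  rw [sum_mul]
  exact sum_congr rfl fun l _ => by ring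

end Pool.Agent.P.MP_e5b57f_nt.GD
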