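import Pool.Agent.P.MP_e5b57f_nt.GD.Iface

/-! A logarithmic singularity is not meromorphic. -/

namespace Pool.Agent.P.MP_e5b57f_nt.GD

open PowerSeries Filter Topology Finset
open scoped Polynomial

theorem s_SING (hFFR : S_FFR) : S_SING := by
  intro l H G ρ hl hH hG h1 hev
  by_contra hH0
  have T : Tendsto (fun x : ℝ => (x : ℂ)) (𝓝[<] ρ) (𝓝 (ρ : ℂ)) :=
    (Complex.continuous_ofReal.tendsto ρ).mono_left nhdsWithin_le_nhds
  have hne : ∀ᶠ x : ℝ in 𝓝[<] ρ, (x : ℂ) ≠ ρ := by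
    filter_upwards [self_mem_nhdsWithin] with x hx
    exact_mod_cast (ne_of_lt hx)
  have T' : Tendsto (fun x : ℝ => (x : ℂ)) (𝓝[<] ρ) (𝓝[≠] (ρ : ℂ)) :=
    tendsto_nhdsWithin_iff.2 ⟨T, hne⟩
  have hG0 : ¬∀ᶠ z in 𝓝 (ρ : ℂ), G z = 0 := fun h0 => hH0 (by
    refine hH.frequently_zero_iff_eventually_zero.1 (T'.frequently (Eventually.frequently ?_))
    filter_upwards [hev, T.eventually h0] with x ⟨u, _, _, _, hx⟩ hx'
    rw [hx, hx', zero_mul])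
  have hL : AnalyticAt ℂ (fun z => 1 - l z) ρ := analyticAt_const.sub hl
  have hL0 : ¬∀ᶠ z in 𝓝 (ρ : ℂ), 1 - l z = 0 := fun h0 => by
    obtain ⟨x, ⟨u, hu, _, hu1, _⟩, hx'⟩ := (hev.and (T.eventually h0)).exists
    rw [hu, sub_eq_zero] at hx'
    exact hu1.ne' (by exact_mod_cast hx')
  obtain ⟨a, h, hh, hh0, ha⟩ := hH.exists_eventuallyEq_pow_smul_nonzero_iff.2 hH0
  obtain ⟨e, g, hg, hg0, he⟩ := hG.exists_eventuallyEq_pow_smul_nonzero_iff.2 hG0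
  obtain ⟨n, η, hη, hη0, hn⟩ := hL.exists_eventuallyEq_pow_smul_nonzero_iff.2 hL0
  have tt : Tendsto (fun x : ℝ => ‖(x : ℂ) - ρ‖) (𝓝[<] ρ) (𝓝 0) := by
    simpa using (T.sub_const (ρ : ℂ)).norm
  have th := (hh.continuousAt.tendsto.comp T).norm
  have tg := (hg.continuousAt.tendsto.comp T).norm
  have tη := (hη.continuousAt.tendsto.comp T).norm
  have td : Tendsto (fun x : ℝ => ‖1 - l x‖) (𝓝[<] ρ) (𝓝 0) := by
    simpa [h1] using (hL.continuousAt.tendsto.comp T).norm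
  have key : ∀ᶠ x : ℝ in 𝓝[<] ρ, 0 < ‖(x : ℂ) - ρ‖ ∧ 0 < ‖1 - l x‖ ∧
      ‖(x : ℂ) - ρ‖ ^ a * ‖h x‖ = ‖(x : ℂ) - ρ‖ ^ e * ‖g x‖ * ‖FF (l x)‖ ∧
      ‖1 - l x‖ = ‖(x : ℂ) - ρ‖ ^ n * ‖η x‖ ∧ ‖FF (l x)‖ ≤ 1 - Real.log ‖1 - l x‖ ∧
      -Real.log ‖1 - l x‖ / 4 ≤ ‖FF (l x)‖ := by
    filter_upwards [hev, hne, T.eventually ha, T.eventually he, T.eventually hn] with x
      ⟨u, hu, hu0, hu1, hx⟩ h0 e1 e2 e3
    obtain ⟨φ, hφ, p1, p2, p3⟩ := hFFR u hu0 hu1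
    have d1 : ‖1 - l x‖ = 1 - u := by
      rw [hu, ← Complex.ofReal_one, ← Complex.ofReal_sub, Complex.norm_real, Real.norm_eq_abs,
        abs_of_pos (by linarith)]
    have d2 : ‖FF (l x)‖ = φ := by
      rw [hu, hφ, Complex.norm_real, Real.norm_eq_abs, abs_of_pos (by linarith)]
    refine ⟨norm_pos_iff.2 (sub_ne_zero.2 h0), by rw [d1]; linarith, ?_, ?_, by rwa [d1, d2],
      by rwa [d1, d2]⟩
    · have := congrArg norm hx
      rwa [norm_mul, e1, e2, smul_eq_mul, smul_eq_mul, norm_mul, norm_mul, norm_pow,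
        norm_pow] at this
    · rw [e3, smul_eq_mul, norm_mul, norm_pow]
  have gp : ∀ᶠ x : ℝ in 𝓝[<] ρ, 0 < ‖g x‖ := tg.eventually_const_lt (norm_pos_iff.2 hg0)
  rcases le_or_gt e a with hea | hea
  · obtain ⟨k, rfl⟩ := Nat.exists_eq_add_of_le hea
    have t1 : Tendsto (fun x : ℝ => ‖FF (l x)‖) (𝓝[<] ρ) (𝓝 (0 ^ k * ‖h ρ‖ / ‖g ρ‖)) := by
      refine (((tt.pow k).mul th).div tg (norm_pos_iff.2 hg0).ne').congr' ?_
      filter_upwards [key, gp] with x ⟨p0, _, p2, _⟩ p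
      simp only [Pi.div_apply, Function.comp_apply]
      rw [div_eq_iff p.ne']
      refine mul_left_cancel₀ (pow_pos p0 e).ne' ?_
      rw [← mul_assoc, ← pow_add, p2]; ring
    have t2 : Tendsto (fun x : ℝ => Real.log ‖1 - l x‖) (𝓝[<] ρ) atBot :=
      Real.tendsto_log_nhdsGT_zero.comp
        (tendsto_nhdsWithin_iff.2 ⟨td, key.mono fun x hx => hx.2.1⟩)
    have t3 : Tendsto (fun x : ℝ => ‖FF (l x)‖) (𝓝[<] ρ) atTop :=
      tendsto_atTop_mono' _ (key.mono fun x hx => hx.2.2.2.2.2)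
        ((tendsto_neg_atBot_atTop.comp t2).atTop_div_const (by norm_num))
    exact not_tendsto_nhds_of_tendsto_atTop t3 _ t1
  · obtain ⟨k, rfl⟩ := Nat.exists_eq_add_of_lt hea
    have t1 := ((tt.pow k).mul tg).mul ((tt.sub ((Real.continuous_mul_log.tendsto 0).comp
      tt |>.const_mul (n : ℝ))).sub (tt.mul (tη.log (norm_pos_iff.2 hη0).ne')))
    have t2 := le_of_tendsto_of_tendsto th t1 (by
      filter_upwards [key, gp, tη.eventually_const_lt (norm_pos_iff.2 hη0)] with x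
        ⟨p0, _, p2, p3, p4, _⟩ p q
      simp only [Function.comp_apply] at q ⊢
      have e1 : ‖h x‖ = ‖(x : ℂ) - ρ‖ ^ k * ‖g x‖ * (‖(x : ℂ) - ρ‖ * ‖FF (l x)‖) := by
        refine mul_left_cancel₀ (pow_pos p0 a).ne' ?_
        rw [p2]; ring
      rw [p3, Real.log_mul (pow_pos p0 n).ne' q.ne', Real.log_pow] at p4
      rw [e1]
      refine mul_le_mul_of_nonneg_left ?_ (by positivity)
      nlinarith [mul_le_mul_of_nonneg_left p4 p0.le])
    simp only [mul_zero, zero_mul, sub_zero] at t2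
    exact hh0 (norm_le_zero_iff.1 t2)

end Pool.Agent.P.MP_e5b57f_nt.GD
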