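import Pool.Agent.P.MP_e5b57f_nt.GD.Iface

/-! The values of the iterated vectors span. -/

namespace Pool.Agent.P.MP_e5b57f_nt.GD

open PowerSeries Filter Topology Finset
open scoped Polynomial

namespace SPANx

variable {n : ℕ} (T : ℚ[X]) (A : Fin n → Fin n → ℚ[X]) (W : Fin n → ℚ[X])

noncomputable def D (V : Fin n → ℚ[X]) : Fin n → ℚ[X] :=
  fun i => T * Polynomial.derivative (V i) - ∑ j, A i j * V j

noncomputable def U (j : ℕ) : Submodule ℚ[X] (Fin n → ℚ[X]) :=
  Submodule.span ℚ[X] {V | ∃ k < j, V = iter T A W k}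

lemma D_add (V V' : Fin n → ℚ[X]) : D T A (V + V') = D T A V + D T A V' := by
  funext i
  simp only [D, Pi.add_apply, map_add, mul_add, Finset.sum_add_distrib]
  ring

lemma D_smul (p : ℚ[X]) (V : Fin n → ℚ[X]) :
    D T A (p • V) = p • D T A V + (T * Polynomial.derivative p) • V := by
  funext i
  have : ∑ j, A i j * (p * V j) = p * ∑ j, A i j * V j := by
    rw [Finset.mul_sum]
    exact Finset.sum_congr rfl fun j _ => by ring
  simp only [D, Pi.add_apply, Pi.smul_apply, smul_eq_mul, Polynomial.derivative_mul, this]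
  ring

lemma D_iter (k : ℕ) : D T A (iter T A W k) =
    iter T A W (k + 1) + ((k : ℚ[X]) * Polynomial.derivative T) • iter T A W k := by
  funext i
  simp only [D, iter, Pi.add_apply, Pi.smul_apply, smul_eq_mul]
  ring

lemma U_mono {j j' : ℕ} (h : j ≤ j') : U T A W j ≤ U T A W j' :=
  Submodule.span_mono fun _ ⟨k, hk, e⟩ => ⟨k, hk.trans_le h, e⟩

lemma iter_mem {k j : ℕ} (h : k < j) : iter T A W k ∈ U T A W j :=
  Submodule.subset_span ⟨k, h, rfl⟩

lemma D_mem {j : ℕ} {V : Fin n → ℚ[X]} (h : V ∈ U T A W j) : D T A V ∈ U T A W (j + 1) := by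
  induction h using Submodule.span_induction with
  | mem V hV =>
    obtain ⟨k, hk, rfl⟩ := hV
    rw [D_iter]
    exact add_mem (iter_mem T A W (by omega)) (Submodule.smul_mem _ _ (iter_mem T A W (by omega)))
  | zero =>
    have : D T A 0 = 0 := by
      funext i
      simp [D]
    rw [this]
    exact zero_mem _
  | add V V' _ _ h h' =>
    rw [D_add]
    exact add_mem h h'
  | smul p V hV h =>
    rw [D_smul]
    exact add_mem (Submodule.smul_mem _ _ h)
      (Submodule.smul_mem _ _ (U_mono T A W (Nat.le_succ j) hV))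

lemma key (ξ : ℚ) (hT : T.eval ξ ≠ 0) (γ : Fin n → ℚ) (a : ℕ) : ∀ (j : ℕ) (V : Fin n → ℚ[X]),
    (Polynomial.X - Polynomial.C ξ) ^ a • V ∈ U T A W j →
    (∀ k < j + a, ∑ i, γ i * (iter T A W k i).eval ξ = 0) → ∑ i, γ i * (V i).eval ξ = 0 := by
  induction a with
  | zero =>
    intro j V h hk
    rw [pow_zero, one_smul] at h
    induction h using Submodule.span_induction with
    | mem V hV =>
      obtain ⟨k, hk', rfl⟩ := hV
      exact hk k hk'
    | zero => simp
    | add V V' _ _ h h' =>
      simp only [Pi.add_apply, Polynomial.eval_add, mul_add, Finset.sum_add_distrib, h, h',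
        add_zero]
    | smul p V hV h =>
      have : ∑ i, γ i * ((p • V) i).eval ξ = p.eval ξ * ∑ i, γ i * (V i).eval ξ := by
        rw [Finset.mul_sum]
        refine Finset.sum_congr rfl fun i _ => ?_
        rw [Pi.smul_apply, smul_eq_mul, Polynomial.eval_mul]
        ring
      rw [this, h, mul_zero]
  | succ a ih =>
    intro j V h hk
    have h1 := D_mem T A W h
    have e : D T A ((Polynomial.X - Polynomial.C ξ) ^ (a + 1) • V) =
        (Polynomial.X - Polynomial.C ξ) ^ a • ((((a : ℚ[X]) + 1) * T) • V +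
          (Polynomial.X - Polynomial.C ξ) • D T A V) := by
      rw [D_smul, Polynomial.derivative_X_sub_C_pow]
      funext i
      simp only [Pi.add_apply, Pi.smul_apply, smul_eq_mul, Nat.add_sub_cancel, map_natCast]
      push_cast
      ring
    rw [e] at h1
    have h2 := ih (j + 1) _ h1 fun k hk' => hk k (by omega)
    have h3 : ∑ i, γ i * (((((a : ℚ[X]) + 1) * T) • V +
        (Polynomial.X - Polynomial.C ξ) • D T A V) i).eval ξ =
        (((a : ℚ) + 1) * T.eval ξ) * ∑ i, γ i * (V i).eval ξ := by
      rw [Finset.mul_sum]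
      refine Finset.sum_congr rfl fun i _ => ?_
      simp only [Pi.add_apply, Pi.smul_apply, smul_eq_mul, Polynomial.eval_add,
        Polynomial.eval_mul, Polynomial.eval_sub, Polynomial.eval_X, Polynomial.eval_C, sub_self,
        zero_mul, add_zero, Polynomial.eval_natCast, Polynomial.eval_one]
      ring
    rw [h3] at h2
    exact (mul_eq_zero.1 h2).resolve_left (mul_ne_zero (by positivity) hT)

lemma det_mem (i : Fin n) :
    (itM T A W).det • (Pi.single i 1 : Fin n → ℚ[X]) ∈ U T A W n := by
  have e : (itM T A W).det • (Pi.single i 1 : Fin n → ℚ[X]) =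
      ∑ k : Fin n, (itM T A W).adjugate i k • iter T A W k := by
    funext l
    have := congrFun (congrFun (Matrix.adjugate_mul (itM T A W)) i) l
    rw [Matrix.mul_apply, Matrix.smul_apply, Matrix.one_apply] at this
    rw [Finset.sum_apply, Pi.smul_apply, Pi.single_apply, if_congr eq_comm rfl rfl, ← this]
    rfl
  rw [e]
  exact Submodule.sum_mem _ fun k _ => Submodule.smul_mem _ _ (iter_mem T A W k.2)

end SPANx

open SPANx in
theorem s_SPAN : S_SPAN := by
  intro n T A W ξ hT hd γ hγ
  by_contra hc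
  push Not at hc
  obtain ⟨q, hq, hq'⟩ := Polynomial.exists_eq_pow_rootMultiplicity_mul_and_not_dvd _ hd ξ
  rw [Polynomial.dvd_iff_isRoot, Polynomial.IsRoot.def] at hq'
  apply hγ
  funext i
  have h := det_mem T A W i
  rw [hq, mul_smul] at h
  have h2 := key T A W ξ hT γ _ n _ h hc
  rw [Finset.sum_eq_single i (fun j _ hj => by simp [hj]) (by simp)] at h2
  simpa [hq'] using h2

end Pool.Agent.P.MP_e5b57f_nt.GD
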