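import Pool.Agent.P.MP_e5b57f_nt.GD.Iface

namespace Pool.Agent.P.MP_e5b57f_nt.GD

open PowerSeries Filter Topology Finset
open scoped Polynomial

theorem s_SPEC : S_SPEC := by
  intro ι _ n r hr
  classical
  let G : Matrix ι ι ℚ[X] := Matrix.of fun i i' => ∑ j, r i j * r i' j
  refine ⟨G.det, fun h0 => ?_, fun ξ hξ => ?_⟩
  · obtain ⟨v, hv, h⟩ := Matrix.exists_vecMul_eq_zero_iff.2 h0
    have h1 : ∑ j, (∑ i, v i * r i j) ^ 2 = 0 := by
      have h2 : ∑ j, (∑ i, v i * r i j) ^ 2 = ∑ i', Matrix.vecMul v G i' * v i' := by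
        simp only [Matrix.vecMul, dotProduct, G, Matrix.of_apply, sq, sum_mul, mul_sum]
        rw [sum_comm]
        refine sum_congr rfl fun i' _ => ?_
        rw [sum_comm]
        exact sum_congr rfl fun i _ => sum_congr rfl fun j _ => by ring
      rw [h2, h]; simp
    refine hv (funext (Fintype.linearIndependent_iff.1 hr v (funext fun j => ?_)))
    simp only [Finset.sum_apply, Pi.smul_apply, smul_eq_mul, Pi.zero_apply]
    refine Polynomial.funext fun x => ?_
    have h3 := congrArg (Polynomial.eval x) h1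
    rw [Polynomial.eval_finsetSum, Polynomial.eval_zero] at h3
    simp only [Polynomial.eval_pow] at h3
    have := (sum_eq_zero_iff_of_nonneg fun j _ => sq_nonneg _).1 h3 j (mem_univ j)
    rw [Polynomial.eval_zero]
    exact pow_eq_zero_iff two_ne_zero |>.1 this
  · refine Fintype.linearIndependent_iff.2 fun c hc => congrFun
      (Matrix.eq_zero_of_vecMul_eq_zero (M := (Polynomial.evalRingHom ξ).mapMatrix G) ?_
        (funext fun i' => ?_))
    · rw [← RingHom.map_det]; exact hξ
    · have h1 : ∀ j, ∑ i, c i * (r i j).eval ξ = 0 := fun j => by simpa using congrFun hc j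
      simp only [Matrix.vecMul, dotProduct, G, RingHom.mapMatrix_apply, Matrix.map_apply,
        Matrix.of_apply, Polynomial.coe_evalRingHom, Polynomial.eval_finsetSum,
        Polynomial.eval_mul, mul_sum, Pi.zero_apply]
      rw [sum_comm]
      refine sum_eq_zero fun j _ => ?_
      simp only [← mul_assoc]
      rw [← sum_mul, h1, zero_mul]

end Pool.Agent.P.MP_e5b57f_nt.GD
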