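import Pool.Agent.P.MP_e5b57f_nt.GD.Iface

namespace Pool.Agent.P.MP_e5b57f_nt.GD

open PowerSeries Filter Topology Finset
open scoped Polynomial

theorem s_SSD (hSSU : S_SSU) (hBD2 : S_BD2) : S_SSD := by
  intro q l t z hq hl ht hD
  obtain ⟨ε, hε1, hε⟩ : ∃ ε : ℝ, (max 1 ‖l z‖ + ε) * (‖t z‖ + ε) < 1 ∧ 0 < ε := by
    have hc : ContinuousAt (fun ε : ℝ => (max 1 ‖l z‖ + ε) * (‖t z‖ + ε)) 0 := by fun_prop
    have h1 : ∀ᶠ ε in 𝓝 (0 : ℝ), (max 1 ‖l z‖ + ε) * (‖t z‖ + ε) < 1 :=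
      hc.eventually_lt continuousAt_const (by simpa [Dom] using hD)
    exact ((h1.filter_mono nhdsWithin_le_nhds).and (self_mem_nhdsWithin (s := Set.Ioi 0))).exists
  have hμ : 1 ≤ max 1 ‖l z‖ + ε := by linarith [le_max_left 1 ‖l z‖]
  have hτ : 0 ≤ ‖t z‖ + ε := by positivity
  have hlz : ‖l z‖ < max 1 ‖l z‖ + ε := by linarith [le_max_right 1 ‖l z‖]
  have htz : ‖t z‖ < ‖t z‖ + ε := by linarith
  obtain ⟨U, hU, hUo, hzU⟩ := eventually_nhds_iff.1 ((hl.eventually_analyticAt.and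
    ht.eventually_analyticAt).and
    ((hl.continuousAt.norm.eventually_lt continuousAt_const hlz).and
      (ht.continuousAt.norm.eventually_lt continuousAt_const htz)))
  obtain ⟨u, hu, hle⟩ := hSSU q hq _ _ hμ hτ hε1
  have hder : ∀ (n : ℕ) w, w ∈ U → HasDerivAt (fun w => Polynomial.aeval (l w) (coeff n q) * t w ^ n)
      (Polynomial.aeval (l w) (Polynomial.derivative (coeff n q)) * deriv l w * t w ^ n +
        Polynomial.aeval (l w) (coeff n q) * ((n : ℂ) * t w ^ (n - 1) * deriv t w)) w :=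
    fun n w hw => (((coeff n q).hasDerivAt_aeval (l w)).comp w
      (hU w hw).1.1.differentiableAt.hasDerivAt).mul
      ((hU w hw).1.2.differentiableAt.hasDerivAt.pow n)
  have hdiff : ∀ n : ℕ, DifferentiableOn ℂ
      (fun w => Polynomial.aeval (l w) (coeff n q) * t w ^ n) U :=
    fun n w hw => (hder n w hw).differentiableAt.differentiableWithinAt
  have hb : ∀ (n : ℕ) (w : ℂ), w ∈ U → ‖Polynomial.aeval (l w) (coeff n q) * t w ^ n‖ ≤ u n :=
    fun n w hw => hle n _ _ (hU w hw).2.1.le (hU w hw).2.2.le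
  refine ⟨(Complex.differentiableOn_tsum_of_summable_norm hu hdiff hUo hb).analyticAt
    (hUo.mem_nhds hzU), ?_⟩
  have hs := Complex.hasSum_deriv_of_summable_norm hu hdiff hUo hb hzU
  simp only [fun n => (hder n z hzU).deriv] at hs
  have hsum : ∀ p, Bd p → HasSum (fun n : ℕ => Polynomial.aeval (l z) (coeff n p) * t z ^ n)
      (SS p (l z) (t z)) := fun p hp => by
    obtain ⟨v, hv, hvle⟩ := hSSU p hp _ _ hμ hτ hε1
    exact (Summable.of_norm_bounded hv fun n => hvle n _ _ hlz.le htz.le).hasSum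
  have h1 := (hsum _ (hBD2.1 q hq)).mul_left (deriv l z)
  have h2 : HasSum (fun n : ℕ => Polynomial.aeval (l z) (coeff n q) *
      ((n : ℂ) * t z ^ (n - 1) * deriv t z)) (deriv t z * SS (dT q) (l z) (t z)) := by
    rw [← hasSum_nat_add_iff' 1]
    simp only [range_one, sum_singleton, Nat.cast_zero, zero_mul, mul_zero, sub_zero]
    refine ((hsum _ (hBD2.2.1 q hq)).mul_left (deriv t z)).congr_fun fun n => ?_
    simp only [dT, coeff_mk, map_mul, map_add, map_natCast, map_one, Nat.add_sub_cancel]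
    push_cast
    ring
  refine hs.unique ((h1.add h2).congr_fun fun n => ?_)
  simp only [dL, coeff_mk]
  ring

end Pool.Agent.P.MP_e5b57f_nt.GD
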