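import Pool.Agent.P.MP_e5b57f_nt.GD.Iface

/-! Evaluation of series in two variables is a ring homomorphism. -/

namespace Pool.Agent.P.MP_e5b57f_nt.GD

open PowerSeries Filter Topology Finset
open scoped Polynomial

namespace SSRx

theorem SS_C (c : ℚ[X]) (l t : ℂ) : SS (C c) l t = Polynomial.aeval l c := by
  rw [SS, tsum_eq_single 0 fun n hn => by simp [coeff_C, hn]]
  simp

theorem SS_X (l t : ℂ) : SS X l t = t := by
  rw [SS, tsum_eq_single 1 fun n hn => by simp [coeff_X, hn]]
  simp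

end SSRx

open SSRx in
theorem s_SSR (hSSU : S_SSU) (hBD1 : S_BD1) : S_SSR := by
  intro l t h
  obtain ⟨B, hB⟩ := hBD1
  have hs : ∀ q : B, Summable fun n => ‖Polynomial.aeval l (coeff n q.1) * t ^ n‖ := fun q => by
    obtain ⟨u, hu, h2⟩ := hSSU q ((hB q).1 q.2) _ _ (le_max_left _ _) (norm_nonneg _) h
    exact hu.of_nonneg_of_le (fun _ => norm_nonneg _) fun n =>
      h2 n l t (le_max_right _ _) le_rfl
  refine ⟨B, ⟨⟨⟨fun q => SS q l t, ?_⟩, fun p q => ?_⟩, ?_, fun p q => ?_⟩, hB, fun _ => rfl,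
    fun c => SS_C c l t, SS_X l t⟩
  · simpa using SS_C 1 l t
  · simp only [SS]
    rw [tsum_mul_tsum_eq_tsum_sum_antidiagonal_of_summable_norm (hs p) (hs q)]
    refine tsum_congr fun n => ?_
    rw [Subring.coe_mul, coeff_mul, map_sum, sum_mul]
    refine sum_congr rfl fun x hx => ?_
    rw [← mem_antidiagonal.1 hx, map_mul, pow_add]
    ring
  · simp [SS]
  · simp only [SS]
    rw [← (hs p).of_norm.tsum_add (hs q).of_norm]
    refine tsum_congr fun n => ?_
    rw [Subring.coe_add, map_add, map_add, add_mul]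

end Pool.Agent.P.MP_e5b57f_nt.GD
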