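import Pool.Agent.P.MP_e5b57f_nt.GD.Iface

namespace Pool.Agent.P.MP_e5b57f_nt.GD

open PowerSeries Filter Topology Finset
open scoped Polynomial

namespace SSUx

theorem summ (k : ℕ) (r : ℝ) (h0 : 0 ≤ r) (h1 : r < 1) :
    Summable fun n : ℕ => ((n : ℝ) + 1) ^ k * r ^ n := by
  have h : ∀ n : ℕ, ((n : ℝ) + 1) ^ k * r ^ n =
      ∑ j ∈ range (k + 1), (k.choose j : ℝ) * ((n : ℝ) ^ j * r ^ n) := by
    intro n
    rw [add_pow, Finset.sum_mul]
    exact Finset.sum_congr rfl fun j _ => by ring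
  simp only [h]
  refine summable_sum fun j _ => Summable.mul_left _ ?_
  exact summable_pow_mul_geometric_of_norm_lt_one j (by rwa [Real.norm_of_nonneg h0])

end SSUx

open SSUx

theorem s_SSU : S_SSU := by
  rintro q ⟨C, k, hq⟩ μ τ hμ hτ hμτ
  have hμ0 : 0 ≤ μ := by linarith
  refine ⟨fun n => (C * (k + 1) * μ ^ k) * (((n : ℝ) + 1) ^ (k + 1) * (μ * τ) ^ n),
    (summ (k + 1) _ (mul_nonneg hμ0 hτ) hμτ).mul_left _, fun n l t hl ht => ?_⟩
  obtain ⟨hdeg, hc⟩ := hq n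
  have h1 : ‖Polynomial.aeval l (coeff n q)‖ ≤
      ((n + k + 1 : ℕ) : ℝ) * (C * ((n : ℝ) + 1) ^ k * μ ^ (n + k)) := by
    rw [Polynomial.aeval_eq_sum_range' (n := n + k + 1) (by omega)]
    refine (norm_sum_le _ _).trans ?_
    have : ∀ j ∈ range (n + k + 1), ‖(coeff n q).coeff j • l ^ j‖ ≤
        C * ((n : ℝ) + 1) ^ k * μ ^ (n + k) := by
      intro j hj
      have hj' : j ≤ n + k := by have := mem_range.1 hj; omega
      rw [Rat.smul_def, norm_mul, norm_pow, Complex.norm_ratCast]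
      have a1 : |(((coeff n q).coeff j : ℚ) : ℝ)| ≤ C * ((n : ℝ) + 1) ^ k := by
        exact_mod_cast hc j
      have a2 : ‖l‖ ^ j ≤ μ ^ (n + k) :=
        (pow_le_pow_left₀ (norm_nonneg _) hl j).trans (pow_le_pow_right₀ hμ hj')
      exact mul_le_mul a1 a2 (by positivity) (by positivity)
    refine (Finset.sum_le_sum this).trans ?_
    rw [Finset.sum_const, card_range, nsmul_eq_mul]
  have h2 : ‖t ^ n‖ ≤ τ ^ n := by
    rw [norm_pow]; exact pow_le_pow_left₀ (norm_nonneg _) ht n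
  have h3 : ((n + k + 1 : ℕ) : ℝ) ≤ (k + 1) * ((n : ℝ) + 1) := by
    push_cast
    have : (0 : ℝ) ≤ (k : ℝ) * n := by positivity
    nlinarith
  rw [norm_mul]
  calc ‖Polynomial.aeval l (coeff n q)‖ * ‖t ^ n‖
      ≤ (((n + k + 1 : ℕ) : ℝ) * (C * ((n : ℝ) + 1) ^ k * μ ^ (n + k))) * τ ^ n :=
        mul_le_mul h1 h2 (norm_nonneg _) (by positivity)
    _ ≤ (((k + 1) * ((n : ℝ) + 1)) * (C * ((n : ℝ) + 1) ^ k * μ ^ (n + k))) * τ ^ n := by
        gcongr
    _ = _ := by simp only [mul_pow, pow_add, pow_succ]; ring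

end Pool.Agent.P.MP_e5b57f_nt.GD
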