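import Pool.Agent.P.MP_e5b57f_nt.GD.Iface

/-! The two incomplete integrals along a branch are independent over the polynomials. -/

namespace Pool.Agent.P.MP_e5b57f_nt.GD

open PowerSeries Filter Topology Finset
open scoped Polynomial

namespace UINDx

theorem split (hEV : S_EV) (hBD2 : S_BD2) (hSSD : S_SSD) {N : ℕ} {l s : ℂ → ℂ} (hl : Nice N l)
    (hs : Nice N s) : ∃ u, tay (fun z => UU (l z) (s z)) = tay s * u ∧
      Sub Uq (tay l) (tay s ^ 2) u := by
  have hU : Bd Uq := hBD2.2.2.2.2.2.2.2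
  have h2 : AnalyticAt ℂ (fun z => s z ^ 2) 0 := hs.an.fun_pow 2
  have z2 : s 0 ^ 2 = 0 := by rw [hs.zero]; simp
  have hD : Dom (l 0) (s 0 ^ 2) := by rw [z2]; simp [Dom]
  have hA := (hSSD Uq l (fun z => s z ^ 2) 0 hU hl.an h2 hD).1
  obtain ⟨B, e, -, -, -, -, h⟩ := hEV l (fun z => s z ^ 2) hl.an h2 z2
  refine ⟨Ev Uq l fun z => s z ^ 2, tay_mul hs.an hA, ?_⟩
  rw [← tay_pow hs.an]
  exact (h Uq hU).2

theorem frac {w s : ℂ → ℂ} (a b : ℂ) (hw : AnalyticAt ℂ w 0) (hs : AnalyticAt ℂ s 0)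
    (w0 : w 0 = 0) (e : ∀ z, s z = a * w z / (1 + b * w z ^ 2)) :
    tay s * (1 + C b * tay w ^ 2) = C a * tay w := by
  have h1 : AnalyticAt ℂ (fun z => b * w z ^ 2) 0 := analyticAt_const.fun_mul (hw.fun_pow 2)
  have h2 : AnalyticAt ℂ (fun z => 1 + b * w z ^ 2) 0 := analyticAt_const.fun_add h1
  rw [← tay_pow hw, ← tay_const b, ← tay_mul analyticAt_const (hw.fun_pow 2), ← tay_one,
    ← tay_add analyticAt_const h1, ← tay_mul hs h2, ← tay_const a,
    ← tay_mul analyticAt_const hw]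
  refine tay_congr ((h2.continuousAt.eventually_ne (y := 0) (by simp [w0])).mono fun z hz => ?_)
  simp only [e z]
  exact div_mul_cancel₀ _ hz

theorem lin {W S : ℂ⟦X⟧} {a b : ℂ} (W0 : constantCoeff W = 0) (W1 : coeff 1 W = 1)
    (h : S * (1 + C b * W ^ 2) = C a * W) : coeff 1 S = a := by
  have h1 := congrArg (coeff 1) h
  have h2 : coeff 1 (S * (C b * W ^ 2)) = 0 := by
    obtain ⟨V, rfl⟩ := X_dvd_iff.2 W0
    rw [show S * (C b * (X * V) ^ 2) = X ^ 2 * (S * C b * V ^ 2) by ring, coeff_X_pow_mul']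
    simp
  rwa [mul_add, mul_one, map_add, h2, add_zero, coeff_C_mul, W1, mul_one] at h1

theorem inj {p : ℚ[X]} (h : algebraMap ℚ[X] ℂ⟦X⟧ p = 0) : p = 0 := by
  ext n
  have := congrArg (coeff n) h
  rw [algebraMap_apply', coeff_map, Polynomial.coeff_coe, map_zero] at this
  simpa using this

end UINDx

open UINDx in
theorem s_UIND (hBRA : S_BRA) (hBRS : S_BRS) (hEV : S_EV) (hPAD : S_PAD) (hNPR : S_NPR)
    (hBD2 : S_BD2) (hSSD : S_SSD) : S_UIND := by
  intro g M i θ w ρ h p hp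
  have _ := hBRA
  obtain ⟨N, hN, hl, hs⟩ := hBRS g M i θ w ρ h
  have aw : AnalyticAt ℂ w 0 := by
    simpa using (h.an 0 ⟨le_rfl, h.pos.le⟩).2
  have W0 : constantCoeff (tay w) = 0 := (constantCoeff_tay _).trans h.w0
  have W1 : coeff 1 (tay w) = 1 := (coeff_one_tay _).trans h.w1
  obtain ⟨u, eu, su⟩ := split hEV hBD2 hSSD hl (hs true)
  obtain ⟨v, ev, sv⟩ := split hEV hBD2 hSSD hl (hs false)
  have f1 := frac 2 1 aw (hs true).an h.w0 fun z => by simp only [sr, sz, cond, one_mul]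
  have f2 := frac 4 4 aw (hs false).an h.w0 fun z => by simp only [sr, rz, cond]
  have l0 : constantCoeff (tay fun z => lam g M (θ z) (w z)) = 0 :=
    (constantCoeff_tay _).trans hl.zero
  rw [Fintype.sum_bool, eu, ev] at hp
  have e := hPAD N _ _ _ u v hN hl.int (hs true).int (hs false).int l0
    ((constantCoeff_tay _).trans (hs true).zero) ((constantCoeff_tay _).trans (hs false).zero)
    (lin W0 W1 f1) (lin W0 W1 f2) su sv _ _ hp
  rw [map_one, one_mul, map_ofNat] at f1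
  rw [map_ofNat] at f2
  have ne := hNPR _ _ _ _ u v W0 W1 l0 f1 f2 su sv
  have e1 : p true = -(2 * p false) := eq_neg_of_add_eq_zero_left e
  rw [e1, Algebra.smul_def, Algebra.smul_def, map_neg, map_mul, map_ofNat] at hp
  have e2 : p false = 0 := by
    refine inj ((mul_eq_zero_iff_right (sub_ne_zero.2 ne)).1 ?_)
    linear_combination hp
  funext a
  cases a
  · exact e2
  · rw [e1, e2]; simp

end Pool.Agent.P.MP_e5b57f_nt.GD
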