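import Pool.Agent.P.MP_e5b57f_nt.GD.Iface

/-! The parametrisation of the identity component. -/

namespace Pool.Agent.P.MP_e5b57f_nt.GD

open PowerSeries Filter Topology Finset
open scoped Polynomial

namespace UNIx

theorem ysq {α β s c d : ℝ} (hα : 0 < α) (hs : s ≠ 0) (h1 : s ^ 2 + c ^ 2 = 1)
    (h2 : d ^ 2 + β / α * s ^ 2 = 1) :
    (α * √α * c * d / s ^ 3) ^ 2 = α / s ^ 2 * (α / s ^ 2 - α) * (α / s ^ 2 - β) := by
  have h3 : √α ^ 2 = α := Real.sq_sqrt hα.le
  have h4 : c ^ 2 = 1 - s ^ 2 := by linarith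
  have h5 : d ^ 2 = 1 - β / α * s ^ 2 := by linarith
  rw [div_pow, mul_pow, mul_pow, mul_pow, h3, h4, h5]
  field_simp

end UNIx

theorem s_UNI (hAM : S_AM) (hHOM : S_HOM) (hCONT : S_CONT) : S_UNI := by
  intro α β hβ hβα
  have hα : 0 < α := hβ.trans hβα
  obtain ⟨S, C, D, hJ⟩ := hAM (β / α) (div_pos hβ hα).le ((div_lt_one hα).2 hβα)
  obtain ⟨Φ, hΦ⟩ := hHOM α β S C D hβ hβα hJ
  have hK := hJ.kpos
  have hK0 : KI (β / α) 0 = 0 := by simp [KI]
  have hS : Continuous S := continuous_iff_continuousAt.2 fun u => (hJ.dS u).continuousAt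
  have hC : Continuous C := continuous_iff_continuousAt.2 fun u => (hJ.dC u).continuousAt
  have hD : Continuous D := continuous_iff_continuousAt.2 fun u => (hJ.dD u).continuousAt
  have hcont : Continuous fun u => op (Φ u) :=
    hCONT α S (fun u => α * √α * C u * D u) _ hα hS (by fun_prop)
      (fun u h => by rw [(hΦ u).1 h]; rfl) fun u h => (hΦ u).2 h
  have hdiv : ∀ u, KI (β / α) Real.pi * (u / KI (β / α) Real.pi) = u := fun u =>
    mul_div_cancel₀ u hK.ne'
  have hφ : ∀ φ, Real.sin φ ≠ 0 → op (Φ (KI (β / α) φ)) = OnePoint.some (α / Real.sin φ ^ 2,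
      α * √α * Real.cos φ * D (KI (β / α) φ) / Real.sin φ ^ 3) := by
    intro φ h
    have := (hΦ (KI (β / α) φ)).2 (by rwa [hJ.hS])
    rwa [hJ.hS, hJ.hC] at this
  have hd : ∀ φ, D (KI (β / α) φ) ^ 2 + β / α * Real.sin φ ^ 2 = 1 := fun φ => by
    have := hJ.sd (KI (β / α) φ)
    rwa [hJ.hS] at this
  refine ⟨Φ.comp (AddMonoidHom.mulLeft (KI (β / α) Real.pi)), ?_, ?_, ?_, ?_, ?_⟩
  · show Φ (KI (β / α) Real.pi * 1) = 0
    rw [mul_one]
    exact (hΦ _).1 (by rw [hJ.hS, Real.sin_pi])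
  · exact hcont.comp (continuous_const.mul continuous_id)
  · intro x y hy hx
    have hx0 : 0 < x := hα.trans_le hx
    set s := √(α / x) with hs
    have hs0 : 0 < s := Real.sqrt_pos.2 (div_pos hα hx0)
    have hs1 : s ≤ 1 := Real.sqrt_le_one.2 ((div_le_one hx0).2 hx)
    have hs2 : s ^ 2 = α / x := Real.sq_sqrt (div_pos hα hx0).le
    have hxs : α / s ^ 2 = x := by rw [hs2]; field_simp
    have hsin : Real.sin (Real.arcsin s) = s := Real.sin_arcsin (by linarith) hs1
    have hsin' : Real.sin (Real.pi - Real.arcsin s) = s := by rw [Real.sin_pi_sub, hsin]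
    have h1 := hφ (Real.arcsin s) (by rw [hsin]; exact hs0.ne')
    have h2 := hφ (Real.pi - Real.arcsin s) (by rw [hsin']; exact hs0.ne')
    have h3 := hd (Real.arcsin s)
    have h4 := hd (Real.pi - Real.arcsin s)
    rw [hsin] at h1 h3
    rw [hsin'] at h2 h4
    have h5 : D (KI (β / α) (Real.pi - Real.arcsin s)) = D (KI (β / α) (Real.arcsin s)) :=
      (pow_left_inj₀ (hJ.pos _).le (hJ.pos _).le two_ne_zero).1 (by linarith)
    have h6 : s ^ 2 + Real.cos (Real.arcsin s) ^ 2 = 1 := by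
      have := Real.sin_sq_add_cos_sq (Real.arcsin s)
      rwa [hsin] at this
    have h7 := UNIx.ysq hα hs0.ne' h6 h3
    rw [hxs, ← hy] at h7
    rw [hxs] at h1 h2
    rcases sq_eq_sq_iff_eq_or_eq_neg.1 h7.symm with h8 | h8
    · refine ⟨KI (β / α) (Real.arcsin s) / KI (β / α) Real.pi, ?_⟩
      show op (Φ (KI (β / α) Real.pi * _)) = _
      rw [hdiv, h1, h8]
    · refine ⟨KI (β / α) (Real.pi - Real.arcsin s) / KI (β / α) Real.pi, ?_⟩
      show op (Φ (KI (β / α) Real.pi * _)) = _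
      rw [hdiv, h2, h8, h5, Real.cos_pi_sub, mul_neg, neg_mul, neg_div]
  · intro t ht
    have ht' : Φ (KI (β / α) Real.pi * t) = 0 := ht
    have h1 : S (KI (β / α) Real.pi * t) = 0 := by
      by_contra h
      have := (hΦ _).2 h
      rw [ht'] at this
      exact OnePoint.infty_ne_coe _ this
    obtain ⟨φ, hφ'⟩ := hJ.surj (KI (β / α) Real.pi * t)
    rw [← hφ', hJ.hS, Real.sin_eq_zero_iff] at h1
    obtain ⟨n, rfl⟩ := h1
    have h2 := hJ.per 0 n
    rw [zero_add, hK0, zero_add, hφ', mul_comm] at h2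
    exact ⟨n, mul_right_cancel₀ hK.ne' h2⟩
  · intro s y hs0 hs1 hy0 hy
    have hsin : Real.sin (Real.arcsin s) = s := Real.sin_arcsin (by linarith) hs1.le
    have h1 := hφ (Real.arcsin s) (by rw [hsin]; exact hs0.ne')
    have h3 := hd (Real.arcsin s)
    rw [hsin] at h1 h3
    have h6 : s ^ 2 + Real.cos (Real.arcsin s) ^ 2 = 1 := by
      have := Real.sin_sq_add_cos_sq (Real.arcsin s)
      rwa [hsin] at this
    have h7 := UNIx.ysq hα hs0.ne' h6 h3
    rw [← hy] at h7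
    have hc : 0 ≤ Real.cos (Real.arcsin s) := Real.cos_arcsin_nonneg s
    have hp := hJ.pos (KI (β / α) (Real.arcsin s))
    have h8 := (pow_left_inj₀ (by positivity) hy0.le two_ne_zero).1 h7
    show op (Φ (KI (β / α) Real.pi * _)) = _
    rw [hdiv, h1, h8]

end Pool.Agent.P.MP_e5b57f_nt.GD
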