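import Pool.Agent.P.MP_e5b57f_nt.GD.Iface

/-! A valuation separating two conjugate curves. -/

namespace Pool.Agent.P.MP_e5b57f_nt.GD

open PowerSeries Filter Topology Finset
open scoped Polynomial

namespace VALx

variable {B : ValuationSubring ℂ}

/-- `x` lies in the valuation ring and has residue `x'`. -/
def Rel (B : ValuationSubring ℂ) (x : ℂ) (x' : IsLocalRing.ResidueField B) : Prop :=
  ∃ a : B, (a : ℂ) = x ∧ IsLocalRing.residue B a = x'

variable {x y : ℂ} {x' y' : IsLocalRing.ResidueField B}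

theorem Rel.add (h : Rel B x x') (k : Rel B y y') : Rel B (x + y) (x' + y') := by
  obtain ⟨a, rfl, rfl⟩ := h
  obtain ⟨b, rfl, rfl⟩ := k
  exact ⟨a + b, rfl, map_add _ _ _⟩

theorem Rel.sub (h : Rel B x x') (k : Rel B y y') : Rel B (x - y) (x' - y') := by
  obtain ⟨a, rfl, rfl⟩ := h
  obtain ⟨b, rfl, rfl⟩ := k
  exact ⟨a - b, rfl, map_sub _ _ _⟩

theorem Rel.mul (h : Rel B x x') (k : Rel B y y') : Rel B (x * y) (x' * y') := by
  obtain ⟨a, rfl, rfl⟩ := h
  obtain ⟨b, rfl, rfl⟩ := k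
  exact ⟨a * b, rfl, map_mul _ _ _⟩

theorem Rel.pow (h : Rel B x x') (n : ℕ) : Rel B (x ^ n) (x' ^ n) := by
  obtain ⟨a, rfl, rfl⟩ := h
  exact ⟨a ^ n, rfl, map_pow _ _ _⟩

theorem Rel.nat (n : ℕ) : Rel B n n := ⟨n, rfl, map_natCast _ _⟩

theorem Rel.int (n : ℤ) : Rel B n n := ⟨n, rfl, map_intCast _ _⟩

theorem Rel.one : Rel B 1 1 := ⟨1, rfl, map_one _⟩

theorem Rel.two : Rel B 2 2 := by simpa using (Rel.nat 2 : Rel B _ _)

theorem Rel.four : Rel B 4 4 := by simpa using (Rel.nat 4 : Rel B _ _)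

theorem Rel.lt_iff (h : Rel B x x') : B.valuation x < 1 ↔ x' = 0 := by
  obtain ⟨a, rfl, rfl⟩ := h
  rw [IsLocalRing.residue_eq_zero_iff, B.valuation_lt_one_iff]

theorem Rel.eq_one (h : Rel B x x') (h0 : x' ≠ 0) : B.valuation x = 1 := by
  have h1 := h.lt_iff.not.2 h0
  obtain ⟨a, rfl, rfl⟩ := h
  exact le_antisymm (B.valuation_le_one a) (not_lt.1 h1)

theorem Rel.inv (h : Rel B x x') (h0 : x' ≠ 0) : Rel B x⁻¹ x'⁻¹ := by
  have h1 := h.eq_one h0
  obtain ⟨a, rfl, rfl⟩ := h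
  obtain ⟨u, rfl⟩ := (B.valuation_eq_one_iff a).2 h1
  refine ⟨↑u⁻¹, eq_inv_of_mul_eq_one_left ?_, eq_inv_of_mul_eq_one_left ?_⟩
  · rw [← MulMemClass.coe_mul, Units.inv_mul]; rfl
  · rw [← map_mul, Units.inv_mul, map_one]

theorem Rel.div (h : Rel B x x') (k : Rel B y y') (h0 : y' ≠ 0) : Rel B (x / y) (x' / y') := by
  rw [div_eq_mul_inv, div_eq_mul_inv]
  exact h.mul (k.inv h0)

theorem rel_zero (h : B.valuation x < 1) : Rel B x 0 :=
  ⟨⟨x, B.mem_of_valuation_le_one x h.le⟩, rfl, by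
    rw [IsLocalRing.residue_eq_zero_iff, B.valuation_lt_one_iff]; exact h⟩

theorem Rel.mu (g M : ℕ) (h : Rel B x x') (k : Rel B y y')
    (h2 : (2 : IsLocalRing.ResidueField B) ≠ 0) (hg : (g : IsLocalRing.ResidueField B) ≠ 0) :
    Rel B (mu g M x y) (mu g M x' y') := by
  refine (((Rel.nat M).add h).mul k).div (Rel.four.mul (Rel.nat g)) (mul_ne_zero ?_ hg)
  rw [show (4 : IsLocalRing.ResidueField B) = 2 * 2 by norm_num]
  exact mul_ne_zero h2 h2

theorem Rel.al (g M : ℕ) (h : Rel B x x') (k : Rel B y y')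
    (h2 : (2 : IsLocalRing.ResidueField B) ≠ 0) (hg : (g : IsLocalRing.ResidueField B) ≠ 0)
    (h3 : 1 + y' ^ 2 ≠ 0) (h4 : 1 + 4 * y' ^ 2 ≠ 0) : Rel B (al g M x y) (al g M x' y') := by
  have hm := Rel.mu g M h k h2 hg
  have hs : Rel B (sz y) (sz y') := (Rel.two.mul k).div (Rel.one.add (k.pow 2)) h3
  have hr : Rel B (rz y) (rz y') := (Rel.four.mul k).div (Rel.one.add (Rel.four.mul (k.pow 2))) h4
  exact (Rel.one.add (hm.mul ((hs.add hr).pow 2))).mul (Rel.one.add (hm.mul ((hs.sub hr).pow 2)))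

theorem mem_of_prod {g : ℕ} (hg : 0 < g) (h : B.valuation (∏ l ∈ range g, (x - l)) = 1) :
    x ∈ B := by
  by_contra hx
  have h1 : 1 < B.valuation x := not_le.1 fun h => hx (B.mem_of_valuation_le_one x h)
  have h2 : ∀ l ∈ range g, B.valuation (x - l) = B.valuation x := fun l _ =>
    Valuation.map_sub_eq_of_lt_left _ ((B.valuation_le_one (l : B)).trans_lt h1)
  rw [map_prod, prod_congr rfl h2, prod_const, card_range] at h
  exact (one_lt_pow₀ h1 hg.ne').ne' h

theorem root {g M : ℕ} (a a' : B) (hne : a ≠ a')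
    (hp : ∏ l ∈ range g, (a - (l : B)) = ∏ l ∈ range g, (a' - (l : B)))
    (ha : IsLocalRing.residue B a = -(M : IsLocalRing.ResidueField B)) (q : ℤ[X])
    (hq : (Polynomial.X + Polynomial.C (M : ℤ)) * q =
      ∏ l ∈ range g, (Polynomial.X - Polynomial.C (l : ℤ)) -
        Polynomial.C (∏ l ∈ range g, (-(M : ℤ) - l))) :
    Polynomial.aeval (IsLocalRing.residue B a') q = 0 := by
  obtain ⟨q₂, h₂⟩ : Polynomial.X - Polynomial.C a ∣
      ∏ l ∈ range g, (Polynomial.X - Polynomial.C (l : B)) -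
        Polynomial.C (∏ l ∈ range g, (a - (l : B))) := by
    rw [Polynomial.dvd_iff_isRoot]
    simp [Polynomial.eval_prod]
  have h3 : q₂.eval a' = 0 := by
    have := congrArg (Polynomial.eval a') h₂
    simp only [Polynomial.eval_sub, Polynomial.eval_prod, Polynomial.eval_X, Polynomial.eval_C,
      Polynomial.eval_mul, hp, sub_self] at this
    exact (mul_eq_zero.1 this.symm).resolve_left (sub_ne_zero.2 hne.symm)
  have h4 := congrArg (Polynomial.map (IsLocalRing.residue B)) h₂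
  have h5 := congrArg (Polynomial.map (Int.castRingHom (IsLocalRing.ResidueField B))) hq
  simp only [Polynomial.map_sub, Polynomial.map_prod, Polynomial.map_X, Polynomial.map_C,
    Polynomial.map_mul, Polynomial.map_add, map_prod, map_sub, map_natCast, map_neg, ha,
    Polynomial.map_natCast, Polynomial.map_neg, sub_neg_eq_add] at h4 h5
  have h6 : (Polynomial.X + (M : (IsLocalRing.ResidueField B)[X])) ≠ 0 := by
    rw [← Polynomial.C_eq_natCast]
    exact Polynomial.X_add_C_ne_zero _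
  have h7 := mul_left_cancel₀ h6 (h5.trans h4)
  rw [Polynomial.aeval_def, Polynomial.eval₂_eq_eval_map,
    RingHom.ext_int (algebraMap ℤ _) (Int.castRingHom _), h7,
    Polynomial.eval_map, Polynomial.eval₂_at_apply, h3, map_zero]

end VALx

open VALx in
theorem s_VAL (hIRR : S_IRR) (hVEX : S_VEX) (hRFLD : S_RFLD) : S_VAL := by
  intro g M hg hM
  obtain ⟨N, hN, hR⟩ := hRFLD g M hg hM
  refine ⟨N, hN, fun b hb hNb θ θ' hne hθ hθ' => ?_⟩
  obtain ⟨A, hA⟩ : ∃ A : ℤ, A = ∏ l ∈ range g, (-(M : ℤ) - l) := ⟨_, rfl⟩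
  have hMA : (M : ℤ) ∣ b * A := by
    refine Dvd.dvd.mul_left ?_ _
    have := dvd_prod_of_mem (fun l : ℕ => -(M : ℤ) - l) (mem_range.2 hg)
    rw [← hA] at this
    simpa using this
  have hA0 : A ≠ 0 := by
    rw [hA]
    exact prod_ne_zero_iff.2 fun l _ => by omega
  have hbA : ∀ c : ℤ, 0 < c → c ≤ 2 → b * A ≠ c := fun c h0 h2 h => by
    have := Int.le_of_dvd h0 (h ▸ hMA)
    omega
  have hb0 : (b : ℂ) ≠ 0 := by exact_mod_cast hb.ne'
  obtain ⟨p, hp, hpd⟩ : ∃ p : ℕ, p.Prime ∧ (p : ℤ) ∣ b * A - 1 := by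
    have h1 : (b * A - 1 : ℤ).natAbs ≠ 1 := by
      have := hbA 2 (by norm_num) le_rfl
      have h0 : (b : ℤ) * A ≠ 0 := mul_ne_zero (by exact_mod_cast hb.ne') hA0
      omega
    obtain ⟨p, hp, hd⟩ := Nat.exists_prime_and_dvd h1
    exact ⟨p, hp, Int.natCast_dvd.2 hd⟩
  have hpb : ¬(p : ℤ) ∣ b := fun h => by
    have h1 : (p : ℤ) ∣ 1 := by simpa using dvd_sub (h.mul_right A) hpd
    exact hp.one_lt.ne' (by exact_mod_cast Int.eq_one_of_dvd_one (by positivity) h1)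
  have hirr := hIRR g b hg hb
  obtain ⟨B, hB1, hB2⟩ := hVEX _ θ (-M) p hirr (by
      by_contra h0
      have h1 := Polynomial.eq_C_of_natDegree_le_zero (not_lt.1 h0)
      rw [Polynomial.coeff_zero_eq_eval_zero] at h1
      have h2 : ∏ l ∈ range g, ((0 : ℤ) - l) = 0 := prod_eq_zero (mem_range.2 hg) (by simp)
      simp only [Polynomial.eval_sub, Polynomial.eval_mul, Polynomial.eval_C, Polynomial.eval_prod,
        Polynomial.eval_X, Polynomial.eval_one] at h1
      rw [h2, mul_zero, zero_sub] at h1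
      exact hirr.not_isUnit (h1 ▸ Polynomial.isUnit_C.2 isUnit_one.neg))
    (by simp [map_prod, hθ, hb0]) hp (by
      simpa only [Polynomial.eval_sub, Polynomial.eval_mul, Polynomial.eval_C, Polynomial.eval_prod,
        Polynomial.eval_X, Polynomial.eval_one, ← hA] using hpd)
  have hint : ∀ n : ℤ, (n : IsLocalRing.ResidueField B) = 0 ↔ (p : ℤ) ∣ n := fun n =>
    (Rel.int n).lt_iff.symm.trans (hB2 n)
  have hbk : (b : IsLocalRing.ResidueField B) ≠ 0 := by
    simpa using (hint b).not.2 hpb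
  have hNk : (N : IsLocalRing.ResidueField B) ≠ 0 := by
    simpa using (hint N).not.2 fun h => hpb (h.trans (Int.natCast_dvd_natCast.2 hNb))
  have hz : Rel B (b : ℂ)⁻¹ (b : IsLocalRing.ResidueField B)⁻¹ := (Rel.nat b).inv hbk
  have hzA : (b : IsLocalRing.ResidueField B)⁻¹ =
      ∏ l ∈ range g, (-(M : IsLocalRing.ResidueField B) - l) := by
    have h1 := (hint _).2 hpd
    rw [hA] at h1
    push_cast at h1
    exact (eq_inv_of_mul_eq_one_right (sub_eq_zero.1 h1)).symm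
  have hθr : Rel B θ (-(M : IsLocalRing.ResidueField B)) := by
    simpa using (rel_zero hB1).add (Rel.int (-M))
  have hθ'B : θ' ∈ B := mem_of_prod hg (by rw [hθ']; exact hz.eq_one (inv_ne_zero hbk))
  have hθ'r : Rel B θ' (IsLocalRing.residue B ⟨θ', hθ'B⟩) := ⟨_, rfl, rfl⟩
  obtain ⟨a, ha, ha'⟩ := hθr
  obtain ⟨r2, rg, r3, r4, r5, r6, r7⟩ := hR _ (IsLocalRing.residue B ⟨θ', hθ'B⟩) hNk _ hzA
    (root a ⟨θ', hθ'B⟩ (fun h => hne (ha ▸ congrArg Subtype.val h)) (by
      apply Subtype.val_injective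
      have e : ∀ u : B, ((∏ l ∈ range g, (u - (l : B)) : B) : ℂ) =
          ∏ l ∈ range g, ((u : ℂ) - l) := fun u => by
        simp
      rw [e, e, ha, hθ, hθ']) ha')
  have hθr : Rel B θ (-(M : IsLocalRing.ResidueField B)) := ⟨a, ha, ha'⟩
  have m1 := Rel.mu g M hθr hz r2 rg
  have a1 := Rel.al g M hθr hz r2 rg r3 r4
  have m2 := Rel.mu g M hθ'r hz r2 rg
  have a2 := Rel.al g M hθ'r hz r2 rg r3 r4
  have h4 : (4 : IsLocalRing.ResidueField B) ≠ 0 := by
    rw [show (4 : IsLocalRing.ResidueField B) = 2 * 2 by norm_num]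
    exact mul_ne_zero r2 r2
  have m0 : mu g M (-(M : IsLocalRing.ResidueField B)) (b : IsLocalRing.ResidueField B)⁻¹ = 0 := by
    simp [mu]
  refine ⟨B, Rel.two.eq_one r2, a1.eq_one (by simp [al, m0]),
    (Rel.four.mul m1).lt_iff.2 (by rw [m0, mul_zero]), ?_, a2.eq_one r6,
    (Rel.four.mul m2).eq_one (mul_ne_zero h4 (div_ne_zero (mul_ne_zero r5 (inv_ne_zero hbk))
      (mul_ne_zero h4 rg))), (a2.sub (Rel.four.mul m2)).eq_one r7⟩
  have hg0 : (g : ℂ) ≠ 0 := by exact_mod_cast hg.ne'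
  refine mul_ne_zero (by norm_num) (div_ne_zero (mul_ne_zero (fun h => ?_) (inv_ne_zero hb0))
    (mul_ne_zero (by norm_num) hg0))
  refine hbA 1 one_pos (by norm_num) ?_
  have h1 : θ = -M := by linear_combination h
  rw [h1] at hθ
  have h2 : (b : ℂ) * A = 1 := by
    rw [hA]
    push_cast
    rw [hθ, mul_inv_cancel₀ hb0]
  exact_mod_cast h2

end Pool.Agent.P.MP_e5b57f_nt.GD
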