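import Pool.Agent.P.MP_e5b57f_nt.GD.Iface

/-! A valuation of the complex numbers above a prime of degree one. -/

namespace Pool.Agent.P.MP_e5b57f_nt.GD

open PowerSeries Filter Topology Finset
open scoped Polynomial

namespace VEXx

theorem dvd_of_root {f g : ℤ[X]} {θ : ℂ} (hf : Irreducible f) (hd : 0 < f.natDegree)
    (h0 : Polynomial.aeval θ f = 0) (hg : Polynomial.aeval θ g = 0) : f ∣ g := by
  have hp : f.IsPrimitive := hf.isPrimitive hd.ne'
  have hi : Irreducible (f.map (Int.castRingHom ℚ)) :=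
    (Polynomial.IsPrimitive.Int.irreducible_iff_irreducible_map_cast hp).1 hf
  have e : ∀ u : ℤ[X], Polynomial.aeval θ (u.map (Int.castRingHom ℚ)) = Polynomial.aeval θ u :=
    fun u => Polynomial.aeval_map_algebraMap ℚ θ u
  rw [Polynomial.IsPrimitive.Int.dvd_iff_map_cast_dvd_map_cast f g hp]
  have h1 : minpoly ℚ θ ∣ g.map (Int.castRingHom ℚ) := minpoly.dvd ℚ θ (by rw [e, hg])
  have h2 : minpoly ℚ θ ∣ f.map (Int.castRingHom ℚ) := minpoly.dvd ℚ θ (by rw [e, h0])
  have hint : IsIntegral ℚ θ :=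
    isAlgebraic_iff_isIntegral.1 ⟨_, hi.ne_zero, by rw [e, h0]⟩
  exact ((minpoly.irreducible hint).associated_of_dvd hi h2).symm.dvd.trans h1

end VEXx

theorem s_VEX : S_VEX := by
  intro f θ a p hf hd h0 hp ha
  set φ : ℤ[X] →+* ℂ := (Polynomial.aeval θ : ℤ[X] →ₐ[ℤ] ℂ).toRingHom with hφ
  have eφ : ∀ u, φ u = Polynomial.aeval θ u := fun _ => rfl
  let x : φ.range := φ.rangeRestrict (Polynomial.C (p : ℤ))
  let y : φ.range := φ.rangeRestrict (Polynomial.X - Polynomial.C a)
  have hI : Ideal.span {x, y} ≠ ⊤ := by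
    intro h
    obtain ⟨u, v, huv⟩ := Ideal.mem_span_pair.1 ((Ideal.eq_top_iff_one _).1 h)
    obtain ⟨U, rfl⟩ := φ.rangeRestrict_surjective u
    obtain ⟨V, rfl⟩ := φ.rangeRestrict_surjective v
    have h1 : φ (1 - (U * Polynomial.C (p : ℤ) + V * (Polynomial.X - Polynomial.C a))) = 0 := by
      have := congrArg Subtype.val huv
      rw [map_sub, map_one, map_add, map_mul, map_mul, sub_eq_zero]
      exact this.symm
    have h2 := ha.trans (Polynomial.eval_dvd (x := a) (VEXx.dvd_of_root hf hd h0 h1))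
    simp only [Polynomial.eval_sub, Polynomial.eval_one, Polynomial.eval_add, Polynomial.eval_mul,
      Polynomial.eval_C, Polynomial.eval_X, sub_self, mul_zero, add_zero] at h2
    have h3 : (p : ℤ) ∣ 1 := by simpa using h2.add (dvd_mul_left (p : ℤ) (U.eval a))
    exact hp.one_lt.ne' (by exact_mod_cast Int.eq_one_of_dvd_one (by positivity) h3)
  obtain ⟨B, -, hB⟩ := Ideal.image_subset_nonunits_valuationSubring _ hI
  have hx : B.valuation (p : ℂ) < 1 := by
    have := hB ⟨x, Ideal.subset_span (by simp), rfl⟩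
    simpa [x, eφ, ValuationSubring.mem_nonunits_iff] using this
  have hy : B.valuation (θ - a) < 1 := by
    have := hB ⟨y, Ideal.subset_span (by simp), rfl⟩
    simpa [y, eφ, ValuationSubring.mem_nonunits_iff] using this
  have hz : ∀ n : ℤ, B.valuation (n : ℂ) ≤ 1 := fun n =>
    (B.valuation_le_one_iff _).2 (intCast_mem B n)
  have hm : ∀ (w : ℂ) (n : ℤ), B.valuation w < 1 → B.valuation ((n : ℂ) * w) < 1 := fun w n hw => by
    rw [map_mul]
    exact mul_lt_one_of_nonneg_of_lt_one_right (hz n) zero_le hw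
  refine ⟨B, hy, fun n => ⟨fun hn => ?_, ?_⟩⟩
  · by_contra hc
    obtain ⟨u, v, huv⟩ := ((Nat.prime_iff_prime_int.1 hp).irreducible.coprime_iff_not_dvd).2 hc
    have e : (u : ℂ) * (p : ℂ) + (v : ℂ) * (n : ℂ) = 1 := by exact_mod_cast huv
    have := B.valuation.map_add_lt (hm _ u hx) (hm _ v hn)
    rw [e, map_one] at this
    exact lt_irrefl _ this
  · rintro ⟨m, rfl⟩
    have := hm _ m hx
    rwa [mul_comm, ← Int.cast_natCast, ← Int.cast_mul] at this

end Pool.Agent.P.MP_e5b57f_nt.GD
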