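import Pool.Agent.P.MP_e5b57f_nt.GD.Iface

/-! The first coordinates of sums, differences and doubles. -/

namespace Pool.Agent.P.MP_e5b57f_nt.GD

open PowerSeries Filter Topology Finset
open scoped Polynomial

open WeierstrassCurve.Affine in
theorem s_XF : S_XF := by
  have eqn : ∀ {α β x y : ℂ}, (leg α β).toAffine.Nonsingular x y →
      y ^ 2 = x * (x - α) * (x - β) := fun h => by
    have := (equation_iff ..).1 h.1
    simp only [leg] at this
    linear_combination this
  have neg : ∀ α β x y : ℂ, (leg α β).toAffine.negY x y = -y := fun _ _ _ _ => by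
    simp [negY, leg]
  intro α β x y h
  have e := eqn h
  refine ⟨e, fun h0 => Point.add_self_of_Y_eq (by rw [neg, h0, neg_zero]), fun h0 => ?_,
    fun x' y' h' hx => ?_⟩
  · have h1 : y ≠ (leg α β).toAffine.negY x y := by
      rw [neg]
      exact fun h2 => h0 (by linear_combination h2 / 2)
    refine ⟨_, _, _, Point.add_self_of_Y_ne h1, ?_⟩
    rw [slope_of_Y_ne rfl h1, neg]
    have h2 : y - -y ≠ 0 := by rwa [neg, ← sub_ne_zero] at h1
    simp only [addX, leg]
    field_simp
    grind
  · have e' := eqn h'
    have h2 := sub_ne_zero.2 hx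
    refine ⟨_, _, _, _, _, _, Point.add_of_X_ne hx,
      (sub_eq_add_neg ..).trans ((congrArg _ (Point.neg_some h')).trans (Point.add_of_X_ne hx)),
      ?_, ?_⟩
    all_goals
      rw [slope_of_X_ne hx, slope_of_X_ne hx, neg]
      simp only [addX, leg]
      field_simp
      grind

end Pool.Agent.P.MP_e5b57f_nt.GD
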