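import Pool.Agent.P.MP_e5b57f_nt.GD.Iface

/-! The value of the algebraic series at real points. -/

namespace Pool.Agent.P.MP_e5b57f_nt.GD

open PowerSeries Filter Topology Finset
open scoped Polynomial

namespace YVx

theorem aa_nonneg (j : ℕ) : 0 ≤ aa j := by
  unfold aa
  positivity

theorem cn_nonneg (n : ℕ) {l : ℝ} (hl : 0 ≤ l) : 0 ≤ Polynomial.aeval l (cn n) := by
  rw [cn, map_sum]
  refine Finset.sum_nonneg fun p _ => ?_
  rw [map_mul, map_pow, Polynomial.aeval_C, Polynomial.aeval_X, eq_ratCast]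
  have : (0 : ℝ) ≤ ((aa p.1 * aa p.2 : ℚ) : ℝ) := by
    exact_mod_cast mul_nonneg (aa_nonneg _) (aa_nonneg _)
  positivity

theorem aeval_cast (p : ℚ[X]) (l : ℝ) :
    Polynomial.aeval (l : ℂ) p = ((Polynomial.aeval l p : ℝ) : ℂ) :=
  Polynomial.aeval_algebraMap_apply ℂ l p

end YVx

theorem s_YV (hSSR : S_SSR) (hPF1 : S_PF1) (hBD2 : S_BD2) : S_YV := by
  intro l t hl0 hl1 ht0 ht1
  have hdom : Dom (l : ℂ) (t : ℂ) := by
    unfold Dom
    rw [Complex.norm_real, Complex.norm_real, Real.norm_of_nonneg hl0, Real.norm_of_nonneg ht0,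
      max_eq_left hl1.le, one_mul]
    exact ht1
  obtain ⟨B, e, hB, he, hC, hX⟩ := hSSR l t hdom
  obtain ⟨-, -, bC, bX, -, -, bY, -⟩ := hBD2
  have h1 : (⟨Yq, (hB _).2 bY⟩ : B) ^ 2 * (1 - ⟨X, (hB _).2 bX⟩) *
      (1 - ⟨Lam, (hB _).2 (bC _)⟩ * ⟨X, (hB _).2 bX⟩) = 1 := Subtype.ext hPF1.1
  have h2 := congrArg e h1
  rw [map_mul, map_mul, map_pow, map_sub, map_sub, map_mul, map_one, he, he, he] at h2
  simp only [hX, Lam, hC, Polynomial.aeval_X] at h2
  have h3 : SS Yq l t = ((∑' n, Polynomial.aeval l (cn n) * t ^ n : ℝ) : ℂ) := by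
    rw [Complex.ofReal_tsum, SS]
    refine tsum_congr fun n => ?_
    rw [Yq, coeff_mk, YVx.aeval_cast]
    push_cast
    rfl
  have h4 : 0 ≤ ∑' n, Polynomial.aeval l (cn n) * t ^ n :=
    tsum_nonneg fun n => mul_nonneg (YVx.cn_nonneg n hl0) (pow_nonneg ht0 n)
  rw [h3] at h2 ⊢
  generalize ∑' n, Polynomial.aeval l (cn n) * t ^ n = y at h2 h4
  have h5 : y ^ 2 * (1 - t) * (1 - l * t) = 1 := by exact_mod_cast h2
  have h6 : 0 < 1 - t := by linarith
  have h7 : 0 < 1 - l * t := by nlinarith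
  have h8 : y = (√(1 - t) * √(1 - l * t))⁻¹ := by
    refine (pow_left_inj₀ h4 (by positivity) two_ne_zero).1 ?_
    rw [inv_pow, mul_pow, Real.sq_sqrt h6.le, Real.sq_sqrt h7.le]
    exact eq_inv_of_mul_eq_one_left (by rw [← mul_assoc, h5])
  rw [h8]

end Pool.Agent.P.MP_e5b57f_nt.GD
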