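import Pool.Agent.P.MP_e5b57f_nt.GD.Iface

/-! The zero estimate. -/

namespace Pool.Agent.P.MP_e5b57f_nt.GD

open PowerSeries Filter Topology Finset
open scoped Polynomial

namespace ZLx

theorem det_dvd {R : Type} [CommRing R] {m : ℕ} (a : R) (B : Matrix (Fin (m + 1)) (Fin (m + 1)) R)
    (y : Fin (m + 1) → R) (h : ∀ k i, a ∣ B k 0 * y i - B k i) : a ^ m ∣ B.det := by
  choose d hd using h
  have h1 : B.transpose.det = (Matrix.of fun i k : Fin (m + 1) => (if i = 0 then 1 else a) *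
      (Matrix.of fun i k : Fin (m + 1) => if i = 0 then B k 0 else -d k i) i k).det := by
    refine Matrix.det_eq_of_forall_row_eq_smul_add_const (fun i => if i = 0 then 0 else y i) 0
      (by simp) fun i k => ?_
    by_cases hi : i = 0
    · simp [hi]
    · simp only [Matrix.transpose_apply, Matrix.of_apply, hi, if_false, if_true]
      linear_combination -hd k i
  rw [Matrix.det_transpose, Matrix.det_mul_column, Fin.prod_univ_succ] at h1
  rw [h1]
  simp [Fin.succ_ne_zero]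

theorem dvd_of_coe {E : ℕ} {p : ℚ[X]} (h : (X : ℚ⟦X⟧) ^ E ∣ (p : ℚ⟦X⟧)) :
    (Polynomial.X : ℚ[X]) ^ E ∣ p := by
  rw [Polynomial.X_pow_dvd_iff]
  rw [X_pow_dvd_iff] at h
  intro d hd
  rw [← Polynomial.coeff_coe]
  exact h d hd

theorem deg_det {n D : ℕ} (B : Matrix (Fin n) (Fin n) ℚ[X]) (h : ∀ k i, (B k i).natDegree ≤ D) :
    B.det.natDegree ≤ n * D := by
  rw [Matrix.det_apply]
  refine Polynomial.natDegree_sum_le_of_forall_le _ _ fun σ _ => ?_
  refine (Polynomial.natDegree_smul_le _ _).trans ((Polynomial.natDegree_prod_le _ _).trans ?_)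
  refine (Finset.sum_le_card_nsmul _ _ D fun i _ => h _ _).trans ?_
  simp

theorem cancel {p : ℚ[X]} (hp : p ≠ 0) {N M : ℕ} (hN : p.natDegree ≤ N) {f : ℚ⟦X⟧}
    (h : (X : ℚ⟦X⟧) ^ (N + M) ∣ (p : ℚ⟦X⟧) * f) : (X : ℚ⟦X⟧) ^ M ∣ f := by
  obtain ⟨u, hu, hnd⟩ := Polynomial.exists_eq_pow_rootMultiplicity_mul_and_not_dvd p hp 0
  set a := p.rootMultiplicity 0 with ha
  simp only [map_zero, sub_zero] at hu hnd
  have hle : a ≤ N := by
    have := Polynomial.natDegree_le_of_dvd ⟨u, hu⟩ hp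
    rw [Polynomial.natDegree_X_pow] at this
    omega
  have hunit : IsUnit (u : ℚ⟦X⟧) := by
    rw [isUnit_iff_constantCoeff, Polynomial.constantCoeff_coe, isUnit_iff_ne_zero]
    rwa [Polynomial.X_dvd_iff] at hnd
  have h1 : (X : ℚ⟦X⟧) ^ a * X ^ M ∣ X ^ a * ((u : ℚ⟦X⟧) * f) := by
    rw [← pow_add, ← mul_assoc]
    refine (pow_dvd_pow _ (by omega)).trans (h.trans (dvd_of_eq ?_))
    conv_lhs => rw [hu]
    simp
  rw [mul_dvd_mul_iff_left (pow_ne_zero _ X_ne_zero)] at h1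
  exact hunit.dvd_mul_left.1 h1

end ZLx

open ZLx in
theorem s_ZL (hSH : S_SH) (hORD : S_ORD) (hITER : S_ITER) (hSPAN : S_SPAN) : S_ZL := by
  intro m y T A hS
  obtain ⟨t, ht, htA⟩ : ∃ t, T.natDegree ≤ t ∧ ∀ i j, (A i j).natDegree ≤ t := by
    refine ⟨T.natDegree + ∑ i, ∑ j, (A i j).natDegree, by omega, fun i j => ?_⟩
    have h1 := Finset.single_le_sum (f := fun j => (A i j).natDegree) (fun _ _ => Nat.zero_le _)
      (Finset.mem_univ j)
    have h2 := Finset.single_le_sum (f := fun i => ∑ j, (A i j).natDegree)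
      (fun _ _ => Nat.zero_le _) (Finset.mem_univ i)
    omega
  obtain ⟨c1, hc1⟩ := hSH _ T A hS.ne
  obtain ⟨e, he⟩ := hORD _ y hS.ind c1
  refine ⟨e + (m + 1) * (m * t) + m * m + m, fun W N M hW hM hP ξ hξ hT γ hγ => ?_⟩
  have hdet : (itM T A W).det ≠ 0 := by
    intro h0
    obtain ⟨v, hv, hdeg, hsum⟩ := hc1 W h0
    refine he v hv hdeg ((pow_dvd_pow _ (show e ≤ M by omega)).trans (cancel hW (hP 0).1 ?_))
    have h1 : ∑ i, (v i : ℚ⟦X⟧) * (W i : ℚ⟦X⟧) = 0 := by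
      have := congrArg (Polynomial.coeToPowerSeries.ringHom (R := ℚ)) hsum
      simpa [map_sum] using this
    have h2 : (W 0 : ℚ⟦X⟧) * ∑ i, (v i : ℚ⟦X⟧) * y i =
        ∑ i, (v i : ℚ⟦X⟧) * ((W 0 : ℚ⟦X⟧) * y i - W i) := by
      simp only [mul_sub, Finset.sum_sub_distrib, h1, sub_zero, Finset.mul_sum]
      exact Finset.sum_congr rfl fun i _ => by ring
    rw [h2]
    exact Finset.dvd_sum fun i _ => Dvd.dvd.mul_left (hP i).2 _
  have hI := fun k => (hITER m y T A hS t ht htA W N (N + M) hP k).2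
  obtain ⟨E, hE⟩ : ∃ E, N + M = E + m := ⟨N + M - m, by omega⟩
  have hX : (Polynomial.X : ℚ[X]) ^ (E * m) ∣ (itM T A W).det := by
    refine dvd_of_coe ?_
    have h1 := det_dvd ((X : ℚ⟦X⟧) ^ E)
      ((Polynomial.coeToPowerSeries.ringHom (R := ℚ)).mapMatrix (itM T A W)) y fun k i =>
        (pow_dvd_pow _ (show E ≤ N + M - k by have := k.2; omega)).trans (hI k i).2
    rwa [← RingHom.map_det, ← pow_mul] at h1
  have hD : (itM T A W).det.natDegree ≤ (m + 1) * (N + m * t) :=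
    deg_det _ fun k i => (hI k i).1.trans (by
      have := Nat.mul_le_mul_right t (show (k : ℕ) ≤ m by have := k.2; omega)
      omega)
  obtain ⟨k, hk, hne⟩ := hSPAN _ T A W ξ hT hdet γ hγ
  refine ⟨k, ?_, hne⟩
  set r := (itM T A W).det.rootMultiplicity ξ with hr
  have hcop : IsCoprime ((Polynomial.X : ℚ[X]) ^ (E * m)) ((Polynomial.X - Polynomial.C ξ) ^ r) := by
    have := Polynomial.isCoprime_X_sub_C_of_isUnit_sub (a := (0 : ℚ)) (b := ξ)
      (by simpa using hξ)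
    simp only [map_zero, sub_zero] at this
    exact this.pow
  have h3 := Polynomial.natDegree_le_of_dvd
    (hcop.mul_dvd hX (Polynomial.pow_rootMultiplicity_dvd _ ξ)) hdet
  rw [Polynomial.natDegree_mul (pow_ne_zero _ Polynomial.X_ne_zero)
    (pow_ne_zero _ (Polynomial.X_sub_C_ne_zero ξ)), Polynomial.natDegree_X_pow,
    Polynomial.natDegree_pow, Polynomial.natDegree_X_sub_C, mul_one] at h3
  have h4 : m * (N + M) = m * (E + m) := by rw [hE]
  nlinarith

end Pool.Agent.P.MP_e5b57f_nt.GD
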