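import Pool.Agent.P.MP_e5b57f_nt.GD.ADD
import Pool.Agent.P.MP_e5b57f_nt.GD.AFLD
import Pool.Agent.P.MP_e5b57f_nt.GD.AM
import Pool.Agent.P.MP_e5b57f_nt.GD.ASY
import Pool.Agent.P.MP_e5b57f_nt.GD.BAD
import Pool.Agent.P.MP_e5b57f_nt.GD.BASIS
import Pool.Agent.P.MP_e5b57f_nt.GD.BD1
import Pool.Agent.P.MP_e5b57f_nt.GD.BD2
import Pool.Agent.P.MP_e5b57f_nt.GD.BRA
import Pool.Agent.P.MP_e5b57f_nt.GD.BRS
import Pool.Agent.P.MP_e5b57f_nt.GD.CHORD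
import Pool.Agent.P.MP_e5b57f_nt.GD.COMP
import Pool.Agent.P.MP_e5b57f_nt.GD.CONT
import Pool.Agent.P.MP_e5b57f_nt.GD.DENS
import Pool.Agent.P.MP_e5b57f_nt.GD.DENSE
import Pool.Agent.P.MP_e5b57f_nt.GD.DFM
import Pool.Agent.P.MP_e5b57f_nt.GD.DFS
import Pool.Agent.P.MP_e5b57f_nt.GD.ELIM
import Pool.Agent.P.MP_e5b57f_nt.GD.EQN
import Pool.Agent.P.MP_e5b57f_nt.GD.EV
import Pool.Agent.P.MP_e5b57f_nt.GD.EVL
import Pool.Agent.P.MP_e5b57f_nt.GD.EVT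
import Pool.Agent.P.MP_e5b57f_nt.GD.FAM
import Pool.Agent.P.MP_e5b57f_nt.GD.FFR
import Pool.Agent.P.MP_e5b57f_nt.GD.FUND
import Pool.Agent.P.MP_e5b57f_nt.GD.GAP
import Pool.Agent.P.MP_e5b57f_nt.GD.GB
import Pool.Agent.P.MP_e5b57f_nt.GD.GBT
import Pool.Agent.P.MP_e5b57f_nt.GD.GC
import Pool.Agent.P.MP_e5b57f_nt.GD.GF
import Pool.Agent.P.MP_e5b57f_nt.GD.GF0
import Pool.Agent.P.MP_e5b57f_nt.GD.GOOD
import Pool.Agent.P.MP_e5b57f_nt.GD.GSF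
import Pool.Agent.P.MP_e5b57f_nt.GD.GSU
import Pool.Agent.P.MP_e5b57f_nt.GD.HAS
import Pool.Agent.P.MP_e5b57f_nt.GD.HIT
import Pool.Agent.P.MP_e5b57f_nt.GD.HOM
import Pool.Agent.P.MP_e5b57f_nt.GD.IND
import Pool.Agent.P.MP_e5b57f_nt.GD.INT1
import Pool.Agent.P.MP_e5b57f_nt.GD.INT2
import Pool.Agent.P.MP_e5b57f_nt.GD.INV
import Pool.Agent.P.MP_e5b57f_nt.GD.IRR
import Pool.Agent.P.MP_e5b57f_nt.GD.ITER
import Pool.Agent.P.MP_e5b57f_nt.GD.KEY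
import Pool.Agent.P.MP_e5b57f_nt.GD.KRO
import Pool.Agent.P.MP_e5b57f_nt.GD.LI
import Pool.Agent.P.MP_e5b57f_nt.GD.LIF
import Pool.Agent.P.MP_e5b57f_nt.GD.NF
import Pool.Agent.P.MP_e5b57f_nt.GD.NISO
import Pool.Agent.P.MP_e5b57f_nt.GD.NPR
import Pool.Agent.P.MP_e5b57f_nt.GD.ORD
import Pool.Agent.P.MP_e5b57f_nt.GD.PAD
import Pool.Agent.P.MP_e5b57f_nt.GD.PADE
import Pool.Agent.P.MP_e5b57f_nt.GD.PF1
import Pool.Agent.P.MP_e5b57f_nt.GD.PF2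
import Pool.Agent.P.MP_e5b57f_nt.GD.PINT
import Pool.Agent.P.MP_e5b57f_nt.GD.PMAP
import Pool.Agent.P.MP_e5b57f_nt.GD.PMOD
import Pool.Agent.P.MP_e5b57f_nt.GD.QDEN
import Pool.Agent.P.MP_e5b57f_nt.GD.RAT
import Pool.Agent.P.MP_e5b57f_nt.GD.RES
import Pool.Agent.P.MP_e5b57f_nt.GD.RFLD
import Pool.Agent.P.MP_e5b57f_nt.GD.RPT
import Pool.Agent.P.MP_e5b57f_nt.GD.SH
import Pool.Agent.P.MP_e5b57f_nt.GD.SH0
import Pool.Agent.P.MP_e5b57f_nt.GD.SHIFT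
import Pool.Agent.P.MP_e5b57f_nt.GD.SING
import Pool.Agent.P.MP_e5b57f_nt.GD.SPAN
import Pool.Agent.P.MP_e5b57f_nt.GD.SPEC
import Pool.Agent.P.MP_e5b57f_nt.GD.SSD
import Pool.Agent.P.MP_e5b57f_nt.GD.SSR
import Pool.Agent.P.MP_e5b57f_nt.GD.SSU
import Pool.Agent.P.MP_e5b57f_nt.GD.UIND
import Pool.Agent.P.MP_e5b57f_nt.GD.UNI
import Pool.Agent.P.MP_e5b57f_nt.GD.VAL
import Pool.Agent.P.MP_e5b57f_nt.GD.VEX
import Pool.Agent.P.MP_e5b57f_nt.GD.WR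
import Pool.Agent.P.MP_e5b57f_nt.GD.XF
import Pool.Agent.P.MP_e5b57f_nt.GD.YV
import Pool.Agent.P.MP_e5b57f_nt.GD.ZL
import Pool.Agent.P.MP_e5b57f_nt.GD.Main0

/-! All steps put together. -/

namespace Pool.Agent.P.MP_e5b57f_nt.GD

theorem t_INV : S_INV := s_INV

theorem t_HIT : S_HIT := s_HIT

theorem t_GB : S_GB := s_GB

theorem t_FAM : S_FAM := s_FAM t_INV t_HIT t_GB

theorem t_IRR : S_IRR := s_IRR

theorem t_VEX : S_VEX := s_VEX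

theorem t_RES : S_RES := s_RES

theorem t_RFLD : S_RFLD := s_RFLD t_RES

theorem t_VAL : S_VAL := s_VAL t_IRR t_VEX t_RFLD

theorem t_WR : S_WR := s_WR

theorem t_FUND : S_FUND := s_FUND

theorem t_SH0 : S_SH0 := s_SH0 t_WR t_FUND

theorem t_SH : S_SH := s_SH t_SH0

theorem t_ORD : S_ORD := s_ORD

theorem t_ITER : S_ITER := s_ITER

theorem t_SPAN : S_SPAN := s_SPAN

theorem t_ZL : S_ZL := s_ZL t_SH t_ORD t_ITER t_SPAN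

theorem t_PADE : S_PADE := s_PADE

theorem t_KEY : S_KEY := s_KEY

theorem t_HAS : S_HAS := s_HAS

theorem t_GF0 : S_GF0 := s_GF0 t_ZL t_ITER t_PADE t_KEY t_HAS

theorem t_GC : S_GC := s_GC

theorem t_EVL : S_EVL := s_EVL

theorem t_BASIS : S_BASIS := s_BASIS t_GC

theorem t_SPEC : S_SPEC := s_SPEC

theorem t_GF : S_GF := s_GF t_GF0 t_GC t_EVL t_BASIS t_SPEC

theorem t_DFM : S_DFM := s_DFM

theorem t_SSU : S_SSU := s_SSU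

theorem t_BD1 : S_BD1 := s_BD1

theorem t_SSR : S_SSR := s_SSR t_SSU t_BD1

theorem t_BD2 : S_BD2 := s_BD2

theorem t_SSD : S_SSD := s_SSD t_SSU t_BD2

theorem t_EV : S_EV := s_EV t_SSR t_SSD t_SSU t_BD1 t_BD2

theorem t_PF1 : S_PF1 := s_PF1

theorem t_DENS : S_DENS := s_DENS

theorem t_QDEN : S_QDEN := s_QDEN

theorem t_AFLD : S_AFLD := s_AFLD

theorem t_DFS : S_DFS := s_DFS t_AFLD

theorem t_GSF : S_GSF := s_GSF t_EV t_PF1 t_BD2 t_SSD t_DENS t_QDEN t_DFS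

theorem t_PF2 : S_PF2 := s_PF2 t_PF1

theorem t_GSU : S_GSU := s_GSU t_EV t_PF1 t_PF2 t_BD2 t_SSD t_DENS t_QDEN t_DFS t_DFM t_GC

theorem t_BRA : S_BRA := s_BRA

theorem t_GBT : S_GBT := s_GBT t_GB

theorem t_BRS : S_BRS := s_BRS t_GB t_GBT t_BRA

theorem t_FFR : S_FFR := s_FFR

theorem t_SING : S_SING := s_SING t_FFR

theorem t_IND : S_IND := s_IND t_SING t_FFR t_SSD t_BD2

theorem t_PINT : S_PINT := s_PINT

theorem t_PMOD : S_PMOD := s_PMOD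

theorem t_PAD : S_PAD := s_PAD t_PINT t_PMOD

theorem t_NPR : S_NPR := s_NPR

theorem t_UIND : S_UIND := s_UIND t_BRA t_BRS t_EV t_PAD t_NPR t_BD2 t_SSD

theorem t_LIF : S_LIF := s_LIF t_IND t_UIND t_BRA t_SSD t_BD2 t_FFR

theorem t_LI : S_LI := s_LI t_GF t_GC t_DFM t_GSF t_GSU t_BRA t_BRS t_LIF t_FFR t_SSD t_BD2

theorem t_SHIFT : S_SHIFT := s_SHIFT t_GB

theorem t_ELIM : S_ELIM := s_ELIM

theorem t_EVT : S_EVT := s_EVT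

theorem t_NF : S_NF := s_NF t_IRR

theorem t_EQN : S_EQN := s_EQN

theorem t_XF : S_XF := s_XF

theorem t_BAD : S_BAD := s_BAD t_XF

theorem t_GOOD : S_GOOD := s_GOOD t_XF

theorem t_RAT : S_RAT := s_RAT

theorem t_ASY : S_ASY := s_ASY

theorem t_NISO : S_NISO := s_NISO t_BAD t_GOOD t_RAT t_ASY

theorem t_AM : S_AM := s_AM

theorem t_ADD : S_ADD := s_ADD

theorem t_CHORD : S_CHORD := s_CHORD

theorem t_HOM : S_HOM := s_HOM t_ADD t_CHORD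

theorem t_CONT : S_CONT := s_CONT

theorem t_UNI : S_UNI := s_UNI t_AM t_HOM t_CONT

theorem t_YV : S_YV := s_YV t_SSR t_PF1 t_BD2

theorem t_INT1 : S_INT1 := s_INT1 t_YV t_SSU t_BD2

theorem t_INT2 : S_INT2 := s_INT2 t_YV t_SSD t_SSR t_PF2 t_BD2

theorem t_RPT : S_RPT := s_RPT t_UNI t_INT1 t_INT2 t_EQN t_FFR

theorem t_PMAP : S_PMAP := s_PMAP

theorem t_KRO : S_KRO := s_KRO

theorem t_COMP : S_COMP := s_COMP

theorem t_DENSE : S_DENSE := s_DENSE t_KRO t_PMAP t_COMP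

theorem t_GAP : S_GAP := s_GAP

theorem main : MainP :=
  main0 t_FAM t_VAL t_LI t_SHIFT t_ELIM t_EVT t_NF t_EQN t_NISO t_RPT t_PMAP t_DENSE

end Pool.Agent.P.MP_e5b57f_nt.GD
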