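import Pool.Agent.P.MP_e5b57f_nt.Defs

/-! Internal definitions and the Taylor series toolkit. -/

namespace Pool.Agent.P.MP_e5b57f_nt.GD

open PowerSeries Filter Topology Finset
open scoped Polynomial

/-! ### Arithmetic and differential classes of power series -/

/-- Common denominators grow at most geometrically. -/
def Den (f : ℂ⟦X⟧) : Prop := ∃ C : ℕ, ∀ n, ∃ d : ℕ, 0 < d ∧ d ≤ C ^ (n + 1) ∧
  ∀ k ≤ n, ∃ a : ℤ, (d : ℂ) * coeff k f = a

/-- Coefficients grow at most geometrically. -/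
def Gr (f : ℂ⟦X⟧) : Prop := ∃ C : ℕ, ∀ n, ‖coeff n f‖ ≤ (C : ℝ) ^ (n + 1)

/-- `f` lies in the span of `S` over the field of rational functions. -/
def Sat (S : Set ℂ⟦X⟧) (f : ℂ⟦X⟧) : Prop :=
  ∃ T : ℚ[X], T ≠ 0 ∧ T • f ∈ Submodule.span ℚ[X] S

/-- `f` lies in a finite dimensional space that is closed under the derivative. -/
def DF (f : ℂ⟦X⟧) : Prop := ∃ S : Set ℂ⟦X⟧, S.Finite ∧ Sat S f ∧ ∀ y ∈ S, Sat S (d⁄dX ℂ y)

/-- G-series. -/
def GS (f : ℂ⟦X⟧) : Prop := Den f ∧ Gr f ∧ DF f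

/-- Algebraic series. -/
abbrev Alg (f : ℂ⟦X⟧) : Prop := IsAlgebraic ℚ[X] f

/-- `f (N X)` has integer coefficients. -/
def IntN (N : ℕ) (f : ℂ⟦X⟧) : Prop := ∀ n, ∃ a : ℤ, (N : ℂ) ^ n * coeff n f = a

/-- Globally bounded series. -/
def GB (f : ℂ⟦X⟧) : Prop := ∃ N D : ℕ, 0 < N ∧ 0 < D ∧ IntN N ((D : ℂ⟦X⟧) * f)

/-- The value of a series. -/
noncomputable def ev (f : ℂ⟦X⟧) (z : ℂ) : ℂ := ∑' n, coeff n f * z ^ n

/-- Rational series as complex series. -/
noncomputable def up : ℚ⟦X⟧ →+* ℂ⟦X⟧ := PowerSeries.map (algebraMap ℚ ℂ)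

/-- The vectors `T ^ k (d / dX - A / T) ^ k W`. -/
noncomputable def iter {ι : Type} [Fintype ι] (T : ℚ[X]) (A : ι → ι → ℚ[X]) (W : ι → ℚ[X]) :
    ℕ → ι → ℚ[X]
  | 0 => W
  | k + 1 => fun i => T * Polynomial.derivative (iter T A W k i) -
      (k : ℚ[X]) * Polynomial.derivative T * iter T A W k i - ∑ j, A i j * iter T A W k j

/-- A differential system for independent series, the first of which is one. -/
structure Sys {m : ℕ} (y : Fin (m + 1) → ℚ⟦X⟧) (T : ℚ[X]) (A : Fin (m + 1) → Fin (m + 1) → ℚ[X]) :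
    Prop where
  one : y 0 = 1
  ne : T ≠ 0
  row : ∀ j, A 0 j = 0
  sys : ∀ i, (T : ℚ⟦X⟧) * d⁄dX ℚ (y i) = ∑ j, (A i j : ℚ⟦X⟧) * y j
  ind : ∀ v : Fin (m + 1) → ℚ[X], ∑ i, (v i : ℚ⟦X⟧) * y i = 0 → v = 0

/-- Simultaneous approximations of degree `N` and order `E`. -/
def Pade {m : ℕ} (y : Fin (m + 1) → ℚ⟦X⟧) (W : Fin (m + 1) → ℚ[X]) (N E : ℕ) : Prop :=
  ∀ i, (W i).natDegree ≤ N ∧ (X : ℚ⟦X⟧) ^ E ∣ (W 0 : ℚ⟦X⟧) * y i - W i

/-- A common constant for the denominators and the growth. -/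
def Unif {ι : Type} (y : ι → ℚ⟦X⟧) (C : ℕ) : Prop :=
  (∀ n, ∃ d : ℕ, 0 < d ∧ d ≤ C ^ (n + 1) ∧ ∀ i, ∀ k ≤ n, ∃ a : ℤ, (d : ℚ) * coeff k (y i) = a) ∧
    ∀ i n, |coeff n (y i)| ≤ (C : ℚ) ^ (n + 1)

/-! ### Series in two variables -/

/-- The value of a series in two variables. -/
noncomputable def SS (q : ℚ[X]⟦X⟧) (l t : ℂ) : ℂ := ∑' n, Polynomial.aeval l (coeff n q) * t ^ n

/-- Degrees grow linearly with slope one, coefficients polynomially. -/
def Bd (q : ℚ[X]⟦X⟧) : Prop := ∃ C k : ℕ, ∀ n, (coeff n q).natDegree ≤ n + k ∧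
  ∀ j, |(coeff n q).coeff j| ≤ C * ((n : ℚ) + 1) ^ k

/-- The derivative in the inner variable. -/
noncomputable def dL (q : ℚ[X]⟦X⟧) : ℚ[X]⟦X⟧ := mk fun n => Polynomial.derivative (coeff n q)

/-- The derivative in the outer variable. -/
noncomputable def dT (q : ℚ[X]⟦X⟧) : ℚ[X]⟦X⟧ := mk fun n => coeff (n + 1) q * ((n : ℚ[X]) + 1)

/-- The inner variable. -/
noncomputable def Lam : ℚ[X]⟦X⟧ := C Polynomial.X

/-- The domain of convergence. -/
def Dom (l t : ℂ) : Prop := max 1 ‖l‖ * ‖t‖ < 1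

/-- The coefficients of `(1 - x) ^ (-1 / 2)`. -/
def aa (j : ℕ) : ℚ := (j.centralBinom : ℚ) / 4 ^ j

noncomputable def cn (n : ℕ) : ℚ[X] :=
  ∑ p ∈ antidiagonal n, Polynomial.C (aa p.1 * aa p.2) * Polynomial.X ^ p.2

noncomputable def Fq : ℚ[X]⟦X⟧ := mk fun n => Polynomial.C (aa n ^ 2)

noncomputable def Yq : ℚ[X]⟦X⟧ := mk cn

noncomputable def Uq : ℚ[X]⟦X⟧ := mk fun n => Polynomial.C (1 / (2 * (n : ℚ) + 1)) * cn n

/-- The complete elliptic integral divided by `π / 2`. -/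
noncomputable def FF (l : ℂ) : ℂ := SS Fq 0 l

/-- The incomplete elliptic integral. -/
noncomputable def UU (l s : ℂ) : ℂ := s * SS Uq l (s ^ 2)

/-- The elliptic integral of the first kind. -/
noncomputable def KI (l φ : ℝ) : ℝ := ∫ t in (0 : ℝ)..φ, (√(1 - l * Real.sin t ^ 2))⁻¹

/-- Taylor series at the origin. -/
noncomputable def tay (f : ℂ → ℂ) : ℂ⟦X⟧ := mk fun n => iteratedDeriv n f 0 / (n.factorial : ℂ)

/-- The Taylor series of a series in two variables along a curve. -/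
noncomputable def Ev (q : ℚ[X]⟦X⟧) (l t : ℂ → ℂ) : ℂ⟦X⟧ := tay fun z => SS q (l z) (t z)

/-- `u` is obtained from `q` by substitution of `l` and `t`. -/
def Sub (q : ℚ[X]⟦X⟧) (l t u : ℂ⟦X⟧) : Prop :=
  ∀ K, t ^ K ∣ u - ∑ k ∈ range K, Polynomial.aeval l (coeff k q) * t ^ k

/-! ### The family -/

/-- The Legendre parameter. -/
def lam {K : Type} [Field K] (g M : ℕ) (θ z : K) : K := 4 * mu g M θ z / al g M θ z

/-- The sines of the amplitudes of the two points. -/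
def sr {K : Type} [Field K] (a : Bool) (z : K) : K := bif a then sz z else rz z

/-- The cosines of the amplitudes of the two points. -/
def cr {K : Type} [Field K] (a : Bool) (z : K) : K :=
  bif a then (1 - z ^ 2) / (1 + z ^ 2) else (1 - 4 * z ^ 2) / (1 + 4 * z ^ 2)

/-- The second coordinates of the two points. -/
def yc {K : Type} [Field K] (g M : ℕ) (θ z : K) (a : Bool) : K :=
  al g M θ z * cr a z * (1 + mu g M θ z * (sr (!a) z ^ 2 - sr a z ^ 2)) / sr a z ^ 3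

/-- `π` times the Betti coordinate. -/
noncomputable def BB (g M : ℕ) (θ z : ℂ) (a : Bool) : ℂ :=
  UU (lam g M θ z) (sr a z) / FF (lam g M θ z)

/-- A branch of the family up to the first point where the Legendre parameter is one. -/
structure Br (g M i : ℕ) (θ w : ℂ → ℂ) (ρ : ℝ) : Prop where
  gpos : 0 < g
  pos : 0 < ρ
  an : ∀ x ∈ Set.Icc 0 ρ, AnalyticAt ℂ θ (x : ℝ) ∧ AnalyticAt ℂ w (x : ℝ)
  w0 : w 0 = 0
  w1 : deriv w 0 = 1
  th0 : θ 0 = i
  lt : i < g
  eqn : ∀ᶠ z in 𝓝 (0 : ℂ), ∏ l ∈ range g, (θ z - l) = w z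
  real : ∀ x ∈ Set.Icc 0 ρ, ∃ t u : ℝ, θ (x : ℝ) = t ∧ w (x : ℝ) = u ∧ 0 < M + t ∧ 0 ≤ u ∧
    u ≤ 1 / 8 ∧ (x < ρ → lam g M t u < 1) ∧ (x = ρ → lam g M t u = 1)
  gb : GB (tay w)
  alg : Alg (tay w)

/-- A parameter that increases from the interval `[0, 1)` to one along `[0, ρ]`. -/
def Hit (l : ℂ → ℂ) (ρ : ℝ) : Prop :=
  ∀ x ∈ Set.Icc 0 ρ, AnalyticAt ℂ l (x : ℝ) ∧
    ∃ u : ℝ, l (x : ℝ) = u ∧ 0 ≤ u ∧ (x < ρ → u < 1) ∧ (x = ρ → u = 1)

/-- A real point as a point of the one point compactification of the plane. -/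
def op {W : WeierstrassCurve ℝ} : W.toAffine.Point → OnePoint (ℝ × ℝ)
  | .zero => OnePoint.infty
  | .some x y _ => OnePoint.some (x, y)

/-- A parametrisation of the identity component. -/
structure Par (α β : ℝ) (Φ : ℝ →+ (leg α β).toAffine.Point) : Prop where
  per : Φ 1 = 0
  cont : Continuous fun t => op (Φ t)
  surj : ∀ x y, y ^ 2 = x * (x - α) * (x - β) → α ≤ x → ∃ t, op (Φ t) = OnePoint.some (x, y)
  ker : ∀ t, Φ t = 0 → ∃ n : ℤ, t = n
  pt : ∀ s y, 0 < s → s < 1 → 0 < y →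
    y ^ 2 = α / s ^ 2 * (α / s ^ 2 - α) * (α / s ^ 2 - β) →
    op (Φ (KI (β / α) (Real.arcsin s) / KI (β / α) Real.pi)) = OnePoint.some (α / s ^ 2, y)

/-- Jacobian elliptic functions. -/
structure Jac (l : ℝ) (S C D : ℝ → ℝ) : Prop where
  dS : ∀ u, HasDerivAt S (C u * D u) u
  dC : ∀ u, HasDerivAt C (-(S u * D u)) u
  dD : ∀ u, HasDerivAt D (-(l * S u * C u)) u
  sc : ∀ u, S u ^ 2 + C u ^ 2 = 1
  sd : ∀ u, D u ^ 2 + l * S u ^ 2 = 1
  pos : ∀ u, 0 < D u
  hS : ∀ φ, S (KI l φ) = Real.sin φ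
  hC : ∀ φ, C (KI l φ) = Real.cos φ
  surj : Function.Surjective (KI l)
  per : ∀ φ (n : ℤ), KI l (φ + n * Real.pi) = KI l φ + n * KI l Real.pi
  odd : ∀ φ, KI l (-φ) = -KI l φ
  kpos : 0 < KI l Real.pi

/-- Reduction type data at a valuation: multiplicative for the first curve, good for the second. -/
structure Sep (B : ValuationSubring ℂ) (α β α' β' : ℂ) : Prop where
  two : B.valuation 2 = 1
  a1 : B.valuation α = 1
  b1 : B.valuation β < 1
  b0 : β ≠ 0
  a2 : B.valuation α' = 1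
  b2 : B.valuation β' = 1
  c2 : B.valuation (α' - β') = 1

/-! ### Taylor series -/

section tay
variable {f g : ℂ → ℂ}

lemma coeff_tay (f : ℂ → ℂ) (n : ℕ) :
    coeff n (tay f) = iteratedDeriv n f 0 / (n.factorial : ℂ) := by
  rw [tay, coeff_mk]

lemma coeff_zero_tay (f : ℂ → ℂ) : coeff 0 (tay f) = f 0 := by
  simp [coeff_tay]

lemma constantCoeff_tay (f : ℂ → ℂ) : constantCoeff (tay f) = f 0 := by
  rw [← coeff_zero_eq_constantCoeff_apply, coeff_zero_tay]

lemma coeff_one_tay (f : ℂ → ℂ) : coeff 1 (tay f) = deriv f 0 := by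
  simp [coeff_tay]

lemma tay_congr (h : f =ᶠ[𝓝 0] g) : tay f = tay g := by
  ext n
  rw [coeff_tay, coeff_tay, h.iteratedDeriv_eq n]

lemma tay_add (hf : AnalyticAt ℂ f 0) (hg : AnalyticAt ℂ g 0) :
    tay (fun z => f z + g z) = tay f + tay g := by
  ext n
  rw [map_add, coeff_tay, coeff_tay, coeff_tay,
    iteratedDeriv_fun_add hf.contDiffAt hg.contDiffAt, add_div]

lemma tay_sub (hf : AnalyticAt ℂ f 0) (hg : AnalyticAt ℂ g 0) :
    tay (fun z => f z - g z) = tay f - tay g := by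
  ext n
  rw [map_sub, coeff_tay, coeff_tay, coeff_tay,
    iteratedDeriv_fun_sub hf.contDiffAt hg.contDiffAt, sub_div]

lemma tay_mul (hf : AnalyticAt ℂ f 0) (hg : AnalyticAt ℂ g 0) :
    tay (fun z => f z * g z) = tay f * tay g := by
  ext n
  rw [coeff_tay, iteratedDeriv_fun_mul hf.contDiffAt hg.contDiffAt, coeff_mul,
    Finset.Nat.sum_antidiagonal_eq_sum_range_succ_mk, Finset.sum_div]
  apply Finset.sum_congr rfl
  intro i hi
  have hi' : i ≤ n := Nat.lt_succ_iff.1 (Finset.mem_range.1 hi)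
  rw [coeff_tay, coeff_tay]
  have h := Nat.choose_mul_factorial_mul_factorial hi'
  have h1 : ((n.factorial : ℕ) : ℂ) = n.choose i * i.factorial * (n - i).factorial := by
    exact_mod_cast h.symm
  have h2 : ((n.choose i : ℕ) : ℂ) ≠ 0 := by exact_mod_cast (Nat.choose_pos hi').ne'
  have h3 : ((i.factorial : ℕ) : ℂ) ≠ 0 := by exact_mod_cast i.factorial_ne_zero
  have h4 : (((n - i).factorial : ℕ) : ℂ) ≠ 0 := by exact_mod_cast (n - i).factorial_ne_zero
  rw [h1]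
  field_simp

lemma tay_deriv (f : ℂ → ℂ) : tay (deriv f) = d⁄dX ℂ (tay f) := by
  ext n
  rw [coeff_derivative, coeff_tay, coeff_tay, iteratedDeriv_succ', Nat.factorial_succ]
  have h3 : ((n.factorial : ℕ) : ℂ) ≠ 0 := by exact_mod_cast n.factorial_ne_zero
  have h4 : ((n : ℂ) + 1) ≠ 0 := by exact_mod_cast Nat.succ_ne_zero n
  push_cast
  field_simp

lemma tay_const (c : ℂ) : tay (fun _ => c) = C c := by
  ext n
  rw [coeff_tay, iteratedDeriv_const, coeff_C]
  split_ifs with h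
  · simp [h]
  · simp

lemma tay_X_pow (m : ℕ) : tay (fun z => z ^ m) = X ^ m := by
  ext n
  rw [coeff_tay, iteratedDeriv_fun_pow_zero, coeff_X_pow]
  split_ifs with h
  · have h3 : ((m.factorial : ℕ) : ℂ) ≠ 0 := by exact_mod_cast m.factorial_ne_zero
    rw [h, div_self h3]
  · simp

lemma tay_id : tay (fun z => z) = X := by
  have := tay_X_pow 1
  simpa using this

lemma tay_one : tay (fun _ => 1) = 1 := by rw [tay_const, map_one]

lemma tay_zero : tay (fun _ => 0) = 0 := by rw [tay_const, map_zero]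

lemma tay_pow (hf : AnalyticAt ℂ f 0) (m : ℕ) : tay (fun z => f z ^ m) = tay f ^ m := by
  induction m with
  | zero => simpa using tay_one
  | succ m ih => simp only [pow_succ]; rw [tay_mul (hf.fun_pow m) hf, ih]

lemma tay_sum {ι : Type} (s : Finset ι) {F : ι → ℂ → ℂ} (h : ∀ i ∈ s, AnalyticAt ℂ (F i) 0) :
    tay (fun z => ∑ i ∈ s, F i z) = ∑ i ∈ s, tay (F i) := by
  classical
  induction s using Finset.induction_on with
  | empty => simpa using tay_zero
  | insert a s ha ih =>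
    simp only [sum_insert ha]
    have h1 := fun i hi => h i (mem_insert_of_mem hi)
    rw [tay_add (h a (mem_insert_self ..)) (Finset.analyticAt_fun_sum s h1), ih h1]

lemma tay_prod {ι : Type} (s : Finset ι) {F : ι → ℂ → ℂ} (h : ∀ i ∈ s, AnalyticAt ℂ (F i) 0) :
    tay (fun z => ∏ i ∈ s, F i z) = ∏ i ∈ s, tay (F i) := by
  classical
  induction s using Finset.induction_on with
  | empty => simpa using tay_one
  | insert a s ha ih =>
    simp only [prod_insert ha]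
    have h1 := fun i hi => h i (mem_insert_of_mem hi)
    rw [tay_mul (h a (mem_insert_self ..)) (Finset.analyticAt_fun_prod s h1), ih h1]

lemma analyticAt_aeval {z : ℂ} (hf : AnalyticAt ℂ f z) (p : ℚ[X]) :
    AnalyticAt ℂ (fun z => Polynomial.aeval (f z) p) z := by
  induction p using Polynomial.induction_on' with
  | add p q hp hq => simpa using hp.fun_add hq
  | monomial n a => simpa [Polynomial.aeval_monomial] using analyticAt_const.fun_mul (hf.fun_pow n)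

lemma algebraMap_rat (a : ℚ) : algebraMap ℚ ℂ⟦X⟧ a = C (algebraMap ℚ ℂ a) :=
  DFunLike.congr_fun (RingHom.ext_rat (algebraMap ℚ ℂ⟦X⟧) (C.comp (algebraMap ℚ ℂ))) a

lemma tay_aeval (hf : AnalyticAt ℂ f 0) (p : ℚ[X]) :
    tay (fun z => Polynomial.aeval (f z) p) = Polynomial.aeval (tay f) p := by
  induction p using Polynomial.induction_on' with
  | add p q hp hq =>
    simp only [map_add]
    rw [tay_add (analyticAt_aeval hf p) (analyticAt_aeval hf q), hp, hq]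
  | monomial n a =>
    simp only [Polynomial.aeval_monomial]
    rw [tay_mul analyticAt_const (hf.fun_pow n), tay_const, tay_pow hf, algebraMap_rat]

lemma aeval_X_eq (p : ℚ[X]) : Polynomial.aeval (X : ℂ⟦X⟧) p = algebraMap ℚ[X] ℂ⟦X⟧ p := by
  induction p using Polynomial.induction_on' with
  | add p q hp hq => simp only [map_add, hp, hq]
  | monomial n a =>
    rw [← Polynomial.C_mul_X_pow_eq_monomial]
    simp only [map_mul, map_pow, Polynomial.aeval_C, Polynomial.aeval_X, algebraMap_apply',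
      Polynomial.coe_C, Polynomial.coe_X, map_C, map_X, algebraMap_rat]

lemma tay_smul (hf : AnalyticAt ℂ f 0) (p : ℚ[X]) :
    tay (fun z => Polynomial.aeval z p * f z) = p • tay f := by
  have h : AnalyticAt ℂ (fun z : ℂ => z) 0 := analyticAt_id
  rw [tay_mul (analyticAt_aeval h p) hf, tay_aeval h, tay_id, aeval_X_eq, Algebra.smul_def]

lemma hasSum_tay (hf : AnalyticAt ℂ f 0) :
    ∀ᶠ z in 𝓝 (0 : ℂ), HasSum (fun n => coeff n (tay f) * z ^ n) (f z) := by
  have h := hf.hasFPowerSeriesAt.eventually_hasSum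
  refine h.mono fun z hz => ?_
  simpa [coeff_tay, FormalMultilinearSeries.ofScalars_apply_eq, mul_comm] using hz

lemma ev_tay (hf : AnalyticAt ℂ f 0) : ∀ᶠ z in 𝓝 (0 : ℂ), ev (tay f) z = f z :=
  (hasSum_tay hf).mono fun _ hz => hz.tsum_eq

lemma eq_of_tay_eq (hf : AnalyticAt ℂ f 0) (hg : AnalyticAt ℂ g 0) (h : tay f = tay g) :
    f =ᶠ[𝓝 0] g := by
  filter_upwards [ev_tay hf, ev_tay hg] with z h1 h2
  rw [← h1, ← h2, h]

lemma gr_tay (hf : AnalyticAt ℂ f 0) : Gr (tay f) := by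
  obtain ⟨r, hr, h⟩ := Metric.eventually_nhds_iff.1 (hasSum_tay hf)
  have h1 := (h (y := ((r / 2 : ℝ) : ℂ)) (by
    rw [dist_zero_right, Complex.norm_real, Real.norm_eq_abs, abs_of_pos (half_pos hr)]
    exact half_lt_self hr)).summable.tendsto_atTop_zero.norm.bddAbove_range
  obtain ⟨B, hB⟩ := h1
  obtain ⟨C, hC⟩ := exists_nat_ge (max B (2 / r))
  refine ⟨C, fun n => ?_⟩
  have h2 : ‖coeff n (tay f)‖ * (r / 2) ^ n ≤ B := by
    have := hB ⟨n, rfl⟩
    simpa [abs_of_pos hr] using this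
  have h3 : (2 / r) ^ n * (r / 2) ^ n = 1 := by rw [← mul_pow]; field_simp; simp
  have h4 : (2 / r) ^ n ≤ (C : ℝ) ^ n :=
    pow_le_pow_left₀ (by positivity) ((le_max_right ..).trans hC) n
  calc ‖coeff n (tay f)‖ = (2 / r) ^ n * (‖coeff n (tay f)‖ * (r / 2) ^ n) := by
        rw [mul_left_comm, h3, mul_one]
    _ ≤ (C : ℝ) ^ n * C := mul_le_mul h4 (h2.trans ((le_max_left ..).trans hC)) (by positivity)
        (by positivity)
    _ = _ := (pow_succ ..).symm

lemma tendsto_inv_nat : Tendsto (fun b : ℕ => (b : ℂ)⁻¹) atTop (𝓝 0) :=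
  tendsto_inv_atTop_nhds_zero_nat (𝕜 := ℂ)

end tay

end Pool.Agent.P.MP_e5b57f_nt.GD
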