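import Pool.Agent.P.MP_e5b57f_nt.GD.Iface

/-! The chord law in the coordinates of Jacobi. -/

namespace Pool.Agent.P.MP_e5b57f_nt.GD

open PowerSeries Filter Topology Finset
open scoped Polynomial

namespace CHORDx

variable {l s c d s' c' d' : ℝ}

theorem id1 (h1 : s ^ 2 + c ^ 2 = 1) (h2 : d ^ 2 + l * s ^ 2 = 1) (h3 : s' ^ 2 + c' ^ 2 = 1)
    (h4 : d' ^ 2 + l * s' ^ 2 = 1) : (s * c' * d' + s' * c * d) * (s * c' * d' - s' * c * d) =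
      (s ^ 2 - s' ^ 2) * (1 - l * s ^ 2 * s' ^ 2) := by
  grind

theorem id2 (h1 : s ^ 2 + c ^ 2 = 1) (h2 : d ^ 2 + l * s ^ 2 = 1) (h3 : s' ^ 2 + c' ^ 2 = 1)
    (h4 : d' ^ 2 + l * s' ^ 2 = 1) : (c * d * s' ^ 3 - c' * d' * s ^ 3) ^ 2 +
      ((1 + l) * s ^ 2 * s' ^ 2 - s' ^ 2 - s ^ 2) * (s' ^ 2 - s ^ 2) ^ 2 =
      s ^ 2 * s' ^ 2 * (s * c' * d' - s' * c * d) ^ 2 := by
  grind

theorem id3 (h1 : s ^ 2 + c ^ 2 = 1) (h2 : d ^ 2 + l * s ^ 2 = 1) (h3 : s' ^ 2 + c' ^ 2 = 1)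
    (h4 : d' ^ 2 + l * s' ^ 2 = 1) :
    ((c * d * s' ^ 3 - c' * d' * s ^ 3) *
        (s ^ 2 * (s * c' * d' - s' * c * d) ^ 2 - (s ^ 2 - s' ^ 2) ^ 2) -
      c * d * s' * (s ^ 2 - s' ^ 2) ^ 3) * (1 - l * s ^ 2 * s' ^ 2) ^ 2 =
      s ^ 3 * s' * (c * c' - s * s' * d * d') * (d * d' - l * s * s' * c * c') *
        (s * c' * d' - s' * c * d) ^ 3 := by
  grind

end CHORDx

open CHORDx WeierstrassCurve WeierstrassCurve.Affine in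
theorem s_CHORD : S_CHORD := by
  intro α β ρ l s c d s' c' d' S C D hα hρ hl h1 h2 h3 h4 s0 s0' S0 hs hΔ hS hC hD h h'
  have e0 : s ^ 2 - s' ^ 2 ≠ 0 := sub_ne_zero.2 hs
  have e0' : s' ^ 2 - s ^ 2 ≠ 0 := sub_ne_zero.2 hs.symm
  have hx : α / s ^ 2 ≠ α / s' ^ 2 := fun e => hs (by
    rw [div_eq_div_iff (pow_ne_zero _ s0) (pow_ne_zero _ s0')] at e
    exact (mul_left_cancel₀ hα e).symm)
  obtain ⟨n, hn⟩ : ∃ n, n = s * c' * d' - s' * c * d := ⟨_, rfl⟩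
  obtain ⟨m, hm⟩ : ∃ m, m = c * d * s' ^ 3 - c' * d' * s ^ 3 := ⟨_, rfl⟩
  have i1 := id1 h1 h2 h3 h4
  have i2 := id2 h1 h2 h3 h4
  have i3 := id3 h1 h2 h3 h4
  rw [← hn] at i1 i2 i3
  rw [← hm] at i2 i3
  have Sn : S * n = s ^ 2 - s' ^ 2 :=
    mul_right_cancel₀ hΔ (by rw [← i1, ← hS]; ring)
  have n0 : n ≠ 0 := fun e => e0 (by rw [← Sn, e, mul_zero])
  have eS : S = (s ^ 2 - s' ^ 2) / n := eq_div_of_mul_eq n0 Sn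
  have i4 : m * (s ^ 2 * n ^ 2 - (s ^ 2 - s' ^ 2) ^ 2) - c * d * s' * (s ^ 2 - s' ^ 2) ^ 3 =
      s ^ 3 * s' * C * D * n ^ 3 :=
    mul_right_cancel₀ (pow_ne_zero 2 hΔ) (by rw [i3, ← hC, ← hD]; ring)
  have eL : (α * ρ * c * d / s ^ 3 - α * ρ * c' * d' / s' ^ 3) / (α / s ^ 2 - α / s' ^ 2) =
      ρ * m / (s * s' * (s' ^ 2 - s ^ 2)) := by
    rw [div_eq_div_iff (sub_ne_zero.2 hx) (mul_ne_zero (mul_ne_zero s0 s0') e0'), hm]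
    field_simp
  have eX : (ρ * m / (s * s' * (s' ^ 2 - s ^ 2))) ^ 2 + (α + β) - α / s ^ 2 - α / s' ^ 2 =
      α / S ^ 2 := by
    rw [eS, div_pow, mul_pow, hρ, ← hl]
    field_simp
    linear_combination (s ^ 2 - s' ^ 2) ^ 2 * i2
  rw [Point.add_of_X_ne hx]
  simp only [op, slope_of_X_ne hx, addX, addY, negAddY, negY, leg, toAffine, eL, zero_mul,
    add_zero, sub_zero, sub_neg_eq_add, eX]
  congr 2
  rw [eS]
  field_simp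
  linear_combination ρ * (s' ^ 2 - s ^ 2) * i4

end Pool.Agent.P.MP_e5b57f_nt.GD
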