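import Pool.Agent.P.MP_e5b57f_nt.GD.Iface

/-! The branches at the inverse of a large integer. -/

namespace Pool.Agent.P.MP_e5b57f_nt.GD

open PowerSeries Filter Topology Finset
open scoped Polynomial

theorem s_EVT : S_EVT := by
  intro g M ϑ ρ h
  have key : ∀ i : Fin g, ∀ᶠ b : ℕ in atTop, ∃ t : ℝ, ϑ i (b : ℂ)⁻¹ = t ∧ 0 < M + t ∧
      |t - (i : ℕ)| < 1 / 2 ∧ ∏ l ∈ range g, (t - l) = (b : ℝ)⁻¹ := fun i => by
    have hi := h i
    have h1 : ∀ᶠ b : ℕ in atTop, (b : ℝ)⁻¹ < ρ i :=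
      (tendsto_inv_atTop_nhds_zero_nat (𝕜 := ℝ)).eventually (gt_mem_nhds hi.pos)
    have h2 := tendsto_inv_nat.eventually hi.eqn
    have hc : ContinuousAt (ϑ i) 0 := by
      simpa using (hi.an 0 ⟨le_rfl, hi.pos.le⟩).1.continuousAt
    have h3 : ∀ᶠ b : ℕ in atTop, dist (ϑ i (b : ℂ)⁻¹) (ϑ i 0) < 1 / 2 :=
      (hc.tendsto.comp tendsto_inv_nat).eventually (Metric.ball_mem_nhds _ (by norm_num))
    filter_upwards [h1, h2, h3] with b h1 h2 h3
    obtain ⟨t, u, ht, -, hM, -⟩ := hi.real (b : ℝ)⁻¹ ⟨by positivity, h1.le⟩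
    push_cast at ht
    refine ⟨t, ht, hM, ?_, ?_⟩
    · rw [ht, hi.th0, dist_eq_norm, ← Complex.ofReal_natCast, ← Complex.ofReal_sub,
        Complex.norm_real, Real.norm_eq_abs] at h3
      exact h3
    · rw [ht] at h2
      refine Complex.ofReal_injective ?_
      push_cast
      exact h2
  filter_upwards [eventually_all.2 key, eventually_ge_atTop 8, eventually_ge_atTop (M + g)]
    with b hb h8 hM
  choose t ht using hb
  refine ⟨h8, t, fun i j e => ?_, fun i => ⟨(ht i).1, (ht i).2.2.2, ?_, ?_⟩⟩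
  · have a := abs_lt.1 (ht i).2.2.1
    have a' := abs_lt.1 (ht j).2.2.1
    rw [e] at a
    have b1 : ((i : ℕ) : ℝ) < (j : ℕ) + 1 := by linarith
    have b2 : ((j : ℕ) : ℝ) < (i : ℕ) + 1 := by linarith
    have c1 : (i : ℕ) < j + 1 := by exact_mod_cast b1
    have c2 : (j : ℕ) < i + 1 := by exact_mod_cast b2
    exact Fin.ext (by omega)
  · have hg : (0 : ℝ) < g := by exact_mod_cast (h i).gpos
    have hb : (0 : ℝ) < b := by exact_mod_cast (by omega : 0 < b)
    have := (ht i).2.1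
    unfold mu
    positivity
  · have hg : (1 : ℝ) ≤ g := by exact_mod_cast (h i).gpos
    have hb : (0 : ℝ) < b := by exact_mod_cast (by omega : 0 < b)
    have hM' : (M : ℝ) + g ≤ b := by exact_mod_cast hM
    have hi : ((i : ℕ) : ℝ) + 1 ≤ g := by exact_mod_cast i.2
    have a := abs_lt.1 (ht i).2.2.1
    have h1 : (M + t i) * (b : ℝ)⁻¹ < 1 := by
      rw [← div_eq_mul_inv, div_lt_one hb]; linarith
    unfold mu
    rw [div_lt_iff₀ (by positivity)]
    linarith

end Pool.Agent.P.MP_e5b57f_nt.GD
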