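import Pool.Agent.P.MP_e5b57f_nt.GD.Iface

/-! The complete elliptic integral along a nice germ is a G-series. -/

namespace Pool.Agent.P.MP_e5b57f_nt.GD

open PowerSeries Filter Topology Finset
open scoped Polynomial

theorem s_GSF (hEV : S_EV) (hPF1 : S_PF1) (hBD2 : S_BD2) (hSSD : S_SSD) (hDENS : S_DENS)
    (hQDEN : S_QDEN) (hDFS : S_DFS) : S_GSF := by
  intro N l hN hl
  obtain ⟨B, e, hB, he, -, hX, hd⟩ := hEV (fun _ => 0) l analyticAt_const hl.an hl.zero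
  obtain ⟨-, bT, -, bX, -, bF, -⟩ := hBD2
  change GS (Ev Fq (fun _ => 0) l)
  refine ⟨hDENS Fq _ _ _ N hN hQDEN.1 (hd Fq bF).2 (fun n => ⟨0, by simp [tay_zero]⟩) hl.int
    (by rw [constantCoeff_tay, hl.zero]),
    gr_tay (hSSD Fq _ l 0 bF analyticAt_const hl.an (by simp [Dom, hl.zero])).1, ?_⟩
  have d0 := (hd Fq bF).1
  have d1 := (hd _ (bT _ bF)).1
  rw [tay_zero, map_zero, zero_mul, zero_add] at d0 d1
  have k : 4 * tay l * (1 - tay l) * Ev (dT (dT Fq)) (fun _ => 0) l +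
      4 * (1 - 2 * tay l) * Ev (dT Fq) (fun _ => 0) l = Ev Fq (fun _ => 0) l := by
    let x : B := ⟨X, (hB _).2 bX⟩
    let f0 : B := ⟨Fq, (hB _).2 bF⟩
    let f1 : B := ⟨dT Fq, (hB _).2 (bT _ bF)⟩
    let f2 : B := ⟨dT (dT Fq), (hB _).2 (bT _ (bT _ bF))⟩
    have : 4 * x * (1 - x) * f2 + 4 * (1 - 2 * x) * f1 = f0 := Subtype.ext hPF1.2.2.1
    have := congrArg e this
    simp only [map_add, map_mul, map_sub, map_one, map_ofNat] at this
    rwa [he x, he f0, he f1, he f2, hX] at this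
  have aL := hl.alg
  have aD := hDFS.1 _ aL
  have a4 : Alg 4 := isAlgebraic_natCast 4
  have a2 : Alg 2 := isAlgebraic_natCast 2
  have n1 : 1 - tay l ≠ 0 := fun h => by
    simpa [constantCoeff_tay, hl.zero] using congrArg constantCoeff h
  have n4 : (4 : ℂ⟦X⟧) ≠ 0 := fun h => by
    simpa [map_ofNat] using congrArg constantCoeff h
  refine hDFS.2.2 2 ![Ev Fq (fun _ => 0) l, Ev (dT Fq) (fun _ => 0) l]
    ![1, 4 * tay l * (1 - tay l)] 0
    ![![0, d⁄dX ℂ (tay l)], ![d⁄dX ℂ (tay l), -(d⁄dX ℂ (tay l) * (4 * (1 - 2 * tay l)))]]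
    (Fin.forall_fin_two.2 ⟨⟨isAlgebraic_one, one_ne_zero, isAlgebraic_zero,
      Fin.forall_fin_two.2 ⟨isAlgebraic_zero, aD⟩⟩,
      (a4.mul aL).mul (isAlgebraic_one.sub aL), mul_ne_zero (mul_ne_zero n4 hl.ne) n1,
      isAlgebraic_zero,
      Fin.forall_fin_two.2 ⟨aD, (aD.mul (a4.mul (isAlgebraic_one.sub (a2.mul aL)))).neg⟩⟩)
    (Fin.forall_fin_two.2 ⟨by simp [d0], ?_⟩) 0
  simp only [Fin.sum_univ_two, Matrix.cons_val_zero, Matrix.cons_val_one, Pi.zero_apply, d1]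
  linear_combination d⁄dX ℂ (tay l) * k

end Pool.Agent.P.MP_e5b57f_nt.GD
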