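import Pool.Agent.P.MP_e5b57f_nt.GD.Base

/-! The statements of the steps of the proof. -/

namespace Pool.Agent.P.MP_e5b57f_nt.GD

open PowerSeries Filter Topology Finset
open scoped Polynomial

/-! ### Values of G-series -/

def S_WR : Prop := ∀ (n : ℕ) (g : Fin n → ℚ⟦X⟧), LinearIndependent ℚ g →
  (Matrix.of fun k l : Fin n => (fun f : ℚ⟦X⟧ => d⁄dX ℚ f)^[k] (g l)).det ≠ 0

def S_FUND : Prop := ∀ (n : ℕ) (B : Fin n → Fin n → ℚ⟦X⟧), ∃ Z : Fin n → Fin n → ℚ⟦X⟧,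
  (∀ i l, d⁄dX ℚ (Z i l) = ∑ j, B i j * Z j l) ∧
    ∀ i l, constantCoeff (Z i l) = if i = l then 1 else 0

/-- The matrix of the first iterates. -/
noncomputable def itM {n : ℕ} (T : ℚ[X]) (A : Fin n → Fin n → ℚ[X]) (W : Fin n → ℚ[X]) :
    Matrix (Fin n) (Fin n) ℚ[X] := Matrix.of fun k i => iter T A W k i

/-- The lemma of Shidlovskii. -/
def ShP {n : ℕ} (T : ℚ[X]) (A : Fin n → Fin n → ℚ[X]) : Prop :=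
  ∃ c : ℕ, ∀ W : Fin n → ℚ[X], (itM T A W).det = 0 →
    ∃ v : Fin n → ℚ[X], v ≠ 0 ∧ (∀ i, (v i).natDegree ≤ c) ∧ ∑ i, v i * W i = 0

def S_SH0 : Prop := ∀ (n : ℕ) (T : ℚ[X]) (A : Fin n → Fin n → ℚ[X]), T.coeff 0 ≠ 0 → ShP T A

def S_SH : Prop := ∀ (n : ℕ) (T : ℚ[X]) (A : Fin n → Fin n → ℚ[X]), T ≠ 0 → ShP T A

def S_ORD : Prop := ∀ (n : ℕ) (y : Fin n → ℚ⟦X⟧),
  (∀ v : Fin n → ℚ[X], ∑ i, (v i : ℚ⟦X⟧) * y i = 0 → v = 0) → ∀ c : ℕ, ∃ e : ℕ,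
    ∀ v : Fin n → ℚ[X], v ≠ 0 → (∀ i, (v i).natDegree ≤ c) →
      ¬(X : ℚ⟦X⟧) ^ e ∣ ∑ i, (v i : ℚ⟦X⟧) * y i

def S_ITER : Prop := ∀ (m : ℕ) (y : Fin (m + 1) → ℚ⟦X⟧) (T : ℚ[X])
  (A : Fin (m + 1) → Fin (m + 1) → ℚ[X]), Sys y T A → ∀ t : ℕ, T.natDegree ≤ t →
  (∀ i j, (A i j).natDegree ≤ t) → ∀ (W : Fin (m + 1) → ℚ[X]) (N E : ℕ), Pade y W N E → ∀ k : ℕ,
    iter T A W k 0 = T ^ k * Polynomial.derivative^[k] (W 0) ∧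
      Pade y (iter T A W k) (N + k * t) (E - k)

def S_SPAN : Prop := ∀ (n : ℕ) (T : ℚ[X]) (A : Fin n → Fin n → ℚ[X]) (W : Fin n → ℚ[X]) (ξ : ℚ),
  T.eval ξ ≠ 0 → (itM T A W).det ≠ 0 → ∀ γ : Fin n → ℚ, γ ≠ 0 →
    ∃ k, k < n + (itM T A W).det.rootMultiplicity ξ ∧ ∑ i, γ i * (iter T A W k i).eval ξ ≠ 0

def S_ZL : Prop := ∀ (m : ℕ) (y : Fin (m + 1) → ℚ⟦X⟧) (T : ℚ[X])
  (A : Fin (m + 1) → Fin (m + 1) → ℚ[X]), Sys y T A → ∃ c : ℕ,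
  ∀ (W : Fin (m + 1) → ℚ[X]) (N M : ℕ), W 0 ≠ 0 → c ≤ M → Pade y W N (N + M) →
    ∀ ξ : ℚ, ξ ≠ 0 → T.eval ξ ≠ 0 → ∀ γ : Fin (m + 1) → ℚ, γ ≠ 0 →
      ∃ k, k + m * M ≤ N + c ∧ ∑ i, γ i * (iter T A W k i).eval ξ ≠ 0

def S_PADE : Prop := ∀ (m : ℕ) (y : Fin (m + 1) → ℚ⟦X⟧) (C : ℕ), y 0 = 1 → Unif y C →
  ∀ κ : ℕ, ∃ C' : ℕ, ∀ L : ℕ, 0 < L → ∃ (Q : ℤ[X]) (W : Fin (m + 1) → ℚ[X]), Q ≠ 0 ∧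
    W 0 = Q.map (Int.castRingHom ℚ) ∧ Pade y W (m * (κ * L) + L) (m * (κ * L) + L + κ * L) ∧
      ∀ j, |Q.coeff j| ≤ (C' : ℤ) ^ L

def S_KEY : Prop := ∀ (m : ℕ) (y : Fin (m + 1) → ℚ⟦X⟧) (C : ℕ), Unif y C →
  ∀ (q : ℤ[X]) (V : Fin (m + 1) → ℚ[X]) (n E H b : ℕ) (γ : Fin (m + 1) → ℤ),
    V 0 = q.map (Int.castRingHom ℚ) → Pade y V n E → n < E → (∀ j, |q.coeff j| ≤ H) →
    2 * C ≤ b → ∑ i, (γ i : ℂ) * ev (up (y i)) (b : ℂ)⁻¹ = 0 →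
    ∑ i, (γ i : ℚ) * (V i).eval (b : ℚ)⁻¹ ≠ 0 →
      (b : ℝ) ^ (E - n) ≤ 2 * (∑ i, |(γ i : ℝ)|) * (n + 1) * H * C ^ (n + 1) * C ^ (E + 1)

def S_HAS : Prop := ∀ T : ℤ[X], ∃ τ : ℕ, ∀ (Q : ℤ[X]) (k N H : ℕ), Q.natDegree ≤ N →
  (∀ j, |Q.coeff j| ≤ H) → ∃ q : ℤ[X],
    Polynomial.C (k.factorial : ℚ) * q.map (Int.castRingHom ℚ) = T.map (Int.castRingHom ℚ) ^ k *
      Polynomial.derivative^[k] (Q.map (Int.castRingHom ℚ)) ∧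
    ∀ j, |q.coeff j| ≤ ((τ ^ k * 2 ^ N * (N + 1) * H : ℕ) : ℤ)

def S_GF0 : Prop := ∀ (m : ℕ) (y : Fin (m + 1) → ℚ⟦X⟧) (T : ℤ[X])
  (A : Fin (m + 1) → Fin (m + 1) → ℚ[X]) (C : ℕ), Sys y (T.map (Int.castRingHom ℚ)) A →
  Unif y C → ∀ᶠ b : ℕ in atTop, LinearIndependent ℚ fun i => ev (up (y i)) (b : ℂ)⁻¹

def S_GC : Prop := (∀ f, Den f → Den (d⁄dX ℂ f)) ∧ (∀ f, Gr f → Gr (d⁄dX ℂ f)) ∧
  (∀ f g, Den f → Den g → Den (f * g)) ∧ Den 1 ∧ Gr 1 ∧ (∀ f, GB f → Den f) ∧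
  ∀ (n : ℕ) (y : Fin n → ℂ⟦X⟧), (∀ i, Den (y i) ∧ Gr (y i)) →
    ∃ (y' : Fin n → ℚ⟦X⟧) (C : ℕ), (∀ i, up (y' i) = y i) ∧ Unif y' C

def S_EVL : Prop := ∀ (n : ℕ) (y : Fin n → ℂ⟦X⟧) (f : ℂ⟦X⟧) (T : ℚ[X]) (r : Fin n → ℚ[X]),
  Gr f → (∀ j, Gr (y j)) → T • f = ∑ j, r j • y j → ∀ᶠ z in 𝓝 (0 : ℂ),
    Polynomial.aeval z T * ev f z = ∑ j, Polynomial.aeval z (r j) * ev (y j) z

def S_BASIS : Prop := ∀ (ι : Type) [Fintype ι] (f : ι → ℂ⟦X⟧), (∀ i, GS (f i)) →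
  ∃ (m : ℕ) (y : Fin (m + 1) → ℂ⟦X⟧), y 0 = 1 ∧ (∀ j, Den (y j) ∧ Gr (y j)) ∧
    LinearIndependent ℚ[X] y ∧ (∀ j, Sat (Set.range y) (d⁄dX ℂ (y j))) ∧
      ∀ i, Sat (Set.range y) (f i)

def S_SPEC : Prop := ∀ (ι : Type) [Fintype ι] (n : ℕ) (r : ι → Fin n → ℚ[X]),
  LinearIndependent ℚ[X] r → ∃ D : ℚ[X], D ≠ 0 ∧ ∀ ξ : ℚ, D.eval ξ ≠ 0 →
    LinearIndependent ℚ fun i j => (r i j).eval ξ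

def S_GF : Prop := ∀ (ι : Type) [Fintype ι] (f : ι → ℂ⟦X⟧), (∀ i, GS (f i)) →
  LinearIndependent ℚ[X] f →
    ∀ᶠ b : ℕ in atTop, LinearIndependent ℚ fun i => ev (f i) (b : ℂ)⁻¹

/-! ### Closure properties -/

def S_DFM : Prop := DF 1 ∧ ∀ f g, DF f → DF g → DF (f * g)

def S_AFLD : Prop := ∀ A : Set ℂ⟦X⟧, A.Finite → (∀ a ∈ A, Alg a) → ∃ S : Set ℂ⟦X⟧, S.Finite ∧
  Sat S 1 ∧ (∀ a ∈ A, Sat S a) ∧ (∀ u, Sat S u → Alg u) ∧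
  (∀ u v, Sat S u → Sat S v → Sat S (u * v)) ∧ (∀ u, Sat S u → Sat S (d⁄dX ℂ u)) ∧
  ∀ u, Sat S u → u ≠ 0 → ∃ (u' : ℂ⟦X⟧) (T : ℚ[X]), T ≠ 0 ∧ Sat S u' ∧
    u * u' = algebraMap ℚ[X] ℂ⟦X⟧ T

def S_DFS : Prop := (∀ f, Alg f → Alg (d⁄dX ℂ f)) ∧ (∀ f, Alg f → DF f) ∧
  ∀ (n : ℕ) (y b a₀ : Fin n → ℂ⟦X⟧) (a : Fin n → Fin n → ℂ⟦X⟧),
    (∀ i, Alg (b i) ∧ b i ≠ 0 ∧ Alg (a₀ i) ∧ ∀ j, Alg (a i j)) →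
    (∀ i, b i * d⁄dX ℂ (y i) = a₀ i + ∑ j, a i j * y j) → ∀ i, DF (y i)

def S_GB : Prop := (∀ f g, GB f → GB g → GB (f + g)) ∧ (∀ f g, GB f → GB g → GB (f * g)) ∧
  (∀ f, GB f → GB (-f)) ∧ (∀ c : ℚ, GB (C (c : ℂ))) ∧ GB X ∧
  (∀ f g, GB f → f * g = 1 → GB g) ∧
  (∀ f, GB f → constantCoeff f = 0 → ∃ N, 0 < N ∧ IntN N f) ∧
  ∀ N N' f, IntN N f → IntN (N * N') f

def S_GBT : Prop := ∀ (g i : ℕ) (Θ W : ℂ⟦X⟧), i < g → constantCoeff Θ = i → constantCoeff W = 0 →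
  GB W → ∏ l ∈ range g, (Θ - (l : ℂ⟦X⟧)) = W → GB Θ

/-! ### Series in two variables -/

def S_BD1 : Prop := ∃ B : Subring ℚ[X]⟦X⟧, ∀ q, q ∈ B ↔ Bd q

def S_BD2 : Prop := (∀ q, Bd q → Bd (dL q)) ∧ (∀ q, Bd q → Bd (dT q)) ∧ (∀ c : ℚ[X], Bd (C c)) ∧
  Bd X ∧ (∀ q K, Bd q → Bd (mk fun n => coeff (n + K) q)) ∧ Bd Fq ∧ Bd Yq ∧ Bd Uq

def S_SSU : Prop := ∀ q, Bd q → ∀ μ τ : ℝ, 1 ≤ μ → 0 ≤ τ → μ * τ < 1 →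
  ∃ u : ℕ → ℝ, Summable u ∧ ∀ (n : ℕ) (l t : ℂ), ‖l‖ ≤ μ → ‖t‖ ≤ τ →
    ‖Polynomial.aeval l (coeff n q) * t ^ n‖ ≤ u n

def S_SSR : Prop := ∀ l t : ℂ, Dom l t → ∃ (B : Subring ℚ[X]⟦X⟧) (e : B →+* ℂ),
  (∀ q, q ∈ B ↔ Bd q) ∧ (∀ q : B, e q = SS q l t) ∧
    (∀ c : ℚ[X], SS (C c) l t = Polynomial.aeval l c) ∧ SS X l t = t

def S_SSD : Prop := ∀ (q : ℚ[X]⟦X⟧) (l t : ℂ → ℂ) (z : ℂ), Bd q → AnalyticAt ℂ l z →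
  AnalyticAt ℂ t z → Dom (l z) (t z) → AnalyticAt ℂ (fun z => SS q (l z) (t z)) z ∧
    deriv (fun z => SS q (l z) (t z)) z =
      deriv l z * SS (dL q) (l z) (t z) + deriv t z * SS (dT q) (l z) (t z)

def S_EV : Prop := ∀ l t : ℂ → ℂ, AnalyticAt ℂ l 0 → AnalyticAt ℂ t 0 → t 0 = 0 →
  ∃ (B : Subring ℚ[X]⟦X⟧) (e : B →+* ℂ⟦X⟧), (∀ q, q ∈ B ↔ Bd q) ∧ (∀ q : B, e q = Ev q l t) ∧
    (∀ c : ℚ[X], Ev (C c) l t = Polynomial.aeval (tay l) c) ∧ Ev X l t = tay t ∧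
    ∀ q, Bd q → d⁄dX ℂ (Ev q l t) =
        d⁄dX ℂ (tay l) * Ev (dL q) l t + d⁄dX ℂ (tay t) * Ev (dT q) l t ∧
      Sub q (tay l) (tay t) (Ev q l t)

def S_PF1 : Prop := Yq ^ 2 * (1 - X) * (1 - Lam * X) = 1 ∧
  2 * (1 - Lam * X) * dL Yq = X * Yq ∧
  4 * X * (1 - X) * dT (dT Fq) + 4 * (1 - 2 * X) * dT Fq = Fq ∧ dL Fq = 0

def S_PF2 : Prop := Uq + 2 * X * dT Uq = Yq ∧ dL Uq + 2 * X * dT (dL Uq) = dL Yq ∧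
  (1 - Lam * X) * (4 * Lam * (1 - Lam) * dL (dL Uq) + 4 * (1 - 2 * Lam) * dL Uq - Uq) =
    -((1 - X) * Yq)

/-- Common denominators of a series in two variables. -/
def Den2 (q : ℚ[X]⟦X⟧) : Prop := ∃ C : ℕ, ∀ n, ∃ d : ℕ, 0 < d ∧ d ≤ C ^ (n + 1) ∧
  ∀ k ≤ n, ∀ j, ∃ a : ℤ, (d : ℚ) * (coeff k q).coeff j = a

def S_QDEN : Prop := Den2 Fq ∧ Den2 Uq

def S_DENS : Prop := ∀ (q : ℚ[X]⟦X⟧) (l t u : ℂ⟦X⟧) (N : ℕ), 0 < N → Den2 q → Sub q l t u →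
  IntN N l → IntN N t → constantCoeff t = 0 → Den u

/-- An analytic germ that vanishes at the origin, with an algebraic and integral Taylor series. -/
structure Nice (N : ℕ) (l : ℂ → ℂ) : Prop where
  an : AnalyticAt ℂ l 0
  zero : l 0 = 0
  int : IntN N (tay l)
  alg : Alg (tay l)
  ne : tay l ≠ 0

def S_GSF : Prop := ∀ (N : ℕ) (l : ℂ → ℂ), 0 < N → Nice N l → GS (tay fun z => FF (l z))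

def S_GSU : Prop := ∀ (N : ℕ) (l s : ℂ → ℂ), 0 < N → Nice N l → Nice N s →
  GS (tay fun z => UU (l z) (s z))

/-! ### Functional independence -/

def S_BRA : Prop := ∀ (g M i : ℕ) (θ w : ℂ → ℂ) (ρ : ℝ), Br g M i θ w ρ →
  Hit (fun z => lam g M (θ z) (w z)) ρ ∧ ∀ x ∈ Set.Icc 0 ρ, ∀ a,
    AnalyticAt ℂ (fun z => sr a (w z)) (x : ℝ) ∧
      Dom (lam g M (θ (x : ℝ)) (w (x : ℝ))) (sr a (w (x : ℝ)) ^ 2)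

def S_BRS : Prop := ∀ (g M i : ℕ) (θ w : ℂ → ℂ) (ρ : ℝ), Br g M i θ w ρ →
  ∃ N, 0 < N ∧ Nice N (fun z => lam g M (θ z) (w z)) ∧ ∀ a, Nice N fun z => sr a (w z)

def S_PINT : Prop := ∀ p : ℕ, p.Prime → 2 < p → ∃ (D : ℕ) (e : ℕ → ℤ[X]) (e₀ : ℤ[X]), D ≠ 0 ∧
  ¬(p : ℤ) ∣ e₀.coeff 0 ∧ ∀ k < p, Polynomial.C ((p * D : ℕ) : ℚ) * coeff k Uq =
    (if 2 * k + 1 = p then e₀ else Polynomial.C (p : ℤ) * e k).map (Int.castRingHom ℚ)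

def S_PMOD : Prop := ∀ (p : ℕ) (f g e : ℤ[X]) (l s r A : ℤ⟦X⟧), p.Prime → constantCoeff l = 0 →
  constantCoeff s = 0 → constantCoeff r = 0 → ¬(p : ℤ) ∣ e.coeff 0 → f.natDegree < p →
  g.natDegree < p → (X : ℤ⟦X⟧) ^ (2 * p) ∣
    Polynomial.aeval l e * ((f : ℤ⟦X⟧) * s ^ p + (g : ℤ⟦X⟧) * r ^ p) + (p : ℤ⟦X⟧) * A →
    ∀ j, (p : ℤ) ∣ f.coeff j * coeff 1 s + g.coeff j * coeff 1 r

def S_PAD : Prop := ∀ (N : ℕ) (l s r u v : ℂ⟦X⟧), 0 < N → IntN N l → IntN N s → IntN N r →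
  constantCoeff l = 0 → constantCoeff s = 0 → constantCoeff r = 0 → coeff 1 s = 2 →
  coeff 1 r = 4 → Sub Uq l (s ^ 2) u → Sub Uq l (r ^ 2) v →
    ∀ p q : ℚ[X], p • (s * u) + q • (r * v) = 0 → p + 2 * q = 0

def S_NPR : Prop := ∀ w l s r u v : ℂ⟦X⟧, constantCoeff w = 0 → coeff 1 w = 1 →
  constantCoeff l = 0 → s * (1 + w ^ 2) = 2 * w → r * (1 + 4 * w ^ 2) = 4 * w →
  Sub Uq l (s ^ 2) u → Sub Uq l (r ^ 2) v → r * v ≠ 2 * (s * u)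

def S_UIND : Prop := ∀ (g M i : ℕ) (θ w : ℂ → ℂ) (ρ : ℝ), Br g M i θ w ρ → ∀ p : Bool → ℚ[X],
  ∑ a, p a • tay (fun z => UU (lam g M (θ z) (w z)) (sr a (w z))) = 0 → p = 0

def S_FFR : Prop := ∀ x : ℝ, 0 ≤ x → x < 1 → ∃ φ : ℝ, FF x = φ ∧ 1 ≤ φ ∧
  φ ≤ 1 - Real.log (1 - x) ∧ -Real.log (1 - x) / 4 ≤ φ

def S_SING : Prop := ∀ (l H G : ℂ → ℂ) (ρ : ℝ), AnalyticAt ℂ l ρ → AnalyticAt ℂ H ρ →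
  AnalyticAt ℂ G ρ → l ρ = 1 →
  (∀ᶠ x : ℝ in 𝓝[<] ρ, ∃ u : ℝ, l x = u ∧ 0 ≤ u ∧ u < 1 ∧ H x = G x * FF (l x)) →
    ∀ᶠ z in 𝓝 (ρ : ℂ), H z = 0

def S_IND : Prop := ∀ (J : Type) [Fintype J] (l H : J → ℂ → ℂ) (ρ : J → ℝ),
  Function.Injective ρ → (∀ j, 0 < ρ j ∧ Hit (l j) (ρ j) ∧
    ∀ x ∈ Set.Icc 0 (ρ j), AnalyticAt ℂ (H j) (x : ℝ)) →
  (∀ᶠ z in 𝓝 (0 : ℂ), ∑ j, H j z / FF (l j z) = 0) → ∀ j, ∀ᶠ z in 𝓝 (0 : ℂ), H j z = 0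

def S_LIF : Prop := ∀ (J : Type) [Fintype J] [DecidableEq J] (g M : ℕ) (i : J → ℕ)
  (θ w : J → ℂ → ℂ) (ρ : J → ℝ), Function.Injective ρ →
  (∀ j, Br g M (i j) (θ j) (w j) (ρ j)) → LinearIndependent ℚ[X] fun p : J × Bool =>
    tay fun z => UU (lam g M (θ p.1 z) (w p.1 z)) (sr p.2 (w p.1 z)) *
      ∏ j ∈ univ.erase p.1, FF (lam g M (θ j z) (w j z))

def S_LI : Prop := ∀ (J : Type) [Fintype J] (g M : ℕ) (i : J → ℕ) (θ w : J → ℂ → ℂ) (ρ : J → ℝ),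
  Function.Injective ρ → (∀ j, Br g M (i j) (θ j) (w j) (ρ j)) → ∀ᶠ b : ℕ in atTop,
    LinearIndependent ℚ fun p : J × Bool => BB g M (θ p.1 (b : ℂ)⁻¹) (w p.1 (b : ℂ)⁻¹) p.2

def S_INV : Prop := ∀ (g : ℕ) (ε : ℝ), 0 < ε → ∃ δ : ℝ, 0 < δ ∧ ∃ ϑ : Fin g → ℂ → ℂ, ∀ i,
  ϑ i 0 = (i : ℕ) ∧ ∀ z, ‖z‖ < δ → AnalyticAt ℂ (ϑ i) z ∧ ∏ l ∈ range g, (ϑ i z - l) = z ∧
    ‖ϑ i z - (i : ℕ)‖ < ε ∧ (z.im = 0 → (ϑ i z).im = 0)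

def S_HIT : Prop := ∀ (g M i : ℕ) (t : ℝ → ℝ) (δ : ℝ), i < g → 1000 * g ^ 2 ≤ M →
  2 * (g : ℝ) / M ≤ δ → ContinuousOn t (Set.Icc 0 δ) →
  (∀ x ∈ Set.Icc 0 δ, |t x - i| ≤ 1 / 4) → ∃ ρ, 0 < ρ ∧ ρ ≤ 2 * (g : ℝ) / M ∧
    lam g M (t ρ) ρ = 1 ∧ (∀ x ∈ Set.Ico 0 ρ, lam g M (t x) x < 1) ∧
      |1 / ρ - ((M : ℝ) + i) / g| < 1 / (2 * g)

def S_FAM : Prop := ∀ g : ℕ, 0 < g → ∃ M₀ : ℕ, ∀ M, M₀ ≤ M →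
  ∃ (ϑ : Fin g → ℂ → ℂ) (ρ : Fin g → ℝ), (∀ i : Fin g, Br g M i (ϑ i) (fun z => z) (ρ i)) ∧
    ∀ i j, i ≠ j → 0 < |1 / ρ i - 1 / ρ j| ∧ |1 / ρ i - 1 / ρ j| < 1

def S_SHIFT : Prop := ∀ (g M i : ℕ) (θ : ℂ → ℂ) (ρ : ℝ), Br g M i θ (fun z => z) ρ → ∀ k : ℕ,
  Br g M i (fun z => θ (z / (1 - k * z))) (fun z => z / (1 - k * z)) (ρ / (1 + k * ρ))

def S_EVT : Prop := ∀ (g M : ℕ) (ϑ : Fin g → ℂ → ℂ) (ρ : Fin g → ℝ),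
  (∀ i : Fin g, Br g M i (ϑ i) (fun z => z) (ρ i)) → ∀ᶠ b : ℕ in atTop, 8 ≤ b ∧
    ∃ t : Fin g → ℝ, Function.Injective t ∧ ∀ i, ϑ i (b : ℂ)⁻¹ = t i ∧
      ∏ l ∈ range g, (t i - l) = (b : ℝ)⁻¹ ∧ 0 < mu g M (t i) (b : ℝ)⁻¹ ∧
        mu g M (t i) (b : ℝ)⁻¹ < 1 / 4

/-- A nontrivial relation for the point with coordinates `m`, `n`. -/
def Exc {g : ℕ} (B : Fin g × Bool → ℂ) (m n : ℤ) : Prop :=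
  ∃ (c : Fin g → ℤ) (c₀ : ℤ), c ≠ 0 ∧
    ∑ i, (c i : ℂ) * (m * B (i, true) + n * B (i, false)) = Real.pi * c₀

def S_ELIM : Prop := ∀ g : ℕ,
  (∀ B : Fin g × Bool → ℂ, LinearIndependent ℚ B →
    ∃ u v : ℤ, (u, v) ≠ 0 ∧ ∀ m n, Exc B m n → m * v = n * u) ∧
  ∀ B : (Fin g × Bool) × Bool → ℂ, LinearIndependent ℚ B → ∀ m n m' n' : ℤ, (m, n) ≠ 0 →
    (m', n') ≠ 0 → Exc (fun p => B ((p.1, true), p.2)) m n →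
      ¬Exc (fun p => B ((p.1, false), p.2)) m' n'

/-! ### Real points -/

def S_AM : Prop := ∀ l : ℝ, 0 ≤ l → l < 1 → ∃ S C D, Jac l S C D

def S_ADD : Prop := ∀ (l : ℝ) (S C D : ℝ → ℝ), 0 ≤ l → l < 1 → Jac l S C D → ∀ u v,
  S (u + v) * (1 - l * S u ^ 2 * S v ^ 2) = S u * C v * D v + S v * C u * D u ∧
  C (u + v) * (1 - l * S u ^ 2 * S v ^ 2) = C u * C v - S u * S v * D u * D v ∧
  D (u + v) * (1 - l * S u ^ 2 * S v ^ 2) = D u * D v - l * S u * S v * C u * C v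

def S_CHORD : Prop := ∀ α β ρ l s c d s' c' d' S C D : ℝ, α ≠ 0 → ρ ^ 2 = α → l * α = β →
  s ^ 2 + c ^ 2 = 1 → d ^ 2 + l * s ^ 2 = 1 → s' ^ 2 + c' ^ 2 = 1 → d' ^ 2 + l * s' ^ 2 = 1 →
  s ≠ 0 → s' ≠ 0 → S ≠ 0 → s ^ 2 ≠ s' ^ 2 → 1 - l * s ^ 2 * s' ^ 2 ≠ 0 →
  S * (1 - l * s ^ 2 * s' ^ 2) = s * c' * d' + s' * c * d →
  C * (1 - l * s ^ 2 * s' ^ 2) = c * c' - s * s' * d * d' →
  D * (1 - l * s ^ 2 * s' ^ 2) = d * d' - l * s * s' * c * c' →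
  ∀ (h : (leg α β).toAffine.Nonsingular (α / s ^ 2) (α * ρ * c * d / s ^ 3))
    (h' : (leg α β).toAffine.Nonsingular (α / s' ^ 2) (α * ρ * c' * d' / s' ^ 3)),
    op (.some _ _ h + .some _ _ h' : (leg α β).toAffine.Point) =
      OnePoint.some (α / S ^ 2, α * ρ * C * D / S ^ 3)

def S_HOM : Prop := ∀ (α β : ℝ) (S C D : ℝ → ℝ), 0 < β → β < α → Jac (β / α) S C D →
  ∃ Φ : ℝ →+ (leg α β).toAffine.Point, ∀ u, (S u = 0 → Φ u = 0) ∧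
    (S u ≠ 0 → op (Φ u) = OnePoint.some (α / S u ^ 2, α * √α * C u * D u / S u ^ 3))

def S_CONT : Prop := ∀ (α : ℝ) (S Y : ℝ → ℝ) (f : ℝ → OnePoint (ℝ × ℝ)), 0 < α → Continuous S →
  Continuous Y → (∀ u, S u = 0 → f u = OnePoint.infty) →
  (∀ u, S u ≠ 0 → f u = OnePoint.some (α / S u ^ 2, Y u / S u ^ 3)) → Continuous f

def S_UNI : Prop := ∀ α β : ℝ, 0 < β → β < α → ∃ Φ, Par α β Φ

def S_YV : Prop := ∀ l t : ℝ, 0 ≤ l → l < 1 → 0 ≤ t → t < 1 →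
  SS Yq l t = ((√(1 - t) * √(1 - l * t))⁻¹ : ℝ)

def S_INT1 : Prop := ∀ l : ℝ, 0 ≤ l → l < 1 → (KI l Real.pi : ℂ) = Real.pi * FF l

def S_INT2 : Prop := ∀ l s : ℝ, 0 ≤ l → l < 1 → 0 ≤ s → s < 1 →
  (KI l (Real.arcsin s) : ℂ) = UU l s

def S_EQN : Prop := ∀ (K : Type) [Field K] (g M : ℕ) (θ z : K) (a : Bool), (2 : K) ≠ 0 → z ≠ 0 →
  1 + z ^ 2 ≠ 0 → 1 + 4 * z ^ 2 ≠ 0 → yc g M θ z a ^ 2 = al g M θ z / sr a z ^ 2 *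
    (al g M θ z / sr a z ^ 2 - al g M θ z) * (al g M θ z / sr a z ^ 2 - 4 * mu g M θ z)

def S_RPT : Prop := ∀ (g M : ℕ) (t z : ℝ), 0 < z → z ≤ 1 / 8 → 0 < mu g M t z →
  mu g M t z < 1 / 4 → 4 * mu g M t z < al g M t z ∧
    ∃ Φ, Par (al g M t z) (4 * mu g M t z) Φ ∧ ∀ a, ∃ τ : ℝ, BB g M t z a = Real.pi * τ ∧
      op (Φ τ) = OnePoint.some (al g M t z / sr a z ^ 2, yc g M t z a)

def S_KRO : Prop := ∀ (ι : Type) [Fintype ι] (β x : ι → ℝ),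
  (∀ (c : ι → ℤ) (c₀ : ℤ), ∑ i, c i * β i = c₀ → ∃ c₁ : ℤ, ∑ i, c i * x i = c₁) →
    ∀ ε : ℝ, 0 < ε → ∃ (n : ℤ) (k : ι → ℤ), ∀ i, |n * β i - k i - x i| < ε

def S_PMAP : Prop := ∀ (K : Type) [Field K] [DecidableEq K] (σ : K →+* ℝ) (α β α' β' : _),
  σ α = α' → σ β = β' → ∃ f : (leg α β).toAffine.Point →+ (leg α' β').toAffine.Point,
    ∀ P, op (f P) = toReal P σ

def S_COMP : Prop := ∀ (K : Type) [Field K] (α β : K), (∀ σ : K →+* ℝ, 0 < σ β ∧ σ β < σ α) →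
  ∀ f ∈ idComp (leg α β), ∀ σ, f σ = OnePoint.infty ∨ ∃ x y : ℝ, f σ = OnePoint.some (x, y) ∧
    y ^ 2 = x * (x - σ α) * (x - σ β) ∧ σ α ≤ x

def S_DENSE : Prop := ∀ (K : Type) [Field K] [DecidableEq K] [Fintype (K →+* ℝ)] (α β : K)
  (P : (leg α β).toAffine.Point) (α' β' t : (K →+* ℝ) → ℝ)
  (Φ : ∀ σ, ℝ →+ (leg (α' σ) (β' σ)).toAffine.Point) (k : ℤ),
  (∀ σ, σ α = α' σ ∧ σ β = β' σ ∧ 0 < β' σ ∧ β' σ < α' σ ∧ Par (α' σ) (β' σ) (Φ σ) ∧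
    toReal (k • P) σ = op (Φ σ (t σ))) →
  (∀ (c : (K →+* ℝ) → ℤ) (c₀ : ℤ), ∑ σ, c σ * t σ = c₀ → c = 0) → DenseMult P

/-! ### The number field and the conjugate curves -/

def S_IRR : Prop := ∀ g b : ℕ, 0 < g → 0 < b → Irreducible
  (Polynomial.C (b : ℤ) * ∏ l ∈ range g, (Polynomial.X - Polynomial.C (l : ℤ)) - 1 : ℤ[X])

def S_NF : Prop := ∀ (g b : ℕ) (K : Type) [Field K] [NumberField K] (θ : K) (t : Fin g → ℝ),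
  0 < g → 0 < b → ∏ l ∈ range g, (θ - l) = (b : K)⁻¹ → Algebra.adjoin ℚ {θ} = ⊤ →
  Function.Injective t → (∀ i, ∏ l ∈ range g, (t i - l) = (b : ℝ)⁻¹) →
    Module.finrank ℚ K = g ∧ NumberField.IsTotallyReal K ∧ Nonempty (K →+* ℝ) ∧
    (∃ e : (K →+* ℝ) → Fin g, Function.Injective e ∧ ∀ σ, σ θ = t (e σ)) ∧
      ∀ σ τ : K →+* ℂ, σ θ = τ θ → σ = τ

def S_RES : Prop := ∀ (q : ℤ[X]) (u v : ℤ), q.Monic → ¬v ∣ u → ∃ R : ℤ, R ≠ 0 ∧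
  ∀ (k : Type) [CommRing k] (y : k), Polynomial.aeval y q = 0 → u + v * y = 0 → (R : k) = 0

def S_VEX : Prop := ∀ (f : ℤ[X]) (θ : ℂ) (a : ℤ) (p : ℕ), Irreducible f → 0 < f.natDegree →
  Polynomial.aeval θ f = 0 → p.Prime → (p : ℤ) ∣ f.eval a → ∃ B : ValuationSubring ℂ,
    B.valuation (θ - a) < 1 ∧ ∀ n : ℤ, B.valuation n < 1 ↔ (p : ℤ) ∣ n

def S_RFLD : Prop := ∀ g M : ℕ, 0 < g → 4 * g < M → ∃ N : ℕ, 0 < N ∧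
  ∀ (k : Type) [Field k] (y : k), (N : k) ≠ 0 → ∀ z : k, z = ∏ l ∈ range g, (-(M : k) - l) →
    (∀ q : ℤ[X], (Polynomial.X + Polynomial.C (M : ℤ)) * q =
      ∏ l ∈ range g, (Polynomial.X - Polynomial.C (l : ℤ)) -
        Polynomial.C (∏ l ∈ range g, (-(M : ℤ) - l)) → Polynomial.aeval y q = 0) →
    (2 : k) ≠ 0 ∧ (g : k) ≠ 0 ∧ 1 + z ^ 2 ≠ 0 ∧ 1 + 4 * z ^ 2 ≠ 0 ∧ M + y ≠ 0 ∧
      al g M y z ≠ 0 ∧ al g M y z - 4 * mu g M y z ≠ 0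

def S_VAL : Prop := ∀ g M : ℕ, 0 < g → 4 * g < M → ∃ N : ℕ, 0 < N ∧ ∀ b : ℕ, 0 < b → N ∣ b →
  ∀ θ θ' : ℂ, θ ≠ θ' → ∏ l ∈ range g, (θ - l) = (b : ℂ)⁻¹ → ∏ l ∈ range g, (θ' - l) = (b : ℂ)⁻¹ →
    ∃ B, Sep B (al g M θ (b : ℂ)⁻¹) (4 * mu g M θ (b : ℂ)⁻¹) (al g M θ' (b : ℂ)⁻¹)
      (4 * mu g M θ' (b : ℂ)⁻¹)

def S_XF : Prop := ∀ (α β x y : ℂ) (h : (leg α β).toAffine.Nonsingular x y),
  y ^ 2 = x * (x - α) * (x - β) ∧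
  (y = 0 → (.some x y h + .some x y h : (leg α β).toAffine.Point) = 0) ∧
  (y ≠ 0 → ∃ x₃ y₃ h₃, (.some x y h + .some x y h : (leg α β).toAffine.Point) = .some x₃ y₃ h₃ ∧
    x₃ * (4 * y ^ 2) = (x ^ 2 - α * β) ^ 2) ∧
  ∀ (x' y' : ℂ) (h' : (leg α β).toAffine.Nonsingular x' y'), x ≠ x' → ∃ x₃ y₃ h₃ x₄ y₄ h₄,
    (.some x y h + .some x' y' h' : (leg α β).toAffine.Point) = .some x₃ y₃ h₃ ∧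
    (.some x y h - .some x' y' h' : (leg α β).toAffine.Point) = .some x₄ y₄ h₄ ∧
    x₃ * x₄ * (x - x') ^ 2 = (x * x' - α * β) ^ 2 ∧
    (x₃ + x₄) * (x - x') ^ 2 = 2 * ((x + x') * (x * x' + α * β) - 2 * (α + β) * x * x')

def S_BAD : Prop := ∀ (B : ValuationSubring ℂ) (α β : ℂ), B.valuation 2 = 1 →
  B.valuation α = 1 → B.valuation β < 1 → β ≠ 0 →
  ∃ (x y : ℕ → ℂ) (h : ∀ n, (leg α β).toAffine.Nonsingular (x n) (y n)),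
    StrictMono (fun n => B.valuation (x n)) ∧
      ∀ n, ∃ k : ℕ, 2 ^ k • (.some _ _ (h n) : (leg α β).toAffine.Point) = 0

def S_GOOD : Prop := ∀ (B : ValuationSubring ℂ) (α β : ℂ), B.valuation 2 = 1 →
  B.valuation α = 1 → B.valuation β = 1 → B.valuation (α - β) = 1 →
  ∀ (x y : ℂ) (h : (leg α β).toAffine.Nonsingular x y),
    (∃ k : ℕ, 2 ^ k • (.some x y h : (leg α β).toAffine.Point) = 0) → B.valuation x ≤ 1 ∧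
    ∀ (x' y' : ℂ) (h' : (leg α β).toAffine.Nonsingular x' y'),
      (∃ k : ℕ, 2 ^ k • (.some x' y' h' : (leg α β).toAffine.Point) = 0) →
        B.valuation (x - x') < 1 → x = x'

def S_RAT : Prop := ∀ α β α' β' : ℂ, Isog (leg α β) (leg α' β') →
  ∃ (φ : (leg α β).toAffine.Point →+ (leg α' β').toAffine.Point) (p q : ℂ[X]), Finite φ.ker ∧
    Set.Finite {P | ¬∃ x y h x' y' h', P = .some x y h ∧ φ P = .some x' y' h' ∧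
      q.eval x ≠ 0 ∧ x' * q.eval x = p.eval x}

def S_ASY : Prop := ∀ (B : ValuationSubring ℂ) (x x' : ℕ → ℂ) (p q : ℂ[X]),
  StrictMono (fun n => B.valuation (x n)) →
  (∀ᶠ n in atTop, q.eval (x n) ≠ 0 ∧ x' n * q.eval (x n) = p.eval (x n) ∧
    B.valuation (x' n) ≤ 1) →
    ∃ n₀, ∀ n, n₀ ≤ n → B.valuation (x' n - x' n₀) < 1

def S_NISO : Prop := ∀ (B : ValuationSubring ℂ) (α β α' β' : ℂ), Sep B α β α' β' →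
  ¬Isog (leg α β) (leg α' β')

def S_GAP : Prop := ∀ X : Set ℕ, (∀ k, 0 < k → Set.Finite {b | b ∈ X ∧ b + k ∈ X}) →
  Tendsto (fun n : ℕ => ((X ∩ Set.Iio n).ncard : ℝ) / n) atTop (𝓝 0)

end Pool.Agent.P.MP_e5b57f_nt.GD
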