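import Pool.Agent.P.MP_e5b57f_nt.GD.Iface

/-! The inequality of Liouville type. -/

namespace Pool.Agent.P.MP_e5b57f_nt.GD

open PowerSeries Filter Topology Finset
open scoped Polynomial

namespace KEYx

lemma hasSum_mul {f : ℂ⟦X⟧} {z a : ℂ} (h : HasSum (fun n => coeff n f * z ^ n) a) (p : ℚ[X]) :
    HasSum (fun n => coeff n (up p * f) * z ^ n) (Polynomial.aeval z p * a) := by
  induction p using Polynomial.induction_on' with
  | add p q hp hq => simpa only [Polynomial.coe_add, map_add, add_mul] using hp.add hq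
  | monomial k c =>
    have e : up (Polynomial.monomial k c : ℚ[X]) = C (c : ℂ) * X ^ k := by
      rw [← Polynomial.C_mul_X_pow_eq_monomial]
      simp [up]
    rw [e, ← hasSum_nat_add_iff' k, sum_eq_zero fun i hi => by
      rw [mul_assoc, coeff_C_mul, coeff_X_pow_mul', if_neg (not_le.2 (mem_range.1 hi))]
      simp]
    have h2 := h.mul_left (c * z ^ k)
    simp only [mul_assoc, coeff_C_mul, coeff_X_pow_mul, Polynomial.aeval_monomial, sub_zero,
      eq_ratCast] at h2 ⊢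
    simpa only [pow_add, mul_assoc, mul_left_comm, mul_comm] using h2

lemma coeff_bound {y : ℚ⟦X⟧} {q : ℚ[X]} {n : ℕ} {H C : ℚ} (hC : 1 ≤ C) (hn : q.natDegree ≤ n)
    (hH : ∀ j, |q.coeff j| ≤ H) (hy : ∀ j, |coeff j y| ≤ C ^ (j + 1)) (j : ℕ) :
    |coeff j ((q : ℚ⟦X⟧) * y)| ≤ (n + 1) * H * C ^ (j + 1) := by
  have H0 : 0 ≤ H := (abs_nonneg _).trans (hH 0)
  rw [coeff_mul, Nat.sum_antidiagonal_eq_sum_range_succ_mk,
    ← sum_subset (s₁ := range (j + 1) ∩ range (n + 1)) inter_subset_left fun a h1 h2 => by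
      have : n < a := by
        by_contra h3
        exact h2 (mem_inter.2 ⟨h1, mem_range.2 (by omega)⟩)
      simp [Polynomial.coeff_eq_zero_of_natDegree_lt (hn.trans_lt this)]]
  refine (abs_sum_le_sum_abs _ _).trans ((sum_le_card_nsmul _ _ (H * C ^ (j + 1)) fun a _ => ?_).trans ?_)
  · rw [abs_mul, Polynomial.coeff_coe]
    exact mul_le_mul (hH a) ((hy _).trans (pow_le_pow_right₀ hC (by omega))) (abs_nonneg _) H0
  · rw [nsmul_eq_mul, mul_assoc]
    refine mul_le_mul_of_nonneg_right ?_ (by positivity)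
    have := card_le_card (inter_subset_right (s₁ := range (j + 1)) (s₂ := range (n + 1)))
    rw [card_range] at this
    exact_mod_cast this

lemma tail {f : ℕ → ℂ} {a : ℂ} {E : ℕ} {G r : ℝ} (h : HasSum f a) (h0 : ∀ j < E, f j = 0)
    (hG : 0 ≤ G) (hr : 0 ≤ r) (hr2 : r ≤ 1 / 2) (hb : ∀ j, E ≤ j → ‖f j‖ ≤ G * r ^ j) :
    ‖a‖ ≤ 2 * G * r ^ E := by
  rw [← hasSum_nat_add_iff' E, sum_eq_zero fun i hi => h0 i (mem_range.1 hi), sub_zero] at h
  have h2 := hasSum_geometric_two.mul_left (G * r ^ E)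
  refine (h.norm_le_of_bounded h2 fun j => (hb _ (by omega)).trans ?_).trans (le_of_eq (by ring))
  rw [pow_add, mul_comm (r ^ j), ← mul_assoc]
  exact mul_le_mul_of_nonneg_left (pow_le_pow_left₀ hr hr2 j) (by positivity)

end KEYx

open KEYx in
theorem s_KEY : S_KEY := by
  intro m y C hU q V n E H b γ hV hP hnE hH hb h0 h1
  obtain ⟨d, hd, hdC, hint⟩ := hU.1 n
  have hC : 1 ≤ C := by
    rcases C with _ | C
    · simp at hdC; omega
    · omega
  have hb0 : (0 : ℝ) < b := by exact_mod_cast (by omega : 0 < b)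
  have hC1 : (1 : ℝ) ≤ C := by exact_mod_cast hC
  have hr : (C : ℝ) / b ≤ 1 / 2 := by
    rw [div_le_div_iff₀ hb0 two_pos]
    exact_mod_cast (by omega : C * 2 ≤ 1 * b)
  have low : ∀ i j, j < E → (V i).coeff j = coeff j ((V 0 : ℚ⟦X⟧) * y i) := fun i j hj => by
    have := X_pow_dvd_iff.1 (hP i).2 j hj
    rw [map_sub, Polynomial.coeff_coe] at this
    linarith
  -- the lower bound
  have int1 : ∀ i j, j ≤ n → ∃ a : ℤ, (d : ℚ) * (V i).coeff j = a := fun i j hj => by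
    choose a ha using hint i
    refine ⟨∑ p ∈ (antidiagonal j).attach, q.coeff p.1.1 * a p.1.2
      (by have := mem_antidiagonal.1 p.2; omega), ?_⟩
    rw [low i j (by omega), coeff_mul, mul_sum, ← sum_attach, hV]
    push_cast
    refine sum_congr rfl fun p _ => ?_
    rw [← ha, Polynomial.coeff_map]
    simp only [eq_intCast]
    ring
  obtain ⟨η, hη⟩ : ∃ η, η = ∑ i, (γ i : ℚ) * (V i).eval (b : ℚ)⁻¹ := ⟨_, rfl⟩
  have hbq : (b : ℚ) ≠ 0 := by exact_mod_cast (by omega : b ≠ 0)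
  obtain ⟨w, hw⟩ : ∃ w : ℤ, (d : ℚ) * b ^ n * η = w := by
    choose a ha using int1
    refine ⟨∑ i, γ i * ∑ j ∈ (range (n + 1)).attach,
      a i j (Nat.lt_succ_iff.1 (mem_range.1 j.2)) * b ^ (n - j), ?_⟩
    rw [hη, mul_sum]
    push_cast
    refine sum_congr rfl fun i _ => ?_
    rw [Polynomial.eval_eq_sum_range' (Nat.lt_succ_of_le (hP i).1), ← sum_attach, mul_left_comm,
      mul_sum]
    refine congrArg _ (sum_congr rfl fun j _ => ?_)
    have hj := Nat.lt_succ_iff.1 (mem_range.1 j.2)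
    rw [← ha, pow_sub₀ _ hbq hj, inv_pow]
    ring
  have hw0 : w ≠ 0 := by
    rintro rfl
    rw [← hη] at h1
    exact mul_ne_zero (mul_ne_zero (Nat.cast_ne_zero.2 hd.ne') (pow_ne_zero _ hbq)) h1
      (by simpa using hw)
  have lower : (1 : ℝ) ≤ C ^ (n + 1) * b ^ n * ‖(η : ℂ)‖ := by
    have a1 : (1 : ℝ) ≤ |(w : ℝ)| := by exact_mod_cast Int.one_le_abs hw0
    have a2 : (d : ℝ) * b ^ n * η = w := by exact_mod_cast hw
    have a3 : (d : ℝ) ≤ C ^ (n + 1) := by exact_mod_cast hdC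
    rw [← a2, abs_mul, abs_of_nonneg (by positivity : (0 : ℝ) ≤ d * b ^ n)] at a1
    rw [Complex.norm_ratCast]
    exact a1.trans (by gcongr)
  -- the upper bound
  have hy : ∀ i, HasSum (fun j => coeff j (up (y i)) * (b : ℂ)⁻¹ ^ j) (ev (up (y i)) (b : ℂ)⁻¹) :=
    fun i => by
    refine (Summable.of_norm_bounded (summable_geometric_two.mul_left (C : ℝ)) fun j => ?_).hasSum
    have a1 : |((coeff j (y i) : ℚ) : ℝ)| ≤ C ^ (j + 1) := by exact_mod_cast hU.2 i j
    simp only [up, coeff_map, eq_ratCast, norm_mul, norm_pow, norm_inv, Complex.norm_ratCast,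
      Complex.norm_natCast]
    calc |((coeff j (y i) : ℚ) : ℝ)| * (b : ℝ)⁻¹ ^ j ≤ C ^ (j + 1) * (b : ℝ)⁻¹ ^ j := by gcongr
      _ = C * (C / b) ^ j := by rw [div_eq_mul_inv, mul_pow]; ring
      _ ≤ _ := by gcongr
  have h1' : HasSum (fun j => coeff j (1 : ℂ⟦X⟧) * (b : ℂ)⁻¹ ^ j) 1 := by
    simpa using hasSum_single (f := fun j => coeff j (1 : ℂ⟦X⟧) * (b : ℂ)⁻¹ ^ j) 0 fun j hj => by
      simp [coeff_one, hj]
  have rem : ∀ i, ‖Polynomial.aeval (b : ℂ)⁻¹ (V 0) * ev (up (y i)) (b : ℂ)⁻¹ -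
      Polynomial.aeval (b : ℂ)⁻¹ (V i) * 1‖ ≤ 2 * ((n + 1) * H * C) * (C / b) ^ E := fun i => by
    refine tail ((hasSum_mul (hy i) (V 0)).sub (hasSum_mul h1' (V i))) (fun j hj => ?_)
      (by positivity) (by positivity) hr fun j hj => ?_
    · rw [← map_mul up, mul_one, up, coeff_map, coeff_map, ← low i j hj, Polynomial.coeff_coe,
        sub_self]
    · have a1 := coeff_bound (y := y i) (q := V 0) (n := n) (H := H) (C := C)
        (by exact_mod_cast hC) (hP 0).1 (fun j => by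
          rw [hV, Polynomial.coeff_map, eq_intCast]
          exact_mod_cast hH j) (hU.2 i) j
      have a2 : |((coeff j ((V 0 : ℚ⟦X⟧) * y i) : ℚ) : ℝ)| ≤ (n + 1) * H * C ^ (j + 1) := by
        exact_mod_cast a1
      rw [← map_mul up, mul_one, up, coeff_map, coeff_map, Polynomial.coeff_coe,
        Polynomial.coeff_eq_zero_of_natDegree_lt ((hP i).1.trans_lt (by omega))]
      simp only [eq_ratCast, norm_mul, norm_pow, norm_inv, Complex.norm_ratCast,
        Complex.norm_natCast, Rat.cast_zero, zero_mul, sub_zero]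
      calc _ ≤ (n + 1) * H * C ^ (j + 1) * (b : ℝ)⁻¹ ^ j := by gcongr
        _ = _ := by rw [div_eq_mul_inv, mul_pow]; ring
  have e1 : (η : ℂ) = -∑ i, (γ i : ℂ) * (Polynomial.aeval (b : ℂ)⁻¹ (V 0) *
      ev (up (y i)) (b : ℂ)⁻¹ - Polynomial.aeval (b : ℂ)⁻¹ (V i) * 1) := by
    have a1 : ∀ p : ℚ[X], Polynomial.aeval (b : ℂ)⁻¹ p = ((p.eval (b : ℚ)⁻¹ : ℚ) : ℂ) := fun p => by
      simpa using Polynomial.aeval_algebraMap_apply_eq_algebraMap_eval (A := ℂ) (b : ℚ)⁻¹ p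
    simp only [mul_sub, sum_sub_distrib, mul_left_comm _ (Polynomial.aeval (b : ℂ)⁻¹ (V 0))]
    rw [← mul_sum, h0, hη]
    simp [a1]
  have upper : ‖(η : ℂ)‖ ≤ (∑ i, |(γ i : ℝ)|) * (2 * ((n + 1) * H * C) * (C / b) ^ E) := by
    rw [e1, norm_neg, sum_mul]
    refine norm_sum_le_of_le _ fun i _ => ?_
    rw [norm_mul, Complex.norm_intCast]
    exact mul_le_mul_of_nonneg_left (rem i) (abs_nonneg _)
  obtain ⟨k, rfl⟩ := Nat.exists_eq_add_of_le hnE.le
  rw [Nat.add_sub_cancel_left]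
  calc (b : ℝ) ^ k = b ^ k * 1 := (mul_one _).symm
    _ ≤ b ^ k * (C ^ (n + 1) * b ^ n * ((∑ i, |(γ i : ℝ)|) *
        (2 * ((n + 1) * H * C) * (C / b) ^ (n + k)))) := by
      gcongr
      exact lower.trans (by gcongr)
    _ = _ := by
      rw [div_pow]
      field_simp
      ring

end Pool.Agent.P.MP_e5b57f_nt.GD
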