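import Pool.Agent.P.MP_e5b57f_nt.GD.Iface

/-! The inhomogeneous differential equation of the incomplete integral. -/

namespace Pool.Agent.P.MP_e5b57f_nt.GD

open PowerSeries Filter Topology Finset
open scoped Polynomial

namespace PF2x

theorem dT_eq (q : ℚ[X]⟦X⟧) : dT q = d⁄dX ℚ[X] q := by
  ext1 n
  rw [coeff_derivative, dT, coeff_mk]

theorem dT_add (p q : ℚ[X]⟦X⟧) : dT (p + q) = dT p + dT q := by simp only [dT_eq, map_add]

theorem dT_sub (p q : ℚ[X]⟦X⟧) : dT (p - q) = dT p - dT q := by simp only [dT_eq, map_sub]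

theorem dT_neg (p : ℚ[X]⟦X⟧) : dT (-p) = -dT p := by simp only [dT_eq, map_neg]

theorem dT_mul (p q : ℚ[X]⟦X⟧) : dT (p * q) = p * dT q + q * dT p := by
  simp only [dT_eq, Derivation.leibniz, smul_eq_mul]

theorem dT_one : dT 1 = 0 := by
  have h := dT_mul 1 1
  rw [mul_one, one_mul] at h
  linear_combination -h

theorem dT_X : dT X = 1 := by rw [dT_eq, derivative_X]

theorem dT_Lam : dT Lam = 0 := by rw [dT_eq, Lam, derivative_C]

theorem dT_two : dT 2 = 0 := by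
  rw [← one_add_one_eq_two, dT_add, dT_one, add_zero]

theorem dT_four : dT 4 = 0 := by
  rw [show (4 : ℚ[X]⟦X⟧) = 2 + 2 by norm_num, dT_add, dT_two, add_zero]

theorem dL_add (p q : ℚ[X]⟦X⟧) : dL (p + q) = dL p + dL q := by
  ext1 n; simp only [dL, coeff_mk, map_add]

theorem dL_sub (p q : ℚ[X]⟦X⟧) : dL (p - q) = dL p - dL q := by
  ext1 n; simp only [dL, coeff_mk, map_sub]

theorem dL_mul (p q : ℚ[X]⟦X⟧) : dL (p * q) = p * dL q + q * dL p := by
  ext1 n
  rw [mul_comm q]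
  simp only [dL, coeff_mk, map_add, coeff_mul, Polynomial.derivative_sum,
    Polynomial.derivative_mul, sum_add_distrib]
  exact add_comm _ _

theorem dL_one : dL 1 = 0 := by
  ext1 n
  simp only [dL, coeff_mk, coeff_one, map_zero]
  split_ifs <;> simp

theorem dL_X : dL X = 0 := by
  ext1 n
  simp only [dL, coeff_mk, coeff_X, map_zero]
  split_ifs <;> simp

theorem dL_Lam : dL Lam = 1 := by
  ext1 n
  simp only [dL, Lam, coeff_mk, coeff_C, coeff_one]
  split_ifs <;> simp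

theorem dL_two : dL 2 = 0 := by
  rw [← one_add_one_eq_two, dL_add, dL_one, add_zero]

theorem dL_dT (q : ℚ[X]⟦X⟧) : dL (dT q) = dT (dL q) := by
  ext1 n
  simp [dL, dT, coeff_mk, Polynomial.derivative_mul]

theorem coeff_E (q : ℚ[X]⟦X⟧) (n : ℕ) :
    coeff n (q + 2 * X * dT q) = (2 * (n : ℚ[X]) + 1) * coeff n q := by
  have h : q + 2 * X * dT q = q + X * dT q + X * dT q := by ring
  rw [h, map_add, map_add]
  rcases n with _ | n
  · simp
  · rw [coeff_succ_X_mul, dT, coeff_mk]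
    push_cast
    ring

theorem odd_eq (n : ℕ) : (2 * (n : ℚ[X]) + 1) = Polynomial.C (2 * (n : ℚ) + 1) := by
  rw [map_add, map_mul, map_natCast, map_one]; rfl

theorem E_inj (q : ℚ[X]⟦X⟧) (h : q + 2 * X * dT q = 0) : q = 0 := by
  ext1 n
  have h1 := coeff_E q n
  rw [h, map_zero, odd_eq] at h1
  have h2 : Polynomial.C (2 * (n : ℚ) + 1) ≠ 0 := Polynomial.C_ne_zero.2 (by positivity)
  rw [map_zero]
  exact (mul_eq_zero.1 h1.symm).resolve_left h2

theorem E_dL (p q : ℚ[X]⟦X⟧) (h : p + 2 * X * dT p = q) : dL p + 2 * X * dT (dL p) = dL q := by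
  rw [← h, dL_add, dL_mul, dL_mul, dL_X, dL_two, dL_dT]
  ring

end PF2x

open PF2x in
theorem s_PF2 (hPF1 : S_PF1) : S_PF2 := by
  obtain ⟨ha, hb, -, -⟩ := hPF1
  have h1 : Uq + 2 * X * dT Uq = Yq := by
    ext1 n
    rw [coeff_E, odd_eq, Uq, Yq, coeff_mk, coeff_mk, ← mul_assoc, ← map_mul,
      mul_one_div_cancel (by positivity), map_one, one_mul]
  have h2 := E_dL _ _ h1
  have h3 := E_dL _ _ h2
  refine ⟨h1, h2, ?_⟩
  have hc := congrArg dL hb
  simp only [dL_mul, dL_sub, dL_X, dL_Lam, dL_one, dL_two] at hc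
  have hY : Yq ≠ 0 := by
    intro h
    rw [h] at ha
    simp at ha
  have hd0 := congrArg dT ha
  simp only [pow_two, dT_mul, dT_sub, dT_X, dT_Lam, dT_one] at hd0
  have hd : 2 * (1 - X) * (1 - Lam * X) * dT Yq = Yq * (1 + Lam - 2 * Lam * X) := by
    apply mul_left_cancel₀ hY
    linear_combination hd0
  obtain ⟨I, hI⟩ : ∃ I : ℚ[X]⟦X⟧, (1 - Lam * X) * I = 1 :=
    ⟨Yq ^ 2 * (1 - X), by linear_combination ha⟩
  have hP : (1 - Lam * X : ℚ[X]⟦X⟧) ≠ 0 := left_ne_zero_of_mul_eq_one hI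
  have hIT := congrArg dT hI
  simp only [dT_mul, dT_sub, dT_X, dT_Lam, dT_one] at hIT
  have key : 4 * Lam * (1 - Lam) * dL (dL Uq) + 4 * (1 - 2 * Lam) * dL Uq - Uq +
      (1 - X) * Yq * I = 0 := by
    apply E_inj
    simp only [dT_add, dT_mul, dT_sub, dT_X, dT_Lam, dT_one, dT_two, dT_four]
    apply mul_left_cancel₀ (mul_ne_zero hP hP)
    linear_combination
      (1 - Lam * X) * (1 - Lam * X) * (4 * Lam * (1 - Lam) * h3 + 4 * (1 - 2 * Lam) * h2 - h1) +
      Lam * (1 - Lam) * (2 * (1 - Lam * X) * hc + 3 * X * hb) +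
      2 * (1 - Lam * X) * (1 - 2 * Lam) * hb +
      ((1 - X) * Yq * (1 - Lam * X) - 2 * X * Yq * (1 - Lam * X) +
        2 * X * (1 - X) * dT Yq * (1 - Lam * X) + 2 * X * (1 - X) * Yq * Lam) * hI +
      2 * X * (1 - X) * Yq * (1 - Lam * X) * hIT + X * hd
  linear_combination (1 - Lam * X) * key - (1 - X) * Yq * hI

end Pool.Agent.P.MP_e5b57f_nt.GD
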