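import Pool.Agent.P.MP_e5b57f_nt.GD.Iface

/-! Change of the parameter `z` to `z / (1 - k z)`. -/

namespace Pool.Agent.P.MP_e5b57f_nt.GD

open PowerSeries Filter Topology Finset
open scoped Polynomial

namespace SHIFTx

theorem real_facts {ρ x : ℝ} (k : ℕ) (hρ : 0 < ρ) (hx : x ∈ Set.Icc 0 (ρ / (1 + k * ρ))) :
    0 < 1 - k * x ∧ x / (1 - k * x) ∈ Set.Icc 0 ρ ∧
      (x < ρ / (1 + k * ρ) → x / (1 - k * x) < ρ) ∧ (x = ρ / (1 + k * ρ) → x / (1 - k * x) = ρ) := by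
  have hk : (0 : ℝ) ≤ k := Nat.cast_nonneg k
  have h1 : 0 < 1 + k * ρ := by positivity
  have h2 : x * (1 + k * ρ) ≤ ρ := (le_div_iff₀ h1).1 hx.2
  have h3 : 0 < 1 - k * x := by
    have h4 : k * (x * (1 + k * ρ)) ≤ k * ρ := mul_le_mul_of_nonneg_left h2 hk
    by_contra h
    have h5 : (1 - k * x) * (1 + k * ρ) ≤ 0 := mul_nonpos_of_nonpos_of_nonneg (not_lt.1 h) h1.le
    nlinarith
  refine ⟨h3, ⟨div_nonneg hx.1 h3.le, ?_⟩, fun h => ?_, fun h => ?_⟩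
  · rw [div_le_iff₀ h3]; linarith
  · rw [div_lt_iff₀ h3]
    have := (lt_div_iff₀ h1).1 h
    linarith
  · rw [div_eq_iff h3.ne']
    have := (eq_div_iff h1.ne').1 h
    linarith

theorem an_den (k : ℕ) (z : ℂ) : AnalyticAt ℂ (fun z : ℂ => 1 - k * z) z := by fun_prop

theorem an_w (k : ℕ) {z : ℂ} (h : 1 - k * z ≠ 0) :
    AnalyticAt ℂ (fun z : ℂ => z / (1 - k * z)) z :=
  analyticAt_id.fun_div (an_den k z) h

theorem tay_den (k : ℕ) : tay (fun z : ℂ => 1 - k * z) = 1 - C ((k : ℚ) : ℂ) * X := by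
  have h : AnalyticAt ℂ (fun z : ℂ => z) 0 := analyticAt_id
  rw [tay_sub analyticAt_const (analyticAt_const.fun_mul h), tay_mul analyticAt_const h, tay_one,
    tay_const, tay_id, Rat.cast_natCast]

theorem ev_ne (k : ℕ) : ∀ᶠ z : ℂ in 𝓝 0, 1 - (k : ℂ) * z ≠ 0 :=
  (an_den k 0).continuousAt.eventually_ne (by simp)

end SHIFTx

open SHIFTx in
theorem s_SHIFT (hGB : S_GB) : S_SHIFT := by
  intro g M i θ ρ hB k
  obtain ⟨gadd, gmul, gneg, gC, gX, ginv, -, -⟩ := hGB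
  have hcast : ∀ x : ℝ, (x : ℂ) / (1 - k * (x : ℂ)) = ((x / (1 - k * x) : ℝ) : ℂ) := by
    intro x; push_cast; rfl
  have h0 : (1 : ℂ) - k * 0 ≠ 0 := by simp
  have hid : AnalyticAt ℂ (fun z : ℂ => z) 0 := analyticAt_id
  have hinv : AnalyticAt ℂ (fun z : ℂ => (1 - k * z)⁻¹) 0 := (an_den k 0).fun_inv h0
  have hT : (1 - C ((k : ℚ) : ℂ) * X) * tay (fun z : ℂ => (1 - k * z)⁻¹) = 1 := by
    rw [← tay_den, ← tay_mul (an_den k 0) hinv, ← tay_one]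
    exact tay_congr ((ev_ne k).mono fun z hz => mul_inv_cancel₀ hz)
  have hw : tay (fun z : ℂ => z / (1 - k * z)) = X * tay (fun z : ℂ => (1 - k * z)⁻¹) := by
    rw [← tay_id, ← tay_mul hid hinv]
    simp only [div_eq_mul_inv]
  have hρ := hB.pos
  refine ⟨hB.gpos, by positivity, fun x hx => ?_, by simp, ?_, by simpa using hB.th0, hB.lt, ?_,
    fun x hx => ?_, ?_, ?_⟩
  · obtain ⟨h1, h2, -, -⟩ := real_facts k hρ hx
    have h3 : (1 : ℂ) - k * (x : ℂ) ≠ 0 := by exact_mod_cast h1.ne'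
    exact ⟨(hB.an _ h2).1.comp_of_eq (an_w k h3) (hcast x), an_w k h3⟩
  · rw [← coeff_one_tay, hw, coeff_succ_X_mul, coeff_zero_tay]
    simp
  · have ht : Tendsto (fun z : ℂ => z / (1 - k * z)) (𝓝 0) (𝓝 0) := by
      simpa using (an_w k h0).continuousAt.tendsto
    exact ht.eventually hB.eqn
  · obtain ⟨-, h2, h3, h4⟩ := real_facts k hρ hx
    obtain ⟨t, u, e1, e2, e3, e4, e5, e6, e7⟩ := hB.real _ h2
    exact ⟨t, u, by rw [hcast, e1], by rw [hcast, e2], e3, e4, e5, fun h => e6 (h3 h),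
      fun h => e7 (h4 h)⟩
  · rw [hw]
    refine gmul _ _ gX (ginv _ _ ?_ hT)
    have h1 : GB 1 := by simpa using gC 1
    rw [sub_eq_add_neg]
    exact gadd _ _ h1 (gneg _ (gmul _ _ (gC k) gX))
  · have e1 : algebraMap ℚ[X] ℂ⟦X⟧ (1 - (k : ℚ[X]) * Polynomial.X) =
        1 - C ((k : ℚ) : ℂ) * X := by
      rw [← aeval_X_eq]; simp
    have e2 : algebraMap ℚ[X] ℂ⟦X⟧ Polynomial.X = X := by
      rw [← aeval_X_eq]; simp
    refine IsAlgebraic.of_mul (y := 1 - C ((k : ℚ) : ℂ) * X)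
      (mem_nonZeroDivisors_of_ne_zero (left_ne_zero_of_mul_eq_one hT)) ?_ ?_
    · rw [← e1]; exact isAlgebraic_algebraMap _
    · rw [hw, mul_left_comm, hT, mul_one, ← e2]; exact isAlgebraic_algebraMap _

end Pool.Agent.P.MP_e5b57f_nt.GD
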