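import Pool.Agent.P.MP_e5b57f_nt.GD.Iface

/-! The Wronskian of linearly independent power series does not vanish. -/

namespace Pool.Agent.P.MP_e5b57f_nt.GD

open PowerSeries Filter Topology Finset
open scoped Polynomial

namespace WRx

theorem fac (u : ℚ⟦X⟧) (hu : u ≠ 0) : ∃ (o : ℕ) (U : ℚ⟦X⟧), u = X ^ o * U ∧ constantCoeff U ≠ 0 :=
  ⟨u.order.toNat, divXPowOrder u, X_pow_order_mul_divXPowOrder.symm, by
    rw [constantCoeff_divXPowOrder]; exact coeff_order hu⟩

theorem xd (o : ℕ) (U : ℚ⟦X⟧) :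
    X * d⁄dX ℚ (X ^ o * U) = X ^ o * ((o : ℚ⟦X⟧) * U + X * d⁄dX ℚ U) := by
  rw [Derivation.leibniz, Derivation.leibniz_pow, derivative_X]
  cases o with
  | zero => simp
  | succ o =>
    simp only [smul_eq_mul, nsmul_eq_mul, Nat.add_sub_cancel]
    ring

theorem const (u v : ℚ⟦X⟧) (hu : u ≠ 0) (h : u * d⁄dX ℚ v = d⁄dX ℚ u * v) :
    ∃ a : ℚ, v = a • u := by
  obtain ⟨o, U, rfl, hU⟩ := fac u hu
  refine ⟨coeff o v / constantCoeff U, ?_⟩
  by_contra hne
  set a := coeff o v / constantCoeff U with ha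
  obtain ⟨m, W, hw, hW⟩ := fac (v - a • (X ^ o * U)) (sub_ne_zero.2 hne)
  have h1 : X ^ o * U * d⁄dX ℚ (v - a • (X ^ o * U)) =
      d⁄dX ℚ (X ^ o * U) * (v - a • (X ^ o * U)) := by
    rw [map_sub, Derivation.map_smul, mul_sub, mul_sub, h, mul_smul_comm, mul_smul_comm, mul_comm
      (X ^ o * U)]
  have h2 : coeff o (v - a • (X ^ o * U)) = 0 := by
    have h3 := coeff_X_pow_mul U o 0
    rw [zero_add] at h3
    rw [map_sub, map_smul, h3, coeff_zero_eq_constantCoeff_apply, ha, smul_eq_mul,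
      div_mul_cancel₀ _ hU, sub_self]
  rw [hw] at h1 h2
  have h4 : (X : ℚ⟦X⟧) ^ (o + m) * (U * ((m : ℚ⟦X⟧) * W + X * d⁄dX ℚ W) -
      ((o : ℚ⟦X⟧) * U + X * d⁄dX ℚ U) * W) = 0 := by
    have h5 := xd o U
    have h6 := xd m W
    linear_combination X * h1 - X ^ o * U * h6 + X ^ m * W * h5
  have h5 := (mul_eq_zero.1 h4).resolve_left (pow_ne_zero _ X_ne_zero)
  have h6 := congrArg constantCoeff h5
  simp only [map_sub, map_mul, map_add, map_natCast, constantCoeff_X, zero_mul, add_zero,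
    map_zero] at h6
  have h7 : ((m : ℚ) - o) * (constantCoeff U * constantCoeff W) = 0 := by linear_combination h6
  have h8 : m = o := by
    have := (mul_eq_zero.1 h7).resolve_right (mul_ne_zero hU hW)
    exact_mod_cast sub_eq_zero.1 this
  subst h8
  have h3 := coeff_X_pow_mul W m 0
  rw [zero_add] at h3
  rw [h3, coeff_zero_eq_constantCoeff_apply] at h2
  exact hW h2

theorem key (n : ℕ) : ∀ g : Fin n → ℚ⟦X⟧, LinearIndependent ℚ g → ∀ c : Fin n → ℚ⟦X⟧,
    (∀ k, k < n → ∑ l, (fun f : ℚ⟦X⟧ => d⁄dX ℚ f)^[k] (g l) * c l = 0) → c = 0 := by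
  induction n with
  | zero => intro g _ c _; exact Subsingleton.elim _ _
  | succ n ih =>
    intro g hg c hc
    have hg' : LinearIndependent ℚ fun l : Fin n => g l.succ := hg.comp _ (Fin.succ_injective n)
    have h0 : ∀ e : Fin (n + 1) → ℚ⟦X⟧, e 0 = 0 →
        (∀ k, k < n → ∑ l, (fun f : ℚ⟦X⟧ => d⁄dX ℚ f)^[k] (g l) * e l = 0) → e = 0 := by
      intro e he h
      have h1 := ih _ hg' (fun l => e l.succ) fun k hk => by
        have := h k hk
        rwa [Fin.sum_univ_succ, he, mul_zero, zero_add] at this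
      funext l
      exact Fin.cases he (fun l => congrFun h1 l) l
    by_cases hc0 : c 0 = 0
    · exact h0 c hc0 fun k hk => hc k (by omega)
    exfalso
    have h1 := h0 (fun l => c 0 * d⁄dX ℚ (c l) - d⁄dX ℚ (c 0) * c l) (by ring) fun k hk => by
      have h2 := congrArg (d⁄dX ℚ) (hc k (by omega))
      have h3 := hc (k + 1) (by omega)
      have h4 := hc k (by omega)
      simp only [map_sum, Derivation.leibniz, smul_eq_mul, map_zero, sum_add_distrib] at h2
      simp only [Function.iterate_succ_apply'] at h3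
      have h5 : ∑ l, (fun f : ℚ⟦X⟧ => d⁄dX ℚ f)^[k] (g l) * d⁄dX ℚ (c l) = 0 := by
        rw [← h2, left_eq_add, ← h3]
        exact sum_congr rfl fun l _ => mul_comm _ _
      calc ∑ l, (fun f : ℚ⟦X⟧ => d⁄dX ℚ f)^[k] (g l) *
            (c 0 * d⁄dX ℚ (c l) - d⁄dX ℚ (c 0) * c l)
          = c 0 * ∑ l, (fun f : ℚ⟦X⟧ => d⁄dX ℚ f)^[k] (g l) * d⁄dX ℚ (c l) -
            d⁄dX ℚ (c 0) * ∑ l, (fun f : ℚ⟦X⟧ => d⁄dX ℚ f)^[k] (g l) * c l := by
            rw [mul_sum, mul_sum, ← sum_sub_distrib]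
            exact sum_congr rfl fun l _ => by ring
        _ = 0 := by rw [h5, h4]; ring
    have h2 : ∀ l, ∃ a : ℚ, c l = a • c 0 := fun l =>
      const _ _ hc0 (sub_eq_zero.1 (congrFun h1 l))
    choose a ha using h2
    have h3 := hc 0 (by omega)
    have h4 : (∑ l, a l • g l) * c 0 = 0 := by
      rw [← h3, sum_mul]
      exact sum_congr rfl fun l _ => by
        rw [ha l, Function.iterate_zero, id, smul_mul_assoc, mul_smul_comm]
    have h5 := Fintype.linearIndependent_iff.1 hg a ((mul_eq_zero.1 h4).resolve_right hc0) 0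
    have h6 := ha 0
    rw [h5, zero_smul] at h6
    exact hc0 h6

end WRx

theorem s_WR : S_WR := by
  intro n g hg hdet
  obtain ⟨c, hc, h⟩ := Matrix.exists_mulVec_eq_zero_iff.2 hdet
  exact hc (WRx.key n g hg c fun k hk => congrFun h ⟨k, hk⟩)

end Pool.Agent.P.MP_e5b57f_nt.GD
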